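import Pool.Agent.TH854.BV.Inf

/-!
Consequences of the variance law for the unordered representation function of order `h`.
-/

set_option autoImplicit false

open Finset Filter Topology

namespace Pool.Agent.K9h24.Four

open Pool.Agent.H396R2 Pool.Agent.TH854.BV

/-- the Abel mean of a bounded sequence -/
noncomputable def Ab (w : ℕ → ℝ) (q : ℝ) : ℝ := (1 - q) * ∑' n : ℕ, q ^ n * w n

lemma summable_bdd {w : ℕ → ℝ} {W : ℝ} (hw : ∀ n, |w n| ≤ W) {q : ℝ} (hq0 : 0 ≤ q) (hq1 : q < 1) :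
    Summable (fun n : ℕ => q ^ n * w n) := by
  apply Summable.of_norm_bounded (g := fun n => q ^ n * W)
  · exact (summable_geometric_of_lt_one hq0 hq1).mul_right _
  · intro n
    rw [norm_mul, Real.norm_of_nonneg (by positivity), Real.norm_eq_abs]
    exact mul_le_mul_of_nonneg_left (hw n) (by positivity)

lemma Ab_mono {v w : ℕ → ℝ} {V W : ℝ} (hv : ∀ n, |v n| ≤ V) (hw : ∀ n, |w n| ≤ W)
    (h : ∀ n, v n ≤ w n) {q : ℝ} (hq0 : 0 ≤ q) (hq1 : q < 1) : Ab v q ≤ Ab w q := by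
  unfold Ab
  apply mul_le_mul_of_nonneg_left _ (by linarith)
  apply (summable_bdd hv hq0 hq1).tsum_le_tsum _ (summable_bdd hw hq0 hq1)
  intro n
  exact mul_le_mul_of_nonneg_left (h n) (by positivity)

lemma Ab_add {v w : ℕ → ℝ} {V W : ℝ} (hv : ∀ n, |v n| ≤ V) (hw : ∀ n, |w n| ≤ W)
    {q : ℝ} (hq0 : 0 ≤ q) (hq1 : q < 1) : Ab (fun n => v n + w n) q = Ab v q + Ab w q := by
  unfold Ab
  rw [← mul_add, ← (summable_bdd hv hq0 hq1).tsum_add (summable_bdd hw hq0 hq1)]
  congr 2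
  ext n
  ring

lemma Ab_smul (c : ℝ) (w : ℕ → ℝ) (q : ℝ) : Ab (fun n => c * w n) q = c * Ab w q := by
  unfold Ab
  have : (fun n : ℕ => q ^ n * (c * w n)) = fun n => c * (q ^ n * w n) := by
    ext n; ring
  rw [this, tsum_mul_left]
  ring

lemma Ab_const (c : ℝ) {q : ℝ} (hq0 : 0 ≤ q) (hq1 : q < 1) : Ab (fun _ => c) q = c := by
  unfold Ab
  rw [tsum_mul_right, tsum_geometric_of_lt_one hq0 hq1, ← mul_assoc, mul_inv_cancel₀ (by linarith),
    one_mul]

/-- finitely many terms are negligible -/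
lemma Ab_fin (C : ℝ) (n₀ : ℕ) {ε : ℝ} (hε : 0 < ε) :
    ∀ᶠ q : ℝ in 𝓝[<] 1, Ab (fun n => if n < n₀ then C else 0) q ≤ ε := by
  have t : Tendsto (fun q : ℝ => (1 - q) * ∑ n ∈ range n₀, q ^ n * C) (𝓝[<] 1) (𝓝 0) := by
    have h1 : Continuous (fun q : ℝ => (1 - q) * ∑ n ∈ range n₀, q ^ n * C) := by fun_prop
    have h2 := h1.tendsto (1 : ℝ)
    simp only [sub_self, zero_mul] at h2
    exact h2.mono_left nhdsWithin_le_nhds
  filter_upwards [t.eventually (gt_mem_nhds hε)] with q hq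
  unfold Ab
  have h3 : ∑' n : ℕ, q ^ n * (if n < n₀ then C else 0) = ∑ n ∈ range n₀, q ^ n * C := by
    rw [tsum_eq_sum (s := range n₀)]
    · apply Finset.sum_congr rfl
      intro n hn
      rw [if_pos (Finset.mem_range.1 hn)]
    · intro n hn
      rw [Finset.mem_range] at hn
      rw [if_neg hn, mul_zero]
  rw [h3]
  exact hq.le

/-- the quadratic inequality behind everything -/
theorem main_ineq (A : Set ℕ) (hA : A.Infinite) (k m : ℕ) (hmk : m ≤ k) (hm : 1 ≤ m) (K0 : ℕ)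
    (hK : ∀ n, rep A (k + m) n ≤ K0) (α β : ℝ) (w : ℕ → ℝ) (W : ℝ) (hw : ∀ n, |w n| ≤ W) (n₀ : ℕ)
    (h : ∀ n, n₀ ≤ n → (rep A (k + m) n : ℝ) ^ 2 ≤ α * rep A (k + m) n - β + w n)
    (ε : ℝ) (hε : 0 < ε) :
    ∀ᶠ q : ℝ in 𝓝[<] 1, β - (α - (1 - 1 / ((k + m).choose m : ℝ))) ^ 2 / 4 - ε ≤ Ab w q := by
  have hW : 0 ≤ W := (abs_nonneg _).trans (hw 0)
  obtain ⟨C, hC⟩ : ∃ C : ℝ, C = (K0 : ℝ) ^ 2 + |α| * K0 + |β| + W := ⟨_, rfl⟩
  have hC0 : 0 ≤ C := by rw [hC]; positivity
  have hall : ∀ n, (rep A (k + m) n : ℝ) ^ 2 + β ≤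
      α * rep A (k + m) n + (w n + if n < n₀ then C else 0) := by
    intro n
    by_cases hn : n < n₀
    · rw [if_pos hn, hC]
      have h1 : (rep A (k + m) n : ℝ) ≤ K0 := by exact_mod_cast hK n
      have h2 : (0 : ℝ) ≤ rep A (k + m) n := Nat.cast_nonneg _
      have h3 : (rep A (k + m) n : ℝ) ^ 2 ≤ (K0 : ℝ) ^ 2 := pow_le_pow_left₀ h2 h1 2
      have h4 : -(|α| * K0) ≤ α * rep A (k + m) n := by
        have h5 : |α * rep A (k + m) n| ≤ |α| * K0 := by
          rw [abs_mul, abs_of_nonneg h2]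
          exact mul_le_mul_of_nonneg_left h1 (abs_nonneg _)
        exact (abs_le.1 h5).1
      have h6 := (abs_le.1 (hw n)).1
      have h7 := le_abs_self β
      linarith
    · rw [if_neg hn]
      have := h n (by omega)
      linarith
  filter_upwards [law A hA k m hmk hm K0 hK (ε / 2) (by positivity),
    Ab_fin C n₀ (ε := ε / 2) (by positivity), eventually_Ioo] with q h1 h2 hq01
  obtain ⟨hq0, hq1⟩ := hq01
  have hR : ∀ n, |(rep A (k + m) n : ℝ)| ≤ K0 := by
    intro n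
    rw [abs_of_nonneg (Nat.cast_nonneg _)]
    exact_mod_cast hK n
  have hR2 : ∀ n, |(rep A (k + m) n : ℝ) ^ 2| ≤ (K0 : ℝ) ^ 2 := by
    intro n
    rw [abs_of_nonneg (by positivity)]
    exact pow_le_pow_left₀ (Nat.cast_nonneg _) (by exact_mod_cast hK n) 2
  have hfin : ∀ n : ℕ, |(if n < n₀ then C else 0 : ℝ)| ≤ C := by
    intro n
    split_ifs
    · rw [abs_of_nonneg hC0]
    · simpa using hC0
  have hb : ∀ _n : ℕ, |β| ≤ |β| := fun _ => le_rfl
  have hαR : ∀ n, |α * (rep A (k + m) n : ℝ)| ≤ |α| * K0 := by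
    intro n
    rw [abs_mul]
    exact mul_le_mul_of_nonneg_left (hR n) (abs_nonneg _)
  have hwf : ∀ n : ℕ, |w n + (if n < n₀ then C else 0 : ℝ)| ≤ W + C := fun n =>
    (abs_add_le _ _).trans (add_le_add (hw n) (hfin n))
  have e1 : Ab (fun n => (rep A (k + m) n : ℝ) ^ 2 + β) q = M2 A (k + m) q + β := by
    rw [Ab_add hR2 hb hq0.le hq1, Ab_const β hq0.le hq1]
    rfl
  have e2 : Ab (fun n => α * rep A (k + m) n + (w n + if n < n₀ then C else 0)) q =
      α * M1 A (k + m) q + (Ab w q + Ab (fun n => if n < n₀ then C else 0) q) := by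
    rw [Ab_add hαR hwf hq0.le hq1, Ab_add hw hfin hq0.le hq1, Ab_smul]
    rfl
  have hLHS : ∀ n, |(rep A (k + m) n : ℝ) ^ 2 + β| ≤ (K0 : ℝ) ^ 2 + |β| := fun n =>
    (abs_add_le _ _).trans (add_le_add (hR2 n) le_rfl)
  have hRHS : ∀ n : ℕ, |α * (rep A (k + m) n : ℝ) + (w n + if n < n₀ then C else 0)| ≤
      |α| * K0 + (W + C) := fun n => (abs_add_le _ _).trans (add_le_add (hαR n) (hwf n))
  have e3 := Ab_mono hLHS hRHS hall hq0.le hq1
  rw [e1, e2] at e3
  set lam := M1 A (k + m) q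
  set c : ℝ := 1 - 1 / ((k + m).choose m : ℝ) with hc
  nlinarith [sq_nonneg (lam - (α - c) / 2)]

/-- the variance constant -/
noncomputable def cst (h : ℕ) : ℝ := 1 - 1 / (h.choose (h / 2) : ℝ)

lemma cst_lt_one (h : ℕ) : cst h < 1 := by
  unfold cst
  have : 0 < h.choose (h / 2) := Nat.choose_pos (Nat.div_le_self h 2)
  have : (0 : ℝ) < 1 / (h.choose (h / 2) : ℝ) := by positivity
  linarith

lemma cst_ge_two (h : ℕ) (hh : 2 ≤ h) : 1 / 2 ≤ cst h := by
  unfold cst
  have h1 : 2 ≤ h.choose (h / 2) := by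
    have := Nat.choose_le_middle 1 h
    rw [Nat.choose_one_right] at this
    omega
  have h2 : (2 : ℝ) ≤ (h.choose (h / 2) : ℝ) := by exact_mod_cast h1
  have h3 : 1 / (h.choose (h / 2) : ℝ) ≤ 1 / 2 := one_div_le_one_div_of_le (by norm_num) h2
  linarith

lemma cst_ge_three (h : ℕ) (hh : 3 ≤ h) : 2 / 3 ≤ cst h := by
  unfold cst
  have h1 : 3 ≤ h.choose (h / 2) := by
    have := Nat.choose_le_middle 1 h
    rw [Nat.choose_one_right] at this
    omega
  have h2 : (3 : ℝ) ≤ (h.choose (h / 2) : ℝ) := by exact_mod_cast h1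
  have h3 : 1 / (h.choose (h / 2) : ℝ) ≤ 1 / 3 := one_div_le_one_div_of_le (by norm_num) h2
  linarith

theorem main_h (A : Set ℕ) (hA : A.Infinite) (h : ℕ) (hh : 2 ≤ h) (K0 : ℕ)
    (hK : ∀ n, rep A h n ≤ K0) (α β : ℝ) (w : ℕ → ℝ) (W : ℝ) (hw : ∀ n, |w n| ≤ W) (n₀ : ℕ)
    (hn : ∀ n, n₀ ≤ n → (rep A h n : ℝ) ^ 2 ≤ α * rep A h n - β + w n)
    (ε : ℝ) (hε : 0 < ε) :
    ∀ᶠ q : ℝ in 𝓝[<] 1, β - (α - cst h) ^ 2 / 4 - ε ≤ Ab w q := by
  have e : (h - h / 2) + h / 2 = h := Nat.sub_add_cancel (Nat.div_le_self h 2)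
  have := main_ineq A hA (h - h / 2) (h / 2) (by omega) (by omega) K0 (by rwa [e]) α β w W hw n₀
    (by rwa [e]) ε hε
  rw [e] at this
  exact this

/-- the indicator function of a set, as a real sequence -/
noncomputable def ind (S : Set ℕ) (n : ℕ) : ℝ := by
  classical
  exact if n ∈ S then 1 else 0

lemma ind_nonneg (S : Set ℕ) (n : ℕ) : 0 ≤ ind S n := by
  unfold ind; split_ifs <;> norm_num

lemma ind_le_one (S : Set ℕ) (n : ℕ) : ind S n ≤ 1 := by
  unfold ind; split_ifs <;> norm_num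

lemma ind_abs (S : Set ℕ) (n : ℕ) : |ind S n| ≤ 1 := by
  rw [abs_of_nonneg (ind_nonneg S n)]; exact ind_le_one S n

lemma ind_of_mem {S : Set ℕ} {n : ℕ} (h : n ∈ S) : ind S n = 1 := by
  unfold ind; rw [if_pos h]

lemma ind_of_not_mem {S : Set ℕ} {n : ℕ} (h : n ∉ S) : ind S n = 0 := by
  unfold ind; rw [if_neg h]

/-- counting function -/
noncomputable def cnt (S : Set ℕ) (N : ℕ) : ℕ := (S ∩ Set.Iio N).ncard

lemma cnt_eq_sum (S : Set ℕ) (N : ℕ) : (cnt S N : ℝ) = ∑ n ∈ range N, ind S n := by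
  classical
  have h1 : S ∩ Set.Iio N = (((range N).filter (fun n => n ∈ S) : Finset ℕ) : Set ℕ) := by
    ext n
    simp only [Set.mem_inter_iff, Set.mem_Iio, coe_filter, mem_range, Set.mem_ofPred_eq]
    tauto
  unfold cnt
  rw [h1, Set.ncard_coe_finset, Finset.card_filter]
  push_cast
  apply Finset.sum_congr rfl
  intro n _
  unfold ind
  split_ifs <;> rfl

lemma cnt_le (S : Set ℕ) (N : ℕ) : (cnt S N : ℝ) ≤ N := by
  rw [cnt_eq_sum]
  calc ∑ n ∈ range N, ind S n ≤ ∑ n ∈ range N, (1 : ℝ) := Finset.sum_le_sum fun n _ => ind_le_one S n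
    _ = N := by simp

lemma cnt_mono (S : Set ℕ) {M N : ℕ} (h : M ≤ N) : (cnt S M : ℝ) ≤ cnt S N := by
  rw [cnt_eq_sum, cnt_eq_sum]
  exact Finset.sum_le_sum_of_subset_of_nonneg (Finset.range_subset_range.2 h)
    (fun n _ _ => ind_nonneg S n)

/-- lower bounds for Abel means give lower bounds for all initial segments -/
theorem cnt_of_abel (S : Set ℕ) (δ K : ℝ) (hK : 0 < K)
    (h : ∀ᶠ q : ℝ in 𝓝[<] 1, δ ≤ Ab (ind S) q) :
    ∀ᶠ N : ℕ in atTop, (δ - Real.exp (-K)) / K * N ≤ cnt S N := by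
  have t : Tendsto (fun N : ℕ => 1 - K / (N : ℝ)) atTop (𝓝[<] 1) := by
    rw [tendsto_nhdsWithin_iff]
    constructor
    · have := (tendsto_const_div_atTop_nhds_zero_nat K).const_sub 1
      simpa using this
    · filter_upwards [eventually_gt_atTop 0] with N hN
      have : 0 < K / (N : ℝ) := by positivity
      rw [Set.mem_Iio]; linarith
  filter_upwards [t.eventually h, t.eventually eventually_Ioo, eventually_gt_atTop 0] with N h1 h2 hN
  obtain ⟨hq0, hq1⟩ := h2
  set q : ℝ := 1 - K / (N : ℝ) with hq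
  have hN0 : (0 : ℝ) < N := by exact_mod_cast hN
  have h3 : Ab (ind S) q ≤ (1 - q) * cnt S N + q ^ N := by
    unfold Ab
    have hs := summable_bdd (ind_abs S) hq0.le hq1
    rw [← hs.sum_add_tsum_nat_add N, mul_add]
    apply add_le_add
    · apply mul_le_mul_of_nonneg_left _ (by linarith)
      rw [cnt_eq_sum]
      apply Finset.sum_le_sum
      intro n _
      have := pow_le_one₀ hq0.le hq1.le (n := n)
      have h0 := ind_nonneg S n
      nlinarith
    · have hs2 : Summable (fun n : ℕ => q ^ (n + N) * ind S (n + N)) :=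
        (summable_nat_add_iff N).2 hs
      have hg : Summable (fun n : ℕ => q ^ N * q ^ n) :=
        (summable_geometric_of_lt_one hq0.le hq1).mul_left _
      have h4 : ∑' n : ℕ, q ^ (n + N) * ind S (n + N) ≤ ∑' n : ℕ, q ^ N * q ^ n := by
        apply hs2.tsum_le_tsum _ hg
        intro n
        have h5 := ind_le_one S (n + N)
        have h6 : 0 ≤ q ^ (n + N) := by positivity
        calc q ^ (n + N) * ind S (n + N) ≤ q ^ (n + N) * 1 := mul_le_mul_of_nonneg_left h5 h6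
          _ = q ^ N * q ^ n := by rw [pow_add]; ring
      calc (1 - q) * ∑' n : ℕ, q ^ (n + N) * ind S (n + N)
          ≤ (1 - q) * ∑' n : ℕ, q ^ N * q ^ n := mul_le_mul_of_nonneg_left h4 (by linarith)
        _ = q ^ N := by
            rw [tsum_mul_left, tsum_geometric_of_lt_one hq0.le hq1, mul_left_comm,
              mul_inv_cancel₀ (by linarith), mul_one]
  have h4 : q ^ N ≤ Real.exp (-K) := by
    have h5 : q ≤ Real.exp (-(K / N)) := by
      have := Real.add_one_le_exp (-(K / (N : ℝ)))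
      rw [hq]; linarith
    calc q ^ N ≤ (Real.exp (-(K / N))) ^ N := pow_le_pow_left₀ hq0.le h5 N
      _ = Real.exp (-K) := by
          rw [← Real.exp_nat_mul]
          congr 1
          field_simp
  have h6 : δ - Real.exp (-K) ≤ K / N * cnt S N := by
    have : 1 - q = K / N := by rw [hq]; ring
    rw [this] at h3
    linarith
  calc (δ - Real.exp (-K)) / K * N ≤ (K / N * cnt S N) / K * N := by gcongr
    _ = cnt S N := by field_simp

/-- upper bounds for all initial segments give upper bounds for Abel means -/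
theorem abel_of_cnt (S : Set ℕ) (δ ε : ℝ) (hε : 0 < ε)
    (h : ∀ᶠ N : ℕ in atTop, (cnt S N : ℝ) ≤ δ * N) :
    ∀ᶠ q : ℝ in 𝓝[<] 1, Ab (ind S) q ≤ δ + ε := by
  obtain ⟨N₀, hN₀⟩ := eventually_atTop.1 h
  have h1 : ∀ N : ℕ, (cnt S N : ℝ) ≤ δ * N + (if N < N₀ then (N₀ : ℝ) + |δ| * N₀ else 0) := by
    intro N
    by_cases hN : N < N₀
    · rw [if_pos hN]
      have h2 := cnt_le S N
      have h3 : (N : ℝ) ≤ N₀ := by exact_mod_cast hN.le
      have h4 : -(|δ| * N₀) ≤ δ * N := by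
        have h5 : |δ * N| ≤ |δ| * N₀ := by
          rw [abs_mul, abs_of_nonneg (Nat.cast_nonneg N : (0 : ℝ) ≤ N)]
          exact mul_le_mul_of_nonneg_left h3 (abs_nonneg _)
        exact (abs_le.1 h5).1
      linarith
    · rw [if_neg hN, add_zero]
      exact hN₀ N (by omega)
  obtain ⟨C, hC⟩ : ∃ C : ℝ, C = (N₀ : ℝ) + |δ| * N₀ := ⟨_, rfl⟩
  have hC0 : 0 ≤ C := by rw [hC]; positivity
  rw [← hC] at h1
  have t : Tendsto (fun q : ℝ => (1 - q) * (N₀ * C)) (𝓝[<] 1) (𝓝 0) := by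
    have h1 : Continuous (fun q : ℝ => (1 - q) * (N₀ * C)) := by fun_prop
    have h2 := h1.tendsto (1 : ℝ)
    simp only [sub_self, zero_mul] at h2
    exact h2.mono_left nhdsWithin_le_nhds
  filter_upwards [t.eventually (gt_mem_nhds hε), eventually_Ioo] with q ht hq01
  obtain ⟨hq0, hq1⟩ := hq01
  -- partial summation
  have hAbel : ∀ T : ℕ, (1 - q) * ∑ n ∈ range T, q ^ n * ind S n ≤ δ + (1 - q) * (N₀ * C) +
      (1 + |δ|) * (q ^ T + T * q ^ T) := by
    intro T
    have key : ∀ T : ℕ, ∑ n ∈ range T, q ^ n * ind S n =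
        (1 - q) * ∑ n ∈ range T, q ^ n * cnt S (n + 1) + q ^ T * cnt S T := by
      intro T
      induction T with
      | zero => simp [cnt]
      | succ T ih =>
        rw [Finset.sum_range_succ, Finset.sum_range_succ, ih]
        have e : (cnt S (T + 1) : ℝ) = cnt S T + ind S T := by
          rw [cnt_eq_sum, cnt_eq_sum, Finset.sum_range_succ]
        rw [e]; ring
    rw [key T]
    have hg : ∀ T : ℕ, (1 - q) * ((1 - q) * ∑ n ∈ range T, q ^ n * ((n : ℝ) + 1)) +
        (1 - q) * (q ^ T * T) = 1 - q ^ T := by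
      intro T
      induction T with
      | zero => simp
      | succ T ih =>
        rw [Finset.sum_range_succ]
        push_cast
        have : (1 - q) * ((1 - q) * (∑ n ∈ range T, q ^ n * ((n : ℝ) + 1) + q ^ T * ((T : ℝ) + 1))) +
          (1 - q) * (q ^ (T + 1) * ((T : ℝ) + 1)) =
          ((1 - q) * ((1 - q) * ∑ n ∈ range T, q ^ n * ((n : ℝ) + 1)) + (1 - q) * (q ^ T * T)) +
          (1 - q) * ((1 - q) * (q ^ T * ((T : ℝ) + 1)) + q ^ (T + 1) * ((T : ℝ) + 1) - q ^ T * T) := by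
          ring
        rw [this, ih]
        ring
    have hs1 : ∑ n ∈ range T, q ^ n * (cnt S (n + 1) : ℝ) ≤
        δ * ∑ n ∈ range T, q ^ n * ((n : ℝ) + 1) + ∑ n ∈ range T, (if n + 1 < N₀ then C else 0) := by
      rw [Finset.mul_sum, ← Finset.sum_add_distrib]
      apply Finset.sum_le_sum
      intro n _
      have h2 := mul_le_mul_of_nonneg_left (h1 (n + 1)) (show 0 ≤ q ^ n by positivity)
      have h3 : q ^ n * (if n + 1 < N₀ then C else 0) ≤ if n + 1 < N₀ then C else 0 := by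
        split_ifs
        · have := pow_le_one₀ hq0.le hq1.le (n := n)
          nlinarith
        · simp
      push_cast at h2
      nlinarith
    have hs2 : ∑ n ∈ range T, (if n + 1 < N₀ then C else 0 : ℝ) ≤ N₀ * C := by
      rw [← Finset.sum_filter, Finset.sum_const, nsmul_eq_mul]
      apply mul_le_mul_of_nonneg_right _ hC0
      have : (range T).filter (fun n => n + 1 < N₀) ⊆ range N₀ := by
        intro n hn
        rw [Finset.mem_filter] at hn
        exact Finset.mem_range.2 (by omega)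
      have h4 := Finset.card_le_card this
      rw [Finset.card_range] at h4
      exact_mod_cast h4
    have hT := cnt_le S T
    have hqT : 0 ≤ q ^ T := by positivity
    have hq1' : 0 ≤ 1 - q := by linarith
    have a1 : (1 - q) * ∑ n ∈ range T, q ^ n * (cnt S (n + 1) : ℝ) ≤
        (1 - q) * (δ * ∑ n ∈ range T, q ^ n * ((n : ℝ) + 1) + N₀ * C) :=
      mul_le_mul_of_nonneg_left (hs1.trans (by linarith)) hq1'
    have a2 := mul_le_mul_of_nonneg_left a1 hq1'
    have a3 : (1 - q) * ((1 - q) * (δ * ∑ n ∈ range T, q ^ n * ((n : ℝ) + 1) + N₀ * C)) =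
        δ * (1 - q ^ T - (1 - q) * (q ^ T * T)) + (1 - q) * ((1 - q) * (N₀ * C)) := by
      rw [← hg T]; ring
    rw [a3] at a2
    have a4 : (1 - q) * ((1 - q) * (N₀ * C)) ≤ (1 - q) * (N₀ * C) := by
      apply mul_le_mul_of_nonneg_left _ hq1'
      have : 0 ≤ N₀ * C := by positivity
      nlinarith
    have a5 : (1 - q) * (q ^ T * cnt S T) ≤ T * q ^ T := by
      have b1 : q ^ T * cnt S T ≤ q ^ T * T := mul_le_mul_of_nonneg_left hT hqT
      have b2 : 0 ≤ q ^ T * cnt S T := by positivity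
      nlinarith
    have a6 : δ * (1 - q ^ T - (1 - q) * (q ^ T * T)) ≤ δ + |δ| * (q ^ T + T * q ^ T) := by
      have b1 : -δ ≤ |δ| := neg_le_abs δ
      have b2 : 0 ≤ q ^ T + (1 - q) * (q ^ T * T) := by positivity
      have b3 : q ^ T + (1 - q) * (q ^ T * T) ≤ q ^ T + T * q ^ T := by
        have : 0 ≤ q ^ T * T := by positivity
        nlinarith
      calc δ * (1 - q ^ T - (1 - q) * (q ^ T * T))
          = δ + (-δ) * (q ^ T + (1 - q) * (q ^ T * T)) := by ring
        _ ≤ δ + |δ| * (q ^ T + (1 - q) * (q ^ T * T)) := by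
            have := mul_le_mul_of_nonneg_right b1 b2
            linarith
        _ ≤ δ + |δ| * (q ^ T + T * q ^ T) := by
            have := mul_le_mul_of_nonneg_left b3 (abs_nonneg δ)
            linarith
    have a7 : 0 ≤ q ^ T := hqT
    have e : (1 - q) * ((1 - q) * ∑ n ∈ range T, q ^ n * (cnt S (n + 1) : ℝ) + q ^ T * cnt S T) =
      (1 - q) * ((1 - q) * ∑ n ∈ range T, q ^ n * (cnt S (n + 1) : ℝ)) +
        (1 - q) * (q ^ T * cnt S T) := by ring
    rw [e]
    have e2 : (1 + |δ|) * (q ^ T + T * q ^ T) = |δ| * (q ^ T + T * q ^ T) + q ^ T + T * q ^ T := by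
      ring
    rw [e2]
    linarith
  have hs := (summable_bdd (ind_abs S) hq0.le hq1).hasSum.tendsto_sum_nat.const_mul (1 - q)
  have h0 : Tendsto (fun T : ℕ => δ + (1 - q) * (N₀ * C) + (1 + |δ|) * (q ^ T + T * q ^ T)) atTop
      (𝓝 (δ + (1 - q) * (N₀ * C) + (1 + |δ|) * (0 + 0))) := by
    apply Tendsto.const_add
    apply Tendsto.const_mul
    apply Tendsto.add
    · exact tendsto_pow_atTop_nhds_zero_of_lt_one hq0.le hq1
    · exact tendsto_self_mul_const_pow_of_lt_one hq0.le hq1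
  have := le_of_tendsto_of_tendsto' hs h0 hAbel
  unfold Ab
  linarith

end Pool.Agent.K9h24.Four
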