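import Pool.Agent.K9h24.Four
import Pool.Agent.W990.EB.Cor

/-!
The representation function of order two: from ordered to unordered representations.
-/

set_option autoImplicit false

open Finset Filter Topology

namespace Pool.Agent.K9h24.Four

open Pool.Agent.H396R2 Pool.Agent.TH854.BV

lemma ord_le (A : Set ℕ) (n : ℕ) : W990.EB.rep A n ≤ 2 * rep A 2 n := by
  classical
  have hfin : {s : Multiset ℕ | Multiset.card s = 2 ∧ (∀ a ∈ s, a ∈ A) ∧ s.sum = n}.Finite :=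
    rep_set_finite A 2 n
  have key : ∀ P : ℕ × ℕ → Prop, (∀ x y : ℕ × ℕ, P x → P y → x.1 + x.2 = n → y.1 + y.2 = n →
      ({x.1, x.2} : Multiset ℕ) = {y.1, y.2} → x = y) →
      ({x : ℕ × ℕ | x.1 ∈ A ∧ x.2 ∈ A ∧ x.1 + x.2 = n} ∩ {x | P x}).ncard ≤ rep A 2 n := by
    intro P hP
    apply Set.ncard_le_ncard_of_injOn (fun x : ℕ × ℕ => ({x.1, x.2} : Multiset ℕ)) _ _ hfin
    · rintro ⟨a, b⟩ ⟨⟨ha, hb, hab⟩, _⟩
      refine ⟨by simp, ?_, by simpa using hab⟩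
      intro c hc
      simp only [Multiset.insert_eq_cons, Multiset.mem_cons, Multiset.mem_singleton] at hc
      rcases hc with rfl | rfl
      · exact ha
      · exact hb
    · rintro x ⟨⟨_, _, hx⟩, hPx⟩ y ⟨⟨_, _, hy⟩, hPy⟩ hxy
      exact hP x y hPx hPy hx hy hxy
  have hpair : ∀ x y : ℕ × ℕ, ({x.1, x.2} : Multiset ℕ) = {y.1, y.2} → x = y ∨ x = y.swap := by
    rintro ⟨a, b⟩ ⟨c, d⟩ hxy
    simp only [Multiset.insert_eq_cons] at hxy
    rw [Multiset.cons_eq_cons] at hxy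
    rcases hxy with ⟨h1, h2⟩ | ⟨_, cs, h2, h3⟩
    · left
      rw [Multiset.singleton_inj] at h2
      exact Prod.ext h1 h2
    · right
      have hcs : cs = 0 := by
        have := congrArg Multiset.card h2
        simp at this
        exact this
      subst hcs
      simp only [Multiset.cons_zero, Multiset.singleton_inj] at h2 h3
      exact Prod.ext h3.symm h2
  have h1 := key (fun x => x.1 ≤ x.2) (by
    intro x y hx hy hxn hyn hxy
    rcases hpair x y hxy with rfl | h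
    · rfl
    · rw [h] at hx
      simp only [Prod.fst_swap, Prod.snd_swap] at hx
      have e1 : y.1 = y.2 := le_antisymm hy hx
      rw [h]
      exact Prod.ext e1.symm e1)
  have h2 := key (fun x => ¬ x.1 ≤ x.2) (by
    intro x y hx hy hxn hyn hxy
    rcases hpair x y hxy with rfl | h
    · rfl
    · rw [h] at hx
      simp only [Prod.fst_swap, Prod.snd_swap] at hx
      exact absurd (not_le.1 hx).le hy)
  have h3 : W990.EB.rep A n = ({x : ℕ × ℕ | x.1 ∈ A ∧ x.2 ∈ A ∧ x.1 + x.2 = n}).ncard := rfl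
  have h4 : ({x : ℕ × ℕ | x.1 ∈ A ∧ x.2 ∈ A ∧ x.1 + x.2 = n}) ⊆
      ({x : ℕ × ℕ | x.1 ∈ A ∧ x.2 ∈ A ∧ x.1 + x.2 = n} ∩ {x | x.1 ≤ x.2}) ∪
      ({x : ℕ × ℕ | x.1 ∈ A ∧ x.2 ∈ A ∧ x.1 + x.2 = n} ∩ {x | ¬ x.1 ≤ x.2}) := by
    intro x hx
    by_cases hle : x.1 ≤ x.2
    · exact Or.inl ⟨hx, hle⟩
    · exact Or.inr ⟨hx, hle⟩
  have hf : ({x : ℕ × ℕ | x.1 ∈ A ∧ x.2 ∈ A ∧ x.1 + x.2 = n}).Finite := W605.EB.rep_finite A n
  have h5 := Set.ncard_le_ncard h4 ((hf.subset Set.inter_subset_left).union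
    (hf.subset Set.inter_subset_left))
  have h6 := Set.ncard_union_le
    ({x : ℕ × ℕ | x.1 ∈ A ∧ x.2 ∈ A ∧ x.1 + x.2 = n} ∩ {x | x.1 ≤ x.2})
    ({x : ℕ × ℕ | x.1 ∈ A ∧ x.2 ∈ A ∧ x.1 + x.2 = n} ∩ {x | ¬ x.1 ≤ x.2})
  rw [h3]
  omega

lemma ord_pos (A : Set ℕ) (n : ℕ) (h : 0 < rep A 2 n) : 0 < W990.EB.rep A n := by
  have hf : ({x : ℕ × ℕ | x.1 ∈ A ∧ x.2 ∈ A ∧ x.1 + x.2 = n}).Finite := W605.EB.rep_finite A n
  have h1 : {s : Multiset ℕ | Multiset.card s = 2 ∧ (∀ a ∈ s, a ∈ A) ∧ s.sum = n}.Nonempty :=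
    Set.nonempty_of_ncard_ne_zero (show rep A 2 n ≠ 0 by omega)
  obtain ⟨s, hs1, hs2, hs3⟩ := h1
  rw [Multiset.card_eq_two] at hs1
  obtain ⟨a, b, rfl⟩ := hs1
  change 0 < ({x : ℕ × ℕ | x.1 ∈ A ∧ x.2 ∈ A ∧ x.1 + x.2 = n}).ncard
  rw [Set.ncard_pos hf]
  refine ⟨(a, b), hs2 a (by simp), hs2 b (by simp), by simpa using hs3⟩

/-- the case of order two -/
theorem four_two (A : Set ℕ) (h : ∃ N, ∀ n, N ≤ n → 0 < rep A 2 n) (n₁ : ℕ) :
    ∃ n, n₁ ≤ n ∧ 4 ≤ rep A 2 n := by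
  classical
  obtain ⟨N, hN⟩ := h
  by_contra hcon
  push Not at hcon
  have hup : ∀ n ≥ max n₁ N, W990.EB.rep A n ≤ 7 := by
    intro n hn
    have h1 := hcon n (le_trans (le_max_left _ _) hn)
    have h2 := ord_le A n
    omega
  refine W990.EB.unify (A := A) (R := 7 + ∑ m ∈ range (max n₁ N), W990.EB.rep A m) (l := 2) (K := 6)
    (n0 := max n₁ N) (c := 0) (d := 0) (Q := fun _ => False) ?_ even_two (by decide) le_rfl
    (by norm_num) le_rfl ?_ ?_ ?_ le_rfl ?_ ?_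
  · intro n
    by_cases hn : max n₁ N ≤ n
    · have := hup n hn
      omega
    · have : W990.EB.rep A n ≤ ∑ m ∈ range (max n₁ N), W990.EB.rep A m :=
        single_le_sum (f := fun m => W990.EB.rep A m) (fun _ _ => Nat.zero_le _)
          (mem_range.mpr (by omega))
      omega
  · intro n hn _
    exact hup n hn
  · intro n hn _
    have := ord_pos A n (hN n (le_trans (le_max_right _ _) hn))
    omega
  · intro n _ hq
    exact hq.elim
  · refine Eventually.of_forall fun n => ?_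
    simp
  · norm_num

end Pool.Agent.K9h24.Four
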