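import Mathlib

/-!
Hashed digit expansions: basic facts.
-/

set_option autoImplicit false
set_option linter.unusedSectionVars false
set_option linter.style.haveILetI false

open Finset

namespace Pool.Agent.K9h24.NC

/-- The number with own digits `β` (base `b`) of type `i`, in `J` blocks of base `b ^ h`, with the
hash function `H`. -/
def V (h b : ℕ) (H : ℕ → ℕ → ℕ → ℕ) (i : ℕ) : ℕ → ℕ → ℕ
  | 0, _ => 0
  | J + 1, β => V h b H i J β +
      (b ^ h) ^ J * ((b ^ i * (β / b ^ J % b) + H J i (β % b ^ J)) % b ^ h)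

lemma V_zero (h b : ℕ) (H : ℕ → ℕ → ℕ → ℕ) (i β : ℕ) : V h b H i 0 β = 0 := rfl

lemma V_succ (h b : ℕ) (H : ℕ → ℕ → ℕ → ℕ) (i J β : ℕ) :
    V h b H i (J + 1) β = V h b H i J β +
      (b ^ h) ^ J * ((b ^ i * (β / b ^ J % b) + H J i (β % b ^ J)) % b ^ h) := rfl

section

variable {h b : ℕ} (hb : 2 ≤ b)

include hb

lemma B_ge (hh : 1 ≤ h) : 2 ≤ b ^ h := hb.trans (Nat.le_self_pow (by omega) b)

lemma B_pos : 0 < b ^ h := pow_pos (by omega) h

omit hb in
lemma div_mod_low (b : ℕ) {J q β : ℕ} (hq : q < J) :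
    β % b ^ J / b ^ q % b = β / b ^ q % b := by
  obtain ⟨k, rfl⟩ : ∃ k, J = q + 1 + k := ⟨J - (q + 1), by omega⟩
  have h1 : b ^ (q + 1 + k) = b ^ q * (b * b ^ k) := by ring
  rw [h1, Nat.mod_mul_right_div_self, Nat.mod_mul_right_mod]

omit hb in
lemma V_congr_mod (H : ℕ → ℕ → ℕ → ℕ) (i : ℕ) {J β β' : ℕ} (hβ : β % b ^ J = β' % b ^ J) :
    V h b H i J β = V h b H i J β' := by
  induction J with
  | zero => rfl
  | succ J ih =>
    have h1 : β % b ^ J = β' % b ^ J := by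
      have h2 : β % b ^ (J + 1) % b ^ J = β' % b ^ (J + 1) % b ^ J := by rw [hβ]
      rwa [Nat.mod_mod_of_dvd _ (pow_dvd_pow b (Nat.le_succ J)),
        Nat.mod_mod_of_dvd _ (pow_dvd_pow b (Nat.le_succ J))] at h2
    have h3 : β / b ^ J % b = β' / b ^ J % b := by
      rw [← div_mod_low b (Nat.lt_succ_self J) (β := β),
        ← div_mod_low b (Nat.lt_succ_self J) (β := β')]
      exact congrArg (fun x => x / b ^ J % b) hβ
    rw [V_succ, V_succ, ih h1, h1, h3]

omit hb in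
lemma V_mod_arg (H : ℕ → ℕ → ℕ → ℕ) (i J β : ℕ) :
    V h b H i J (β % b ^ J) = V h b H i J β :=
  V_congr_mod H i (Nat.mod_mod _ _)

omit hb in
/-- the value depends only on the hash function at the levels below `J` -/
lemma V_congr_H {H H' : ℕ → ℕ → ℕ → ℕ} {i J : ℕ} (β : ℕ)
    (hH : ∀ q < J, H q i (β % b ^ q) = H' q i (β % b ^ q)) :
    V h b H i J β = V h b H' i J β := by
  induction J with
  | zero => rfl
  | succ J ih =>
    rw [V_succ, V_succ, ih (fun q hq => hH q (by omega)), hH J (Nat.lt_succ_self J)]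

lemma V_lt (H : ℕ → ℕ → ℕ → ℕ) (i J β : ℕ) : V h b H i J β < (b ^ h) ^ J := by
  induction J with
  | zero => simp [V_zero]
  | succ J ih =>
    rw [V_succ, pow_succ]
    have h1 : (b ^ i * (β / b ^ J % b) + H J i (β % b ^ J)) % b ^ h + 1 ≤ b ^ h :=
      Nat.mod_lt _ (B_pos hb)
    calc _ < (b ^ h) ^ J + (b ^ h) ^ J *
          ((b ^ i * (β / b ^ J % b) + H J i (β % b ^ J)) % b ^ h) := Nat.add_lt_add_right ih _
      _ = (b ^ h) ^ J * ((b ^ i * (β / b ^ J % b) + H J i (β % b ^ J)) % b ^ h + 1) := by ring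
      _ ≤ _ := Nat.mul_le_mul_left _ h1

omit hb in
lemma V_mono (H : ℕ → ℕ → ℕ → ℕ) (i β : ℕ) {m J : ℕ} (hmJ : m ≤ J) :
    V h b H i m β ≤ V h b H i J β := by
  induction J, hmJ using Nat.le_induction with
  | base => exact le_rfl
  | succ J _ ih => exact ih.trans (by rw [V_succ]; exact Nat.le_add_right _ _)

lemma V_mod (H : ℕ → ℕ → ℕ → ℕ) (i β : ℕ) {m J : ℕ} (hmJ : m ≤ J) :
    V h b H i J β % (b ^ h) ^ m = V h b H i m β := by
  induction J, hmJ using Nat.le_induction with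
  | base => exact Nat.mod_eq_of_lt (V_lt hb H i m β)
  | succ J hJ ih =>
    rw [V_succ, Nat.add_mod, ih]
    have h1 : (b ^ h) ^ m ∣ (b ^ h) ^ J *
        ((b ^ i * (β / b ^ J % b) + H J i (β % b ^ J)) % b ^ h) :=
      Dvd.dvd.mul_right (pow_dvd_pow _ hJ) _
    rw [Nat.mod_eq_zero_of_dvd h1, add_zero, Nat.mod_eq_of_lt (V_lt hb H i m β)]

/-- values small compared with the level -/
lemma V_eq_of_lt (H : ℕ → ℕ → ℕ → ℕ) (i β : ℕ) {m J : ℕ} (hmJ : m ≤ J)
    (hlt : V h b H i J β < (b ^ h) ^ m) : V h b H i J β = V h b H i m β := by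
  rw [← V_mod hb H i β hmJ, Nat.mod_eq_of_lt hlt]

lemma digit_inj {i d d' x : ℕ} (hi : i < h) (hd : d < b) (hd' : d' < b)
    (he : (b ^ i * d + x) % b ^ h = (b ^ i * d' + x) % b ^ h) : d = d' := by
  have h1 : b ^ i * d + x ≡ b ^ i * d' + x [MOD b ^ h] := he
  have h2 : b ^ i * d ≡ b ^ i * d' [MOD b ^ h] := Nat.ModEq.add_right_cancel' x h1
  have h3 : b ^ h = b ^ i * b ^ (h - i) := by rw [← pow_add]; congr 1; omega
  rw [h3] at h2
  have h4 : d ≡ d' [MOD b ^ (h - i)] :=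
    Nat.ModEq.mul_left_cancel' (pow_pos (by omega) i).ne' h2
  have h5 : b ≤ b ^ (h - i) := Nat.le_self_pow (by omega) b
  exact Nat.ModEq.eq_of_lt_of_lt h4 (lt_of_lt_of_le hd h5) (lt_of_lt_of_le hd' h5)

lemma mod_succ_eq {J β β' : ℕ} (h1 : β % b ^ J = β' % b ^ J)
    (h2 : β / b ^ J % b = β' / b ^ J % b) : β % b ^ (J + 1) = β' % b ^ (J + 1) := by
  rw [Nat.mod_pow_succ, Nat.mod_pow_succ, h1, h2]

lemma V_inj_mod (H : ℕ → ℕ → ℕ → ℕ) {i : ℕ} (hi : i < h) (J : ℕ) {β β' : ℕ}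
    (he : V h b H i J β = V h b H i J β') : β % b ^ J = β' % b ^ J := by
  induction J with
  | zero => simp [Nat.mod_one]
  | succ J ih =>
    have h1 : V h b H i J β = V h b H i J β' := by
      rw [← V_mod hb H i β (Nat.le_succ J), ← V_mod hb H i β' (Nat.le_succ J), he]
    have h2 := ih h1
    rw [V_succ, V_succ, h1] at he
    have h3 := Nat.eq_of_mul_eq_mul_left (pow_pos (B_pos hb) J) (Nat.add_left_cancel he)
    rw [h2] at h3
    exact mod_succ_eq hb h2 (digit_inj hb hi (Nat.mod_lt _ (by omega)) (Nat.mod_lt _ (by omega)) h3)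

lemma V_inj (H : ℕ → ℕ → ℕ → ℕ) {i : ℕ} (hi : i < h) {J β β' : ℕ} (hβ : β < b ^ J)
    (hβ' : β' < b ^ J) (he : V h b H i J β = V h b H i J β') : β = β' := by
  have := V_inj_mod hb H hi J he
  rwa [Nat.mod_eq_of_lt hβ, Nat.mod_eq_of_lt hβ'] at this

omit hb in
/-- digits -/
lemma digits_exist (hb0 : b ≠ 0) (y : ℕ) (hy : y < b ^ h) :
    ∃ d : Fin h → ℕ, (∀ i, d i < b) ∧ ∑ i : Fin h, b ^ (i : ℕ) * d i = y := by
  haveI : NeZero b := ⟨hb0⟩
  set f : Fin h → Fin b := finFunctionFinEquiv.symm ⟨y, hy⟩ with hf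
  refine ⟨fun i => f i, fun i => (f i).2, ?_⟩
  have h1 := finFunctionFinEquiv_apply f
  rw [hf, Equiv.apply_symm_apply] at h1
  simp only at h1
  conv_rhs => rw [h1]
  exact Finset.sum_congr rfl fun i _ => mul_comm _ _

omit hb in
lemma digits_lt (d : Fin h → ℕ) (hd : ∀ i, d i < b) :
    ∑ i : Fin h, b ^ (i : ℕ) * d i < b ^ h := by
  set f : Fin h → Fin b := fun i => ⟨d i, hd i⟩ with hf
  have h1 := finFunctionFinEquiv_apply f
  have h2 := (finFunctionFinEquiv f).2
  rw [h1] at h2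
  refine lt_of_le_of_lt (le_of_eq ?_) h2
  exact Finset.sum_congr rfl fun i _ => mul_comm _ _

omit hb in
lemma digits_unique (d d' : Fin h → ℕ) (hd : ∀ i, d i < b) (hd' : ∀ i, d' i < b)
    (he : ∑ i : Fin h, b ^ (i : ℕ) * d i = ∑ i : Fin h, b ^ (i : ℕ) * d' i) : d = d' := by
  set f : Fin h → Fin b := fun i => ⟨d i, hd i⟩ with hf
  set f' : Fin h → Fin b := fun i => ⟨d' i, hd' i⟩ with hf'
  have h1 := finFunctionFinEquiv_apply f
  have h1' := finFunctionFinEquiv_apply f'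
  have h2 : finFunctionFinEquiv f = finFunctionFinEquiv f' := by
    apply Fin.ext
    rw [h1, h1']
    have e1 : ∑ i : Fin h, (f i : ℕ) * b ^ (i : ℕ) = ∑ i : Fin h, b ^ (i : ℕ) * d i :=
      Finset.sum_congr rfl fun i _ => mul_comm _ _
    have e2 : ∑ i : Fin h, (f' i : ℕ) * b ^ (i : ℕ) = ∑ i : Fin h, b ^ (i : ℕ) * d' i :=
      Finset.sum_congr rfl fun i _ => mul_comm _ _
    rw [e1, e2, he]
  have h3 := finFunctionFinEquiv.injective h2
  funext i
  have := congrArg (fun g : Fin h → Fin b => (g i : ℕ)) h3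
  exact this

/-- every residue is a sum of values of the `h` types -/
lemma bij_exists (H : ℕ → ℕ → ℕ → ℕ) (J n : ℕ) :
    ∃ β : Fin h → ℕ, (∀ i, β i < b ^ J) ∧
      ∑ i : Fin h, V h b H i J (β i) ≡ n [MOD (b ^ h) ^ J] := by
  induction J with
  | zero =>
    refine ⟨fun _ => 0, fun _ => by simp, ?_⟩
    rw [pow_zero]
    exact Nat.modEq_one
  | succ J ih =>
    obtain ⟨β, hβ, hs⟩ := ih
    have hBp : 0 < b ^ h := B_pos hb
    set s := ∑ i : Fin h, V h b H i J (β i) with hsdef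
    set t := ∑ i : Fin h, H J i (β i) with htdef
    -- the missing block
    have h0 : ∃ x : ℕ, s + (b ^ h) ^ J * x ≡ n [MOD (b ^ h) ^ (J + 1)] := by
      have hdvd : (((b ^ h) ^ J : ℕ) : ℤ) ∣ (n : ℤ) - s := Nat.modEq_iff_dvd.1 hs
      obtain ⟨z, hz⟩ := hdvd
      refine ⟨(z % ((b ^ h : ℕ) : ℤ)).toNat, ?_⟩
      have hB0 : ((b ^ h : ℕ) : ℤ) ≠ 0 := by exact_mod_cast hBp.ne'
      rw [Nat.modEq_iff_dvd]
      push_cast
      rw [Int.toNat_of_nonneg (by exact_mod_cast Int.emod_nonneg z hB0)]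
      have h1 : z % ((b : ℤ) ^ h) = z - (b : ℤ) ^ h * (z / (b : ℤ) ^ h) := by
        rw [Int.emod_def]
      rw [h1]
      refine ⟨z / (b : ℤ) ^ h, ?_⟩
      have hz' : (n : ℤ) - s = ((b : ℤ) ^ h) ^ J * z := by
        rw [hz]; push_cast; ring
      rw [pow_succ]
      linear_combination hz'
    obtain ⟨x, hx⟩ := h0
    -- digits of x - t
    obtain ⟨y, hy, hyt⟩ : ∃ y, y < b ^ h ∧ y + t ≡ x [MOD b ^ h] := by
      refine ⟨(x + (b ^ h - t % b ^ h)) % b ^ h, Nat.mod_lt _ hBp, ?_⟩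
      have h1 : (x + (b ^ h - t % b ^ h)) % b ^ h + t ≡ (x + (b ^ h - t % b ^ h)) + t % b ^ h
          [MOD b ^ h] := Nat.ModEq.add (Nat.mod_modEq _ _) (Nat.mod_modEq _ _).symm
      refine h1.trans ?_
      have h2 : (x + (b ^ h - t % b ^ h)) + t % b ^ h = x + b ^ h := by
        have := Nat.mod_lt t hBp
        omega
      rw [h2]
      exact Nat.add_modEq_right
    obtain ⟨d, hd, hdy⟩ := digits_exist (by omega : b ≠ 0) y hy
    refine ⟨fun i => β i + b ^ J * d i, fun i => ?_, ?_⟩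
    · rw [pow_succ]
      calc β i + b ^ J * d i < b ^ J + b ^ J * d i := Nat.add_lt_add_right (hβ i) _
        _ = b ^ J * (d i + 1) := by ring
        _ ≤ b ^ J * b := Nat.mul_le_mul_left _ (hd i)
    · have hVi : ∀ i : Fin h, V h b H i (J + 1) (β i + b ^ J * d i) =
          V h b H i J (β i) + (b ^ h) ^ J * ((b ^ (i : ℕ) * d i + H J i (β i)) % b ^ h) := by
        intro i
        rw [V_succ]
        have e1 : (β i + b ^ J * d i) % b ^ J = β i := by
          rw [Nat.add_mul_mod_self_left, Nat.mod_eq_of_lt (hβ i)]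
        have e2 : (β i + b ^ J * d i) / b ^ J % b = d i := by
          rw [Nat.add_mul_div_left _ _ (pow_pos (by omega) J), Nat.div_eq_of_lt (hβ i), zero_add,
            Nat.mod_eq_of_lt (hd i)]
        rw [e1, e2, V_congr_mod H i (β := β i + b ^ J * d i) (β' := β i)
          (by rw [Nat.add_mul_mod_self_left])]
      simp_rw [hVi]
      rw [Finset.sum_add_distrib, ← Finset.mul_sum]
      refine Nat.ModEq.trans ?_ hx
      rw [← hsdef]
      apply Nat.ModEq.add_left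
      rw [pow_succ]
      apply Nat.ModEq.mul_left'
      have h3 : ∑ i : Fin h, (b ^ (i : ℕ) * d i + H J i (β i)) % b ^ h ≡
          ∑ i : Fin h, (b ^ (i : ℕ) * d i + H J i (β i)) [MOD b ^ h] :=
        Nat.ModEq.sum (fun i _ => Nat.mod_modEq _ _)
      refine h3.trans ?_
      rw [Finset.sum_add_distrib, hdy]
      exact hyt

/-- uniqueness -/
lemma bij_unique (H : ℕ → ℕ → ℕ → ℕ) (J : ℕ) (β β' : Fin h → ℕ)
    (he : ∑ i : Fin h, V h b H i J (β i) ≡ ∑ i : Fin h, V h b H i J (β' i) [MOD (b ^ h) ^ J]) :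
    ∀ i, β i % b ^ J = β' i % b ^ J := by
  induction J with
  | zero => intro i; simp [Nat.mod_one]
  | succ J ih =>
    have hBp : 0 < b ^ h := B_pos hb
    have hmod : ∀ β : Fin h → ℕ, ∑ i : Fin h, V h b H i (J + 1) (β i) ≡
        ∑ i : Fin h, V h b H i J (β i) [MOD (b ^ h) ^ J] := by
      intro β
      refine Nat.ModEq.sum (fun i _ => ?_)
      show V h b H i (J + 1) (β i) % (b ^ h) ^ J = V h b H i J (β i) % (b ^ h) ^ J
      rw [V_mod hb H i (β i) (Nat.le_succ J), Nat.mod_eq_of_lt (V_lt hb H i J (β i))]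
    have h1 := ih (((hmod β).symm.trans (he.of_dvd (pow_dvd_pow _ (Nat.le_succ J)))).trans (hmod β'))
    have hV : ∀ i, V h b H (i : Fin h) J (β i) = V h b H (i : Fin h) J (β' i) :=
      fun i => V_congr_mod H i (h1 i)
    simp_rw [V_succ] at he
    rw [Finset.sum_add_distrib, Finset.sum_add_distrib, ← Finset.mul_sum, ← Finset.mul_sum,
      Finset.sum_congr rfl (fun i _ => hV i)] at he
    have h2 := Nat.ModEq.add_left_cancel' _ he
    rw [pow_succ] at h2
    have h3 := Nat.ModEq.mul_left_cancel' (pow_pos hBp J).ne' h2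
    have h4 : ∑ i : Fin h, (b ^ (i : ℕ) * (β i / b ^ J % b) + H J i (β i % b ^ J)) ≡
        ∑ i : Fin h, (b ^ (i : ℕ) * (β' i / b ^ J % b) + H J i (β' i % b ^ J)) [MOD b ^ h] :=
      ((Nat.ModEq.sum (fun i _ => Nat.mod_modEq _ _)).symm.trans h3).trans
        (Nat.ModEq.sum (fun i _ => Nat.mod_modEq _ _))
    rw [Finset.sum_add_distrib, Finset.sum_add_distrib,
      Finset.sum_congr rfl (fun i _ => congrArg (H J (i : Fin h)) (h1 i))] at h4
    have h5 := Nat.ModEq.add_right_cancel' _ h4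
    have h6 := Nat.ModEq.eq_of_lt_of_lt h5
      (digits_lt _ (fun i => Nat.mod_lt _ (by omega)))
      (digits_lt _ (fun i => Nat.mod_lt _ (by omega)))
    have h7 := digits_unique _ _ (fun i => Nat.mod_lt _ (by omega))
      (fun i => Nat.mod_lt _ (by omega)) h6
    intro i
    exact mod_succ_eq hb (h1 i) (congrFun h7 i)

end

/-- the hash function cut off at the level `S` -/
def Htr (H : ℕ → ℕ → ℕ → ℕ) (S : ℕ) : ℕ → ℕ → ℕ → ℕ := fun q i γ => if q < S then H q i γ else 0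

/-- the zero hash function -/
def H0 : ℕ → ℕ → ℕ → ℕ := fun _ _ _ => 0

section

variable {h b : ℕ} (hb : 2 ≤ b)

include hb

omit hb in
lemma V_tr_low (H : ℕ → ℕ → ℕ → ℕ) (i β : ℕ) {S Q : ℕ} (hQ : Q ≤ S) :
    V h b (Htr H S) i Q β = V h b H i Q β :=
  V_congr_H β (fun q hq => by unfold Htr; rw [if_pos (by omega)])

lemma V_tr (H : ℕ → ℕ → ℕ → ℕ) (i S q β : ℕ) :
    V h b (Htr H S) i (S + q) β = V h b H i S β + (b ^ h) ^ S * V h b H0 i q (β / b ^ S) := by
  induction q with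
  | zero =>
    rw [add_zero, V_zero, mul_zero, add_zero]
    exact V_tr_low H i β le_rfl
  | succ q ih =>
    rw [← add_assoc, V_succ, ih, V_succ]
    have h1 : β / b ^ (S + q) = β / b ^ S / b ^ q := by rw [pow_add, Nat.div_div_eq_div_mul]
    rw [h1]
    unfold Htr H0
    rw [if_neg (by omega)]
    rw [pow_add]
    ring

/-- a lower bound for unhashed numbers -/
lemma V0_ge {i : ℕ} (hi : i < h) (q Q β : ℕ) (hq : b ^ q ≤ β) (hQ : β < b ^ Q) :
    (b ^ h) ^ q ≤ V h b H0 i Q β := by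
  have hqQ : q < Q := by
    by_contra hcon
    push Not at hcon
    exact absurd (hq.trans_lt hQ) (not_lt.2 (Nat.pow_le_pow_right (by omega) hcon))
  induction Q with
  | zero => omega
  | succ Q ih =>
    by_cases hβ : β < b ^ Q
    · rw [V_succ]
      have hqQ' : q < Q := by
        by_contra hcon
        push Not at hcon
        exact absurd (hq.trans_lt hβ) (not_lt.2 (Nat.pow_le_pow_right (by omega) hcon))
      exact (ih hβ hqQ').trans (Nat.le_add_right _ _)
    · push Not at hβ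
      rw [V_succ]
      have h1 : 1 ≤ β / b ^ Q := (Nat.one_le_div_iff (pow_pos (by omega) Q)).2 hβ
      have h2 : β / b ^ Q < b := by
        rw [Nat.div_lt_iff_lt_mul (pow_pos (by omega) Q), mul_comm, ← pow_succ]
        exact hQ
      have h3 : β / b ^ Q % b = β / b ^ Q := Nat.mod_eq_of_lt h2
      have h4 : b ^ i * (β / b ^ Q) < b ^ h := by
        calc b ^ i * (β / b ^ Q) < b ^ i * b :=
              Nat.mul_lt_mul_of_pos_left h2 (pow_pos (by omega) i)
          _ = b ^ (i + 1) := (pow_succ _ _).symm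
          _ ≤ b ^ h := Nat.pow_le_pow_right (by omega) hi
      have h5 : (b ^ i * (β / b ^ Q % b) + H0 Q i (β % b ^ Q)) % b ^ h = b ^ i * (β / b ^ Q) := by
        unfold H0
        rw [h3, add_zero, Nat.mod_eq_of_lt h4]
      rw [h5]
      have h6 : 1 ≤ b ^ i * (β / b ^ Q) := Nat.mul_pos (pow_pos (by omega) i) h1
      calc (b ^ h) ^ q ≤ (b ^ h) ^ Q := Nat.pow_le_pow_right (B_pos hb) (by omega)
        _ ≤ (b ^ h) ^ Q * (b ^ i * (β / b ^ Q)) := Nat.le_mul_of_pos_right _ h6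
        _ ≤ _ := Nat.le_add_left _ _

/-- unhashed numbers do not depend on the level -/
lemma V0_stable (i β : ℕ) {Q Q' : ℕ} (hQ : β < b ^ Q) (hQQ : Q ≤ Q') :
    V h b H0 i Q' β = V h b H0 i Q β := by
  induction Q', hQQ using Nat.le_induction with
  | base => rfl
  | succ Q' hle ih =>
    rw [V_succ, ih]
    have h1 : β / b ^ Q' = 0 :=
      Nat.div_eq_of_lt (lt_of_lt_of_le hQ (Nat.pow_le_pow_right (by omega) hle))
    rw [h1]
    unfold H0
    simp

end

end Pool.Agent.K9h24.NC
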