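import Pool.Agent.K9h24.NC9

/-!
Boundaries, the elements of the set, and the basis property.
-/

set_option autoImplicit false
set_option linter.unusedSectionVars false

open Finset Filter Topology

namespace Pool.Agent.K9h24.NC

/-- the exponent of the period of the boundaries near `S` -/
def ee (b S : ℕ) : ℕ := Nat.log b (Nat.log b S)

/-- `S` is a boundary for the string `β` -/
def isB (b S β : ℕ) : Prop := S ≡ β [MOD b ^ ee b S]

instance (b S β : ℕ) : Decidable (isB b S β) := by unfold isB; infer_instance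

/-- the last boundary up to `J` -/
def lastB (b J β : ℕ) : ℕ := Nat.findGreatest (fun S => isB b S β) J

/-- admissible pairs -/
def adm (b S β : ℕ) : Prop := isB b S β ∧ ∀ S', S < S' → isB b S' β → β < b ^ (S' + 1)

/-- the unhashed numbers -/
def UU (h b i τ : ℕ) : ℕ := V h b H0 i τ τ

/-- the elements -/
def el (h b : ℕ) (H : ℕ → ℕ → ℕ → ℕ) (i S β : ℕ) : ℕ :=
  V h b H i S β + (b ^ h) ^ S * UU h b i (β / b ^ S)

/-- the set -/
def AA (h b : ℕ) (H : ℕ → ℕ → ℕ → ℕ) : Set ℕ :=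
  {a | ∃ i < h, ∃ S β, adm b S β ∧ a = el h b H i S β}

section

variable {h b : ℕ} (hb : 2 ≤ b)

include hb

lemma ee_mono {S S' : ℕ} (hSS : S ≤ S') : ee b S ≤ ee b S' :=
  Nat.log_mono_right (Nat.log_mono_right hSS)

lemma pow_ee_le (S : ℕ) : b ^ ee b S ≤ Nat.log b S + 1 := by
  unfold ee
  rcases Nat.eq_zero_or_pos (Nat.log b S) with h1 | h1
  · rw [h1]; simp
  · exact (Nat.pow_log_le_self b h1.ne').trans (Nat.le_succ _)

lemma isB_zero (β : ℕ) : isB b 0 β := by
  unfold isB ee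
  simp only [Nat.log_zero_right, pow_zero]
  exact Nat.modEq_one

lemma isB_of_ee {S β e : ℕ} (he : ee b S ≤ e) (hS : S ≡ β [MOD b ^ e]) : isB b S β :=
  hS.of_dvd (pow_dvd_pow b he)

lemma isB_congr {S β β' e : ℕ} (he : ee b S ≤ e) (hβ : β ≡ β' [MOD b ^ e]) :
    isB b S β ↔ isB b S β' := by
  unfold isB
  have h1 := hβ.of_dvd (pow_dvd_pow b he)
  exact ⟨fun h2 => h2.trans h1, fun h2 => h2.trans h1.symm⟩

lemma lastB_le (J β : ℕ) : lastB b J β ≤ J := Nat.findGreatest_le J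

lemma lastB_isB (J β : ℕ) : isB b (lastB b J β) β := by
  unfold lastB
  exact Nat.findGreatest_spec (P := fun S => isB b S β) (Nat.zero_le J) (isB_zero hb β)

lemma lastB_ge {J β S : ℕ} (hS : S ≤ J) (hB : isB b S β) : S ≤ lastB b J β := by
  unfold lastB
  exact Nat.le_findGreatest hS hB

lemma lastB_congr {J β β' : ℕ} (hβ : β ≡ β' [MOD b ^ ee b J]) : lastB b J β = lastB b J β' := by
  apply le_antisymm
  · apply lastB_ge hb (lastB_le hb J β)
    exact (isB_congr hb (ee_mono hb (lastB_le hb J β)) hβ).1 (lastB_isB hb J β)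
  · apply lastB_ge hb (lastB_le hb J β')
    exact (isB_congr hb (ee_mono hb (lastB_le hb J β')) hβ).2 (lastB_isB hb J β')

/-- among consecutive integers there is one in a given residue class -/
lemma exists_class (x m β : ℕ) (hm : 0 < m) : ∃ S, x < S ∧ S ≤ x + m ∧ S ≡ β [MOD m] := by
  refine ⟨x + 1 + (β + (m - 1) * (x + 1)) % m, by omega, ?_, ?_⟩
  · have := Nat.mod_lt (β + (m - 1) * (x + 1)) hm
    omega
  · have h1 : x + 1 + (β + (m - 1) * (x + 1)) % m ≡ x + 1 + (β + (m - 1) * (x + 1)) [MOD m] :=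
      Nat.ModEq.add_left _ (Nat.mod_modEq _ _)
    refine h1.trans ?_
    have h2 : x + 1 + (β + (m - 1) * (x + 1)) = β + m * (x + 1) := by
      obtain ⟨k, rfl⟩ : ∃ k, m = k + 1 := ⟨m - 1, by omega⟩
      simp only [Nat.add_sub_cancel]
      ring
    rw [h2]
    unfold Nat.ModEq
    rw [Nat.add_mul_mod_self_left]

lemma lastB_lower {J β : ℕ} (hJ : b ^ ee b J ≤ J) : J - b ^ ee b J < lastB b J β := by
  obtain ⟨S, h1, h2, h3⟩ := exists_class hb (J - b ^ ee b J) (b ^ ee b J) β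
    (pow_pos (by omega) _)
  have h4 : S ≤ J := by omega
  exact lt_of_lt_of_le h1 (lastB_ge hb h4 (isB_of_ee hb (ee_mono hb h4) h3))

/-- the next boundary is not far -/
lemma next_B (S β : ℕ) : ∃ S', S < S' ∧ S' ≤ S + b ^ (ee b S + 1) ∧ isB b S' β := by
  obtain ⟨S', h1, h2, h3⟩ := exists_class hb S (b ^ (ee b S + 1)) β (pow_pos (by omega) _)
  refine ⟨S', h1, h2, isB_of_ee hb ?_ h3⟩
  -- ee b S' ≤ ee b S + 1
  have h4 : b ^ (ee b S + 1) ≤ b * (Nat.log b S + 1) := by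
    rw [pow_succ, mul_comm]
    exact Nat.mul_le_mul_left b (pow_ee_le hb S)
  set L := Nat.log b S with hL
  have h5 : S < b ^ (L + 1) := Nat.lt_pow_succ_log_self (by omega) S
  have h6 : L + 1 ≤ b ^ L := by
    have := Nat.lt_pow_self (show 1 < b by omega) (n := L)
    omega
  have h7 : S' < b ^ (L + 3) := by
    have h8 : b * (L + 1) ≤ b ^ (L + 1) := by
      rw [pow_succ, mul_comm]; exact Nat.mul_le_mul_right b h6
    calc S' ≤ S + b ^ (ee b S + 1) := h2
      _ ≤ S + b ^ (L + 1) := Nat.add_le_add_left (h4.trans h8) _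
      _ < b ^ (L + 1) + b ^ (L + 1) := Nat.add_lt_add_right h5 _
      _ = 2 * b ^ (L + 1) := by ring
      _ ≤ b * b ^ (L + 1) := Nat.mul_le_mul_right _ hb
      _ = b ^ (L + 2) := by ring
      _ ≤ b ^ (L + 3) := Nat.pow_le_pow_right (by omega) (by omega)
  have h8 : Nat.log b S' < L + 3 := Nat.log_lt_of_lt_pow (by omega) h7
  have h9 : S' < b ^ (L + 2) := by
    have h8 : b * (L + 1) ≤ b ^ (L + 1) := by
      rw [pow_succ, mul_comm]; exact Nat.mul_le_mul_right b h6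
    calc S' ≤ S + b ^ (ee b S + 1) := h2
      _ ≤ S + b ^ (L + 1) := Nat.add_le_add_left (h4.trans h8) _
      _ < b ^ (L + 1) + b ^ (L + 1) := Nat.add_lt_add_right h5 _
      _ = 2 * b ^ (L + 1) := by ring
      _ ≤ b * b ^ (L + 1) := Nat.mul_le_mul_right _ hb
      _ = b ^ (L + 2) := by ring
  have h10 : Nat.log b S' < L + 2 := Nat.log_lt_of_lt_pow (by omega) h9
  have h11 : Nat.log b S' ≤ L + 1 := by omega
  unfold ee
  rcases Nat.eq_zero_or_pos L with h12 | h12
  · rw [← hL, h12]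
    have h13 : Nat.log b (Nat.log b S') ≤ Nat.log b 1 := Nat.log_mono_right (by omega)
    rw [Nat.log_one_right] at h13
    omega
  · have h13 : Nat.log b (Nat.log b S') ≤ Nat.log b (L * b) := by
      apply Nat.log_mono_right
      have : L + 1 ≤ L * b := by nlinarith
      omega
    rw [Nat.log_mul_base (by omega) (by omega)] at h13
    exact h13

lemma V0_eq_UU (i q τ : ℕ) (hτ : τ < b ^ q) : V h b H0 i q τ = UU h b i τ := by
  unfold UU
  have h1 : τ < b ^ τ := Nat.lt_pow_self (by omega)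
  rcases le_total q τ with h2 | h2
  · exact (V0_stable hb i τ hτ h2).symm
  · exact V0_stable hb i τ h1 h2

lemma UU_zero (i : ℕ) : UU h b i 0 = 0 := rfl

lemma UU_ge {i q τ : ℕ} (hi : i < h) (hq : b ^ q ≤ τ) : (b ^ h) ^ q ≤ UU h b i τ :=
  V0_ge hb hi q τ τ hq (Nat.lt_pow_self (by omega))

/-- elements as values for the hash function cut off at `S` -/
lemma el_eq_V (H : ℕ → ℕ → ℕ → ℕ) (i S β Q : ℕ) (hS : S ≤ Q) (hβ : β < b ^ Q) :
    V h b (Htr H S) i Q β = el h b H i S β := by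
  obtain ⟨q, rfl⟩ : ∃ q, Q = S + q := ⟨Q - S, by omega⟩
  rw [V_tr hb, V0_eq_UU hb]
  · rfl
  · rw [Nat.div_lt_iff_lt_mul (pow_pos (by omega) S), mul_comm, ← pow_add]
    exact hβ

lemma el_ge {H : ℕ → ℕ → ℕ → ℕ} {i S β q : ℕ} (hi : i < h) (hS : S ≤ q) (hq : b ^ q ≤ β) :
    (b ^ h) ^ q ≤ el h b H i S β := by
  obtain ⟨k, rfl⟩ : ∃ k, q = S + k := ⟨q - S, by omega⟩
  have h1 : b ^ k ≤ β / b ^ S := by
    rw [Nat.le_div_iff_mul_le (pow_pos (by omega) S), mul_comm, ← pow_add]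
    exact hq
  have h2 := UU_ge hb hi h1
  unfold el
  calc (b ^ h) ^ (S + k) = (b ^ h) ^ S * (b ^ h) ^ k := pow_add _ _ _
    _ ≤ (b ^ h) ^ S * UU h b i (β / b ^ S) := Nat.mul_le_mul_left _ h2
    _ ≤ _ := Nat.le_add_left _ _

lemma el_small {H : ℕ → ℕ → ℕ → ℕ} {i S β m : ℕ} (hi : i < h) (hm : m ≤ S)
    (hlt : el h b H i S β < (b ^ h) ^ m) : β < b ^ S ∧ el h b H i S β = V h b H i m β ∧
      V h b H i S β < (b ^ h) ^ m := by
  have h1 : β < b ^ S := by
    by_contra hcon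
    push Not at hcon
    have h2 := el_ge (H := H) hb hi le_rfl hcon
    have h3 : (b ^ h) ^ m ≤ (b ^ h) ^ S := Nat.pow_le_pow_right (B_pos hb) hm
    omega
  have h2 : el h b H i S β = V h b H i S β := by
    unfold el
    rw [Nat.div_eq_of_lt h1, UU_zero hb, mul_zero, add_zero]
  refine ⟨h1, ?_, by rw [← h2]; exact hlt⟩
  rw [h2]
  rw [h2] at hlt
  exact V_eq_of_lt hb H i β hm hlt

lemma el_lt_imp {H : ℕ → ℕ → ℕ → ℕ} {i S β m : ℕ} (hi : i < h) (hm : S ≤ m)
    (hlt : el h b H i S β < (b ^ h) ^ m) : β < b ^ m := by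
  by_contra hcon
  push Not at hcon
  have := el_ge (H := H) hb hi hm hcon
  omega

end

/-- the canonical hash function at the scale `J` -/
def Hc (b : ℕ) (H : ℕ → ℕ → ℕ → ℕ) (J : ℕ) : ℕ → ℕ → ℕ → ℕ :=
  fun q i γ => if q < ee b J ∨ q < lastB b J γ then H q i γ else 0

section

variable {h b : ℕ} (hb : 2 ≤ b)

include hb

lemma V_Hc (H : ℕ → ℕ → ℕ → ℕ) {i J Q β : ℕ} (hJ : ee b J ≤ lastB b J β) :
    V h b (Hc b H J) i Q β = V h b (Htr H (lastB b J β)) i Q β := by
  apply V_congr_H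
  intro q _
  unfold Hc Htr
  by_cases hq : q < ee b J
  · rw [if_pos (Or.inl hq), if_pos (by omega)]
  · have h1 : lastB b J (β % b ^ q) = lastB b J β := by
      apply lastB_congr hb
      exact (Nat.mod_modEq β (b ^ q)).of_dvd (pow_dvd_pow b (by omega))
    rw [h1]
    by_cases hq2 : q < lastB b J β
    · rw [if_pos (Or.inr hq2), if_pos hq2]
    · rw [if_neg (by tauto), if_neg hq2]

/-- scales at which everything is regular -/
def good (b J : ℕ) : Prop := b ^ ee b J ≤ J ∧ ∀ β, ee b J ≤ lastB b J β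

lemma good_eventually : ∀ᶠ J : ℕ in atTop, good b J := by
  filter_upwards [eventually_ge_atTop 16] with J hJ
  have h1 : 2 * (Nat.log b J + 1) ≤ J := by
    have h2 : Nat.log b J ≤ Nat.log 2 J := Nat.log_anti_left (by norm_num) hb
    have h3 : 2 ^ Nat.log 2 J ≤ J := Nat.pow_log_le_self 2 (by omega)
    set L := Nat.log 2 J with hL
    have h4 : 4 ≤ L := Nat.le_log_of_pow_le (by norm_num) (by omega)
    have h5 : 2 * (L + 1) ≤ 2 ^ L := by
      obtain ⟨k, hk⟩ : ∃ k, L = k + 4 := ⟨L - 4, by omega⟩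
      rw [hk]
      have h6 : k + 1 ≤ 2 ^ k := by
        have := Nat.lt_two_pow_self (n := k)
        omega
      rw [pow_add]
      omega
    omega
  have h2 := pow_ee_le hb J
  refine ⟨by omega, fun β => ?_⟩
  have h3 := lastB_lower hb (J := J) (β := β) (by omega)
  have h4 : ee b J < b ^ ee b J := Nat.lt_pow_self (by omega)
  omega

lemma adm_of_last {J β : ℕ} (hβ : β < b ^ (J + 2)) : adm b (lastB b J β) β := by
  refine ⟨lastB_isB hb J β, fun S' hS' hB => ?_⟩
  have h1 : J < S' := by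
    by_contra hcon
    push Not at hcon
    have := lastB_ge hb hcon hB
    omega
  exact lt_of_lt_of_le hβ (Nat.pow_le_pow_right (by omega) (by omega))

/-- the basis property at one scale -/
lemma basis_scale (hhb : h ≤ b ^ h) (H : ℕ → ℕ → ℕ → ℕ) {J n : ℕ} (hJ : good b J)
    (hn1 : h * (b ^ h) ^ J ≤ n) (hn2 : n < h * (b ^ h) ^ (J + 1)) :
    ∃ β : Fin h → ℕ, (∀ i, β i < b ^ (J + 2)) ∧
      ∑ i : Fin h, el h b H i (lastB b J (β i)) (β i) = n := by
  have hBpos : 0 < b ^ h := B_pos hb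
  obtain ⟨β, hβ, hs⟩ := bij_exists (h := h) hb (Hc b H J) J n
  set s := ∑ i : Fin h, V h b (Hc b H J) i J (β i) with hsdef
  have hsle : s ≤ h * (b ^ h) ^ J := by
    rw [hsdef]
    calc ∑ i : Fin h, V h b (Hc b H J) i J (β i) ≤ ∑ _i : Fin h, (b ^ h) ^ J :=
          Finset.sum_le_sum fun i _ => (V_lt hb _ _ _ _).le
      _ = h * (b ^ h) ^ J := by simp
  have hsn : s ≤ n := hsle.trans hn1
  obtain ⟨R, hR⟩ : ∃ R, n = s + (b ^ h) ^ J * R := by
    have h1 := (Nat.modEq_iff_dvd' hsn).1 hs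
    obtain ⟨R, hR⟩ := h1
    exact ⟨R, by omega⟩
  have hRlt : R < b ^ h * b ^ h := by
    have h1 : (b ^ h) ^ J * R < (b ^ h) ^ J * (b ^ h * b ^ h) := by
      calc (b ^ h) ^ J * R ≤ n := by omega
        _ < h * (b ^ h) ^ (J + 1) := hn2
        _ ≤ b ^ h * (b ^ h) ^ (J + 1) := Nat.mul_le_mul_right _ hhb
        _ = _ := by ring
    exact lt_of_mul_lt_mul_left h1 (Nat.zero_le _)
  obtain ⟨d0, hd0, hs0⟩ := digits_exist (h := h) (b := b) (by omega) (R % b ^ h)
    (Nat.mod_lt _ hBpos)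
  obtain ⟨d1, hd1, hs1⟩ := digits_exist (h := h) (b := b) (by omega) (R / b ^ h)
    ((Nat.div_lt_iff_lt_mul hBpos).2 hRlt)
  set β' : Fin h → ℕ := fun i => β i + b ^ J * (d0 i + b * d1 i) with hβ'
  have hdd : ∀ i, d0 i + b * d1 i < b * b := by
    intro i
    have h1 := hd0 i
    have h2 : b * (d1 i + 1) ≤ b * b := Nat.mul_le_mul_left b (hd1 i)
    rw [mul_add, mul_one] at h2
    omega
  have hβ'lt : ∀ i, β' i < b ^ (J + 2) := by
    intro i
    have h1 : b ^ J * (d0 i + b * d1 i + 1) ≤ b ^ J * (b * b) := Nat.mul_le_mul_left _ (hdd i)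
    calc β' i < b ^ J + b ^ J * (d0 i + b * d1 i) := Nat.add_lt_add_right (hβ i) _
      _ = b ^ J * (d0 i + b * d1 i + 1) := by ring
      _ ≤ b ^ J * (b * b) := h1
      _ = b ^ (J + 2) := by ring
  refine ⟨β', hβ'lt, ?_⟩
  have hbJ : 0 < b ^ J := pow_pos (by omega) J
  have hval : ∀ i : Fin h, el h b H i (lastB b J (β' i)) (β' i) =
      V h b (Hc b H J) i J (β i) + (b ^ h) ^ J * (b ^ (i : ℕ) * d0 i) +
        (b ^ h) ^ J * (b ^ h * (b ^ (i : ℕ) * d1 i)) := by
    intro i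
    rw [← el_eq_V hb H i (lastB b J (β' i)) (β' i) (J + 2)
      ((lastB_le hb J _).trans (by omega)) (hβ'lt i), ← V_Hc hb H (hJ.2 (β' i))]
    have hz : ∀ q, J ≤ q → ∀ γ, Hc b H J q i γ = 0 := by
      intro q hq γ
      unfold Hc
      have h1 : ¬ (q < ee b J ∨ q < lastB b J γ) := by
        have h2 := hJ.2 γ
        have h3 := lastB_le hb J γ
        omega
      rw [if_neg h1]
    have e0 : β' i / b ^ J = d0 i + b * d1 i := by
      rw [hβ']
      show (β i + b ^ J * (d0 i + b * d1 i)) / b ^ J = _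
      rw [Nat.add_mul_div_left _ _ hbJ, Nat.div_eq_of_lt (hβ i), zero_add]
    have e1 : β' i / b ^ J % b = d0 i := by
      rw [e0, Nat.add_mul_mod_self_left, Nat.mod_eq_of_lt (hd0 i)]
    have e2 : β' i / b ^ (J + 1) % b = d1 i := by
      rw [pow_succ, ← Nat.div_div_eq_div_mul, e0, Nat.add_mul_div_left _ _ (by omega : 0 < b),
        Nat.div_eq_of_lt (hd0 i), zero_add, Nat.mod_eq_of_lt (hd1 i)]
    have e3 : V h b (Hc b H J) i J (β' i) = V h b (Hc b H J) i J (β i) := by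
      apply V_congr_mod
      rw [hβ']
      show (β i + b ^ J * (d0 i + b * d1 i)) % b ^ J = _
      rw [Nat.add_mul_mod_self_left]
    have hlt : ∀ d, d < b → b ^ (i : ℕ) * d < b ^ h := by
      intro d hd
      calc b ^ (i : ℕ) * d < b ^ (i : ℕ) * b :=
            Nat.mul_lt_mul_of_pos_left hd (pow_pos (by omega) _)
        _ = b ^ ((i : ℕ) + 1) := (pow_succ _ _).symm
        _ ≤ b ^ h := Nat.pow_le_pow_right (by omega) i.2
    rw [show J + 2 = (J + 1) + 1 from rfl, V_succ, V_succ, e1, e2, e3, hz J le_rfl, hz (J + 1)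
      (by omega), add_zero, add_zero, Nat.mod_eq_of_lt (hlt _ (hd0 i)),
      Nat.mod_eq_of_lt (hlt _ (hd1 i)), pow_succ]
    ring
  simp_rw [hval]
  rw [Finset.sum_add_distrib, Finset.sum_add_distrib, ← Finset.mul_sum, ← Finset.mul_sum,
    ← Finset.mul_sum, hs0, hs1, ← hsdef, hR, add_assoc, ← mul_add]
  congr 2
  rw [add_comm]
  exact Nat.div_add_mod R (b ^ h)

end

end Pool.Agent.K9h24.NC
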