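import Pool.Agent.K9h24.NC10

/-!
Counting elements of the set.
-/

set_option autoImplicit false
set_option linter.unusedSectionVars false

open Finset Filter Topology

namespace Pool.Agent.K9h24.NC

open scoped Classical in
/-- admissible pairs below the level `m` with a given property -/
noncomputable def PP (b m : ℕ) (R : ℕ → Prop) : Finset (ℕ × ℕ) :=
  ((range m) ×ˢ (range (b ^ m))).filter (fun p => adm b p.1 p.2 ∧ R p.2)

lemma mem_PP {b m : ℕ} {R : ℕ → Prop} {p : ℕ × ℕ} :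
    p ∈ PP b m R ↔ (p.1 < m ∧ p.2 < b ^ m) ∧ adm b p.1 p.2 ∧ R p.2 := by
  unfold PP
  simp [Finset.mem_filter, Finset.mem_product]

open scoped Classical in
/-- the number of strings below `b ^ q` with a given property -/
noncomputable def RC (b q : ℕ) (R : ℕ → Prop) : ℕ := ((range (b ^ q)).filter R).card

section

variable {h b : ℕ} (hb : 2 ≤ b)

include hb

lemma geom_le (m : ℕ) : ∑ S ∈ range m, b ^ (S + 1) ≤ 2 * b ^ m := by
  induction m with
  | zero => simp
  | succ m ih =>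
    rw [Finset.sum_range_succ]
    calc ∑ S ∈ range m, b ^ (S + 1) + b ^ (m + 1) ≤ 2 * b ^ m + b ^ (m + 1) :=
          Nat.add_le_add_right ih _
      _ ≤ b * b ^ m + b ^ (m + 1) := Nat.add_le_add_right (Nat.mul_le_mul_right _ hb) _
      _ = 2 * b ^ (m + 1) := by ring

lemma card_PP (m : ℕ) (R : ℕ → Prop) :
    (PP b m R).card ≤ ∑ S ∈ range m, RC b (S + 1) R + RC b m R := by
  classical
  have h1 : PP b m R ⊆ (PP b m R).filter (fun p => p.2 < b ^ (p.1 + 1)) ∪
      (PP b m R).filter (fun p => ¬ p.2 < b ^ (p.1 + 1)) := by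
    intro p hp
    rw [Finset.mem_union, Finset.mem_filter, Finset.mem_filter]
    by_cases h2 : p.2 < b ^ (p.1 + 1)
    · exact Or.inl ⟨hp, h2⟩
    · exact Or.inr ⟨hp, h2⟩
  refine (Finset.card_le_card h1).trans ((Finset.card_union_le _ _).trans (Nat.add_le_add ?_ ?_))
  · have h2 : (PP b m R).filter (fun p => p.2 < b ^ (p.1 + 1)) ⊆
        (range m).biUnion (fun S => ((range (b ^ (S + 1))).filter R).image (fun β => (S, β))) := by
      intro p hp
      obtain ⟨h3, h4⟩ := Finset.mem_filter.1 hp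
      unfold PP at h3
      obtain ⟨h5, h6⟩ := Finset.mem_filter.1 h3
      rw [Finset.mem_product] at h5
      rw [Finset.mem_biUnion]
      refine ⟨p.1, h5.1, ?_⟩
      rw [Finset.mem_image]
      exact ⟨p.2, Finset.mem_filter.2 ⟨Finset.mem_range.2 h4, h6.2⟩, rfl⟩
    refine (Finset.card_le_card h2).trans (Finset.card_biUnion_le.trans ?_)
    refine Finset.sum_le_sum fun S _ => ?_
    unfold RC
    exact Finset.card_image_le
  · unfold RC
    apply Finset.card_le_card_of_injOn (fun p => p.2)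
    · intro p hp
      rw [Finset.mem_coe, Finset.mem_filter] at hp
      unfold PP at hp
      obtain ⟨h5, h6⟩ := Finset.mem_filter.1 hp.1
      rw [Finset.mem_product] at h5
      rw [Finset.mem_coe, Finset.mem_filter]
      exact ⟨h5.2, h6.2⟩
    · intro p hp p' hp' he
      rw [Finset.mem_coe, Finset.mem_filter] at hp hp'
      have he' : p.2 = p'.2 := he
      unfold PP at hp hp'
      obtain ⟨_, h6, _⟩ := Finset.mem_filter.1 hp.1
      obtain ⟨_, h6', _⟩ := Finset.mem_filter.1 hp'.1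
      rcases lt_trichotomy p.1 p'.1 with h7 | h7 | h7
      · exfalso
        have h8 := h6.2 p'.1 h7 (by rw [he']; exact h6'.1)
        rw [he'] at h8
        exact hp'.2 h8
      · exact Prod.ext h7 he'
      · exfalso
        have h8 := h6'.2 p.1 h7 (by rw [← he']; exact h6.1)
        rw [← he'] at h8
        exact hp.2 h8

lemma card_PP_true (m : ℕ) : (PP b m (fun _ => True)).card ≤ 3 * b ^ m := by
  have h1 := card_PP hb m (fun _ => True)
  have h2 : ∀ q, RC b q (fun _ => True) = b ^ q := by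
    intro q
    unfold RC
    simp
  simp_rw [h2] at h1
  have h3 := geom_le hb m
  omega

open scoped Classical in
/-- a finite set containing the elements of the set below `(b ^ h) ^ m` -/
noncomputable def EE (h b : ℕ) (H : ℕ → ℕ → ℕ → ℕ) (m : ℕ) : Finset ℕ :=
  (range h).biUnion (fun i => (range (b ^ m)).image (fun γ => V h b H i m γ) ∪
    (PP b m (fun _ => True)).image (fun p => el h b H i p.1 p.2))

lemma mem_EE (H : ℕ → ℕ → ℕ → ℕ) {m a : ℕ} (ha : a ∈ AA h b H) (hlt : a < (b ^ h) ^ m) :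
    a ∈ EE h b H m := by
  classical
  obtain ⟨i, hi, S, β, hadm, rfl⟩ := ha
  unfold EE
  rw [Finset.mem_biUnion]
  refine ⟨i, Finset.mem_range.2 hi, ?_⟩
  rw [Finset.mem_union, Finset.mem_image, Finset.mem_image]
  rcases Nat.lt_or_ge S m with hS | hS
  · right
    refine ⟨(S, β), ?_, rfl⟩
    exact mem_PP.2 ⟨⟨hS, el_lt_imp hb hi hS.le hlt⟩, hadm, trivial⟩
  · left
    obtain ⟨_, h2, _⟩ := el_small hb hi hS hlt
    refine ⟨β % b ^ m, Finset.mem_range.2 (Nat.mod_lt _ (pow_pos (by omega) m)), ?_⟩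
    rw [V_mod_arg, h2]

lemma card_EE (H : ℕ → ℕ → ℕ → ℕ) (m : ℕ) : (EE h b H m).card ≤ 4 * h * b ^ m := by
  classical
  unfold EE
  refine Finset.card_biUnion_le.trans ?_
  calc ∑ i ∈ range h, ((range (b ^ m)).image (fun γ => V h b H i m γ) ∪
        (PP b m (fun _ => True)).image (fun p => el h b H i p.1 p.2)).card
      ≤ ∑ _i ∈ range h, (b ^ m + 3 * b ^ m) := by
        refine Finset.sum_le_sum fun i _ => ?_
        refine (Finset.card_union_le _ _).trans (Nat.add_le_add ?_ ?_)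
        · exact Finset.card_image_le.trans (by rw [Finset.card_range])
        · exact Finset.card_image_le.trans (card_PP_true hb m)
    _ = 4 * h * b ^ m := by rw [Finset.sum_const, Finset.card_range, smul_eq_mul]; ring

/-- the set is thin -/
lemma AA_thin (hh : 1 ≤ h) (H : ℕ → ℕ → ℕ → ℕ) (x : ℕ) (hx : 1 ≤ x) :
    ((AA h b H ∩ Set.Iic x).ncard : ℝ) ≤ (4 * h * b : ℕ) * (x : ℝ) ^ ((1 : ℝ) / h) := by
  have hhr : (0 : ℝ) < (h : ℝ) := by exact_mod_cast hh
  have hB2 := B_ge (h := h) hb hh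
  set m := Nat.log (b ^ h) x with hm
  have h1 : (b ^ h) ^ m ≤ x := Nat.pow_log_le_self _ (by omega)
  have h2 : x < (b ^ h) ^ (m + 1) := Nat.lt_pow_succ_log_self (by omega) x
  have h3 : AA h b H ∩ Set.Iic x ⊆ (EE h b H (m + 1) : Set ℕ) := by
    rintro a ⟨ha, hax⟩
    exact Finset.mem_coe.2 (mem_EE hb H ha (lt_of_le_of_lt hax h2))
  have h4 := Set.ncard_le_ncard h3 (Finset.finite_toSet _)
  rw [Set.ncard_coe_finset] at h4
  have h5 : ((AA h b H ∩ Set.Iic x).ncard : ℝ) ≤ ((4 * h * b ^ (m + 1) : ℕ) : ℝ) := by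
    exact_mod_cast h4.trans (card_EE hb H (m + 1))
  refine h5.trans ?_
  have h6 : ((b ^ m : ℕ) : ℝ) ≤ (x : ℝ) ^ ((1 : ℝ) / h) := by
    have h7 : (((b ^ m : ℕ) : ℝ)) ^ (h : ℝ) ≤ (x : ℝ) := by
      rw [Real.rpow_natCast]
      have h8 : (b ^ m) ^ h ≤ x := by
        calc (b ^ m) ^ h = (b ^ h) ^ m := by rw [← pow_mul, ← pow_mul, mul_comm]
          _ ≤ x := h1
      exact_mod_cast h8
    have h8 := Real.rpow_le_rpow (by positivity) h7 (by positivity : (0 : ℝ) ≤ 1 / h)
    rw [← Real.rpow_mul (by positivity), mul_one_div_cancel hhr.ne', Real.rpow_one] at h8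
    exact h8
  have h9 : ((4 * h * b ^ (m + 1) : ℕ) : ℝ) = ((4 * h * b : ℕ) : ℝ) * ((b ^ m : ℕ) : ℝ) := by
    rw [← Nat.cast_mul]
    congr 1
    ring
  rw [h9]
  exact mul_le_mul_of_nonneg_left h6 (Nat.cast_nonneg _)

/-- codes for the elements below `(b ^ h) ^ m` -/
lemma code (H : ℕ → ℕ → ℕ → ℕ) {m a : ℕ} (ha : a ∈ AA h b H) (hlt : a < (b ^ h) ^ m) :
    ∃ i < h, ∃ S ≤ m, ∃ τ < b ^ (b * (Nat.log b m + 1) + 1), ∃ γ < b ^ S,
      a = V h b H i S γ + (b ^ h) ^ S * UU h b i τ := by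
  obtain ⟨i, hi, S, β, hadm, rfl⟩ := ha
  rcases Nat.lt_or_ge S m with hS | hS
  · refine ⟨i, hi, S, hS.le, β / b ^ S, ?_, β % b ^ S, Nat.mod_lt _ (pow_pos (by omega) S), ?_⟩
    · obtain ⟨S', h1, h2, h3⟩ := next_B hb S β
      have h4 := hadm.2 S' h1 h3
      rw [Nat.div_lt_iff_lt_mul (pow_pos (by omega) S), ← pow_add]
      refine lt_of_lt_of_le h4 (Nat.pow_le_pow_right (by omega) ?_)
      have h5 : b ^ (ee b S + 1) ≤ b * (Nat.log b m + 1) := by
        rw [pow_succ, mul_comm]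
        apply Nat.mul_le_mul_left
        exact (pow_ee_le hb S).trans (Nat.succ_le_succ (Nat.log_mono_right hS.le))
      omega
    · unfold el
      rw [V_mod_arg]
  · obtain ⟨_, h2, _⟩ := el_small hb hi hS hlt
    refine ⟨i, hi, m, le_rfl, 0, pow_pos (by omega) _, β % b ^ m,
      Nat.mod_lt _ (pow_pos (by omega) m), ?_⟩
    rw [h2, V_mod_arg, UU_zero hb, mul_zero, add_zero]

end

/-- the unordered representation function -/
noncomputable def rr (A : Set ℕ) (h n : ℕ) : ℕ :=
  Set.ncard {s : Multiset ℕ | Multiset.card s = h ∧ (∀ a ∈ s, a ∈ A) ∧ s.sum = n}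

/-- every multiset of cardinality `h` comes from a tuple -/
lemma exists_tuple {h : ℕ} (s : Multiset ℕ) (hs : Multiset.card s = h) :
    ∃ φ : Fin h → ℕ, Finset.univ.val.map φ = s := by
  obtain ⟨l, rfl⟩ := Quot.exists_rep s
  change Multiset.card (l : Multiset ℕ) = h at hs
  rw [Multiset.coe_card] at hs
  subst hs
  refine ⟨fun i => l.get i, ?_⟩
  show Multiset.map (fun i => l.get i) (Finset.univ.val) = (l : Multiset ℕ)
  rw [Fin.univ_val_map]
  simp

lemma rr_le {A : Set ℕ} {h n : ℕ} (T : Finset (Fin h → ℕ))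
    (hT : ∀ φ : Fin h → ℕ, (∀ k, φ k ∈ A) → ∑ k, φ k = n → φ ∈ T) : rr A h n ≤ T.card := by
  classical
  unfold rr
  have h1 : {s : Multiset ℕ | Multiset.card s = h ∧ (∀ a ∈ s, a ∈ A) ∧ s.sum = n} ⊆
      ((T.image (fun φ => Finset.univ.val.map φ) : Finset (Multiset ℕ)) : Set (Multiset ℕ)) := by
    rintro s ⟨h2, h3, h4⟩
    obtain ⟨φ, rfl⟩ := exists_tuple s h2
    rw [Finset.mem_coe, Finset.mem_image]
    refine ⟨φ, hT φ (fun k => h3 _ ?_) h4, rfl⟩
    exact Multiset.mem_map_of_mem φ (Finset.mem_univ_val k)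
  have h2 := Set.ncard_le_ncard h1 (Finset.finite_toSet _)
  rw [Set.ncard_coe_finset] at h2
  exact h2.trans Finset.card_image_le

/-- the bound for the representation function at one scale -/
lemma rr_bound {h b : ℕ} (hb : 2 ≤ b) {g : ℝ} (hg : 1 ≤ g) {H : ℕ → ℕ → ℕ → ℕ} {m : ℕ}
    (hPhi : Phi h b g m H ≤ Real.exp (g * ((m : ℝ) + 1) ^ 2)) {n : ℕ} (hn : n < (b ^ h) ^ m) :
    (rr (AA h b H) h n : ℝ) ≤ ((h * (m + 1) * b ^ (b * (Nat.log b m + 1) + 1) : ℕ) : ℝ) ^ h *
      (Kst ((b ^ h : ℕ) : ℝ) g h * ((m : ℝ) + 1) ^ (3 * h)) := by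
  classical
  set T0 := b ^ (b * (Nat.log b m + 1) + 1) with hT0
  -- the index set
  set Ind : Finset (Fin h → ℕ × ℕ × ℕ) :=
    Fintype.piFinset (fun _ => (range h) ×ˢ ((range (m + 1)) ×ˢ (range T0))) with hInd
  have hIc : Ind.card = (h * (m + 1) * T0) ^ h := by
    rw [hInd, Fintype.card_piFinset]
    simp only [Finset.card_product, Finset.card_range, Finset.prod_const, Finset.card_univ,
      Fintype.card_fin]
    congr 1
    ring
  set T : Finset (Fin h → ℕ) := Ind.biUnion (fun c =>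
    (TT h b H m (fun k => (c k).1) (fun k => (c k).2.1)
      (n - ∑ k, (b ^ h) ^ (c k).2.1 * UU h b (c k).1 (c k).2.2)).image
      (fun γ k => V h b H (c k).1 (c k).2.1 (γ k) + (b ^ h) ^ (c k).2.1 * UU h b (c k).1 (c k).2.2))
    with hT
  have h1 : rr (AA h b H) h n ≤ T.card := by
    apply rr_le
    intro φ hφ hs
    have hφn : ∀ k, φ k < (b ^ h) ^ m := by
      intro k
      refine lt_of_le_of_lt ?_ hn
      rw [← hs]
      exact Finset.single_le_sum (f := φ) (fun _ _ => Nat.zero_le _) (Finset.mem_univ k)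
    choose i hi S hS τ hτ γ hγ he using fun k => code hb H (hφ k) (hφn k)
    rw [hT, Finset.mem_biUnion]
    refine ⟨fun k => (i k, S k, τ k), ?_, ?_⟩
    · rw [hInd, Fintype.mem_piFinset]
      intro k
      rw [Finset.mem_product, Finset.mem_product, Finset.mem_range, Finset.mem_range,
        Finset.mem_range]
      exact ⟨hi k, Nat.lt_succ_of_le (hS k), hτ k⟩
    · rw [Finset.mem_image]
      refine ⟨γ, ?_, ?_⟩
      · rw [mem_TT]
        refine ⟨hγ, ?_⟩
        have h2 : SV h b H i S γ = n - ∑ k, (b ^ h) ^ (S k) * UU h b (i k) (τ k) := by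
          have h3 : n = SV h b H i S γ + ∑ k, (b ^ h) ^ (S k) * UU h b (i k) (τ k) := by
            rw [← hs]
            unfold SV
            rw [← Finset.sum_add_distrib]
            exact Finset.sum_congr rfl fun k _ => he k
          omega
        show SV h b H i S γ ≡ n - ∑ k, (b ^ h) ^ (S k) * UU h b (i k) (τ k) [MOD (b ^ h) ^ m]
        rw [h2]
      · funext k
        exact (he k).symm
  have h2 : (T.card : ℝ) ≤ ∑ _c ∈ Ind, Kst ((b ^ h : ℕ) : ℝ) g h * ((m : ℝ) + 1) ^ (3 * h) := by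
    have h3 : T.card ≤ ∑ c ∈ Ind, (TT h b H m (fun k => (c k).1) (fun k => (c k).2.1)
        (n - ∑ k, (b ^ h) ^ (c k).2.1 * UU h b (c k).1 (c k).2.2)).card := by
      refine Finset.card_biUnion_le.trans (Finset.sum_le_sum fun c _ => Finset.card_image_le)
    have h4 : (T.card : ℝ) ≤ ∑ c ∈ Ind, ((TT h b H m (fun k => (c k).1) (fun k => (c k).2.1)
        (n - ∑ k, (b ^ h) ^ (c k).2.1 * UU h b (c k).1 (c k).2.2)).card : ℝ) := by
      exact_mod_cast h3
    refine h4.trans (Finset.sum_le_sum fun c hc => ?_)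
    rw [hInd, Fintype.mem_piFinset] at hc
    apply card_le_of_Phi hb hg hPhi le_rfl
    · intro k
      have := hc k
      rw [Finset.mem_product] at this
      exact Finset.mem_range.1 this.1
    · intro k
      have := hc k
      rw [Finset.mem_product, Finset.mem_product, Finset.mem_range, Finset.mem_range] at this
      omega
  calc (rr (AA h b H) h n : ℝ) ≤ T.card := by exact_mod_cast h1
    _ ≤ _ := h2
    _ = _ := by rw [Finset.sum_const, nsmul_eq_mul, hIc]; push_cast; ring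

end Pool.Agent.K9h24.NC
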