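import Pool.Agent.K9h24.NC11

/-!
Few elements of the set are bad at a given scale.
-/

set_option autoImplicit false
set_option linter.unusedSectionVars false

open Finset Filter Topology

namespace Pool.Agent.K9h24.NC

/-- the bad phases -/
def Rb (b J t : ℕ) (β : ℕ) : Prop := ∃ S, J - t ≤ S ∧ S ≤ J + t ∧ isB b S β

/-- the elements of the set which are bad at the scale `J` -/
def Bad (h b : ℕ) (H : ℕ → ℕ → ℕ → ℕ) (J : ℕ) : Set ℕ :=
  {a | a ∈ AA h b H ∧ a < (b ^ h) ^ (J + 2) ∧
    ¬ ∃ i < h, ∃ β < b ^ (J + 2), a = el h b H i (lastB b J β) β}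

section

variable {h b : ℕ} (hb : 2 ≤ b)

include hb

lemma card_modEq_le (e q v : ℕ) :
    ((range (b ^ q)).filter (fun β => v ≡ β [MOD b ^ e])).card ≤ b ^ q / b ^ e + 1 := by
  have h1 : ((range (b ^ q)).filter (fun β => v ≡ β [MOD b ^ e])).card ≤
      (range (b ^ q / b ^ e + 1)).card := by
    apply Finset.card_le_card_of_injOn (fun β => β / b ^ e)
    · intro β hβ
      rw [Finset.mem_coe, Finset.mem_filter, Finset.mem_range] at hβ
      rw [Finset.mem_coe, Finset.mem_range]
      exact Nat.lt_succ_of_le (Nat.div_le_div_right hβ.1.le)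
    · intro β hβ β' hβ' he
      rw [Finset.mem_coe, Finset.mem_filter] at hβ hβ'
      have he' : β / b ^ e = β' / b ^ e := he
      have h2 : β % b ^ e = β' % b ^ e := (hβ.2.symm.trans hβ'.2)
      rw [← Nat.div_add_mod β (b ^ e), ← Nat.div_add_mod β' (b ^ e), he', h2]
  rwa [Finset.card_range] at h1

/-- few strings have a bad phase -/
lemma RC_Rb (J t q : ℕ) : RC b q (Rb b J t) ≤ (2 * t + 1) * (b ^ q / b ^ ee b (J - t) + 1) := by
  classical
  have h1 : (range (b ^ q)).filter (Rb b J t) ⊆ (Finset.Icc (J - t) (J + t)).biUnion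
      (fun S => (range (b ^ q)).filter (fun β => S ≡ β [MOD b ^ ee b (J - t)])) := by
    intro β hβ
    obtain ⟨h2, S, h3, h4, h5⟩ := Finset.mem_filter.1 hβ
    rw [Finset.mem_biUnion]
    refine ⟨S, Finset.mem_Icc.2 ⟨h3, h4⟩, Finset.mem_filter.2 ⟨h2, ?_⟩⟩
    exact h5.of_dvd (pow_dvd_pow b (ee_mono hb h3))
  have h2 : RC b q (Rb b J t) ≤ ((Finset.Icc (J - t) (J + t)).biUnion
      (fun S => (range (b ^ q)).filter (fun β => S ≡ β [MOD b ^ ee b (J - t)]))).card := by
    unfold RC
    convert Finset.card_le_card h1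
  refine h2.trans (Finset.card_biUnion_le.trans ?_)
  calc ∑ S ∈ Finset.Icc (J - t) (J + t),
        ((range (b ^ q)).filter (fun β => S ≡ β [MOD b ^ ee b (J - t)])).card
      ≤ ∑ _S ∈ Finset.Icc (J - t) (J + t), (b ^ q / b ^ ee b (J - t) + 1) :=
        Finset.sum_le_sum fun S _ => card_modEq_le hb _ _ _
    _ = (Finset.Icc (J - t) (J + t)).card * (b ^ q / b ^ ee b (J - t) + 1) := by
        rw [Finset.sum_const, smul_eq_mul]
    _ ≤ _ := by
        apply Nat.mul_le_mul_right
        rw [Nat.card_Icc]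
        omega

open scoped Classical in
/-- a finite set containing the bad elements -/
noncomputable def BF (h b : ℕ) (H : ℕ → ℕ → ℕ → ℕ) (J t : ℕ) : Finset ℕ :=
  (range h).biUnion (fun i =>
    (((range (b ^ (J + t + 1))).filter
      (fun γ => V h b H i (J + t + 1) γ < (b ^ h) ^ (J + 2))).image
        (fun γ => V h b H i (J + 2) γ) ∪
    ((range (b ^ (J + 2))).filter (Rb b J t)).image (fun γ => V h b H i (J + 2) γ)) ∪
    ((PP b (J + 2) (Rb b J t)).image (fun p => el h b H i p.1 p.2) ∪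
    (PP b (J - t) (fun _ => True)).image (fun p => el h b H i p.1 p.2)))

lemma mem_BF (H : ℕ → ℕ → ℕ → ℕ) {J t a : ℕ} (ht : 1 ≤ t) (htJ : ee b (J + t) ≤ J)
    (ha : a ∈ Bad h b H J) : a ∈ BF h b H J t := by
  classical
  obtain ⟨⟨i, hi, S, β, hadm, rfl⟩, hlt, hbad⟩ := ha
  have hSL : S ≠ lastB b J β := by
    intro hc
    apply hbad
    refine ⟨i, hi, β, ?_, by rw [← hc]⟩
    apply el_lt_imp hb hi _ hlt
    rw [hc]
    exact (lastB_le hb J β).trans (by omega)
  unfold BF
  rw [Finset.mem_biUnion]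
  refine ⟨i, Finset.mem_range.2 hi, ?_⟩
  rw [Finset.mem_union, Finset.mem_union, Finset.mem_union]
  have hbp : ∀ q, 0 < b ^ q := fun q => pow_pos (by omega) q
  rcases Nat.lt_or_ge (J + t) S with h1 | h1
  · -- far boundary
    left; left
    obtain ⟨h2, h3, h4⟩ := el_small hb hi (show J + 2 ≤ S by omega) hlt
    rw [Finset.mem_image]
    refine ⟨β % b ^ (J + t + 1), ?_, ?_⟩
    · rw [Finset.mem_filter, Finset.mem_range]
      refine ⟨Nat.mod_lt _ (hbp _), ?_⟩
      rw [V_mod_arg]
      exact lt_of_le_of_lt (V_mono H i β (by omega)) h4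
    · rw [h3]
      apply V_congr_mod
      exact Nat.mod_mod_of_dvd _ (pow_dvd_pow b (by omega))
  · rcases Nat.lt_or_ge J S with h2 | h2
    · -- a near boundary
      rcases Nat.lt_or_ge S (J + 2) with h3 | h3
      · right; left
        rw [Finset.mem_image]
        refine ⟨(S, β), ?_, rfl⟩
        rw [mem_PP]
        exact ⟨⟨h3, el_lt_imp hb hi h3.le hlt⟩, hadm, S, by omega, h1, hadm.1⟩
      · left; right
        obtain ⟨_, h4, _⟩ := el_small hb hi h3 hlt
        rw [Finset.mem_image]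
        refine ⟨β % b ^ (J + 2), ?_, ?_⟩
        · rw [Finset.mem_filter, Finset.mem_range]
          refine ⟨Nat.mod_lt _ (hbp _), S, by omega, h1, ?_⟩
          have h5 : ee b S ≤ J + 2 := (ee_mono hb h1).trans (by omega)
          exact (isB_congr hb h5 (Nat.mod_modEq _ _).symm).1 hadm.1
        · rw [V_mod_arg, h4]
    · -- below
      have h3 : S < lastB b J β := lt_of_le_of_ne (lastB_ge hb h2 hadm.1) hSL
      have h4 := hadm.2 _ h3 (lastB_isB hb J β)
      have h5 := lastB_le hb J β
      rcases Nat.lt_or_ge (lastB b J β) (J - t) with h6 | h6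
      · right; right
        rw [Finset.mem_image]
        refine ⟨(S, β), ?_, rfl⟩
        rw [mem_PP]
        refine ⟨⟨by omega, ?_⟩, hadm, trivial⟩
        exact lt_of_lt_of_le h4 (Nat.pow_le_pow_right (by omega) (by omega))
      · right; left
        rw [Finset.mem_image]
        refine ⟨(S, β), ?_, rfl⟩
        rw [mem_PP]
        refine ⟨⟨by omega, ?_⟩, hadm, lastB b J β, h6, by omega, lastB_isB hb J β⟩
        exact lt_of_lt_of_le h4 (Nat.pow_le_pow_right (by omega) (by omega))

lemma Bad_finite (H : ℕ → ℕ → ℕ → ℕ) (J : ℕ) : (Bad h b H J).Finite :=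
  (Set.finite_Iio ((b ^ h) ^ (J + 2))).subset fun _ ha => ha.2.1

lemma card_BF (H : ℕ → ℕ → ℕ → ℕ) (J t : ℕ) :
    (BF h b H J t).card ≤ ∑ i ∈ range h, (CC h b H i (J + t + 1) (J + 2) +
      (RC b (J + 2) (Rb b J t) + (∑ S ∈ range (J + 2), RC b (S + 1) (Rb b J t) +
        RC b (J + 2) (Rb b J t)) + 3 * b ^ (J - t))) := by
  classical
  unfold BF
  refine Finset.card_biUnion_le.trans (Finset.sum_le_sum fun i _ => ?_)
  refine (Finset.card_union_le _ _).trans ?_
  have h1 := Finset.card_union_le (((range (b ^ (J + t + 1))).filter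
      (fun γ => V h b H i (J + t + 1) γ < (b ^ h) ^ (J + 2))).image
        (fun γ => V h b H i (J + 2) γ))
    (((range (b ^ (J + 2))).filter (Rb b J t)).image (fun γ => V h b H i (J + 2) γ))
  have h2 := Finset.card_union_le ((PP b (J + 2) (Rb b J t)).image (fun p => el h b H i p.1 p.2))
    ((PP b (J - t) (fun _ => True)).image (fun p => el h b H i p.1 p.2))
  have h3 : (((range (b ^ (J + t + 1))).filter
      (fun γ => V h b H i (J + t + 1) γ < (b ^ h) ^ (J + 2))).image
        (fun γ => V h b H i (J + 2) γ)).card ≤ CC h b H i (J + t + 1) (J + 2) := by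
    unfold CC
    exact Finset.card_image_le
  have h4 : (((range (b ^ (J + 2))).filter (Rb b J t)).image
      (fun γ => V h b H i (J + 2) γ)).card ≤ RC b (J + 2) (Rb b J t) := by
    unfold RC
    exact Finset.card_image_le
  have h5 : ((PP b (J + 2) (Rb b J t)).image (fun p => el h b H i p.1 p.2)).card ≤
      ∑ S ∈ range (J + 2), RC b (S + 1) (Rb b J t) + RC b (J + 2) (Rb b J t) :=
    Finset.card_image_le.trans (card_PP hb _ _)
  have h6 : ((PP b (J - t) (fun _ => True)).image (fun p => el h b H i p.1 p.2)).card ≤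
      3 * b ^ (J - t) := Finset.card_image_le.trans (card_PP_true hb _)
  omega

end

end Pool.Agent.K9h24.NC
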