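import Pool.Agent.K9h24.NC12

/-!
The bad elements are rare.
-/

set_option autoImplicit false
set_option linter.unusedSectionVars false

open Finset Filter Topology

namespace Pool.Agent.K9h24.NC

section

variable {h b : ℕ} (hb : 2 ≤ b)

include hb

lemma tendsto_ee : Tendsto (fun S => ee b S) atTop atTop := by
  rw [tendsto_atTop_atTop]
  intro c
  refine ⟨b ^ (b ^ c), fun S hS => ?_⟩
  unfold ee
  apply Nat.le_log_of_pow_le (by omega)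
  apply Nat.le_log_of_pow_le (by omega)
  exact hS

lemma real_div_le (q e : ℕ) : ((b ^ q / b ^ e : ℕ) : ℝ) ≤ (b : ℝ) ^ q / (b : ℝ) ^ e := by
  have := @Nat.cast_div_le ℝ _ _ _ (b ^ q) (b ^ e)
  rw [Nat.cast_pow, Nat.cast_pow] at this
  exact this

lemma RC_real (J t q : ℕ) : (RC b q (Rb b J t) : ℝ) ≤
    (2 * t + 1) * ((b : ℝ) ^ q / (b : ℝ) ^ ee b (J - t) + 1) := by
  have h1 : (RC b q (Rb b J t) : ℝ) ≤ (((2 * t + 1) * (b ^ q / b ^ ee b (J - t) + 1) : ℕ) : ℝ) := by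
    exact_mod_cast RC_Rb hb J t q
  refine h1.trans ?_
  rw [Nat.cast_mul, Nat.cast_add, Nat.cast_mul, Nat.cast_add]
  push_cast
  have h2 := real_div_le hb q (ee b (J - t))
  gcongr

lemma sum_RC_real (J t : ℕ) : (∑ S ∈ range (J + 2), (RC b (S + 1) (Rb b J t) : ℝ)) ≤
    (2 * t + 1) * (2 * (b : ℝ) ^ (J + 2) / (b : ℝ) ^ ee b (J - t) + (J + 2)) := by
  calc (∑ S ∈ range (J + 2), (RC b (S + 1) (Rb b J t) : ℝ))
      ≤ ∑ S ∈ range (J + 2), (2 * (t : ℝ) + 1) *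
          ((b : ℝ) ^ (S + 1) / (b : ℝ) ^ ee b (J - t) + 1) :=
        Finset.sum_le_sum fun S _ => RC_real hb J t (S + 1)
    _ = (2 * (t : ℝ) + 1) * ((∑ S ∈ range (J + 2), (b : ℝ) ^ (S + 1)) / (b : ℝ) ^ ee b (J - t) +
          (J + 2)) := by
        rw [← Finset.mul_sum, Finset.sum_add_distrib, Finset.sum_div]
        simp
    _ ≤ _ := by
        have h1 : (∑ S ∈ range (J + 2), (b : ℝ) ^ (S + 1)) ≤ 2 * (b : ℝ) ^ (J + 2) := by
          have := geom_le hb (J + 2)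
          exact_mod_cast this
        have hbr : (0 : ℝ) < b := by
          have : 0 < b := by omega
          exact_mod_cast this
        gcongr

lemma card_BF_real (H : ℕ → ℕ → ℕ → ℕ)
    (hCC : ∀ i < h, ∀ m t, CC h b H i (m + t) m * 2 ^ t ≤ b ^ m + 2 ^ t) {J u : ℕ}
    (hJ : u + 1 ≤ J) :
    ((BF h b H J (u + 1)).card : ℝ) ≤ (b : ℝ) ^ J * (h * (((b : ℝ) ^ 2 + 3) / 2 ^ u)) +
      (b : ℝ) ^ J * (h * (1 / (b : ℝ) ^ J + (2 * u + 3) *
        (4 * (b : ℝ) ^ 2 / (b : ℝ) ^ ee b (J - (u + 1)) + (J + 4) / (b : ℝ) ^ J))) := by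
  have hbr : (2 : ℝ) ≤ b := by exact_mod_cast hb
  have hb0 : (0 : ℝ) < b := by linarith
  set e := ee b (J - (u + 1)) with he
  have h1 := card_BF hb H J (u + 1) (h := h)
  have h1r : ((BF h b H J (u + 1)).card : ℝ) ≤ ∑ i ∈ range h,
      ((CC h b H i (J + (u + 1) + 1) (J + 2) : ℝ) +
      ((RC b (J + 2) (Rb b J (u + 1)) : ℝ) + (∑ S ∈ range (J + 2),
        (RC b (S + 1) (Rb b J (u + 1)) : ℝ) +
        (RC b (J + 2) (Rb b J (u + 1)) : ℝ)) + 3 * (b : ℝ) ^ (J - (u + 1)))) := by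
    exact_mod_cast h1
  refine h1r.trans ?_
  have hterm : ∀ i ∈ range h, ((CC h b H i (J + (u + 1) + 1) (J + 2) : ℝ) +
      ((RC b (J + 2) (Rb b J (u + 1)) : ℝ) + (∑ S ∈ range (J + 2),
        (RC b (S + 1) (Rb b J (u + 1)) : ℝ) +
        (RC b (J + 2) (Rb b J (u + 1)) : ℝ)) + 3 * (b : ℝ) ^ (J - (u + 1)))) ≤
      (b : ℝ) ^ J * (((b : ℝ) ^ 2 + 3) / 2 ^ u) +
      (b : ℝ) ^ J * (1 / (b : ℝ) ^ J + (2 * u + 3) *
        (4 * (b : ℝ) ^ 2 / (b : ℝ) ^ e + (J + 4) / (b : ℝ) ^ J)) := by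
    intro i hi
    have h2 : (CC h b H i (J + (u + 1) + 1) (J + 2) : ℝ) ≤ (b : ℝ) ^ (J + 2) / 2 ^ u + 1 := by
      have h3 := hCC i (Finset.mem_range.1 hi) (J + 2) u
      have h4 : J + 2 + u = J + (u + 1) + 1 := by ring
      rw [h4] at h3
      have h5 : (CC h b H i (J + (u + 1) + 1) (J + 2) : ℝ) * 2 ^ u ≤ (b : ℝ) ^ (J + 2) + 2 ^ u := by
        exact_mod_cast h3
      have h6 : (0 : ℝ) < 2 ^ u := by positivity
      rw [← div_self h6.ne', ← add_div, le_div_iff₀ h6]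
      exact h5
    have h3 := RC_real hb J (u + 1) (J + 2)
    have h4 := sum_RC_real hb J (u + 1)
    rw [← he] at h3 h4
    push_cast at h3 h4
    have h5 : (b : ℝ) ^ (J - (u + 1)) ≤ (b : ℝ) ^ J / 2 ^ u := by
      have h6 : (0 : ℝ) < 2 ^ u := by positivity
      rw [le_div_iff₀ h6]
      have h7 : (2 : ℝ) ^ u ≤ (b : ℝ) ^ (u + 1) := by
        calc (2 : ℝ) ^ u ≤ (b : ℝ) ^ u := pow_le_pow_left₀ (by norm_num) hbr u
          _ ≤ (b : ℝ) ^ (u + 1) := pow_le_pow_right₀ (by linarith) (Nat.le_succ u)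
      calc (b : ℝ) ^ (J - (u + 1)) * 2 ^ u ≤ (b : ℝ) ^ (J - (u + 1)) * (b : ℝ) ^ (u + 1) := by
            gcongr
        _ = (b : ℝ) ^ J := by rw [← pow_add]; congr 1; omega
    have h6 : (b : ℝ) ^ J * (((b : ℝ) ^ 2 + 3) / 2 ^ u) +
        (b : ℝ) ^ J * (1 / (b : ℝ) ^ J + (2 * u + 3) *
        (4 * (b : ℝ) ^ 2 / (b : ℝ) ^ e + (J + 4) / (b : ℝ) ^ J)) =
        (b : ℝ) ^ (J + 2) / 2 ^ u + 3 * ((b : ℝ) ^ J / 2 ^ u) + 1 +
        (2 * u + 3) * (4 * ((b : ℝ) ^ (J + 2) / (b : ℝ) ^ e) + (J + 4)) := by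
      have h7 : (b : ℝ) ^ J ≠ 0 := by positivity
      have h8 : (b : ℝ) ^ e ≠ 0 := by positivity
      field_simp
      ring
    rw [h6]
    have h7 : 2 * (b : ℝ) ^ (J + 2) / (b : ℝ) ^ e = 2 * ((b : ℝ) ^ (J + 2) / (b : ℝ) ^ e) :=
      mul_div_assoc _ _ _
    rw [h7] at h4
    have h8 : (2 * (u : ℝ) + 3) * (4 * ((b : ℝ) ^ (J + 2) / (b : ℝ) ^ e) + (J + 4)) =
        2 * ((2 * ((u : ℝ) + 1) + 1) * ((b : ℝ) ^ (J + 2) / (b : ℝ) ^ e + 1)) +
        ((2 * ((u : ℝ) + 1) + 1) * (2 * ((b : ℝ) ^ (J + 2) / (b : ℝ) ^ e) + (J + 2))) := by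
      ring
    rw [h8]
    linarith
  refine (Finset.sum_le_sum hterm).trans (le_of_eq ?_)
  rw [Finset.sum_const, Finset.card_range, nsmul_eq_mul]
  ring

lemma Bad_small (H : ℕ → ℕ → ℕ → ℕ)
    (hCC : ∀ i < h, ∀ m t, CC h b H i (m + t) m * 2 ^ t ≤ b ^ m + 2 ^ t) {ε : ℝ} (hε : 0 < ε) :
    ∀ᶠ J : ℕ in atTop, ((Bad h b H J).ncard : ℝ) ≤ ε * (b : ℝ) ^ J := by
  have hbr : (2 : ℝ) ≤ b := by exact_mod_cast hb
  have hb0 : (0 : ℝ) < b := by linarith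
  -- choice of `u`
  obtain ⟨u, hu⟩ : ∃ u : ℕ, (h : ℝ) * (((b : ℝ) ^ 2 + 3) / 2 ^ u) ≤ ε / 2 := by
    have h1 : Tendsto (fun u : ℕ => (h : ℝ) * (((b : ℝ) ^ 2 + 3) / 2 ^ u)) atTop (𝓝 0) := by
      have h2 : Tendsto (fun u : ℕ => ((b : ℝ) ^ 2 + 3) / 2 ^ u) atTop (𝓝 0) :=
        tendsto_const_nhds.div_atTop (tendsto_pow_atTop_atTop_of_one_lt (by norm_num))
      simpa using h2.const_mul (h : ℝ)
    obtain ⟨u, hu⟩ := (h1.eventually (gt_mem_nhds (show (0 : ℝ) < ε / 2 by linarith))).exists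
    exact ⟨u, hu.le⟩
  -- the other terms
  have h1 : Tendsto (fun J : ℕ => (h : ℝ) * (1 / (b : ℝ) ^ J + (2 * u + 3) *
      (4 * (b : ℝ) ^ 2 / (b : ℝ) ^ ee b (J - (u + 1)) + (J + 4) / (b : ℝ) ^ J))) atTop (𝓝 0) := by
    have hpow : Tendsto (fun J : ℕ => (b : ℝ) ^ J) atTop atTop :=
      tendsto_pow_atTop_atTop_of_one_lt (by linarith)
    have h2 : Tendsto (fun J : ℕ => 1 / (b : ℝ) ^ J) atTop (𝓝 0) := tendsto_const_nhds.div_atTop hpow
    have h3 : Tendsto (fun J : ℕ => 4 * (b : ℝ) ^ 2 / (b : ℝ) ^ ee b (J - (u + 1))) atTop (𝓝 0) := by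
      apply tendsto_const_nhds.div_atTop
      exact hpow.comp ((tendsto_ee hb).comp (tendsto_sub_atTop_nat (u + 1)))
    have h4 : Tendsto (fun J : ℕ => ((J : ℝ) + 4) / (b : ℝ) ^ J) atTop (𝓝 0) := by
      have h5 := tendsto_pow_const_div_const_pow_of_one_lt 1 (show (1 : ℝ) < b by linarith)
      have h6 : Tendsto (fun J : ℕ => 4 / (b : ℝ) ^ J) atTop (𝓝 0) :=
        tendsto_const_nhds.div_atTop hpow
      have h7 := h5.add h6
      rw [add_zero] at h7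
      refine h7.congr fun J => ?_
      rw [pow_one, add_div]
    have h5 := (h2.add ((h3.add h4).const_mul (2 * (u : ℝ) + 3))).const_mul (h : ℝ)
    simpa using h5
  have h2 := h1.eventually (gt_mem_nhds (show (0 : ℝ) < ε / 2 by linarith))
  have h3 : ∀ᶠ J : ℕ in atTop, ee b (J + (u + 1)) ≤ J := by
    filter_upwards [eventually_ge_atTop (u + 4)] with J hJ
    have h4 := pow_ee_le hb (J + (u + 1))
    have h5 : ee b (J + (u + 1)) < b ^ ee b (J + (u + 1)) := Nat.lt_pow_self (by omega)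
    have h6 : Nat.log b (J + (u + 1)) < J + 1 := by
      apply Nat.log_lt_of_lt_pow (by omega)
      have h7 : J < 2 ^ J := Nat.lt_two_pow_self
      calc J + (u + 1) < 2 ^ J + 2 ^ J := by omega
        _ = 2 ^ (J + 1) := by ring
        _ ≤ b ^ (J + 1) := Nat.pow_le_pow_left hb _
    omega
  filter_upwards [h2, h3, eventually_ge_atTop (u + 1)] with J hJ1 hJ2 hJ3
  have h4 : Bad h b H J ⊆ (BF h b H J (u + 1) : Set ℕ) := by
    intro a ha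
    exact Finset.mem_coe.2 (mem_BF hb H (by omega) hJ2 ha)
  have h5 := Set.ncard_le_ncard h4 (Finset.finite_toSet _)
  rw [Set.ncard_coe_finset] at h5
  have h6 : ((Bad h b H J).ncard : ℝ) ≤ ((BF h b H J (u + 1)).card : ℝ) := by exact_mod_cast h5
  refine h6.trans ((card_BF_real hb H hCC hJ3).trans ?_)
  have h7 : (0 : ℝ) < (b : ℝ) ^ J := by positivity
  calc _ ≤ (b : ℝ) ^ J * (ε / 2) + (b : ℝ) ^ J * (ε / 2) :=
        add_le_add (mul_le_mul_of_nonneg_left hu h7.le) (mul_le_mul_of_nonneg_left hJ1.le h7.le)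
    _ = ε * (b : ℝ) ^ J := by ring

end

end Pool.Agent.K9h24.NC
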