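import Pool.Agent.K9h24.NC13

/-!
The exceptional numbers of a scale.
-/

set_option autoImplicit false
set_option linter.unusedSectionVars false

open Finset Filter Topology

namespace Pool.Agent.K9h24.NC

/-- the exceptional numbers of the scale `J` -/
def XX (h b : ℕ) (H : ℕ → ℕ → ℕ → ℕ) (J : ℕ) : Set ℕ :=
  {n | h * (b ^ h) ^ J ≤ n ∧ n < h * (b ^ h) ^ (J + 1) ∧ rr (AA h b H) h n ≠ 1}

section

variable {h b : ℕ} (hb : 2 ≤ b)

include hb

/-- two ways to be exceptional -/
lemma XX_sub (hhb : h ≤ b ^ h) (H : ℕ → ℕ → ℕ → ℕ) {J n : ℕ} (hJ : good b J)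
    (hn : n ∈ XX h b H J) :
    (∃ φ : Fin h → ℕ, (∀ k, φ k ∈ AA h b H ∧ φ k < (b ^ h) ^ (J + 2)) ∧
      (∃ k, φ k ∈ Bad h b H J) ∧ ∑ k, φ k = n) ∨
    (∃ i ∈ NS h, (TT h b H (J - b ^ ee b J) i (fun _ => J - b ^ ee b J) n).Nonempty) := by
  classical
  obtain ⟨hn1, hn2, hn3⟩ := hn
  obtain ⟨βc, hβc, hsc⟩ := basis_scale hb hhb H hJ hn1 hn2
  set φc : Fin h → ℕ := fun i => el h b H i (lastB b J (βc i)) (βc i) with hφc
  set s0 : Multiset ℕ := Finset.univ.val.map φc with hs0def
  have hs0 : s0 ∈ {s : Multiset ℕ | Multiset.card s = h ∧ (∀ a ∈ s, a ∈ AA h b H) ∧ s.sum = n} := by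
    refine ⟨by rw [hs0def]; simp, ?_, hsc⟩
    intro a ha
    rw [hs0def, Multiset.mem_map] at ha
    obtain ⟨i, _, rfl⟩ := ha
    exact ⟨i, i.2, lastB b J (βc i), βc i, adm_of_last hb (hβc i), rfl⟩
  have hex : ∃ s ∈ {s : Multiset ℕ | Multiset.card s = h ∧ (∀ a ∈ s, a ∈ AA h b H) ∧ s.sum = n},
      s ≠ s0 := by
    by_contra hcon
    push Not at hcon
    apply hn3
    unfold rr
    rw [Set.ncard_eq_one]
    exact ⟨s0, Set.eq_singleton_iff_unique_mem.2 ⟨hs0, hcon⟩⟩
  obtain ⟨s, ⟨hs1, hs2, hs3⟩, hs4⟩ := hex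
  obtain ⟨φ, rfl⟩ := exists_tuple s hs1
  have hφA : ∀ k, φ k ∈ AA h b H := fun k =>
    hs2 _ (Multiset.mem_map_of_mem φ (Finset.mem_univ_val k))
  have hφs : ∑ k, φ k = n := hs3
  have hnB : n < (b ^ h) ^ (J + 2) := by
    refine lt_of_lt_of_le hn2 ?_
    calc h * (b ^ h) ^ (J + 1) ≤ b ^ h * (b ^ h) ^ (J + 1) := Nat.mul_le_mul_right _ hhb
      _ = (b ^ h) ^ (J + 2) := by ring
  have hφn : ∀ k, φ k < (b ^ h) ^ (J + 2) := by
    intro k
    refine lt_of_le_of_lt ?_ hnB
    rw [← hφs]
    exact Finset.single_le_sum (f := φ) (fun _ _ => Nat.zero_le _) (Finset.mem_univ k)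
  by_cases hbad : ∃ k, φ k ∈ Bad h b H J
  · left
    exact ⟨φ, fun k => ⟨hφA k, hφn k⟩, hbad, hφs⟩
  · right
    push Not at hbad
    have hnorm : ∀ k, ∃ i < h, ∃ β < b ^ (J + 2), φ k = el h b H i (lastB b J β) β := by
      intro k
      by_contra hcon
      exact hbad k ⟨hφA k, hφn k, hcon⟩
    choose i hi β hβ he using hnorm
    by_cases hsurj : ∀ c < h, ∃ k, i k = c
    · exfalso
      set f : Fin h → Fin h := fun k => ⟨i k, hi k⟩ with hf
      have hfs : Function.Surjective f := by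
        intro c
        obtain ⟨k, hk⟩ := hsurj c c.2
        exact ⟨k, Fin.ext hk⟩
      have hfb : Function.Bijective f := Finite.surjective_iff_bijective.1 hfs
      set σ : Fin h ≃ Fin h := Equiv.ofBijective f hfb with hσ
      set β' : Fin h → ℕ := fun c => β (σ.symm c) with hβ'
      set φ' : Fin h → ℕ := fun c => el h b H c (lastB b J (β' c)) (β' c) with hφ'
      have hφφ : ∀ k, φ k = φ' (σ k) := by
        intro k
        rw [he k, hφ', hβ']
        simp only [Equiv.symm_apply_apply]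
        rfl
      have hsum' : ∑ c, φ' c = n := by
        rw [← hφs, ← Equiv.sum_comp σ φ']
        exact Finset.sum_congr rfl fun k _ => (hφφ k).symm
      have hval : ∀ (c : Fin h) (γ : ℕ), γ < b ^ (J + 2) →
          V h b (Hc b H J) c (J + 2) γ = el h b H c (lastB b J γ) γ := by
        intro c γ hγ
        rw [V_Hc hb H (hJ.2 γ), el_eq_V hb H c _ γ (J + 2) ((lastB_le hb J γ).trans (by omega)) hγ]
      have huniq := bij_unique hb (Hc b H J) (J + 2) β' βc (by
        have e1 : ∑ c : Fin h, V h b (Hc b H J) c (J + 2) (β' c) = n := by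
          rw [← hsum']
          exact Finset.sum_congr rfl fun c _ => hval c (β' c) (hβ _)
        have e2 : ∑ c : Fin h, V h b (Hc b H J) c (J + 2) (βc c) = n := by
          rw [← hsc]
          exact Finset.sum_congr rfl fun c _ => hval c (βc c) (hβc _)
        rw [e1, e2])
      have hββ : β' = βc := by
        funext c
        have h1 := huniq c
        rwa [Nat.mod_eq_of_lt (hβ _), Nat.mod_eq_of_lt (hβc _)] at h1
      apply hs4
      have h1 : φ = φ' ∘ σ := funext hφφ
      have h2 : φ' = φc := by rw [hφ', hφc, hββ]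
      rw [hs0def, ← h2, h1, ← Multiset.map_map, Multiset.map_univ_val_equiv]
    · push Not at hsurj
      obtain ⟨c0, hc0, hc0'⟩ := hsurj
      refine ⟨i, ?_, ?_⟩
      · unfold NS
        rw [Finset.mem_filter]
        exact ⟨mem_Pi.2 hi, c0, hc0, hc0'⟩
      · set P := J - b ^ ee b J with hP
        refine ⟨fun k => β k % b ^ P, ?_⟩
        rw [mem_TT]
        refine ⟨fun k => Nat.mod_lt _ (pow_pos (by omega) P), ?_⟩
        rw [← hφs]
        unfold SV
        apply Nat.ModEq.sum
        intro k _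
        rw [V_mod_arg, he k]
        unfold el
        have h1 : P ≤ lastB b J (β k) := (lastB_lower hb hJ.1).le
        have h2 : (b ^ h) ^ P ∣ (b ^ h) ^ lastB b J (β k) *
            UU h b (i k) (β k / b ^ lastB b J (β k)) := Dvd.dvd.mul_right (pow_dvd_pow _ h1) _
        unfold Nat.ModEq
        rw [Nat.add_mod, Nat.mod_eq_zero_of_dvd h2, add_zero, Nat.mod_mod, V_mod hb H _ _ h1,
          Nat.mod_eq_of_lt (V_lt hb H _ _ _)]

lemma count_mul (H : ℕ → ℕ → ℕ → ℕ) (P M : ℕ) (i : Fin h → ℕ) :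
    ((range ((b ^ h) ^ P * M)).filter (fun n => (TT h b H P i (fun _ => P) n).Nonempty)).card ≤
    M * ((range ((b ^ h) ^ P)).filter (fun n => (TT h b H P i (fun _ => P) n).Nonempty)).card := by
  classical
  have hBP : 0 < (b ^ h) ^ P := pow_pos (B_pos hb) P
  rw [← Finset.card_range M, ← Finset.card_product, Finset.card_range M]
  apply Finset.card_le_card_of_injOn (fun n => (n / (b ^ h) ^ P, n % (b ^ h) ^ P))
  · intro n hn
    rw [Finset.mem_coe, Finset.mem_filter, Finset.mem_range] at hn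
    rw [Finset.mem_coe, Finset.mem_product, Finset.mem_range, Finset.mem_filter, Finset.mem_range]
    refine ⟨?_, Nat.mod_lt _ hBP, ?_⟩
    · rw [Nat.div_lt_iff_lt_mul hBP, mul_comm]
      exact hn.1
    · show (TT h b H P i (fun _ => P) (n % (b ^ h) ^ P)).Nonempty
      rw [TT_mod hb]
      exact hn.2
  · intro n _ n' _ he
    have h1 := (Prod.mk.injEq _ _ _ _).mp he
    rw [← Nat.div_add_mod n ((b ^ h) ^ P), ← Nat.div_add_mod n' ((b ^ h) ^ P), h1.1, h1.2]

/-- the number of exceptional numbers of a scale -/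
lemma XX_card (hhb : h ≤ b ^ h) (H : ℕ → ℕ → ℕ → ℕ) {J : ℕ} (hJ : good b J) :
    (XX h b H J).ncard ≤ h * ((Bad h b H J).ncard * (4 * h * b ^ (J + 2)) ^ (h - 1)) +
      h * (b ^ h) ^ (b ^ ee b J + 1) * dn h b (J - b ^ ee b J) H := by
  classical
  set P := J - b ^ ee b J with hP
  have hJ1 : b ^ ee b J ≤ J := hJ.1
  set BS : Finset ℕ := (Bad_finite hb H J).toFinset with hBS
  set F1 : Finset ℕ := (Finset.univ : Finset (Fin h)).biUnion (fun k =>
    (Fintype.piFinset (fun j => if j = k then BS else EE h b H (J + 2))).image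
      (fun φ => ∑ j, φ j)) with hF1
  set F2 : Finset ℕ := (NS h).biUnion (fun i =>
    (range ((b ^ h) ^ P * (h * (b ^ h) ^ (b ^ ee b J + 1)))).filter
      (fun n => (TT h b H P i (fun _ => P) n).Nonempty)) with hF2
  have hsub : XX h b H J ⊆ ((F1 ∪ F2 : Finset ℕ) : Set ℕ) := by
    intro n hn
    rw [Finset.mem_coe, Finset.mem_union]
    rcases XX_sub hb hhb H hJ hn with ⟨φ, hφ, ⟨k, hk⟩, hs⟩ | ⟨i, hi, hne⟩
    · left
      rw [hF1, Finset.mem_biUnion]
      refine ⟨k, Finset.mem_univ k, ?_⟩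
      rw [Finset.mem_image]
      refine ⟨φ, ?_, hs⟩
      rw [Fintype.mem_piFinset]
      intro j
      by_cases hj : j = k
      · rw [if_pos hj, hBS, Set.Finite.mem_toFinset, hj]
        exact hk
      · rw [if_neg hj]
        exact mem_EE hb H (hφ j).1 (hφ j).2
    · right
      rw [hF2, Finset.mem_biUnion]
      refine ⟨i, hi, ?_⟩
      rw [Finset.mem_filter, Finset.mem_range]
      refine ⟨?_, hne⟩
      have h1 : (b ^ h) ^ P * (h * (b ^ h) ^ (b ^ ee b J + 1)) = h * (b ^ h) ^ (J + 1) := by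
        have h2 : J + 1 = P + (b ^ ee b J + 1) := by omega
        rw [h2, pow_add (b ^ h) P]
        ring
      rw [h1]
      exact hn.2.1
  have h1 := Set.ncard_le_ncard hsub (Finset.finite_toSet _)
  rw [Set.ncard_coe_finset] at h1
  refine h1.trans ((Finset.card_union_le _ _).trans (Nat.add_le_add ?_ ?_))
  · have hBc : BS.card = (Bad h b H J).ncard := by
      rw [hBS, Set.ncard_eq_toFinset_card _ (Bad_finite hb H J)]
    rw [hF1]
    refine Finset.card_biUnion_le.trans ?_
    calc ∑ k : Fin h, ((Fintype.piFinset (fun j => if j = k then BS else EE h b H (J + 2))).image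
          (fun φ => ∑ j, φ j)).card
        ≤ ∑ _k : Fin h, ((Bad h b H J).ncard * (4 * h * b ^ (J + 2)) ^ (h - 1)) := by
          refine Finset.sum_le_sum fun k _ => Finset.card_image_le.trans ?_
          rw [Fintype.card_piFinset, ← Finset.mul_prod_erase Finset.univ _ (Finset.mem_univ k),
            if_pos rfl, hBc]
          apply Nat.mul_le_mul_left
          calc ∏ j ∈ Finset.univ.erase k, (if j = k then BS else EE h b H (J + 2)).card
              ≤ ∏ _j ∈ Finset.univ.erase k, (4 * h * b ^ (J + 2)) := by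
                refine Finset.prod_le_prod' fun j hj => ?_
                rw [if_neg (Finset.ne_of_mem_erase hj)]
                exact card_EE hb H (J + 2)
            _ = (4 * h * b ^ (J + 2)) ^ (h - 1) := by
                rw [Finset.prod_const, Finset.card_erase_of_mem (Finset.mem_univ k),
                  Finset.card_univ, Fintype.card_fin]
      _ = _ := by rw [Finset.sum_const, Finset.card_univ, Fintype.card_fin, smul_eq_mul]
  · rw [hF2]
    refine Finset.card_biUnion_le.trans ?_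
    unfold dn
    rw [Finset.mul_sum]
    refine Finset.sum_le_sum fun i _ => ?_
    convert count_mul hb H P (h * (b ^ h) ^ (b ^ ee b J + 1)) i

end

end Pool.Agent.K9h24.NC
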