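import Pool.Agent.K9h24.NC14

/-!
Density and assembly.
-/

set_option autoImplicit false
set_option linter.unusedSectionVars false

open Finset Filter Topology

namespace Pool.Agent.K9h24.NC

section

variable {h b : ℕ} (hb : 2 ≤ b)

include hb

lemma log_half {J : ℕ} (hJ : 16 ≤ J) : 2 * (Nat.log b J + 1) ≤ J := by
  have h2 : Nat.log b J ≤ Nat.log 2 J := Nat.log_anti_left (by norm_num) hb
  have h3 : 2 ^ Nat.log 2 J ≤ J := Nat.pow_log_le_self 2 (by omega)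
  set L := Nat.log 2 J with hL
  have h4 : 4 ≤ L := Nat.le_log_of_pow_le (by norm_num) (by omega)
  have h5 : 2 * (L + 1) ≤ 2 ^ L := by
    obtain ⟨k, hk⟩ : ∃ k, L = k + 4 := ⟨L - 4, by omega⟩
    rw [hk]
    have h6 : k + 1 ≤ 2 ^ k := by
      have := Nat.lt_two_pow_self (n := k)
      omega
    rw [pow_add]
    omega
  omega

lemma tendsto_P : Tendsto (fun J => J - b ^ ee b J) atTop atTop := by
  rw [tendsto_atTop_atTop]
  intro c
  refine ⟨2 * c + 16, fun J hJ => ?_⟩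
  have h1 := log_half hb (J := J) (by omega)
  have h2 := pow_ee_le hb J
  omega

/-- exceptional numbers are rare -/
lemma XX_small (hh : 1 ≤ h) (hhb : h ≤ b ^ h) (H : ℕ → ℕ → ℕ → ℕ)
    (hCC : ∀ i < h, ∀ m t, CC h b H i (m + t) m * 2 ^ t ≤ b ^ m + 2 ^ t)
    (hDr : Tendsto (fun J => Dr h b J H) atTop (𝓝 0)) {ε : ℝ} (hε : 0 < ε) :
    ∀ᶠ J : ℕ in atTop, ((XX h b H J).ncard : ℝ) ≤ ε * (((b ^ h) ^ J : ℕ) : ℝ) := by
  have hbr : (2 : ℝ) ≤ b := by exact_mod_cast hb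
  have hb0 : (0 : ℝ) < b := by linarith
  have hhr : (0 : ℝ) < h := by exact_mod_cast hh
  set K : ℝ := h * (4 * h * (b : ℝ) ^ 2) ^ (h - 1) with hK
  have hK0 : 0 < K := by positivity
  have hBr : (0 : ℝ) < (b : ℝ) ^ h := by positivity
  have h1 := Bad_small hb H hCC (h := h) (show (0 : ℝ) < ε / (2 * K) by positivity)
  have h2 := (hDr.comp (tendsto_P hb)).eventually
    (gt_mem_nhds (show (0 : ℝ) < ε / (2 * (h * (b : ℝ) ^ h)) by positivity))
  filter_upwards [h1, h2, good_eventually hb] with J hJ1 hJ2 hJ3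
  have h3 := XX_card hb hhb H hJ3
  have h3r : ((XX h b H J).ncard : ℝ) ≤ (h : ℝ) * (((Bad h b H J).ncard : ℝ) *
      (4 * h * (b : ℝ) ^ (J + 2)) ^ (h - 1)) +
      h * ((b : ℝ) ^ h) ^ (b ^ ee b J + 1) * (dn h b (J - b ^ ee b J) H : ℝ) := by
    exact_mod_cast h3
  refine h3r.trans ?_
  set P := J - b ^ ee b J with hP
  have hPJ : P + (b ^ ee b J + 1) = J + 1 := by
    have := hJ3.1
    omega
  have h4 : (dn h b P H : ℝ) = Dr h b P H * ((b : ℝ) ^ h) ^ P := by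
    unfold Dr
    push_cast
    rw [div_mul_cancel₀ _ (by positivity)]
  have h5 : (Dr h b P H : ℝ) ≤ ε / (2 * (h * (b : ℝ) ^ h)) := hJ2.le
  have h6 : (h : ℝ) * (((Bad h b H J).ncard : ℝ) * (4 * h * (b : ℝ) ^ (J + 2)) ^ (h - 1)) ≤
      ε / 2 * ((b : ℝ) ^ h) ^ J := by
    have h7 : (4 * (h : ℝ) * (b : ℝ) ^ (J + 2)) ^ (h - 1) =
        (4 * h * (b : ℝ) ^ 2) ^ (h - 1) * ((b : ℝ) ^ J) ^ (h - 1) := by
      rw [← mul_pow]
      congr 1
      ring
    rw [h7]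
    calc (h : ℝ) * (((Bad h b H J).ncard : ℝ) * ((4 * h * (b : ℝ) ^ 2) ^ (h - 1) *
          ((b : ℝ) ^ J) ^ (h - 1))) = K * ((b : ℝ) ^ J) ^ (h - 1) * ((Bad h b H J).ncard : ℝ) := by
          rw [hK]; ring
      _ ≤ K * ((b : ℝ) ^ J) ^ (h - 1) * (ε / (2 * K) * (b : ℝ) ^ J) :=
          mul_le_mul_of_nonneg_left hJ1 (by positivity)
      _ = ε / 2 * (((b : ℝ) ^ J) ^ (h - 1) * (b : ℝ) ^ J) := by
          field_simp
      _ = ε / 2 * ((b : ℝ) ^ h) ^ J := by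
          rw [← pow_succ, Nat.sub_add_cancel hh, ← pow_mul, ← pow_mul, mul_comm J h]
  have h8 : (h : ℝ) * ((b : ℝ) ^ h) ^ (b ^ ee b J + 1) * (dn h b P H : ℝ) ≤
      ε / 2 * ((b : ℝ) ^ h) ^ J := by
    rw [h4]
    calc (h : ℝ) * ((b : ℝ) ^ h) ^ (b ^ ee b J + 1) * (Dr h b P H * ((b : ℝ) ^ h) ^ P)
        = h * (((b : ℝ) ^ h) ^ P * ((b : ℝ) ^ h) ^ (b ^ ee b J + 1)) * Dr h b P H := by ring
      _ = h * ((b : ℝ) ^ h) ^ (J + 1) * Dr h b P H := by rw [← pow_add, hPJ]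
      _ ≤ h * ((b : ℝ) ^ h) ^ (J + 1) * (ε / (2 * (h * (b : ℝ) ^ h))) :=
          mul_le_mul_of_nonneg_left h5 (by positivity)
      _ = ε / 2 * ((b : ℝ) ^ h) ^ J := by
          rw [pow_succ]
          field_simp
  push_cast
  linarith

lemma count_scale (H : ℕ → ℕ → ℕ → ℕ) (J : ℕ) :
    ({n | rr (AA h b H) h n ≠ 1} ∩ Set.Iio (h * (b ^ h) ^ (J + 1))).ncard ≤
    ({n | rr (AA h b H) h n ≠ 1} ∩ Set.Iio (h * (b ^ h) ^ J)).ncard + (XX h b H J).ncard := by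
  have h1 : {n | rr (AA h b H) h n ≠ 1} ∩ Set.Iio (h * (b ^ h) ^ (J + 1)) ⊆
      ({n | rr (AA h b H) h n ≠ 1} ∩ Set.Iio (h * (b ^ h) ^ J)) ∪ XX h b H J := by
    rintro n ⟨h1, h2⟩
    rcases Nat.lt_or_ge n (h * (b ^ h) ^ J) with h3 | h3
    · exact Or.inl ⟨h1, h3⟩
    · exact Or.inr ⟨h3, h2, h1⟩
  have hf : (({n | rr (AA h b H) h n ≠ 1} ∩ Set.Iio (h * (b ^ h) ^ J)) ∪ XX h b H J).Finite := by
    apply Set.Finite.union
    · exact (Set.finite_Iio _).subset Set.inter_subset_right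
    · exact (Set.finite_Iio (h * (b ^ h) ^ (J + 1))).subset fun n hn => hn.2.1
  exact (Set.ncard_le_ncard h1 hf).trans (Set.ncard_union_le _ _)

/-- the density of the exceptional numbers -/
theorem density_zero (hh : 1 ≤ h) (hhb : h ≤ b ^ h) (H : ℕ → ℕ → ℕ → ℕ)
    (hCC : ∀ i < h, ∀ m t, CC h b H i (m + t) m * 2 ^ t ≤ b ^ m + 2 ^ t)
    (hDr : Tendsto (fun J => Dr h b J H) atTop (𝓝 0)) :
    Tendsto (fun N : ℕ => (({n | rr (AA h b H) h n ≠ 1} ∩ Set.Iio N).ncard : ℝ) / N) atTop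
      (𝓝 0) := by
  have hB2 := B_ge (h := h) hb hh
  have hBpos : 0 < b ^ h := B_pos hb
  have hB2r : (2 : ℝ) ≤ ((b ^ h : ℕ) : ℝ) := by exact_mod_cast hB2
  set B : ℕ := b ^ h with hB
  set Z : Set ℕ := {n | rr (AA h b H) h n ≠ 1} with hZ
  have hmono : ∀ N N' : ℕ, N ≤ N' → (Z ∩ Set.Iio N).ncard ≤ (Z ∩ Set.Iio N').ncard := by
    intro N N' hN
    apply Set.ncard_le_ncard
    · exact Set.inter_subset_inter_right _ (Set.Iio_subset_Iio hN)
    · exact (Set.finite_Iio _).subset Set.inter_subset_right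
  rw [Metric.tendsto_atTop]
  intro δ hδ
  set ε : ℝ := δ / (8 * B) with hε
  have hε0 : 0 < ε := by positivity
  obtain ⟨J0, hJ0⟩ := eventually_atTop.1 (XX_small hb hh hhb H hCC hDr hε0)
  set C0 : ℝ := ((Z ∩ Set.Iio (h * B ^ J0)).ncard : ℝ) with hC0
  have hC00 : 0 ≤ C0 := Nat.cast_nonneg _
  have hind : ∀ J, J0 ≤ J → ((Z ∩ Set.Iio (h * B ^ J)).ncard : ℝ) ≤ C0 + 2 * ε * (B : ℝ) ^ J := by
    intro J hJ
    induction J, hJ using Nat.le_induction with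
    | base =>
      have : (0 : ℝ) ≤ 2 * ε * (B : ℝ) ^ J0 := by positivity
      linarith
    | succ J hJ ih =>
      have h1 : ((Z ∩ Set.Iio (h * B ^ (J + 1))).ncard : ℝ) ≤
          ((Z ∩ Set.Iio (h * B ^ J)).ncard : ℝ) + ((XX h b H J).ncard : ℝ) := by
        exact_mod_cast count_scale hb H J
      have h2 := hJ0 J hJ
      push_cast at h2
      have h3 : (0 : ℝ) ≤ (B : ℝ) ^ J := by positivity
      have h4 : (B : ℝ) ^ (J + 1) = B * (B : ℝ) ^ J := by ring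
      have h5 : (2 : ℝ) * (B : ℝ) ^ J ≤ B * (B : ℝ) ^ J := mul_le_mul_of_nonneg_right hB2r h3
      rw [h4]
      have h6 : ε * (2 * (B : ℝ) ^ J) ≤ ε * (B * (B : ℝ) ^ J) :=
        mul_le_mul_of_nonneg_left h5 hε0.le
      have h7 : ((XX h b H J).ncard : ℝ) ≤ ε * (B : ℝ) ^ J := by
        rw [hB]
        push_cast
        exact h2
      have h8 : 0 ≤ ε * (B : ℝ) ^ J := by positivity
      linarith
  obtain ⟨N1, hN1⟩ := exists_nat_gt (2 * C0 / δ)
  refine ⟨max (h * B ^ J0) (N1 + 1), fun N hN => ?_⟩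
  have hNa : h * B ^ J0 ≤ N := (le_max_left _ _).trans hN
  have hNb : N1 + 1 ≤ N := (le_max_right _ _).trans hN
  have hN0 : 0 < N := by omega
  have hNr : (0 : ℝ) < N := by exact_mod_cast hN0
  set J := Nat.log B (N / h) with hJ
  have h1 : B ^ J0 ≤ N / h := by
    rw [Nat.le_div_iff_mul_le hh, mul_comm]
    exact hNa
  have h2 : J0 ≤ J := Nat.le_log_of_pow_le (by omega) h1
  have h3 : N < h * B ^ (J + 1) := by
    have h4 : N / h < B ^ (J + 1) := Nat.lt_pow_succ_log_self (by omega) _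
    rw [Nat.div_lt_iff_lt_mul hh, mul_comm] at h4
    exact h4
  have h4 : h * B ^ J ≤ N := by
    have h5 : B ^ J ≤ N / h := Nat.pow_log_le_self B (by
      have := Nat.one_le_pow J0 B hBpos
      omega)
    rw [Nat.le_div_iff_mul_le hh, mul_comm] at h5
    exact h5
  have h5 := hind (J + 1) (by omega)
  have h6 : ((Z ∩ Set.Iio N).ncard : ℝ) ≤ ((Z ∩ Set.Iio (h * B ^ (J + 1))).ncard : ℝ) := by
    exact_mod_cast hmono _ _ h3.le
  have h7 : (B : ℝ) ^ J ≤ N := by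
    have h8 : B ^ J ≤ N := le_trans (Nat.le_mul_of_pos_left _ hh) h4
    exact_mod_cast h8
  rw [Real.dist_eq, sub_zero, abs_of_nonneg (by positivity), div_lt_iff₀ hNr]
  have h8 : (B : ℝ) ^ (J + 1) = B * (B : ℝ) ^ J := by ring
  rw [h8] at h5
  have h9 : 2 * ε * (B * (B : ℝ) ^ J) ≤ 2 * ε * (B * N) := by
    apply mul_le_mul_of_nonneg_left _ (by positivity)
    exact mul_le_mul_of_nonneg_left h7 (by positivity)
  have h10 : 2 * ε * (B * N) = δ / 4 * N := by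
    rw [hε]
    have : (B : ℝ) ≠ 0 := by positivity
    field_simp
    ring
  have h11 : C0 < δ / 2 * N := by
    have h12 : 2 * C0 / δ < N := by
      refine hN1.trans ?_
      exact_mod_cast hNb
    rw [div_lt_iff₀ hδ] at h12
    linarith
  have h12 : 0 < δ / 4 * N := by positivity
  linarith

/-- the basis property -/
theorem basis_all (hh : 1 ≤ h) (hhb : h ≤ b ^ h) (H : ℕ → ℕ → ℕ → ℕ) :
    ∃ N0 : ℕ, ∀ n, N0 ≤ n → ∃ s : Multiset ℕ, Multiset.card s = h ∧ (∀ a ∈ s, a ∈ AA h b H) ∧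
      s.sum = n := by
  have hB2 := B_ge (h := h) hb hh
  have hBpos : 0 < b ^ h := B_pos hb
  obtain ⟨J0, hJ0⟩ := eventually_atTop.1 (good_eventually hb)
  refine ⟨h * (b ^ h) ^ J0, fun n hn => ?_⟩
  set J := Nat.log (b ^ h) (n / h) with hJ
  have h1 : (b ^ h) ^ J0 ≤ n / h := by
    rw [Nat.le_div_iff_mul_le hh, mul_comm]
    exact hn
  have h2 : J0 ≤ J := Nat.le_log_of_pow_le (by omega) h1
  have h3 : n < h * (b ^ h) ^ (J + 1) := by
    have h4 : n / h < (b ^ h) ^ (J + 1) := Nat.lt_pow_succ_log_self (by omega) _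
    rw [Nat.div_lt_iff_lt_mul hh, mul_comm] at h4
    exact h4
  have h4 : h * (b ^ h) ^ J ≤ n := by
    have h5 : (b ^ h) ^ J ≤ n / h := Nat.pow_log_le_self (b ^ h) (by
      have := Nat.one_le_pow J0 (b ^ h) hBpos
      omega)
    rw [Nat.le_div_iff_mul_le hh, mul_comm] at h5
    exact h5
  obtain ⟨β, hβ, hs⟩ := basis_scale hb hhb H (hJ0 J h2) h4 h3
  refine ⟨Finset.univ.val.map (fun i : Fin h => el h b H i (lastB b J (β i)) (β i)), by simp,
    ?_, hs⟩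
  intro a ha
  rw [Multiset.mem_map] at ha
  obtain ⟨i, _, rfl⟩ := ha
  exact ⟨i, i.2, lastB b J (β i), β i, adm_of_last hb (hβ i), rfl⟩

/-- the number of representations is at most a power of the logarithm -/
theorem polylog (hh : 1 ≤ h) {g : ℝ} (hg : 1 ≤ g) (H : ℕ → ℕ → ℕ → ℕ)
    (hPhi : ∀ J : ℕ, Phi h b g J H ≤ Real.exp (g * ((J : ℝ) + 1) ^ 2)) :
    ∃ C : ℕ, ∀ n : ℕ, 3 ≤ n → (rr (AA h b H) h n : ℝ) ≤ C * Real.log n ^ C := by
  have hbr : (2 : ℝ) ≤ b := by exact_mod_cast hb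
  have hb0 : (0 : ℝ) < b := by linarith
  have hhr : (1 : ℝ) ≤ h := by exact_mod_cast hh
  have hB2 := B_ge (h := h) hb hh
  have hBpos : 0 < b ^ h := B_pos hb
  have hB1r : (1 : ℝ) ≤ ((b ^ h : ℕ) : ℝ) := by exact_mod_cast hBpos
  -- bound by a power of `m`
  set K1 : ℝ := ((h : ℝ) * (b : ℝ) ^ (b + 1)) ^ h * Kst ((b ^ h : ℕ) : ℝ) g h with hK1
  set D : ℕ := (b + 1) * h + 3 * h with hD
  have hKst := Kst_ge (B := ((b ^ h : ℕ) : ℝ)) (g := g) hB1r hg h
  have hK1pos : 0 < K1 := by positivity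
  have h1 : ∀ m : ℕ, 1 ≤ m → ∀ n < (b ^ h) ^ m, (rr (AA h b H) h n : ℝ) ≤
      K1 * ((m : ℝ) + 1) ^ D := by
    intro m hm n hn
    have h2 := rr_bound hb hg (hPhi m) hn
    refine h2.trans ?_
    have h3 : b ^ (b * (Nat.log b m + 1) + 1) ≤ b ^ (b + 1) * m ^ b := by
      calc b ^ (b * (Nat.log b m + 1) + 1) = b ^ (b + 1) * (b ^ Nat.log b m) ^ b := by
            rw [← pow_mul, ← pow_add]; congr 1; ring
        _ ≤ b ^ (b + 1) * m ^ b :=
            Nat.mul_le_mul_left _ (Nat.pow_le_pow_left (Nat.pow_log_le_self b (by omega)) b)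
    have h4 : ((h * (m + 1) * b ^ (b * (Nat.log b m + 1) + 1) : ℕ) : ℝ) ≤
        (h * (b : ℝ) ^ (b + 1)) * ((m : ℝ) + 1) ^ (b + 1) := by
      have h5 : ((b ^ (b * (Nat.log b m + 1) + 1) : ℕ) : ℝ) ≤ (b : ℝ) ^ (b + 1) * (m : ℝ) ^ b := by
        exact_mod_cast h3
      have h6 : (m : ℝ) ^ b ≤ ((m : ℝ) + 1) ^ b := pow_le_pow_left₀ (by positivity) (by linarith) b
      rw [Nat.cast_mul, Nat.cast_mul, Nat.cast_add, Nat.cast_one]
      calc (h : ℝ) * ((m : ℝ) + 1) * ((b ^ (b * (Nat.log b m + 1) + 1) : ℕ) : ℝ)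
          ≤ (h : ℝ) * ((m : ℝ) + 1) * ((b : ℝ) ^ (b + 1) * ((m : ℝ) + 1) ^ b) := by
            apply mul_le_mul_of_nonneg_left _ (by positivity)
            exact h5.trans (mul_le_mul_of_nonneg_left h6 (by positivity))
        _ = _ := by ring
    calc ((h * (m + 1) * b ^ (b * (Nat.log b m + 1) + 1) : ℕ) : ℝ) ^ h *
          (Kst ((b ^ h : ℕ) : ℝ) g h * ((m : ℝ) + 1) ^ (3 * h))
        ≤ ((h * (b : ℝ) ^ (b + 1)) * ((m : ℝ) + 1) ^ (b + 1)) ^ h *
          (Kst ((b ^ h : ℕ) : ℝ) g h * ((m : ℝ) + 1) ^ (3 * h)) := by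
          apply mul_le_mul_of_nonneg_right _ (by positivity)
          exact pow_le_pow_left₀ (Nat.cast_nonneg _) h4 h
      _ = K1 * ((m : ℝ) + 1) ^ D := by
          rw [hK1, hD, mul_pow, ← pow_mul, pow_add]
          ring
  -- `m` in terms of the logarithm
  set c : ℝ := 1 / Real.log 2 + 2 with hc
  have hl2 : 0 < Real.log 2 := Real.log_pos (by norm_num)
  have hc0 : 0 < c := by positivity
  obtain ⟨K, hK⟩ := exists_nat_ge (K1 * c ^ D)
  refine ⟨K + D, fun n hn => ?_⟩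
  have hn0 : (0 : ℝ) < n := by
    have : 0 < n := by omega
    exact_mod_cast this
  have hL : 1 ≤ Real.log n := by
    rw [Real.le_log_iff_exp_le hn0]
    have h2 : Real.exp 1 < 2.7182818286 := Real.exp_one_lt_d9
    have h3 : (3 : ℝ) ≤ n := by exact_mod_cast hn
    linarith
  set m := Nat.log (b ^ h) n with hm
  have hlt : n < (b ^ h) ^ (m + 1) := Nat.lt_pow_succ_log_self (by omega) n
  have h2 := h1 (m + 1) (by omega) n hlt
  have h3 : (m : ℝ) * Real.log 2 ≤ Real.log n := by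
    rw [← Real.log_pow]
    apply Real.log_le_log (by positivity)
    have h4 : 2 ^ m ≤ n := by
      calc 2 ^ m ≤ (b ^ h) ^ m := Nat.pow_le_pow_left hB2 m
        _ ≤ n := Nat.pow_log_le_self _ (by omega)
    exact_mod_cast h4
  have h4 : ((m + 1 : ℕ) : ℝ) + 1 ≤ c * Real.log n := by
    have h5 : (m : ℝ) ≤ 1 / Real.log 2 * Real.log n := by
      rw [one_div, inv_mul_eq_div, le_div_iff₀ hl2]
      exact h3
    push_cast
    rw [hc, add_mul]
    linarith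
  have h5 : (1 : ℝ) ≤ Real.log n := hL
  calc (rr (AA h b H) h n : ℝ) ≤ K1 * (((m + 1 : ℕ) : ℝ) + 1) ^ D := h2
    _ ≤ K1 * (c * Real.log n) ^ D := by
        apply mul_le_mul_of_nonneg_left _ hK1pos.le
        exact pow_le_pow_left₀ (by positivity) h4 D
    _ = (K1 * c ^ D) * Real.log n ^ D := by rw [mul_pow]; ring
    _ ≤ ((K + D : ℕ) : ℝ) * Real.log n ^ (K + D) := by
        apply mul_le_mul
        · refine hK.trans ?_
          push_cast
          have : (0 : ℝ) ≤ D := Nat.cast_nonneg D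
          linarith
        · exact pow_le_pow_right₀ h5 (by omega)
        · positivity
        · positivity

end

end Pool.Agent.K9h24.NC
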