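import Pool.Agent.K9h24.NC1

/-!
Averages over hash values and an exponential moment inequality.
-/

set_option autoImplicit false

open Finset

namespace Pool.Agent.K9h24.NC

/-- average over the values in `ZMod B` of the first `M` coordinates -/
noncomputable def avg (B : ℕ) [NeZero B] : ℕ → ((ℕ → ZMod B) → ℝ) → ℝ
  | 0, f => f 0
  | M + 1, f => avg B M (fun H => (∑ g : ZMod B, f (Function.update H M g)) / B)

variable {B : ℕ} [NeZero B]

lemma B_cast_pos : (0 : ℝ) < (B : ℝ) := by
  exact_mod_cast Nat.pos_of_ne_zero (NeZero.ne B)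

lemma avg_mono (M : ℕ) {f f' : (ℕ → ZMod B) → ℝ} (hf : ∀ H, f H ≤ f' H) :
    avg B M f ≤ avg B M f' := by
  induction M generalizing f f' with
  | zero => exact hf 0
  | succ M ih =>
    apply ih
    intro H
    apply div_le_div_of_nonneg_right _ (Nat.cast_nonneg _)
    exact Finset.sum_le_sum fun g _ => hf _

lemma avg_const (M : ℕ) (c : ℝ) : avg B M (fun _ => c) = c := by
  induction M with
  | zero => rfl
  | succ M ih =>
    have h1 : (fun _ : ℕ → ZMod B => (∑ _g : ZMod B, c) / (B : ℝ)) = fun _ => c := by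
      funext H
      rw [Finset.sum_const, Finset.card_univ, ZMod.card, nsmul_eq_mul]
      have := B_cast_pos (B := B)
      field_simp
    show avg B M (fun _ => (∑ _g : ZMod B, c) / (B : ℝ)) = c
    rw [h1, ih]

lemma avg_add (M : ℕ) (f f' : (ℕ → ZMod B) → ℝ) :
    avg B M (fun H => f H + f' H) = avg B M f + avg B M f' := by
  induction M generalizing f f' with
  | zero => rfl
  | succ M ih =>
    show avg B M (fun H => (∑ g : ZMod B, (f (Function.update H M g) +
      f' (Function.update H M g))) / (B : ℝ)) = _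
    have h1 : (fun H : ℕ → ZMod B => (∑ g : ZMod B, (f (Function.update H M g) +
        f' (Function.update H M g))) / (B : ℝ)) =
        fun H => (∑ g : ZMod B, f (Function.update H M g)) / (B : ℝ) +
          (∑ g : ZMod B, f' (Function.update H M g)) / (B : ℝ) := by
      funext H
      rw [Finset.sum_add_distrib, add_div]
    rw [h1, ih]
    rfl

lemma avg_smul (M : ℕ) (c : ℝ) (f : (ℕ → ZMod B) → ℝ) :
    avg B M (fun H => c * f H) = c * avg B M f := by
  induction M generalizing f with
  | zero => rfl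
  | succ M ih =>
    show avg B M (fun H => (∑ g : ZMod B, c * f (Function.update H M g)) / (B : ℝ)) = _
    have h1 : (fun H : ℕ → ZMod B => (∑ g : ZMod B, c * f (Function.update H M g)) / (B : ℝ)) =
        fun H => c * ((∑ g : ZMod B, f (Function.update H M g)) / (B : ℝ)) := by
      funext H
      rw [← Finset.mul_sum, mul_div_assoc]
    rw [h1, ih]
    rfl

lemma avg_sum {ι : Type*} (s : Finset ι) (M : ℕ) (f : ι → (ℕ → ZMod B) → ℝ) :
    avg B M (fun H => ∑ i ∈ s, f i H) = ∑ i ∈ s, avg B M (f i) := by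
  classical
  induction s using Finset.induction_on with
  | empty => simpa using avg_const (B := B) M 0
  | insert a s ha ih =>
    rw [Finset.sum_insert ha, ← ih, ← avg_add]
    congr 1
    funext H
    rw [Finset.sum_insert ha]

lemma avg_exists (M : ℕ) (f : (ℕ → ZMod B) → ℝ) : ∃ H, f H ≤ avg B M f := by
  induction M generalizing f with
  | zero => exact ⟨0, le_rfl⟩
  | succ M ih =>
    obtain ⟨H, hH⟩ := ih (fun H => (∑ g : ZMod B, f (Function.update H M g)) / (B : ℝ))
    by_contra hcon
    push Not at hcon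
    have h1 : avg B (M + 1) f < (∑ g : ZMod B, f (Function.update H M g)) / (B : ℝ) := by
      rw [lt_div_iff₀ (B_cast_pos (B := B))]
      calc avg B (M + 1) f * (B : ℝ) = ∑ _g : ZMod B, avg B (M + 1) f := by
            rw [Finset.sum_const, Finset.card_univ, ZMod.card, nsmul_eq_mul, mul_comm]
        _ < ∑ g : ZMod B, f (Function.update H M g) :=
            Finset.sum_lt_sum_of_nonempty Finset.univ_nonempty (fun g _ => hcon _)
    exact absurd hH (not_le.2 h1)

/-- exponential moments of sums with a conditional structure -/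
lemma mgf {ι : Type*} (M : ℕ) (T : Finset ι) (m : ι → ℕ) (Y : ι → (ℕ → ZMod B) → ℝ)
    (hm : ∀ τ ∈ T, m τ < M)
    (hdep : ∀ τ ∈ T, ∀ H v g, m τ < v → Y τ (Function.update H v g) = Y τ H)
    (hnn : ∀ τ ∈ T, ∀ H, 0 ≤ Y τ H) {N : ℝ} (hN : ∀ τ ∈ T, ∀ H, Y τ H ≤ N) (hN0 : 0 ≤ N)
    (hav : ∀ τ ∈ T, ∀ H, ∑ g : ZMod B, Y τ (Function.update H (m τ) g) ≤ (B : ℝ))
    {Δ : ℝ} (hdeg : ∀ v, ((T.filter (fun τ => m τ = v)).card : ℝ) ≤ Δ) {θ : ℝ} (hθ : 0 ≤ θ)
    (hθ1 : θ * (Δ * N) ≤ 1) :
    avg B M (fun H => Real.exp (θ * ∑ τ ∈ T, Y τ H)) ≤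
      Real.exp (T.card * (θ * (1 + θ * (Δ * N)))) := by
  classical
  have hΔ : 0 ≤ Δ := (Nat.cast_nonneg _).trans (hdeg 0)
  induction M generalizing T with
  | zero =>
    have hT : T = ∅ := by
      rw [Finset.eq_empty_iff_forall_notMem]
      intro τ hτ
      exact absurd (hm τ hτ) (Nat.not_lt_zero _)
    subst hT
    simp [avg]
  | succ M ih =>
    set T' := T.filter (fun τ => m τ ≠ M) with hT'
    set T'' := T.filter (fun τ => m τ = M) with hT''
    set C : ℝ := Real.exp (T''.card * (θ * (1 + θ * (Δ * N)))) with hC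
    have hsplit : ∀ H, ∑ τ ∈ T, Y τ H = ∑ τ ∈ T'', Y τ H + ∑ τ ∈ T', Y τ H := fun H =>
      (Finset.sum_filter_add_sum_filter_not T (fun τ => m τ = M) _).symm
    have hcard : (T.card : ℝ) = T''.card + T'.card := by
      have := Finset.card_filter_add_card_filter_not (s := T) (fun τ => m τ = M)
      exact_mod_cast this.symm
    have hstep : ∀ H : ℕ → ZMod B,
        (∑ g : ZMod B, Real.exp (θ * ∑ τ ∈ T, Y τ (Function.update H M g))) / (B : ℝ) ≤
          C * Real.exp (θ * ∑ τ ∈ T', Y τ H) := by
      intro H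
      have e1 : ∀ g, Real.exp (θ * ∑ τ ∈ T, Y τ (Function.update H M g)) =
          Real.exp (θ * ∑ τ ∈ T'', Y τ (Function.update H M g)) *
            Real.exp (θ * ∑ τ ∈ T', Y τ H) := by
        intro g
        rw [hsplit, mul_add, Real.exp_add]
        congr 2
        congr 1
        refine Finset.sum_congr rfl fun τ hτ => ?_
        obtain ⟨h1, h2⟩ := Finset.mem_filter.1 hτ
        apply hdep τ h1
        have := hm τ h1
        omega
      simp_rw [e1]
      rw [← Finset.sum_mul, mul_div_right_comm]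
      apply mul_le_mul_of_nonneg_right _ (Real.exp_nonneg _)
      rw [div_le_iff₀ (B_cast_pos (B := B))]
      have e2 : ∀ g : ZMod B, Real.exp (θ * ∑ τ ∈ T'', Y τ (Function.update H M g)) ≤
          1 + (θ * (1 + θ * (Δ * N))) * ∑ τ ∈ T'', Y τ (Function.update H M g) := by
        intro g
        set S := ∑ τ ∈ T'', Y τ (Function.update H M g) with hS
        have hS0 : 0 ≤ S := Finset.sum_nonneg fun τ hτ =>
          hnn τ (Finset.mem_filter.1 hτ).1 _
        have hS1 : S ≤ Δ * N := by
          calc S ≤ ∑ τ ∈ T'', N := Finset.sum_le_sum fun τ hτ =>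
                hN τ (Finset.mem_filter.1 hτ).1 _
            _ = T''.card * N := by rw [Finset.sum_const, nsmul_eq_mul]
            _ ≤ Δ * N := mul_le_mul_of_nonneg_right (hdeg M) hN0
        have h3 : θ * S ≤ 1 := (mul_le_mul_of_nonneg_left hS1 hθ).trans hθ1
        have h4 : |θ * S| ≤ 1 := by
          rw [abs_of_nonneg (mul_nonneg hθ hS0)]; exact h3
        have h5 := (abs_le.1 (Real.abs_exp_sub_one_sub_id_le h4)).2
        have h6 : (θ * S) ^ 2 ≤ θ * (θ * (Δ * N)) * S := by
          have : S * S ≤ (Δ * N) * S := mul_le_mul_of_nonneg_right hS1 hS0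
          calc (θ * S) ^ 2 = θ ^ 2 * (S * S) := by ring
            _ ≤ θ ^ 2 * ((Δ * N) * S) := mul_le_mul_of_nonneg_left this (sq_nonneg θ)
            _ = _ := by ring
        nlinarith
      have hx0 : 0 ≤ θ * (1 + θ * (Δ * N)) := by positivity
      calc ∑ g : ZMod B, Real.exp (θ * ∑ τ ∈ T'', Y τ (Function.update H M g))
          ≤ ∑ g : ZMod B, (1 + (θ * (1 + θ * (Δ * N))) *
              ∑ τ ∈ T'', Y τ (Function.update H M g)) := Finset.sum_le_sum fun g _ => e2 g
        _ = (B : ℝ) + (θ * (1 + θ * (Δ * N))) *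
              ∑ τ ∈ T'', ∑ g : ZMod B, Y τ (Function.update H M g) := by
            rw [Finset.sum_add_distrib, ← Finset.mul_sum, Finset.sum_comm, Finset.sum_const,
              Finset.card_univ, ZMod.card, nsmul_eq_mul, mul_one]
        _ ≤ (B : ℝ) + (θ * (1 + θ * (Δ * N))) * ∑ _τ ∈ T'', (B : ℝ) := by
            apply add_le_add le_rfl
            apply mul_le_mul_of_nonneg_left _ hx0
            refine Finset.sum_le_sum fun τ hτ => ?_
            obtain ⟨h1, h2⟩ := Finset.mem_filter.1 hτ
            have := hav τ h1 H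
            rwa [h2] at this
        _ = (1 + T''.card * (θ * (1 + θ * (Δ * N)))) * B := by
            rw [Finset.sum_const, nsmul_eq_mul]; ring
        _ ≤ C * B := by
            apply mul_le_mul_of_nonneg_right _ (Nat.cast_nonneg _)
            rw [hC, add_comm]
            exact Real.add_one_le_exp _
    have hih := ih T' (fun τ hτ => by
        obtain ⟨h1, h2⟩ := Finset.mem_filter.1 hτ
        have := hm τ h1
        omega)
      (fun τ hτ => hdep τ (Finset.mem_filter.1 hτ).1)
      (fun τ hτ => hnn τ (Finset.mem_filter.1 hτ).1)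
      (fun τ hτ => hN τ (Finset.mem_filter.1 hτ).1)
      (fun τ hτ => hav τ (Finset.mem_filter.1 hτ).1)
      (fun v => by
        refine le_trans ?_ (hdeg v)
        exact_mod_cast Finset.card_le_card (Finset.filter_subset_filter _
          (Finset.filter_subset _ _)))
    calc avg B (M + 1) (fun H => Real.exp (θ * ∑ τ ∈ T, Y τ H))
        = avg B M (fun H => (∑ g : ZMod B,
            Real.exp (θ * ∑ τ ∈ T, Y τ (Function.update H M g))) / (B : ℝ)) := rfl
      _ ≤ avg B M (fun H => C * Real.exp (θ * ∑ τ ∈ T', Y τ H)) := avg_mono M hstep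
      _ = C * avg B M (fun H => Real.exp (θ * ∑ τ ∈ T', Y τ H)) := avg_smul M C _
      _ ≤ C * Real.exp (T'.card * (θ * (1 + θ * (Δ * N)))) :=
          mul_le_mul_of_nonneg_left hih (Real.exp_nonneg _)
      _ = _ := by
          rw [hC, ← Real.exp_add, hcard]
          congr 1
          ring

open scoped Classical in
/-- the probability that all hash values in a given set vanish -/
lemma avg_ind (M : ℕ) (W : Finset ℕ) :
    ((1 : ℝ) / B) ^ W.card ≤ avg B M (fun H => if ∀ w ∈ W, H w = 0 then (1 : ℝ) else 0) := by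
  have hB1 : (1 : ℝ) / B ≤ 1 := by
    rw [div_le_one (B_cast_pos (B := B))]
    exact_mod_cast Nat.one_le_iff_ne_zero.2 (NeZero.ne B)
  have hB0 : (0 : ℝ) ≤ (1 : ℝ) / B := by positivity
  induction M generalizing W with
  | zero =>
    show _ ≤ (if ∀ w ∈ W, (0 : ℕ → ZMod B) w = 0 then (1 : ℝ) else 0)
    have h0 : ∀ w ∈ W, (0 : ℕ → ZMod B) w = 0 := fun _ _ => rfl
    rw [if_pos h0]
    exact pow_le_one₀ hB0 hB1
  | succ M ih =>
    show _ ≤ avg B M (fun H => (∑ g : ZMod B,
      (if ∀ w ∈ W, Function.update H M g w = 0 then (1 : ℝ) else 0)) / (B : ℝ))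
    by_cases hMW : M ∈ W
    · have h1 : ∀ H : ℕ → ZMod B, ((1 : ℝ) / B) * (if ∀ w ∈ W.erase M, H w = 0 then (1 : ℝ) else 0) ≤
          (∑ g : ZMod B, (if ∀ w ∈ W, Function.update H M g w = 0 then (1 : ℝ) else 0)) / (B : ℝ) := by
        intro H
        rw [one_div, inv_mul_eq_div]
        apply div_le_div_of_nonneg_right _ (Nat.cast_nonneg _)
        have h2 : (if ∀ w ∈ W.erase M, H w = 0 then (1 : ℝ) else 0) ≤
            (if ∀ w ∈ W, Function.update H M 0 w = 0 then (1 : ℝ) else 0) := by
          by_cases h3 : ∀ w ∈ W.erase M, H w = 0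
          · rw [if_pos h3, if_pos]
            intro w hw
            by_cases hwM : w = M
            · subst hwM; simp
            · rw [Function.update_of_ne hwM]
              exact h3 w (Finset.mem_erase.2 ⟨hwM, hw⟩)
          · rw [if_neg h3]
            split_ifs <;> norm_num
        refine h2.trans (Finset.single_le_sum (f := fun g : ZMod B =>
          (if ∀ w ∈ W, Function.update H M g w = 0 then (1 : ℝ) else 0))
          (fun g _ => ?_) (Finset.mem_univ 0))
        split_ifs <;> norm_num
      refine le_trans ?_ (avg_mono M h1)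
      rw [avg_smul, ← Finset.card_erase_add_one hMW, pow_succ, mul_comm]
      exact mul_le_mul_of_nonneg_left (ih _) hB0
    · have h1 : ∀ H : ℕ → ZMod B, (if ∀ w ∈ W, H w = 0 then (1 : ℝ) else 0) ≤
          (∑ g : ZMod B, (if ∀ w ∈ W, Function.update H M g w = 0 then (1 : ℝ) else 0)) / (B : ℝ) := by
        intro H
        have h2 : ∀ g : ZMod B, (if ∀ w ∈ W, Function.update H M g w = 0 then (1 : ℝ) else 0) =
            (if ∀ w ∈ W, H w = 0 then (1 : ℝ) else 0) := by
          intro g
          have : (∀ w ∈ W, Function.update H M g w = 0) ↔ ∀ w ∈ W, H w = 0 := by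
            apply forall₂_congr
            intro w hw
            rw [Function.update_of_ne (by rintro rfl; exact hMW hw)]
          simp only [this]
        simp_rw [h2]
        rw [Finset.sum_const, Finset.card_univ, ZMod.card, nsmul_eq_mul]
        have := B_cast_pos (B := B)
        rw [mul_div_assoc, mul_comm, div_mul_cancel₀ _ this.ne']
      exact (ih W).trans (avg_mono M h1)

end Pool.Agent.K9h24.NC
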