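import Pool.Agent.K9h24.NC2

/-!
Patterns, numbers of representations, and one step of the construction of the hash function.
-/

set_option autoImplicit false
set_option linter.unusedSectionVars false

open Finset

namespace Pool.Agent.K9h24.NC

/-- the sum of the values -/
def SV (h b : ℕ) (H : ℕ → ℕ → ℕ → ℕ) {l : ℕ} (i σ β : Fin l → ℕ) : ℕ :=
  ∑ k, V h b H (i k) (σ k) (β k)

/-- the tuples which represent `n` modulo `(b ^ h) ^ J` -/
def TT (h b : ℕ) (H : ℕ → ℕ → ℕ → ℕ) (J : ℕ) {l : ℕ} (i σ : Fin l → ℕ) (n : ℕ) :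
    Finset (Fin l → ℕ) :=
  (Fintype.piFinset (fun k => range (b ^ σ k))).filter
    (fun β => SV h b H i σ β ≡ n [MOD (b ^ h) ^ J])

lemma mem_TT {h b : ℕ} {H : ℕ → ℕ → ℕ → ℕ} {J l : ℕ} {i σ β : Fin l → ℕ} {n : ℕ} :
    β ∈ TT h b H J i σ n ↔ (∀ k, β k < b ^ σ k) ∧ SV h b H i σ β ≡ n [MOD (b ^ h) ^ J] := by
  unfold TT
  rw [Finset.mem_filter, Fintype.mem_piFinset]
  simp

/-- the new hash function -/
def newH (b h : ℕ) (H : ℕ → ℕ → ℕ → ℕ) (J : ℕ) (ι c : ℕ → ℕ → ℕ) (x : ℕ → ZMod (b ^ h)) :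
    ℕ → ℕ → ℕ → ℕ :=
  fun q i γ => if q = J then (x (ι i γ) + (c i γ : ZMod (b ^ h))).val else H q i γ

/-- digit choices of the active components -/
def DS (b : ℕ) {l : ℕ} (act : Finset (Fin l)) : Finset (Fin l → ℕ) :=
  Fintype.piFinset (fun k => if k ∈ act then range b else {0})

/-- number of digit choices with a given sum -/
def NN (h b : ℕ) {l : ℕ} (i : Fin l → ℕ) (act : Finset (Fin l)) (y : ZMod (b ^ h)) : ℕ :=
  ((DS b act).filter (fun d => ((∑ k, b ^ i k * d k : ℕ) : ZMod (b ^ h)) = y)).card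

lemma card_DS (b : ℕ) {l : ℕ} (act : Finset (Fin l)) : (DS b act).card = b ^ act.card := by
  unfold DS
  rw [Fintype.card_piFinset]
  have h1 : ∀ k : Fin l, (if k ∈ act then range b else ({0} : Finset ℕ)).card =
      if k ∈ act then b else 1 := by
    intro k
    split_ifs <;> simp
  simp_rw [h1]
  rw [Finset.prod_ite]
  simp

lemma NN_le (h b : ℕ) {l : ℕ} (i : Fin l → ℕ) (act : Finset (Fin l)) (y : ZMod (b ^ h)) :
    NN h b i act y ≤ b ^ act.card := by
  rw [← card_DS]
  exact Finset.card_le_card (Finset.filter_subset _ _)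

lemma NN_sum (h b : ℕ) [NeZero (b ^ h)] {l : ℕ} (i : Fin l → ℕ) (act : Finset (Fin l)) :
    ∑ y : ZMod (b ^ h), NN h b i act y = b ^ act.card := by
  rw [← card_DS]
  exact (Finset.card_eq_sum_card_fiberwise (fun _ _ => Finset.mem_coe.2 (Finset.mem_univ _))).symm

section

variable {h b : ℕ} (hb : 2 ≤ b)

include hb

lemma V_newH_low (H : ℕ → ℕ → ℕ → ℕ) (J : ℕ) (ι c : ℕ → ℕ → ℕ) (x : ℕ → ZMod (b ^ h))
    (i β : ℕ) {Q : ℕ} (hQ : Q ≤ J) :
    V h b (newH b h H J ι c x) i Q β = V h b H i Q β :=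
  V_congr_H β (fun q hq => by unfold newH; rw [if_neg (by omega)])

/-- one step: solutions at the level `J + 1` in terms of solutions at the level `J` -/
lemma step_card (H : ℕ → ℕ → ℕ → ℕ) (J : ℕ) (ι c : ℕ → ℕ → ℕ) (x : ℕ → ZMod (b ^ h)) {l : ℕ}
    (i σ' : Fin l → ℕ) (hσ' : ∀ k, σ' k ≤ J + 1) {n ν : ℕ} (hn : n < (b ^ h) ^ J) :
    (TT h b (newH b h H J ι c x) (J + 1) i σ' (n + (b ^ h) ^ J * ν)).card ≤
      ∑ β ∈ TT h b H J i (fun k => min (σ' k) J) n,
        NN h b i (Finset.univ.filter (fun k => σ' k = J + 1))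
          ((ν : ZMod (b ^ h)) - ((SV h b H i (fun k => min (σ' k) J) β / (b ^ h) ^ J : ℕ) :
            ZMod (b ^ h)) -
            ∑ k ∈ Finset.univ.filter (fun k => σ' k = J + 1),
              (x (ι (i k) (β k)) + (c (i k) (β k) : ZMod (b ^ h)))) := by
  classical
  have hBpos : 0 < b ^ h := B_pos hb
  have : NeZero (b ^ h) := ⟨hBpos.ne'⟩
  set σ : Fin l → ℕ := fun k => min (σ' k) J with hσ
  set act := Finset.univ.filter (fun k : Fin l => σ' k = J + 1) with hact
  set H' := newH b h H J ι c x with hH'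
  -- relations between the values
  have hval : ∀ β' : Fin l → ℕ, (∀ k, β' k < b ^ σ' k) → ∀ k,
      V h b H' (i k) (σ' k) (β' k) = V h b H (i k) (σ k) (β' k % b ^ J) +
        (b ^ h) ^ J * (if k ∈ act then (b ^ i k * (β' k / b ^ J) + H' J (i k) (β' k % b ^ J)) % b ^ h
          else 0) := by
    intro β' hβ' k
    by_cases hk : σ' k = J + 1
    · have hkm : k ∈ act := by rw [hact, Finset.mem_filter]; exact ⟨Finset.mem_univ _, hk⟩
      rw [if_pos hkm]
      have hσk : σ k = J := by rw [hσ]; show min (σ' k) J = J; omega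
      rw [hk, hσk, V_succ]
      have h1 : β' k / b ^ J < b := by
        rw [Nat.div_lt_iff_lt_mul (pow_pos (by omega) J), mul_comm, ← pow_succ, ← hk]
        exact hβ' k
      rw [Nat.mod_eq_of_lt h1, V_newH_low hb H J ι c x _ _ le_rfl, V_mod_arg]
    · have hkm : k ∉ act := by rw [hact, Finset.mem_filter]; exact fun hc => hk hc.2
      rw [if_neg hkm, mul_zero, add_zero]
      have hle : σ' k ≤ J := by have := hσ' k; omega
      have hσk : σ k = σ' k := by rw [hσ]; show min (σ' k) J = σ' k; omega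
      rw [hσk, V_newH_low hb H J ι c x _ _ hle]
      have h1 : β' k < b ^ J := lt_of_lt_of_le (hβ' k) (Nat.pow_le_pow_right (by omega) hle)
      rw [Nat.mod_eq_of_lt h1]
  have hSV : ∀ β' : Fin l → ℕ, (∀ k, β' k < b ^ σ' k) →
      SV h b H' i σ' β' = SV h b H i σ (fun k => β' k % b ^ J) +
        (b ^ h) ^ J * ∑ k ∈ act, (b ^ i k * (β' k / b ^ J) + H' J (i k) (β' k % b ^ J)) % b ^ h := by
    intro β' hβ'
    unfold SV
    rw [Finset.sum_congr rfl (fun k _ => hval β' hβ' k), Finset.sum_add_distrib, ← Finset.mul_sum,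
      Finset.sum_ite_mem, Finset.univ_inter]
  -- the map
  have hmaps : ∀ β' ∈ TT h b H' (J + 1) i σ' (n + (b ^ h) ^ J * ν),
      (fun k => β' k % b ^ J) ∈ TT h b H J i σ n := by
    intro β' hβ'
    obtain ⟨h1, h2⟩ := mem_TT.1 hβ'
    rw [mem_TT]
    refine ⟨fun k => ?_, ?_⟩
    · by_cases hk : σ' k = J + 1
      · have hσk : σ k = J := by rw [hσ]; show min (σ' k) J = J; omega
        rw [hσk]
        exact Nat.mod_lt _ (pow_pos (by omega) J)
      · have hle : σ' k ≤ J := by have := hσ' k; omega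
        have hσk : σ k = σ' k := by rw [hσ]; show min (σ' k) J = σ' k; omega
        rw [hσk]
        exact lt_of_le_of_lt (Nat.mod_le _ _) (h1 k)
    · rw [hSV β' h1] at h2
      have h3 := h2.of_dvd (pow_dvd_pow (b ^ h) (Nat.le_succ J))
      have h4 : SV h b H i σ (fun k => β' k % b ^ J) + (b ^ h) ^ J *
          ∑ k ∈ act, (b ^ i k * (β' k / b ^ J) + H' J (i k) (β' k % b ^ J)) % b ^ h ≡
          SV h b H i σ (fun k => β' k % b ^ J) [MOD (b ^ h) ^ J] := by
        unfold Nat.ModEq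
        rw [Nat.add_mul_mod_self_left]
      have h5 : n + (b ^ h) ^ J * ν ≡ n [MOD (b ^ h) ^ J] := by
        unfold Nat.ModEq
        rw [Nat.add_mul_mod_self_left]
      exact (h4.symm.trans h3).trans h5
  rw [Finset.card_eq_sum_card_fiberwise (f := fun (β' : Fin l → ℕ) (k : Fin l) => β' k % b ^ J)
    (t := TT h b H J i σ n) (fun β' hβ' => hmaps β' hβ')]
  refine Finset.sum_le_sum fun β hβ => ?_
  -- the fibre
  unfold NN
  apply Finset.card_le_card_of_injOn (fun (β' : Fin l → ℕ) (k : Fin l) => β' k / b ^ J)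
  · intro β' hβ'
    rw [Finset.mem_coe, Finset.mem_filter] at hβ'
    obtain ⟨h1, h2⟩ := hβ'
    obtain ⟨h3, h4⟩ := mem_TT.1 h1
    rw [Finset.mem_coe, Finset.mem_filter]
    constructor
    · unfold DS
      rw [Fintype.mem_piFinset]
      intro k
      by_cases hk : σ' k = J + 1
      · have hkm : k ∈ act := by rw [hact, Finset.mem_filter]; exact ⟨Finset.mem_univ _, hk⟩
        rw [if_pos hkm, Finset.mem_range]
        rw [Nat.div_lt_iff_lt_mul (pow_pos (by omega) J), mul_comm, ← pow_succ, ← hk]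
        exact h3 k
      · have hkm : k ∉ act := by rw [hact, Finset.mem_filter]; exact fun hc => hk hc.2
        rw [if_neg hkm, Finset.mem_singleton]
        have hle : σ' k ≤ J := by have := hσ' k; omega
        exact Nat.div_eq_of_lt (lt_of_lt_of_le (h3 k) (Nat.pow_le_pow_right (by omega) hle))
    · rw [hSV β' h3] at h4
      have hβeq : ∀ k, β' k % b ^ J = β k := fun k => congrFun h2 k
      have hβ2 : (fun k => β' k % b ^ J) = β := h2
      rw [hβ2] at h4
      obtain ⟨_, h5⟩ := mem_TT.1 hβ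
      have h6 : SV h b H i σ β = n + (b ^ h) ^ J * (SV h b H i σ β / (b ^ h) ^ J) := by
        have h7 : SV h b H i σ β % (b ^ h) ^ J = n := by
          have : SV h b H i σ β % (b ^ h) ^ J = n % (b ^ h) ^ J := h5
          rw [this, Nat.mod_eq_of_lt hn]
        conv_lhs => rw [← Nat.div_add_mod (SV h b H i σ β) ((b ^ h) ^ J), h7]
        ring
      set κ := SV h b H i σ β / (b ^ h) ^ J with hκ
      rw [h6, add_assoc, ← mul_add] at h4
      have h8 := Nat.ModEq.add_left_cancel' _ h4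
      rw [pow_succ] at h8
      have h9 := Nat.ModEq.mul_left_cancel' (pow_pos hBpos J).ne' h8
      have h10 := (ZMod.natCast_eq_natCast_iff _ _ _).2 h9
      rw [Nat.cast_add, Nat.cast_sum] at h10
      have h11 : ∀ k ∈ act, (((b ^ i k * (β' k / b ^ J) + H' J (i k) (β' k % b ^ J)) % b ^ h : ℕ) :
          ZMod (b ^ h)) = ((b ^ i k * (β' k / b ^ J) : ℕ) : ZMod (b ^ h)) +
            (x (ι (i k) (β k)) + (c (i k) (β k) : ZMod (b ^ h))) := by
        intro k _
        rw [ZMod.natCast_mod, Nat.cast_add, hβeq k]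
        congr 1
        rw [hH']
        unfold newH
        rw [if_pos rfl, ZMod.natCast_val, ZMod.cast_id', id_eq]
      rw [Finset.sum_congr rfl h11, Finset.sum_add_distrib] at h10
      have h12 : ((∑ k, b ^ i k * (β' k / b ^ J) : ℕ) : ZMod (b ^ h)) =
          ∑ k ∈ act, ((b ^ i k * (β' k / b ^ J) : ℕ) : ZMod (b ^ h)) := by
        rw [Nat.cast_sum]
        symm
        apply Finset.sum_subset (Finset.subset_univ _)
        intro k _ hk
        have hk' : σ' k ≠ J + 1 := fun hc => hk (by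
          rw [hact, Finset.mem_filter]; exact ⟨Finset.mem_univ _, hc⟩)
        have hle : σ' k ≤ J := by have := hσ' k; omega
        rw [Nat.div_eq_of_lt (lt_of_lt_of_le (h3 k) (Nat.pow_le_pow_right (by omega) hle))]
        simp
      rw [h12, ← h10]
      ring
  · intro β' hβ' β'' hβ'' heq
    rw [Finset.mem_coe, Finset.mem_filter] at hβ' hβ''
    funext k
    have h1 : β' k / b ^ J = β'' k / b ^ J := congrFun heq k
    have h2 : β' k % b ^ J = β'' k % b ^ J :=
      (congrFun hβ'.2 k).trans (congrFun hβ''.2 k).symm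
    rw [← Nat.div_add_mod (β' k) (b ^ J), ← Nat.div_add_mod (β'' k) (b ^ J), h1, h2]

/-- fixing one coordinate -/
lemma fix_card (H : ℕ → ℕ → ℕ → ℕ) (J : ℕ) {l : ℕ} (i σ : Fin (l + 1) → ℕ) (n : ℕ)
    (k : Fin (l + 1)) (hk : σ k ≤ J) (γ : ℕ) :
    ((TT h b H J i σ n).filter (fun β => β k = γ)).card ≤
      (TT h b H J (fun j => i (k.succAbove j)) (fun j => σ (k.succAbove j))
        (n + (b ^ h) ^ J - V h b H (i k) (σ k) γ)).card := by
  apply Finset.card_le_card_of_injOn (fun (β : Fin (l + 1) → ℕ) (j : Fin l) => β (k.succAbove j))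
  · intro β hβ
    rw [Finset.mem_coe, Finset.mem_filter] at hβ
    obtain ⟨h1, h2⟩ := hβ
    obtain ⟨h3, h4⟩ := mem_TT.1 h1
    rw [Finset.mem_coe, mem_TT]
    refine ⟨fun j => h3 _, ?_⟩
    have hVlt : V h b H (i k) (σ k) γ < (b ^ h) ^ J :=
      lt_of_lt_of_le (V_lt hb H _ _ _) (Nat.pow_le_pow_right (B_pos hb) hk)
    have h5 : SV h b H i σ β = V h b H (i k) (σ k) γ +
        SV h b H (fun j => i (k.succAbove j)) (fun j => σ (k.succAbove j))
          (fun j => β (k.succAbove j)) := by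
      unfold SV
      rw [Fin.sum_univ_succAbove _ k, h2]
    rw [h5] at h4
    apply Nat.ModEq.add_left_cancel' (V h b H (i k) (σ k) γ)
    refine h4.trans ?_
    have h6 : V h b H (i k) (σ k) γ + (n + (b ^ h) ^ J - V h b H (i k) (σ k) γ) =
        n + (b ^ h) ^ J := by omega
    rw [h6]
    exact Nat.add_modEq_right.symm
  · intro β hβ β' hβ' heq
    rw [Finset.mem_coe, Finset.mem_filter] at hβ hβ'
    funext j
    rcases Fin.eq_self_or_eq_succAbove k j with rfl | ⟨j', rfl⟩
    · rw [hβ.2, hβ'.2]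
    · exact congrFun heq j'

end

end Pool.Agent.K9h24.NC
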