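import Pool.Agent.K9h24.NC3

/-!
The exponential moment inequality for one step of the construction.
-/

set_option autoImplicit false
set_option linter.unusedSectionVars false

open Finset

namespace Pool.Agent.K9h24.NC

lemma sum_affine {B : ℕ} [NeZero B] {r : ℕ} (hr : Nat.Coprime r B) (a : ZMod B)
    (f : ZMod B → ℝ) : ∑ g : ZMod B, f (a - (r : ZMod B) * g) = ∑ y : ZMod B, f y := by
  set u : (ZMod B)ˣ := ZMod.unitOfCoprime r hr with hu
  have hu' : (u : ZMod B) = (r : ZMod B) := ZMod.coe_unitOfCoprime r hr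
  have h1 := Equiv.sum_comp ((Units.mulLeft u).trans (Equiv.subLeft a)) f
  rw [← h1]
  refine Finset.sum_congr rfl fun g _ => ?_
  simp [hu']

lemma step_mgf {h b : ℕ} (hbp : b.Prime) (hbh : h < b) [NeZero (b ^ h)] (H : ℕ → ℕ → ℕ → ℕ)
    (J M : ℕ) (ι c : ℕ → ℕ → ℕ) (hι : ∀ i < h, ∀ γ < b ^ J, ι i γ < M)
    (hfib : ∀ i < h, ∀ v, ((range (b ^ J)).filter (fun γ => ι i γ = v)).card ≤ 2)
    {l : ℕ} (hl : l + 1 ≤ h) (i σ' : Fin (l + 1) → ℕ) (hi : ∀ k, i k < h)
    (hσ' : ∀ k, σ' k ≤ J + 1) (hact : ∃ k, σ' k = J + 1) {n ν : ℕ} (hn : n < (b ^ h) ^ J)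
    {Mx : ℝ} (hMx : ∀ k : Fin (l + 1), ∀ n'',
      ((TT h b H J (fun j => i (k.succAbove j)) (fun j => min (σ' (k.succAbove j)) J) n'').card : ℝ)
        ≤ Mx) {θ : ℝ} (hθ : 0 ≤ θ)
    (hθ1 : θ * (2 * (l + 1) * Mx * ((b ^ h : ℕ) : ℝ)) ≤ 1) :
    avg (b ^ h) M (fun x => Real.exp (θ *
      ((TT h b (newH b h H J ι c x) (J + 1) i σ' (n + (b ^ h) ^ J * ν)).card : ℝ))) ≤
    Real.exp (((TT h b H J i (fun k => min (σ' k) J) n).card : ℝ) *
      (θ * (1 + θ * (2 * (l + 1) * Mx * ((b ^ h : ℕ) : ℝ))))) := by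
  classical
  have hb : 2 ≤ b := hbp.two_le
  set σ : Fin (l + 1) → ℕ := fun k => min (σ' k) J with hσ
  set act := Finset.univ.filter (fun k : Fin (l + 1) => σ' k = J + 1) with hactdef
  have hact' : act.Nonempty := by
    obtain ⟨k, hk⟩ := hact
    exact ⟨k, by rw [hactdef, Finset.mem_filter]; exact ⟨Finset.mem_univ _, hk⟩⟩
  have hactc : act.card ≤ h := by
    refine (Finset.card_le_univ _).trans ?_
    rw [Fintype.card_fin]
    exact hl
  set T := TT h b H J i σ n with hT
  set κ : (Fin (l + 1) → ℕ) → ℕ := fun β => SV h b H i σ β / (b ^ h) ^ J with hκ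
  set Y : (Fin (l + 1) → ℕ) → (ℕ → ZMod (b ^ h)) → ℝ := fun β x =>
    ((NN h b i act ((ν : ZMod (b ^ h)) - (κ β : ZMod (b ^ h)) -
      ∑ k ∈ act, (x (ι (i k) (β k)) + (c (i k) (β k) : ZMod (b ^ h)))) : ℕ) : ℝ) with hY
  set m : (Fin (l + 1) → ℕ) → ℕ := fun β => act.sup (fun k => ι (i k) (β k)) with hm
  have hβJ : ∀ β ∈ T, ∀ k ∈ act, β k < b ^ J := by
    intro β hβ k hk
    have h1 := (mem_TT.1 hβ).1 k
    have h2 : σ k = J := by
      rw [hactdef, Finset.mem_filter] at hk
      rw [hσ]
      show min (σ' k) J = J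
      omega
    rwa [h2] at h1
  have hle : ∀ β, ∀ k ∈ act, ι (i k) (β k) ≤ m β := fun β k hk =>
    Finset.le_sup (f := fun k => ι (i k) (β k)) hk
  have hatt : ∀ β, ∃ k ∈ act, ι (i k) (β k) = m β := by
    intro β
    obtain ⟨k, hk, hk2⟩ := Finset.exists_mem_eq_sup act hact' (fun k => ι (i k) (β k))
    exact ⟨k, hk, hk2.symm⟩
  have hBle : ((b ^ act.card : ℕ) : ℝ) ≤ ((b ^ h : ℕ) : ℝ) := by
    exact_mod_cast Nat.pow_le_pow_right (by omega) hactc
  have hmgf := mgf (B := b ^ h) M T m Y
    (by
      intro β hβ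
      obtain ⟨k, hk, hk2⟩ := hatt β
      rw [← hk2]
      exact hι _ (hi k) _ (hβJ β hβ k hk))
    (by
      intro β _ x v g hv
      simp only [hY]
      congr 2
      congr 1
      refine Finset.sum_congr rfl fun k hk => ?_
      rw [Function.update_of_ne]
      have := hle β k hk
      omega)
    (fun β _ x => Nat.cast_nonneg _)
    (N := ((b ^ h : ℕ) : ℝ))
    (by
      intro β _ x
      simp only [hY]
      refine le_trans ?_ hBle
      exact_mod_cast NN_le h b i act _)
    (Nat.cast_nonneg _)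
    (by
      intro β hβ x
      set R := act.filter (fun k => ι (i k) (β k) = m β) with hR
      have hRpos : 0 < R.card := by
        obtain ⟨k, hk, hk2⟩ := hatt β
        exact Finset.card_pos.2 ⟨k, by rw [hR, Finset.mem_filter]; exact ⟨hk, hk2⟩⟩
      have hRlt : R.card < b := by
        have : R.card ≤ act.card := Finset.card_le_card (Finset.filter_subset _ _)
        omega
      have hcop : Nat.Coprime R.card (b ^ h) := by
        apply Nat.Coprime.pow_right
        apply Nat.Coprime.symm
        exact (Nat.Prime.coprime_iff_not_dvd hbp).2 (Nat.not_dvd_of_pos_of_lt hRpos hRlt)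
      have harg : ∀ g : ZMod (b ^ h), (ν : ZMod (b ^ h)) - (κ β : ZMod (b ^ h)) -
          ∑ k ∈ act, (Function.update x (m β) g (ι (i k) (β k)) +
            (c (i k) (β k) : ZMod (b ^ h))) =
          ((ν : ZMod (b ^ h)) - (κ β : ZMod (b ^ h)) -
            ∑ k ∈ act, (c (i k) (β k) : ZMod (b ^ h)) -
            ∑ k ∈ act.filter (fun k => ι (i k) (β k) ≠ m β), x (ι (i k) (β k))) -
            (R.card : ZMod (b ^ h)) * g := by
        intro g
        have e1 : ∑ k ∈ act, Function.update x (m β) g (ι (i k) (β k)) =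
            (R.card : ZMod (b ^ h)) * g +
              ∑ k ∈ act.filter (fun k => ι (i k) (β k) ≠ m β), x (ι (i k) (β k)) := by
          rw [← Finset.sum_filter_add_sum_filter_not act (fun k => ι (i k) (β k) = m β)]
          congr 1
          · rw [← nsmul_eq_mul, ← Finset.sum_const]
            refine Finset.sum_congr rfl fun k hk => ?_
            rw [(Finset.mem_filter.1 hk).2, Function.update_self]
          · refine Finset.sum_congr rfl fun k hk => ?_
            rw [Function.update_of_ne (Finset.mem_filter.1 hk).2]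
        rw [Finset.sum_add_distrib, e1]
        ring
      simp only [hY]
      simp_rw [harg]
      rw [sum_affine hcop _ (fun y => ((NN h b i act y : ℕ) : ℝ)), ← Nat.cast_sum, NN_sum]
      exact hBle)
    (Δ := 2 * (l + 1) * Mx)
    (by
      intro v
      have h1 : T.filter (fun β => m β = v) ⊆ Finset.univ.biUnion (fun k : Fin (l + 1) =>
          ((range (b ^ J)).filter (fun γ => ι (i k) γ = v)).biUnion
            (fun γ => T.filter (fun β => β k = γ))) := by
        intro β hβ
        obtain ⟨hβT, hβv⟩ := Finset.mem_filter.1 hβ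
        obtain ⟨k, hk, hk2⟩ := hatt β
        rw [Finset.mem_biUnion]
        refine ⟨k, Finset.mem_univ _, ?_⟩
        rw [Finset.mem_biUnion]
        refine ⟨β k, ?_, ?_⟩
        · rw [Finset.mem_filter, Finset.mem_range]
          exact ⟨hβJ β hβT k hk, hk2.trans hβv⟩
        · rw [Finset.mem_filter]
          exact ⟨hβT, rfl⟩
      have h2 : ((T.filter (fun β => m β = v)).card : ℝ) ≤ ∑ k : Fin (l + 1),
          ∑ γ ∈ (range (b ^ J)).filter (fun γ => ι (i k) γ = v),
            ((T.filter (fun β => β k = γ)).card : ℝ) := by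
        have h3 := (Finset.card_le_card h1).trans Finset.card_biUnion_le
        have h4 : ∑ k : Fin (l + 1), (((range (b ^ J)).filter (fun γ => ι (i k) γ = v)).biUnion
            (fun γ => T.filter (fun β => β k = γ))).card ≤ ∑ k : Fin (l + 1),
            ∑ γ ∈ (range (b ^ J)).filter (fun γ => ι (i k) γ = v),
              (T.filter (fun β => β k = γ)).card :=
          Finset.sum_le_sum fun k _ => Finset.card_biUnion_le
        exact_mod_cast h3.trans h4
      refine h2.trans ?_
      have h5 : ∀ k : Fin (l + 1), ∑ γ ∈ (range (b ^ J)).filter (fun γ => ι (i k) γ = v),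
          ((T.filter (fun β => β k = γ)).card : ℝ) ≤ 2 * Mx := by
        intro k
        have hMx0 : 0 ≤ Mx := (Nat.cast_nonneg _).trans (hMx k 0)
        calc ∑ γ ∈ (range (b ^ J)).filter (fun γ => ι (i k) γ = v),
              ((T.filter (fun β => β k = γ)).card : ℝ)
            ≤ ∑ _γ ∈ (range (b ^ J)).filter (fun γ => ι (i k) γ = v), Mx := by
              refine Finset.sum_le_sum fun γ _ => ?_
              have h6 := fix_card (h := h) hb H J i σ n k (min_le_right _ _) γ
              have h7 := hMx k (n + (b ^ h) ^ J - V h b H (i k) (σ k) γ)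
              exact le_trans (by exact_mod_cast h6) h7
          _ = (((range (b ^ J)).filter (fun γ => ι (i k) γ = v)).card : ℝ) * Mx := by
              rw [Finset.sum_const, nsmul_eq_mul]
          _ ≤ 2 * Mx := by
              apply mul_le_mul_of_nonneg_right _ hMx0
              exact_mod_cast hfib (i k) (hi k) v
      calc ∑ k : Fin (l + 1), ∑ γ ∈ (range (b ^ J)).filter (fun γ => ι (i k) γ = v),
            ((T.filter (fun β => β k = γ)).card : ℝ) ≤ ∑ _k : Fin (l + 1), 2 * Mx :=
            Finset.sum_le_sum fun k _ => h5 k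
        _ = 2 * (l + 1) * Mx := by
            rw [Finset.sum_const, Finset.card_univ, Fintype.card_fin, nsmul_eq_mul]
            push_cast
            ring)
    hθ hθ1
  refine le_trans (avg_mono M ?_) hmgf
  intro x
  apply Real.exp_le_exp.2
  apply mul_le_mul_of_nonneg_left _ hθ
  have := step_card hb H J ι c x i σ' hσ' (ν := ν) hn
  simp only [hY]
  exact_mod_cast this

end Pool.Agent.K9h24.NC
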