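import Pool.Agent.K9h24.NC4

/-!
The number of residues which are represented decreases.
-/

set_option autoImplicit false
set_option linter.unusedSectionVars false

open Finset

namespace Pool.Agent.K9h24.NC

/-- digits of the complement -/
lemma compl_digit {b h w j : ℕ} (hb : 2 ≤ b) (hw : w < b ^ h) (hj : j < h) :
    (b ^ h - 1 - w) / b ^ j % b = b - 1 - w / b ^ j % b := by
  obtain ⟨m, rfl⟩ : ∃ m, h = j + 1 + m := ⟨h - (j + 1), by omega⟩
  set q := w / b ^ j / b with hq
  set δ := w / b ^ j % b with hδ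
  set ρ := w % b ^ j with hρ
  have hbj : 0 < b ^ j := pow_pos (by omega) j
  have hbm : 0 < b ^ m := pow_pos (by omega) m
  have hδlt : δ < b := Nat.mod_lt _ (by omega)
  have hρlt : ρ < b ^ j := Nat.mod_lt _ hbj
  have hw1 : w = b ^ j * (b * q + δ) + ρ := by
    rw [hq, hδ, hρ, Nat.div_add_mod, Nat.div_add_mod]
  have hqlt : q < b ^ m := by
    rw [hq, Nat.div_div_eq_div_mul, ← pow_succ, Nat.div_lt_iff_lt_mul (pow_pos (by omega) _),
      ← pow_add]
    rwa [add_comm m]
  clear_value q δ ρ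
  obtain ⟨q', hq'⟩ : ∃ q', q + 1 + q' = b ^ m := ⟨b ^ m - (q + 1), by omega⟩
  obtain ⟨δ', hδ'⟩ : ∃ δ', δ + 1 + δ' = b := ⟨b - (δ + 1), by omega⟩
  obtain ⟨ρ', hρ'⟩ : ∃ ρ', ρ + 1 + ρ' = b ^ j := ⟨b ^ j - (ρ + 1), by omega⟩
  have hpow : b ^ (j + 1 + m) = b ^ j * (b * b ^ m) := by ring
  have key : b ^ (j + 1 + m) = w + 1 + (b ^ j * (b * q' + δ') + ρ') := by
    have e1 : b ^ j * (b * b ^ m) = b ^ j * (b * (q + 1 + q')) := by rw [hq']
    have e2 : b * (q + 1 + q') = (b * q + δ) + (b * q' + δ') + 1 := by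
      have : b * (q + 1 + q') = b * q + b * q' + b := by ring
      rw [this]
      omega
    rw [hpow, e1, e2, hw1]
    have e3 : b ^ j * ((b * q + δ) + (b * q' + δ') + 1) =
        b ^ j * (b * q + δ) + b ^ j * (b * q' + δ') + b ^ j := by ring
    rw [e3]
    omega
  have h1 : b ^ (j + 1 + m) - 1 - w = b ^ j * (b * q' + δ') + ρ' := by
    rw [key]
    generalize b ^ j * (b * q' + δ') + ρ' = X
    omega
  have hρ'lt : ρ' < b ^ j := by
    clear hq hδ hρ hw1 key h1 hpow hw hqlt hq'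
    omega
  have hδ'lt : δ' < b := by
    clear hq hδ hρ hw1 key h1 hpow hw hqlt hq' hρ'
    omega
  rw [h1, Nat.mul_add_div hbj, Nat.div_eq_of_lt hρ'lt, add_zero,
    Nat.mul_add_mod, Nat.mod_eq_of_lt hδ'lt]
  clear hq hδ hρ hw1 key h1 hpow hw hqlt hq' hρ'
  omega

/-- the digit at a place without active type -/
lemma missing_digit {b : ℕ} (hb : 2 ≤ b) {l c0 : ℕ} (i d : Fin l → ℕ) (hi : ∀ k, i k ≠ c0)
    (hd : ∀ k, d k < b) (hlb : l < b) (hl : 0 < l) :
    (∑ k, b ^ i k * d k) / b ^ c0 % b < l := by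
  have hbc : 0 < b ^ c0 := pow_pos (by omega) c0
  set low := ∑ k ∈ Finset.univ.filter (fun k => i k < c0), b ^ i k * d k with hlow
  have hhigh : ∃ q, ∑ k ∈ Finset.univ.filter (fun k => ¬ i k < c0), b ^ i k * d k =
      b ^ c0 * (b * q) := by
    have h1 : b ^ (c0 + 1) ∣ ∑ k ∈ Finset.univ.filter (fun k => ¬ i k < c0), b ^ i k * d k := by
      apply Finset.dvd_sum
      intro k hk
      have h2 := (Finset.mem_filter.1 hk).2
      have h3 := hi k
      exact Dvd.dvd.mul_right (pow_dvd_pow b (by omega)) _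
    obtain ⟨q, hq⟩ := h1
    exact ⟨q, by rw [hq, pow_succ]; ring⟩
  obtain ⟨q, hq⟩ := hhigh
  have hsum : ∑ k, b ^ i k * d k = b ^ c0 * (b * q) + low := by
    rw [← Finset.sum_filter_add_sum_filter_not Finset.univ (fun k => i k < c0), hq, ← hlow]
    ring
  have hlowlt : low < l * b ^ c0 := by
    have h1 : ∀ k ∈ Finset.univ.filter (fun k => i k < c0), b ^ i k * d k ≤ b ^ c0 - 1 := by
      intro k hk
      have h2 := (Finset.mem_filter.1 hk).2
      have h3 : b ^ i k * d k < b ^ c0 := by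
        calc b ^ i k * d k < b ^ i k * b := Nat.mul_lt_mul_of_pos_left (hd k) (pow_pos (by omega) _)
          _ = b ^ (i k + 1) := (pow_succ _ _).symm
          _ ≤ b ^ c0 := Nat.pow_le_pow_right (by omega) h2
      omega
    have h4 : low ≤ (Finset.univ.filter (fun k : Fin l => i k < c0)).card * (b ^ c0 - 1) := by
      rw [hlow, ← smul_eq_mul]
      exact Finset.sum_le_card_nsmul _ _ _ h1
    have h5 : (Finset.univ.filter (fun k : Fin l => i k < c0)).card ≤ l := by
      refine (Finset.card_le_univ _).trans ?_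
      rw [Fintype.card_fin]
    calc low ≤ l * (b ^ c0 - 1) := h4.trans (Nat.mul_le_mul_right _ h5)
      _ < l * b ^ c0 := Nat.mul_lt_mul_of_pos_left (by omega) hl
  rw [hsum, Nat.mul_add_div hbc, Nat.mul_add_mod]
  have h6 : low / b ^ c0 < l := (Nat.div_lt_iff_lt_mul hbc).2 hlowlt
  rw [Nat.mod_eq_of_lt (by omega)]
  exact h6

section

variable {h b : ℕ} (hb : 3 * h + 2 ≤ b) (hh : 2 ≤ h)

include hb hh

/-- if all the hash values vanish, the last class is not represented -/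
lemma zero_step (H : ℕ → ℕ → ℕ → ℕ) (J : ℕ) (ι c : ℕ → ℕ → ℕ)
    (hc : ∀ i γ, c i γ = 0 ∨ c i γ = 1 ∨ c i γ = b) (x : ℕ → ZMod (b ^ h))
    (i : Fin h → ℕ) {c0 : ℕ} (hc0 : c0 < h) (hi : ∀ k, i k ≠ c0) {n : ℕ}
    (hn : n < (b ^ h) ^ J)
    (hx : ∀ β ∈ TT h b H J i (fun _ => J) n, ∀ k, x (ι (i k) (β k)) = 0) :
    TT h b (newH b h H J ι c x) (J + 1) i (fun _ => J + 1) (n + (b ^ h) ^ J * (b ^ h - 1)) = ∅ := by
  classical
  have hb2 : 2 ≤ b := by omega
  rw [← Finset.card_eq_zero]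
  have h1 := step_card (h := h) hb2 H J ι c x i (fun _ => J + 1) (fun _ => le_rfl)
    (ν := b ^ h - 1) hn
  have hmin : (fun _ : Fin h => min (J + 1) J) = fun _ => J := by
    funext k; omega
  rw [hmin] at h1
  refine Nat.le_zero.1 (h1.trans (le_of_eq ?_))
  apply Finset.sum_eq_zero
  intro β hβ
  have hact : (Finset.univ.filter (fun _ : Fin h => J + 1 = J + 1)) = Finset.univ := by simp
  rw [hact]
  set κ := SV h b H i (fun _ => J) β / (b ^ h) ^ J with hκ
  have hκlt : κ < h := by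
    rw [hκ, Nat.div_lt_iff_lt_mul (pow_pos (B_pos hb2) J)]
    unfold SV
    calc ∑ k, V h b H (i k) J (β k) < ∑ _k : Fin h, (b ^ h) ^ J :=
          Finset.sum_lt_sum_of_nonempty ⟨⟨0, by omega⟩, Finset.mem_univ _⟩
            (fun k _ => V_lt hb2 H _ _ _)
      _ = h * (b ^ h) ^ J := by simp
  -- the sum of the constants
  obtain ⟨U, W, hU, hW, hUW⟩ : ∃ U W, U ≤ h ∧ W ≤ h ∧ ∑ k, c (i k) (β k) = U + b * W := by
    refine ⟨(Finset.univ.filter (fun k => c (i k) (β k) = 1)).card,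
      (Finset.univ.filter (fun k => c (i k) (β k) = b)).card, ?_, ?_, ?_⟩
    · refine (Finset.card_le_univ _).trans ?_
      rw [Fintype.card_fin]
    · refine (Finset.card_le_univ _).trans ?_
      rw [Fintype.card_fin]
    · rw [Finset.card_filter, Finset.card_filter, Finset.mul_sum, ← Finset.sum_add_distrib]
      refine Finset.sum_congr rfl fun k _ => ?_
      rcases hc (i k) (β k) with h2 | h2 | h2
      · rw [h2, if_neg (by omega), if_neg (by omega)]; simp
      · rw [h2, if_pos rfl, if_neg (by omega)]; simp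
      · rw [h2, if_neg (by omega), if_pos rfl]; simp
  set w := κ + (U + b * W) with hw
  have hb2h : b ^ 2 ≤ b ^ h := Nat.pow_le_pow_right (by omega) hh
  have hwlt2 : w < b ^ 2 := by
    have : b * W ≤ b * h := Nat.mul_le_mul_left _ hW
    nlinarith
  have hwlt : w < b ^ h := lt_of_lt_of_le hwlt2 hb2h
  have hsumx : ∑ k ∈ Finset.univ, (x (ι (i k) (β k)) + (c (i k) (β k) : ZMod (b ^ h))) =
      ((U + b * W : ℕ) : ZMod (b ^ h)) := by
    rw [← hUW, Nat.cast_sum]
    refine Finset.sum_congr rfl fun k _ => ?_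
    rw [hx β hβ k, zero_add]
  rw [hsumx]
  have hy : ((b ^ h - 1 : ℕ) : ZMod (b ^ h)) - (κ : ZMod (b ^ h)) - ((U + b * W : ℕ) :
      ZMod (b ^ h)) = ((b ^ h - 1 - w : ℕ) : ZMod (b ^ h)) := by
    rw [Nat.cast_sub (by omega : w ≤ b ^ h - 1), hw, Nat.cast_add κ]
    ring
  rw [hy]
  unfold NN
  rw [Finset.card_eq_zero, Finset.filter_eq_empty_iff]
  intro d hd hds
  unfold DS at hd
  rw [Fintype.mem_piFinset] at hd
  have hdb : ∀ k, d k < b := by
    intro k
    have := hd k
    rw [if_pos (Finset.mem_univ _), Finset.mem_range] at this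
    exact this
  have h3 := (ZMod.natCast_eq_natCast_iff _ _ _).1 hds
  have h4 : (∑ k, b ^ i k * d k) / b ^ c0 % b = (b ^ h - 1 - w) / b ^ c0 % b := by
    rw [← div_mod_low b hc0, ← div_mod_low b hc0 (β := b ^ h - 1 - w)]
    have : (∑ k, b ^ i k * d k) % b ^ h = (b ^ h - 1 - w) % b ^ h := h3
    rw [this]
  have h5 := missing_digit hb2 i d hi hdb (by omega) (by omega)
  rw [h4, compl_digit hb2 hwlt hc0] at h5
  have h6 : w / b ^ c0 % b ≤ 2 * h := by
    rcases Nat.lt_or_ge c0 2 with h7 | h7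
    · have hw' : w = b * W + (κ + U) := by rw [hw]; ring
      have h8 : κ + U < b := by omega
      rcases (by omega : c0 = 0 ∨ c0 = 1) with rfl | rfl
      · rw [pow_zero, Nat.div_one, hw', Nat.mul_add_mod, Nat.mod_eq_of_lt h8]
        omega
      · rw [pow_one, hw', Nat.mul_add_div (by omega), Nat.div_eq_of_lt h8, add_zero]
        exact (Nat.mod_le _ _).trans (by omega)
    · have h8 : w < b ^ c0 := lt_of_lt_of_le hwlt2 (Nat.pow_le_pow_right (by omega) h7)
      rw [Nat.div_eq_of_lt h8]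
      simp
  omega

open scoped Classical in
/-- decrease of the number of represented residues -/
lemma surv [NeZero (b ^ h)] (H : ℕ → ℕ → ℕ → ℕ) (J M : ℕ) (ι c : ℕ → ℕ → ℕ)
    (hc : ∀ i γ, c i γ = 0 ∨ c i γ = 1 ∨ c i γ = b)
    (i : Fin h → ℕ) {c0 : ℕ} (hc0 : c0 < h) (hi : ∀ k, i k ≠ c0) {n K : ℕ}
    (hn : n < (b ^ h) ^ J) (hK : (TT h b H J i (fun _ => J) n).card ≤ K) :
    avg (b ^ h) M (fun x => (((range (b ^ h)).filter (fun ν =>
      (TT h b (newH b h H J ι c x) (J + 1) i (fun _ => J + 1) (n + (b ^ h) ^ J * ν)).Nonempty)).card :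
        ℝ)) ≤ ((b ^ h : ℕ) : ℝ) - ((1 : ℝ) / ((b ^ h : ℕ) : ℝ)) ^ (K * h) := by
  have hb2 : 2 ≤ b := by omega
  set W : Finset ℕ := (TT h b H J i (fun _ => J) n).biUnion (fun β =>
    Finset.univ.image (fun k => ι (i k) (β k))) with hW
  have hWc : W.card ≤ K * h := by
    calc W.card ≤ ∑ β ∈ TT h b H J i (fun _ => J) n,
          (Finset.univ.image (fun k => ι (i k) (β k))).card := Finset.card_biUnion_le
      _ ≤ ∑ _β ∈ TT h b H J i (fun _ => J) n, h := by
          refine Finset.sum_le_sum fun β _ => ?_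
          refine Finset.card_image_le.trans ?_
          rw [Finset.card_univ, Fintype.card_fin]
      _ = (TT h b H J i (fun _ => J) n).card * h := by rw [Finset.sum_const, smul_eq_mul]
      _ ≤ K * h := Nat.mul_le_mul_right _ hK
  have hB1 : (1 : ℝ) / ((b ^ h : ℕ) : ℝ) ≤ 1 := by
    rw [div_le_one (B_cast_pos (B := b ^ h))]
    exact_mod_cast B_pos hb2
  have hB0 : (0 : ℝ) ≤ (1 : ℝ) / ((b ^ h : ℕ) : ℝ) := by positivity
  have h1 : ∀ x : ℕ → ZMod (b ^ h), (((range (b ^ h)).filter (fun ν =>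
      (TT h b (newH b h H J ι c x) (J + 1) i (fun _ => J + 1) (n + (b ^ h) ^ J * ν)).Nonempty)).card :
        ℝ) ≤ ((b ^ h : ℕ) : ℝ) + (-1) * (if ∀ w ∈ W, x w = 0 then (1 : ℝ) else 0) := by
    intro x
    by_cases hx : ∀ w ∈ W, x w = 0
    · rw [if_pos hx]
      have hz := zero_step hb hh H J ι c hc x i hc0 hi hn (fun β hβ k => by
        apply hx
        rw [hW, Finset.mem_biUnion]
        exact ⟨β, hβ, Finset.mem_image_of_mem _ (Finset.mem_univ k)⟩)
      have h2 : ((range (b ^ h)).filter (fun ν =>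
          (TT h b (newH b h H J ι c x) (J + 1) i (fun _ => J + 1)
            (n + (b ^ h) ^ J * ν)).Nonempty)) ⊆ (range (b ^ h)).erase (b ^ h - 1) := by
        intro ν hν
        obtain ⟨h3, h4⟩ := Finset.mem_filter.1 hν
        rw [Finset.mem_erase]
        refine ⟨?_, h3⟩
        rintro rfl
        rw [hz] at h4
        exact Finset.not_nonempty_empty h4
      have h5 := Finset.card_le_card h2
      rw [Finset.card_erase_of_mem (Finset.mem_range.2 (by have := B_pos (h := h) hb2; omega)),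
        Finset.card_range] at h5
      have h6 : (((range (b ^ h)).filter (fun ν =>
          (TT h b (newH b h H J ι c x) (J + 1) i (fun _ => J + 1)
            (n + (b ^ h) ^ J * ν)).Nonempty)).card : ℝ) ≤ ((b ^ h - 1 : ℕ) : ℝ) := by
        exact_mod_cast h5
      rw [Nat.cast_sub (B_pos hb2)] at h6
      push_cast at h6 ⊢
      linarith
    · rw [if_neg hx]
      have h5 := Finset.card_filter_le (range (b ^ h)) (fun ν =>
        (TT h b (newH b h H J ι c x) (J + 1) i (fun _ => J + 1) (n + (b ^ h) ^ J * ν)).Nonempty)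
      rw [Finset.card_range] at h5
      have h6 : (((range (b ^ h)).filter (fun ν =>
          (TT h b (newH b h H J ι c x) (J + 1) i (fun _ => J + 1)
            (n + (b ^ h) ^ J * ν)).Nonempty)).card : ℝ) ≤ ((b ^ h : ℕ) : ℝ) := by
        exact_mod_cast h5
      linarith
  refine (avg_mono M h1).trans ?_
  rw [avg_add, avg_const, avg_smul]
  have h7 := avg_ind (B := b ^ h) M W
  have h8 : ((1 : ℝ) / ((b ^ h : ℕ) : ℝ)) ^ (K * h) ≤ ((1 : ℝ) / ((b ^ h : ℕ) : ℝ)) ^ W.card :=
    pow_le_pow_of_le_one hB0 hB1 hWc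
  linarith

end

end Pool.Agent.K9h24.NC
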