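import Pool.Agent.K9h24.NC5

/-!
Pairing of the strings by size; few hashed numbers are small.
-/

set_option autoImplicit false
set_option linter.unusedSectionVars false

open Finset

namespace Pool.Agent.K9h24.NC

/-- the rank of a string by the size of its value -/
def rk (h b : ℕ) (H : ℕ → ℕ → ℕ → ℕ) (J i γ : ℕ) : ℕ :=
  ((range (b ^ J)).filter (fun γ' => V h b H i J γ' < V h b H i J γ)).card

/-- the vertex of a string -/
def io (h b : ℕ) (H : ℕ → ℕ → ℕ → ℕ) (J i γ : ℕ) : ℕ := i * b ^ J + rk h b H J i γ / 2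

/-- the constant of a string -/
def cc (h b : ℕ) (H : ℕ → ℕ → ℕ → ℕ) (J i γ : ℕ) : ℕ :=
  if rk h b H J i γ % 2 = 1 then (if i = 0 then b else 1) else 0

/-- the number of small values -/
def CC (h b : ℕ) (H : ℕ → ℕ → ℕ → ℕ) (i S m : ℕ) : ℕ :=
  ((range (b ^ S)).filter (fun β => V h b H i S β < (b ^ h) ^ m)).card

lemma cc_cases (h b : ℕ) (H : ℕ → ℕ → ℕ → ℕ) (J i γ : ℕ) :
    cc h b H J i γ = 0 ∨ cc h b H J i γ = 1 ∨ cc h b H J i γ = b := by
  unfold cc
  split_ifs <;> simp

section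

variable {h b : ℕ} (hb : 2 ≤ b)

include hb

lemma rk_strict (H : ℕ → ℕ → ℕ → ℕ) (J i : ℕ) {γ γ' : ℕ} (hγ : γ < b ^ J)
    (hlt : V h b H i J γ < V h b H i J γ') : rk h b H J i γ < rk h b H J i γ' := by
  unfold rk
  apply Finset.card_lt_card
  rw [Finset.ssubset_iff_of_subset]
  · refine ⟨γ, ?_, ?_⟩
    · rw [Finset.mem_filter, Finset.mem_range]
      exact ⟨hγ, hlt⟩
    · rw [Finset.mem_filter]
      exact fun hc => lt_irrefl _ hc.2
  · intro γ'' h1
    obtain ⟨h2, h3⟩ := Finset.mem_filter.1 h1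
    rw [Finset.mem_filter]
    exact ⟨h2, h3.trans hlt⟩

lemma rk_inj (H : ℕ → ℕ → ℕ → ℕ) (J : ℕ) {i : ℕ} (hi : i < h) {γ γ' : ℕ} (hγ : γ < b ^ J)
    (hγ' : γ' < b ^ J) (he : rk h b H J i γ = rk h b H J i γ') : γ = γ' := by
  rcases lt_trichotomy (V h b H i J γ) (V h b H i J γ') with h1 | h1 | h1
  · exact absurd he (rk_strict hb H J i hγ h1).ne
  · exact V_inj hb H hi hγ hγ' h1
  · exact absurd he.symm (rk_strict hb H J i hγ' h1).ne

lemma rk_lt (H : ℕ → ℕ → ℕ → ℕ) (J i : ℕ) {γ : ℕ} (hγ : γ < b ^ J) :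
    rk h b H J i γ < b ^ J := by
  unfold rk
  have h1 : (range (b ^ J)).filter (fun γ' => V h b H i J γ' < V h b H i J γ) ⊆
      (range (b ^ J)).erase γ := by
    intro γ' h2
    obtain ⟨h3, h4⟩ := Finset.mem_filter.1 h2
    rw [Finset.mem_erase]
    refine ⟨?_, h3⟩
    rintro rfl
    exact lt_irrefl _ h4
  have h2 := Finset.card_le_card h1
  rw [Finset.card_erase_of_mem (Finset.mem_range.2 hγ), Finset.card_range] at h2
  omega

lemma io_lt (H : ℕ → ℕ → ℕ → ℕ) (J : ℕ) : ∀ i < h, ∀ γ < b ^ J, io h b H J i γ < h * b ^ J := by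
  intro i hi γ hγ
  unfold io
  have h1 := rk_lt (h := h) hb H J i hγ
  have h2 : rk h b H J i γ / 2 < b ^ J := lt_of_le_of_lt (Nat.div_le_self _ _) h1
  calc i * b ^ J + rk h b H J i γ / 2 < i * b ^ J + b ^ J := Nat.add_lt_add_left h2 _
    _ = (i + 1) * b ^ J := by ring
    _ ≤ h * b ^ J := Nat.mul_le_mul_right _ hi

lemma io_fib (H : ℕ → ℕ → ℕ → ℕ) (J : ℕ) : ∀ i < h, ∀ v,
    ((range (b ^ J)).filter (fun γ => io h b H J i γ = v)).card ≤ 2 := by
  intro i hi v
  have h1 : ((range (b ^ J)).filter (fun γ => io h b H J i γ = v)).card ≤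
      ({2 * (v - i * b ^ J), 2 * (v - i * b ^ J) + 1} : Finset ℕ).card := by
    apply Finset.card_le_card_of_injOn (fun γ => rk h b H J i γ)
    · intro γ hγ
      rw [Finset.mem_coe, Finset.mem_filter] at hγ
      have h2 : i * b ^ J + rk h b H J i γ / 2 = v := hγ.2
      rw [Finset.mem_coe, Finset.mem_insert, Finset.mem_singleton]
      generalize i * b ^ J = w at h2 ⊢
      show rk h b H J i γ = 2 * (v - w) ∨ rk h b H J i γ = 2 * (v - w) + 1
      omega
    · intro γ hγ γ' hγ' he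
      rw [Finset.mem_coe, Finset.mem_filter, Finset.mem_range] at hγ hγ'
      exact rk_inj hb H J hi hγ.1 hγ'.1 he
  exact h1.trans Finset.card_le_two

/-- small values become rare -/
lemma CC_step (hh : 2 ≤ h) (H : ℕ → ℕ → ℕ → ℕ) (J : ℕ) (x : ℕ → ZMod (b ^ h)) {i : ℕ} (hi : i < h)
    {m : ℕ} (hm : m ≤ J) :
    CC h b (newH b h H J (io h b H J) (cc h b H J) x) i (J + 1) m ≤ (CC h b H i J m + 1) / 2 := by
  have hBpos : 0 < b ^ h := B_pos hb
  have : NeZero (b ^ h) := ⟨hBpos.ne'⟩
  set H' := newH b h H J (io h b H J) (cc h b H J) x with hH'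
  have hfacts : ∀ β, V h b H' i (J + 1) β < (b ^ h) ^ m →
      V h b H i J (β % b ^ J) < (b ^ h) ^ m ∧
      ((b ^ i * (β / b ^ J % b) : ℕ) : ZMod (b ^ h)) + (x (io h b H J i (β % b ^ J)) +
        (cc h b H J i (β % b ^ J) : ZMod (b ^ h))) = 0 := by
    intro β hβ
    rw [V_succ, V_newH_low hb H J _ _ x i β le_rfl] at hβ
    have hy : (b ^ i * (β / b ^ J % b) + H' J i (β % b ^ J)) % b ^ h = 0 := by
      by_contra hcon
      have h1 : (b ^ h) ^ J ≤ (b ^ h) ^ J *
          ((b ^ i * (β / b ^ J % b) + H' J i (β % b ^ J)) % b ^ h) :=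
        Nat.le_mul_of_pos_right _ (Nat.pos_of_ne_zero hcon)
      have h2 : (b ^ h) ^ m ≤ (b ^ h) ^ J := Nat.pow_le_pow_right hBpos hm
      omega
    rw [hy, mul_zero, add_zero] at hβ
    refine ⟨by rw [V_mod_arg]; exact hβ, ?_⟩
    have h3 := (ZMod.natCast_eq_zero_iff _ _).2 (Nat.dvd_of_mod_eq_zero hy)
    rw [Nat.cast_add] at h3
    rw [← h3]
    congr 1
    rw [hH']
    unfold newH
    rw [if_pos rfl, ZMod.natCast_val, ZMod.cast_id', id_eq]
  have hcard : CC h b H' i (J + 1) m ≤ (range ((CC h b H i J m + 1) / 2)).card := by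
    unfold CC
    apply Finset.card_le_card_of_injOn (fun β => rk h b H J i (β % b ^ J) / 2)
    · intro β hβ
      rw [Finset.mem_coe, Finset.mem_filter] at hβ
      obtain ⟨h1, _⟩ := hfacts β hβ.2
      rw [Finset.mem_coe, Finset.mem_range]
      have h2 : rk h b H J i (β % b ^ J) < CC h b H i J m := by
        unfold rk CC
        apply Finset.card_lt_card
        rw [Finset.ssubset_iff_of_subset]
        · refine ⟨β % b ^ J, ?_, ?_⟩
          · rw [Finset.mem_filter, Finset.mem_range]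
            exact ⟨Nat.mod_lt _ (pow_pos (by omega) J), h1⟩
          · rw [Finset.mem_filter]
            exact fun hc => lt_irrefl _ hc.2
        · intro γ hγ
          obtain ⟨h3, h4⟩ := Finset.mem_filter.1 hγ
          rw [Finset.mem_filter]
          exact ⟨h3, h4.trans h1⟩
      unfold CC at h2
      show rk h b H J i (β % b ^ J) / 2 < _
      omega
    · intro β hβ β' hβ' he
      rw [Finset.mem_coe, Finset.mem_filter, Finset.mem_range] at hβ hβ'
      obtain ⟨_, h2⟩ := hfacts β hβ.2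
      obtain ⟨_, h2'⟩ := hfacts β' hβ'.2
      have hdb : β / b ^ J % b < b := Nat.mod_lt _ (by omega)
      have hdb' : β' / b ^ J % b < b := Nat.mod_lt _ (by omega)
      have hγ : β % b ^ J < b ^ J := Nat.mod_lt _ (pow_pos (by omega) J)
      have hγ' : β' % b ^ J < b ^ J := Nat.mod_lt _ (pow_pos (by omega) J)
      have he' : rk h b H J i (β % b ^ J) / 2 = rk h b H J i (β' % b ^ J) / 2 := he
      have hio : io h b H J i (β % b ^ J) = io h b H J i (β' % b ^ J) := by
        unfold io; rw [he']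
      -- equation between the two
      have h3 : ((b ^ i * (β / b ^ J % b) + cc h b H J i (β % b ^ J) : ℕ) : ZMod (b ^ h)) =
          ((b ^ i * (β' / b ^ J % b) + cc h b H J i (β' % b ^ J) : ℕ) : ZMod (b ^ h)) := by
        rw [hio] at h2
        rw [Nat.cast_add, Nat.cast_add]
        linear_combination h2 - h2'
      have h4 := (ZMod.natCast_eq_natCast_iff _ _ _).1 h3
      have hcase : ∀ d d' : ℕ, d < b → d' < b →
          ¬ (b ^ i * d + 0 ≡ b ^ i * d' + (if i = 0 then b else 1) [MOD b ^ h]) := by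
        intro d d' hd hd' hcon
        by_cases hi0 : i = 0
        · subst hi0
          rw [if_pos rfl, pow_zero, one_mul, one_mul, add_zero] at hcon
          have h5 : b ^ 2 ≤ b ^ h := Nat.pow_le_pow_right (by omega) hh
          have h6 : d = d' + b := Nat.ModEq.eq_of_lt_of_lt hcon (by nlinarith) (by nlinarith)
          omega
        · rw [if_neg hi0] at hcon
          have h5 : b ∣ b ^ h := dvd_pow_self b (by omega)
          have h6 := hcon.of_dvd h5
          have h7 : b ∣ b ^ i := dvd_pow_self b hi0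
          have h8 : b ^ i * d + 0 ≡ 0 [MOD b] :=
            (Nat.modEq_zero_iff_dvd).2 (by rw [add_zero]; exact Dvd.dvd.mul_right h7 _)
          have h9 : b ^ i * d' + 1 ≡ 0 + 1 [MOD b] :=
            Nat.ModEq.add_right 1 ((Nat.modEq_zero_iff_dvd).2 (Dvd.dvd.mul_right h7 _))
          have h10 : 0 ≡ 1 [MOD b] := (h8.symm.trans h6).trans h9
          have h11 := Nat.ModEq.eq_of_lt_of_lt h10 (by omega) (by omega)
          omega
      have hrk : rk h b H J i (β % b ^ J) = rk h b H J i (β' % b ^ J) := by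
        by_contra hne
        have h5 : rk h b H J i (β % b ^ J) % 2 ≠ rk h b H J i (β' % b ^ J) % 2 := by omega
        unfold cc at h4
        rcases Nat.mod_two_eq_zero_or_one (rk h b H J i (β % b ^ J)) with h6 | h6
        · have h7 : rk h b H J i (β' % b ^ J) % 2 = 1 := by omega
          have h8 : ¬ rk h b H J i (β % b ^ J) % 2 = 1 := by omega
          rw [if_neg h8, if_pos h7] at h4
          exact hcase _ _ hdb hdb' h4
        · have h7 : ¬ rk h b H J i (β' % b ^ J) % 2 = 1 := by omega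
          rw [if_pos h6, if_neg h7] at h4
          exact hcase _ _ hdb' hdb h4.symm
      have hγγ := rk_inj hb H J hi hγ hγ' hrk
      rw [hγγ] at h4
      have h5 := digit_inj (h := h) hb hi hdb hdb' h4
      have h6 := mod_succ_eq hb hγγ h5
      rwa [Nat.mod_eq_of_lt hβ.1, Nat.mod_eq_of_lt hβ'.1] at h6
  rwa [Finset.card_range] at hcard

lemma CC_self (H : ℕ → ℕ → ℕ → ℕ) (i m : ℕ) : CC h b H i m m = b ^ m := by
  unfold CC
  rw [Finset.filter_true_of_mem (fun β _ => V_lt hb H i m β), Finset.card_range]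

end

end Pool.Agent.K9h24.NC
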