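import Pool.Agent.K9h24.NC6

/-!
The potential and its step inequality.
-/

set_option autoImplicit false
set_option linter.unusedSectionVars false

open Finset

namespace Pool.Agent.K9h24.NC

/-- the constants `K_l` -/
noncomputable def Kst (B g : ℝ) : ℕ → ℝ
  | 0 => 1
  | l + 1 => g * (2 * (l + 1) * B * Kst B g l)

/-- the constants `C_{l+1}` -/
noncomputable def Cst (B g : ℝ) (l : ℕ) : ℝ := 2 * (l + 1) * B * Kst B g l

/-- the parameter for patterns of length `l + 1` -/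
noncomputable def th (B g : ℝ) (l J : ℕ) : ℝ := 1 / (Cst B g l * ((J : ℝ) + 1) ^ (3 * l + 1))

lemma Kst_pos {B g : ℝ} (hB : 0 < B) (hg : 0 < g) (l : ℕ) : 0 < Kst B g l := by
  induction l with
  | zero => exact one_pos
  | succ l ih =>
    have : Kst B g (l + 1) = g * (2 * (l + 1) * B * Kst B g l) := rfl
    rw [this]
    positivity

lemma Cst_pos {B g : ℝ} (hB : 0 < B) (hg : 0 < g) (l : ℕ) : 0 < Cst B g l := by
  unfold Cst
  have := Kst_pos hB hg l
  positivity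

lemma Kst_ge {B g : ℝ} (hB : 1 ≤ B) (hg : 1 ≤ g) (l : ℕ) : 1 ≤ Kst B g l := by
  induction l with
  | zero => exact le_rfl
  | succ l ih =>
    have e : Kst B g (l + 1) = g * (2 * (l + 1) * B * Kst B g l) := rfl
    rw [e]
    have h1 : (1 : ℝ) ≤ 2 * (l + 1) := by
      have : (0 : ℝ) ≤ l := Nat.cast_nonneg l
      linarith
    have h2 : 1 ≤ 2 * (l + 1) * B := one_le_mul_of_one_le_of_one_le h1 hB
    have h3 : 1 ≤ 2 * (l + 1) * B * Kst B g l := one_le_mul_of_one_le_of_one_le h2 ih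
    exact one_le_mul_of_one_le_of_one_le hg h3

lemma Cst_ge {B g : ℝ} (hB : 1 ≤ B) (hg : 1 ≤ g) (l : ℕ) : 1 ≤ Cst B g l := by
  unfold Cst
  have h1 : (1 : ℝ) ≤ 2 * (l + 1) := by
    have : (0 : ℝ) ≤ l := Nat.cast_nonneg l
    linarith
  exact one_le_mul_of_one_le_of_one_le (one_le_mul_of_one_le_of_one_le h1 hB) (Kst_ge hB hg l)

lemma th_pos {B g : ℝ} (hB : 0 < B) (hg : 0 < g) (l J : ℕ) : 0 < th B g l J := by
  unfold th
  have := Cst_pos hB hg l
  positivity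

lemma th_le_one {B g : ℝ} (hB : 1 ≤ B) (hg : 1 ≤ g) (l J : ℕ) : th B g l J ≤ 1 := by
  unfold th
  have h1 := Cst_ge hB hg l
  have h2 : (1 : ℝ) ≤ ((J : ℝ) + 1) ^ (3 * l + 1) := one_le_pow₀ (by
    have : (0 : ℝ) ≤ J := Nat.cast_nonneg J
    linarith)
  rw [div_le_one (by positivity)]
  exact one_le_mul_of_one_le_of_one_le h1 h2

lemma th_step {B g : ℝ} (hB : 0 < B) (hg : 0 < g) (l J : ℕ) :
    th B g l (J + 1) * (2 * (l + 1) * (Kst B g l * ((J : ℝ) + 1) ^ (3 * l)) * B) ≤ 1 ∧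
    th B g l (J + 1) * (1 + th B g l (J + 1) *
      (2 * (l + 1) * (Kst B g l * ((J : ℝ) + 1) ^ (3 * l)) * B)) ≤ th B g l J := by
  have hC := Cst_pos hB hg l
  have hJ : (0 : ℝ) ≤ J := Nat.cast_nonneg J
  set X : ℝ := Cst B g l * ((J : ℝ) + 2) ^ (3 * l + 1) with hX
  set Y : ℝ := Cst B g l * ((J : ℝ) + 1) ^ (3 * l + 1) with hY
  set D : ℝ := Cst B g l * ((J : ℝ) + 1) ^ (3 * l) with hD
  have hDe : 2 * (l + 1) * (Kst B g l * ((J : ℝ) + 1) ^ (3 * l)) * B = D := by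
    rw [hD]; unfold Cst; ring
  have hth1 : th B g l (J + 1) = 1 / X := by
    unfold th
    rw [hX]
    push_cast
    ring_nf
  have hth0 : th B g l J = 1 / Y := rfl
  have hX0 : 0 < X := by positivity
  have hY0 : 0 < Y := by positivity
  have hD0 : 0 < D := by positivity
  have hXYD : Y + D ≤ X := by
    have h1 : ((J : ℝ) + 1) ^ (3 * l) ≤ ((J : ℝ) + 2) ^ (3 * l) :=
      pow_le_pow_left₀ (by linarith) (by linarith) _
    rw [hX, hY, hD, pow_succ, pow_succ, ← mul_add]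
    apply mul_le_mul_of_nonneg_left _ hC.le
    nlinarith
  rw [hDe, hth1, hth0]
  refine ⟨?_, ?_⟩
  · rw [one_div, inv_mul_le_iff₀ hX0]
    linarith
  · have e1 : 1 / X * (1 + 1 / X * D) = (X + D) / (X * X) := by field_simp
    rw [e1, div_le_div_iff₀ (by positivity) hY0]
    nlinarith

lemma th_anti {B g : ℝ} (hB : 0 < B) (hg : 0 < g) (l J : ℕ) : th B g l (J + 1) ≤ th B g l J := by
  have h1 := (th_step hB hg l J).2
  have h2 := th_pos hB hg l (J + 1)
  have h3 := Kst_pos hB hg l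
  have h4 : 0 ≤ th B g l (J + 1) * (th B g l (J + 1) *
      (2 * (l + 1) * (Kst B g l * ((J : ℝ) + 1) ^ (3 * l)) * B)) := by positivity
  nlinarith

/-- the patterns of length `l + 1` and the level `J` -/
def Pi (h l : ℕ) : Finset (Fin l → ℕ) := Fintype.piFinset (fun _ : Fin l => range h)

/-- the stops -/
def Ps (l J : ℕ) : Finset (Fin l → ℕ) := Fintype.piFinset (fun _ : Fin l => range (J + 1))

lemma mem_Pi {h l : ℕ} {i : Fin l → ℕ} : i ∈ Pi h l ↔ ∀ k, i k < h := by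
  unfold Pi; rw [Fintype.mem_piFinset]; simp

lemma mem_Ps {l J : ℕ} {σ : Fin l → ℕ} : σ ∈ Ps l J ↔ ∀ k, σ k ≤ J := by
  unfold Ps; rw [Fintype.mem_piFinset]; simp

/-- the potential -/
noncomputable def Phi (h b : ℕ) (g : ℝ) (J : ℕ) (H : ℕ → ℕ → ℕ → ℕ) : ℝ :=
  ∑ l ∈ range h, ∑ i ∈ Pi h (l + 1), ∑ σ ∈ Ps (l + 1) J, ∑ n ∈ range ((b ^ h) ^ J),
    Real.exp (th ((b ^ h : ℕ) : ℝ) g l J * ((TT h b H J i σ n).card : ℝ))

section

variable {h b : ℕ} (hb : 2 ≤ b)

include hb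

omit hb in
lemma TT_congr {H H' : ℕ → ℕ → ℕ → ℕ} {J l : ℕ} {i σ : Fin l → ℕ} (hσ : ∀ k, σ k ≤ J)
    (hH : ∀ q < J, ∀ i γ, H q i γ = H' q i γ) (n : ℕ) :
    TT h b H J i σ n = TT h b H' J i σ n := by
  unfold TT
  refine Finset.filter_congr fun β _ => ?_
  have : SV h b H i σ β = SV h b H' i σ β := by
    unfold SV
    refine Finset.sum_congr rfl fun k _ => ?_
    apply V_congr_H
    intro q hq
    exact hH q (lt_of_lt_of_le hq (hσ k)) _ _
  rw [this]

lemma TT_mod {H : ℕ → ℕ → ℕ → ℕ} {J l : ℕ} {i σ : Fin l → ℕ} (n : ℕ) :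
    TT h b H J i σ (n % (b ^ h) ^ J) = TT h b H J i σ n := by
  unfold TT
  refine Finset.filter_congr fun β _ => ?_
  constructor
  · intro h1
    exact h1.trans (Nat.mod_modEq _ _)
  · intro h1
    exact h1.trans (Nat.mod_modEq _ _).symm

/-- bounds for the numbers of representations from the potential -/
lemma card_le_of_Phi {g : ℝ} (hg : 1 ≤ g) {J : ℕ} {H : ℕ → ℕ → ℕ → ℕ}
    (hPhi : Phi h b g J H ≤ Real.exp (g * ((J : ℝ) + 1) ^ 2)) {l : ℕ} (hl : l ≤ h)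
    {i σ : Fin l → ℕ} (hi : ∀ k, i k < h) (hσ : ∀ k, σ k ≤ J) (n : ℕ) :
    ((TT h b H J i σ n).card : ℝ) ≤ Kst ((b ^ h : ℕ) : ℝ) g l * ((J : ℝ) + 1) ^ (3 * l) := by
  have hBpos : 0 < b ^ h := B_pos hb
  have hBr : (0 : ℝ) < ((b ^ h : ℕ) : ℝ) := by exact_mod_cast hBpos
  rcases l with _ | l
  · have h1 : (TT h b H J i σ n).card ≤ 1 := by
      rw [Finset.card_le_one]
      intro β _ β' _
      exact Subsingleton.elim _ _
    have h2 : Kst ((b ^ h : ℕ) : ℝ) g 0 * ((J : ℝ) + 1) ^ (3 * 0) = 1 := by simp [Kst]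
    rw [h2]
    exact_mod_cast h1
  · rw [← TT_mod hb]
    have hn : n % (b ^ h) ^ J ∈ range ((b ^ h) ^ J) :=
      Finset.mem_range.2 (Nat.mod_lt _ (pow_pos hBpos J))
    set n0 := n % (b ^ h) ^ J with hn0
    have hth := th_pos hBr (by linarith : 0 < g) l J
    have h1 : Real.exp (th ((b ^ h : ℕ) : ℝ) g l J * ((TT h b H J i σ n0).card : ℝ)) ≤
        Phi h b g J H := by
      unfold Phi
      refine le_trans ?_ (Finset.single_le_sum (f := fun l => ∑ i ∈ Pi h (l + 1),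
        ∑ σ ∈ Ps (l + 1) J, ∑ n ∈ range ((b ^ h) ^ J),
        Real.exp (th ((b ^ h : ℕ) : ℝ) g l J * ((TT h b H J i σ n).card : ℝ)))
        (fun l _ => Finset.sum_nonneg fun _ _ => Finset.sum_nonneg fun _ _ =>
          Finset.sum_nonneg fun _ _ => Real.exp_nonneg _)
        (Finset.mem_range.2 (by omega : l < h)))
      refine le_trans ?_ (Finset.single_le_sum (f := fun i =>
        ∑ σ ∈ Ps (l + 1) J, ∑ n ∈ range ((b ^ h) ^ J),
        Real.exp (th ((b ^ h : ℕ) : ℝ) g l J * ((TT h b H J i σ n).card : ℝ)))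
        (fun _ _ => Finset.sum_nonneg fun _ _ =>
          Finset.sum_nonneg fun _ _ => Real.exp_nonneg _)
        (mem_Pi.2 hi))
      refine le_trans ?_ (Finset.single_le_sum (f := fun σ => ∑ n ∈ range ((b ^ h) ^ J),
        Real.exp (th ((b ^ h : ℕ) : ℝ) g l J * ((TT h b H J i σ n).card : ℝ)))
        (fun _ _ => Finset.sum_nonneg fun _ _ => Real.exp_nonneg _)
        (mem_Ps.2 hσ))
      exact Finset.single_le_sum (f := fun n =>
        Real.exp (th ((b ^ h : ℕ) : ℝ) g l J * ((TT h b H J i σ n).card : ℝ)))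
        (fun _ _ => Real.exp_nonneg _) hn
    have h2 := Real.exp_le_exp.1 (h1.trans hPhi)
    have hC := Cst_pos hBr (by linarith : 0 < g) l
    have hJ1 : (0 : ℝ) < (J : ℝ) + 1 := by positivity
    have h3 : ((TT h b H J i σ n0).card : ℝ) ≤
        g * ((J : ℝ) + 1) ^ 2 * (Cst ((b ^ h : ℕ) : ℝ) g l * ((J : ℝ) + 1) ^ (3 * l + 1)) := by
      unfold th at h2
      rw [one_div, inv_mul_le_iff₀ (by positivity)] at h2
      linarith
    refine h3.trans (le_of_eq ?_)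
    have e : Kst ((b ^ h : ℕ) : ℝ) g (l + 1) = g * Cst ((b ^ h : ℕ) : ℝ) g l := rfl
    rw [e]
    have e2 : 3 * (l + 1) = 2 + (3 * l + 1) := by ring
    rw [e2, pow_add]
    ring

omit hb in
lemma sum_min_le (l J : ℕ) (F : (Fin l → ℕ) → ℝ) (hF : ∀ σ, 0 ≤ F σ) :
    ∑ σ' ∈ Ps l (J + 1), F (fun k => min (σ' k) J) ≤ 2 ^ l * ∑ σ ∈ Ps l J, F σ := by
  classical
  have hmaps : ∀ σ' ∈ Ps l (J + 1), (fun k => min (σ' k) J) ∈ Ps l J := fun σ' _ =>
    mem_Ps.2 (fun k => min_le_right _ _)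
  rw [← Finset.sum_fiberwise_of_maps_to hmaps, Finset.mul_sum]
  refine Finset.sum_le_sum fun σ _ => ?_
  have h1 : ∀ σ' ∈ (Ps l (J + 1)).filter (fun σ' => (fun k => min (σ' k) J) = σ),
      F (fun k => min (σ' k) J) = F σ := by
    intro σ' hσ'
    rw [(Finset.mem_filter.1 hσ').2]
  rw [Finset.sum_congr rfl h1, Finset.sum_const, nsmul_eq_mul]
  apply mul_le_mul_of_nonneg_right _ (hF σ)
  have h2 : (Ps l (J + 1)).filter (fun σ' => (fun k => min (σ' k) J) = σ) ⊆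
      Fintype.piFinset (fun k => ({σ k, J + 1} : Finset ℕ)) := by
    intro σ' hσ'
    obtain ⟨h3, h4⟩ := Finset.mem_filter.1 hσ'
    rw [Fintype.mem_piFinset]
    intro k
    have h5 : min (σ' k) J = σ k := congrFun h4 k
    have h6 := mem_Ps.1 h3 k
    rw [Finset.mem_insert, Finset.mem_singleton]
    omega
  have h3 := Finset.card_le_card h2
  rw [Fintype.card_piFinset] at h3
  have h4 : ∏ k : Fin l, ({σ k, J + 1} : Finset ℕ).card ≤ 2 ^ l := by
    calc ∏ k : Fin l, ({σ k, J + 1} : Finset ℕ).card ≤ ∏ _k : Fin l, 2 :=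
          Finset.prod_le_prod' fun k _ => Finset.card_le_two
      _ = 2 ^ l := by simp
  exact_mod_cast h3.trans h4

omit hb in
lemma sum_range_mul' (Q M : ℕ) (f : ℕ → ℝ) :
    ∑ n ∈ range (Q * M), f n = ∑ n ∈ range Q, ∑ ν ∈ range M, f (n + Q * ν) := by
  rw [Finset.sum_comm]
  induction M with
  | zero => simp
  | succ M ih =>
    rw [Nat.mul_succ, Finset.sum_range_add, ih, Finset.sum_range_succ]
    congr 1
    exact Finset.sum_congr rfl fun n _ => by rw [add_comm]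

end

/-- the step inequality for the potential -/
lemma Phi_step {h b : ℕ} (hbp : b.Prime) (hbh : h < b) [NeZero (b ^ h)] {g : ℝ} (hg : 1 ≤ g)
    {J : ℕ} {H : ℕ → ℕ → ℕ → ℕ} (hPhi : Phi h b g J H ≤ Real.exp (g * ((J : ℝ) + 1) ^ 2)) :
    avg (b ^ h) (h * b ^ J) (fun x => Phi h b g (J + 1)
      (newH b h H J (io h b H J) (cc h b H J) x)) ≤
      2 ^ h * ((b ^ h : ℕ) : ℝ) * Phi h b g J H := by
  classical
  have hb : 2 ≤ b := hbp.two_le
  have hBpos : 0 < b ^ h := B_pos hb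
  have hBr : (0 : ℝ) < ((b ^ h : ℕ) : ℝ) := by exact_mod_cast hBpos
  have hg0 : 0 < g := by linarith
  set NH := fun x => newH b h H J (io h b H J) (cc h b H J) x with hNH
  have hone : ∀ l < h, ∀ i ∈ Pi h (l + 1), ∀ σ' ∈ Ps (l + 1) (J + 1),
      ∀ n < (b ^ h) ^ J, ∀ ν,
      avg (b ^ h) (h * b ^ J) (fun x => Real.exp (th ((b ^ h : ℕ) : ℝ) g l (J + 1) *
        ((TT h b (NH x) (J + 1) i σ' (n + (b ^ h) ^ J * ν)).card : ℝ))) ≤
      Real.exp (th ((b ^ h : ℕ) : ℝ) g l J *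
        ((TT h b H J i (fun k => min (σ' k) J) n).card : ℝ)) := by
    intro l hl i hi σ' hσ' n hn ν
    rw [mem_Pi] at hi
    rw [mem_Ps] at hσ'
    have hstep := th_step hBr hg0 l J
    have hthp := th_pos hBr hg0 l (J + 1)
    by_cases hact : ∃ k, σ' k = J + 1
    · refine (step_mgf hbp hbh H J (h * b ^ J) (io h b H J) (cc h b H J) (io_lt hb H J)
        (io_fib hb H J) (by omega) i σ' hi hσ' hact (ν := ν) hn
        (Mx := Kst ((b ^ h : ℕ) : ℝ) g l * ((J : ℝ) + 1) ^ (3 * l)) ?_ hthp.le ?_).trans ?_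
      · intro k n''
        exact card_le_of_Phi hb hg hPhi (by omega) (fun j => hi _) (fun j => min_le_right _ _) n''
      · exact hstep.1
      · apply Real.exp_le_exp.2
        rw [mul_comm]
        exact mul_le_mul_of_nonneg_right hstep.2 (Nat.cast_nonneg _)
    · push Not at hact
      have hle : ∀ k, σ' k ≤ J := fun k => by
        have h1 := hσ' k
        have h2 := hact k
        omega
      have hmin : (fun k => min (σ' k) J) = σ' := by
        funext k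
        exact min_eq_left (hle k)
      rw [hmin]
      refine (avg_mono (h * b ^ J) (f' := fun _ => Real.exp (th ((b ^ h : ℕ) : ℝ) g l J *
        ((TT h b H J i σ' n).card : ℝ))) ?_).trans (le_of_eq (avg_const _ _))
      intro x
      apply Real.exp_le_exp.2
      have hsub : TT h b (NH x) (J + 1) i σ' (n + (b ^ h) ^ J * ν) ⊆ TT h b H J i σ' n := by
        intro β hβ
        obtain ⟨h1, h2⟩ := mem_TT.1 hβ
        rw [mem_TT]
        refine ⟨h1, ?_⟩
        have h3 : SV h b (NH x) i σ' β = SV h b H i σ' β := by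
          unfold SV
          exact Finset.sum_congr rfl fun k _ => V_newH_low hb H J _ _ x _ _ (hle k)
        rw [h3] at h2
        have h4 := h2.of_dvd (pow_dvd_pow (b ^ h) (Nat.le_succ J))
        refine h4.trans ?_
        unfold Nat.ModEq
        rw [Nat.add_mul_mod_self_left]
      apply mul_le_mul (th_anti hBr hg0 l J) _ (Nat.cast_nonneg _) (th_pos hBr hg0 l J).le
      exact_mod_cast Finset.card_le_card hsub
  -- summation
  have hl : ∀ l ∈ range h, avg (b ^ h) (h * b ^ J) (fun x => ∑ i ∈ Pi h (l + 1),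
      ∑ σ ∈ Ps (l + 1) (J + 1), ∑ n ∈ range ((b ^ h) ^ (J + 1)),
        Real.exp (th ((b ^ h : ℕ) : ℝ) g l (J + 1) * ((TT h b (NH x) (J + 1) i σ n).card : ℝ))) ≤
      2 ^ h * ((b ^ h : ℕ) : ℝ) * ∑ i ∈ Pi h (l + 1), ∑ σ ∈ Ps (l + 1) J,
        ∑ n ∈ range ((b ^ h) ^ J),
          Real.exp (th ((b ^ h : ℕ) : ℝ) g l J * ((TT h b H J i σ n).card : ℝ)) := by
    intro l hl
    rw [Finset.mem_range] at hl
    rw [avg_sum, Finset.mul_sum]
    refine Finset.sum_le_sum fun i hi => ?_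
    rw [avg_sum]
    set F : (Fin (l + 1) → ℕ) → ℝ := fun σ => ∑ n ∈ range ((b ^ h) ^ J),
      Real.exp (th ((b ^ h : ℕ) : ℝ) g l J * ((TT h b H J i σ n).card : ℝ)) with hF
    have hF0 : ∀ σ, 0 ≤ F σ := fun σ => Finset.sum_nonneg fun _ _ => Real.exp_nonneg _
    have h1 : ∀ σ' ∈ Ps (l + 1) (J + 1), avg (b ^ h) (h * b ^ J) (fun x =>
        ∑ n ∈ range ((b ^ h) ^ (J + 1)), Real.exp (th ((b ^ h : ℕ) : ℝ) g l (J + 1) *
          ((TT h b (NH x) (J + 1) i σ' n).card : ℝ))) ≤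
        ((b ^ h : ℕ) : ℝ) * F (fun k => min (σ' k) J) := by
      intro σ' hσ'
      have h2 : ∀ x, ∑ n ∈ range ((b ^ h) ^ (J + 1)), Real.exp (th ((b ^ h : ℕ) : ℝ) g l (J + 1) *
          ((TT h b (NH x) (J + 1) i σ' n).card : ℝ)) = ∑ n ∈ range ((b ^ h) ^ J),
          ∑ ν ∈ range (b ^ h), Real.exp (th ((b ^ h : ℕ) : ℝ) g l (J + 1) *
          ((TT h b (NH x) (J + 1) i σ' (n + (b ^ h) ^ J * ν)).card : ℝ)) := by
        intro x
        rw [pow_succ, sum_range_mul']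
      simp_rw [h2]
      rw [avg_sum, hF, Finset.mul_sum]
      refine Finset.sum_le_sum fun n hn => ?_
      rw [avg_sum]
      calc ∑ ν ∈ range (b ^ h), avg (b ^ h) (h * b ^ J) (fun x =>
            Real.exp (th ((b ^ h : ℕ) : ℝ) g l (J + 1) *
              ((TT h b (NH x) (J + 1) i σ' (n + (b ^ h) ^ J * ν)).card : ℝ)))
          ≤ ∑ _ν ∈ range (b ^ h), Real.exp (th ((b ^ h : ℕ) : ℝ) g l J *
              ((TT h b H J i (fun k => min (σ' k) J) n).card : ℝ)) :=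
            Finset.sum_le_sum fun ν _ => hone l hl i hi σ' hσ' n (Finset.mem_range.1 hn) ν
        _ = _ := by rw [Finset.sum_const, Finset.card_range, nsmul_eq_mul]
    calc ∑ σ' ∈ Ps (l + 1) (J + 1), avg (b ^ h) (h * b ^ J) (fun x =>
          ∑ n ∈ range ((b ^ h) ^ (J + 1)), Real.exp (th ((b ^ h : ℕ) : ℝ) g l (J + 1) *
            ((TT h b (NH x) (J + 1) i σ' n).card : ℝ)))
        ≤ ∑ σ' ∈ Ps (l + 1) (J + 1), ((b ^ h : ℕ) : ℝ) * F (fun k => min (σ' k) J) :=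
          Finset.sum_le_sum h1
      _ = ((b ^ h : ℕ) : ℝ) * ∑ σ' ∈ Ps (l + 1) (J + 1), F (fun k => min (σ' k) J) := by
          rw [Finset.mul_sum]
      _ ≤ ((b ^ h : ℕ) : ℝ) * (2 ^ (l + 1) * ∑ σ ∈ Ps (l + 1) J, F σ) :=
          mul_le_mul_of_nonneg_left (sum_min_le (l + 1) J F hF0) hBr.le
      _ ≤ ((b ^ h : ℕ) : ℝ) * (2 ^ h * ∑ σ ∈ Ps (l + 1) J, F σ) := by
          apply mul_le_mul_of_nonneg_left _ hBr.le
          apply mul_le_mul_of_nonneg_right _ (Finset.sum_nonneg fun σ _ => hF0 σ)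
          exact pow_le_pow_right₀ (by norm_num) hl
      _ = _ := by ring
  have hfin : avg (b ^ h) (h * b ^ J) (fun x => Phi h b g (J + 1) (NH x)) ≤
      ∑ l ∈ range h, 2 ^ h * ((b ^ h : ℕ) : ℝ) * ∑ i ∈ Pi h (l + 1), ∑ σ ∈ Ps (l + 1) J,
        ∑ n ∈ range ((b ^ h) ^ J),
          Real.exp (th ((b ^ h : ℕ) : ℝ) g l J * ((TT h b H J i σ n).card : ℝ)) := by
    unfold Phi
    rw [avg_sum]
    exact Finset.sum_le_sum hl
  refine hfin.trans (le_of_eq ?_)
  rw [← Finset.mul_sum]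
  rfl

end Pool.Agent.K9h24.NC
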