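import Pool.Agent.K9h24.NC7

/-!
Selection of the hash function.
-/

set_option autoImplicit false
set_option linter.unusedSectionVars false

open Finset Filter Topology

namespace Pool.Agent.K9h24.NC

open scoped Classical in
/-- the type patterns without one of the types -/
noncomputable def NS (h : ℕ) : Finset (Fin h → ℕ) :=
  (Pi h h).filter (fun i => ∃ c0 < h, ∀ k, i k ≠ c0)

open scoped Classical in
/-- the number of residues represented by the patterns without one of the types -/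
noncomputable def dn (h b J : ℕ) (H : ℕ → ℕ → ℕ → ℕ) : ℕ :=
  ∑ i ∈ NS h, ((range ((b ^ h) ^ J)).filter (fun n =>
    (TT h b H J i (fun _ => J) n).Nonempty)).card

open scoped Classical in
/-- the number of residues with between `1` and `K` representations -/
noncomputable def sK (h b J K : ℕ) (H : ℕ → ℕ → ℕ → ℕ) : ℕ :=
  ∑ i ∈ NS h, ((range ((b ^ h) ^ J)).filter (fun n =>
    (TT h b H J i (fun _ => J) n).Nonempty ∧ (TT h b H J i (fun _ => J) n).card ≤ K)).card

/-- the density -/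
noncomputable def Dr (h b J : ℕ) (H : ℕ → ℕ → ℕ → ℕ) : ℝ :=
  (dn h b J H : ℝ) / (((b ^ h) ^ J : ℕ) : ℝ)

lemma card_NS (h : ℕ) : (NS h).card ≤ h ^ h := by
  classical
  unfold NS
  refine (Finset.card_filter_le _ _).trans ?_
  unfold Pi
  rw [Fintype.card_piFinset]
  simp

section

variable {h b : ℕ} (hb : 2 ≤ b)

include hb

lemma TT_parent {H : ℕ → ℕ → ℕ → ℕ} {J l : ℕ} {i : Fin l → ℕ} {n : ℕ}
    (hne : (TT h b H (J + 1) i (fun _ => J + 1) n).Nonempty) :
    (TT h b H J i (fun _ => J) n).Nonempty := by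
  obtain ⟨β, hβ⟩ := hne
  obtain ⟨h1, h2⟩ := mem_TT.1 hβ
  refine ⟨fun k => β k % b ^ J, ?_⟩
  rw [mem_TT]
  refine ⟨fun k => Nat.mod_lt _ (pow_pos (by omega) J), ?_⟩
  have h3 := h2.of_dvd (pow_dvd_pow (b ^ h) (Nat.le_succ J))
  refine Nat.ModEq.trans ?_ h3
  unfold SV
  apply Nat.ModEq.sum
  intro k _
  show V h b H (i k) J (β k % b ^ J) % (b ^ h) ^ J = V h b H (i k) (J + 1) (β k) % (b ^ h) ^ J
  rw [V_mod_arg, V_mod hb H _ _ (Nat.le_succ J), Nat.mod_eq_of_lt (V_lt hb H _ _ _)]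

open scoped Classical in
lemma count_split (H : ℕ → ℕ → ℕ → ℕ) (J : ℕ) {l : ℕ} (i : Fin l → ℕ) :
    ((range ((b ^ h) ^ (J + 1))).filter (fun n =>
      (TT h b H (J + 1) i (fun _ => J + 1) n).Nonempty)).card =
    ∑ n ∈ range ((b ^ h) ^ J), ((range (b ^ h)).filter (fun ν =>
      (TT h b H (J + 1) i (fun _ => J + 1) (n + (b ^ h) ^ J * ν)).Nonempty)).card := by
  have h1 := sum_range_mul' ((b ^ h) ^ J) (b ^ h) (fun n =>
    if (TT h b H (J + 1) i (fun _ => J + 1) n).Nonempty then (1 : ℝ) else 0)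
  rw [← pow_succ] at h1
  simp_rw [← Finset.sum_filter, Finset.sum_const, nsmul_eq_mul, mul_one] at h1
  exact_mod_cast h1

lemma dn_step (H : ℕ → ℕ → ℕ → ℕ) (J : ℕ) : dn h b (J + 1) H ≤ b ^ h * dn h b J H := by
  classical
  unfold dn
  rw [Finset.mul_sum]
  refine Finset.sum_le_sum fun i _ => ?_
  rw [count_split hb]
  calc ∑ n ∈ range ((b ^ h) ^ J), ((range (b ^ h)).filter (fun ν =>
        (TT h b H (J + 1) i (fun _ => J + 1) (n + (b ^ h) ^ J * ν)).Nonempty)).card
      ≤ ∑ n ∈ range ((b ^ h) ^ J),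
          (if (TT h b H J i (fun _ => J) n).Nonempty then b ^ h else 0) := by
        refine Finset.sum_le_sum fun n _ => ?_
        by_cases hne : (TT h b H J i (fun _ => J) n).Nonempty
        · rw [if_pos hne]
          refine (Finset.card_filter_le _ _).trans ?_
          rw [Finset.card_range]
        · rw [if_neg hne, Nat.le_zero, Finset.card_eq_zero, Finset.filter_eq_empty_iff]
          intro ν _ hν
          apply hne
          have h1 := TT_parent hb hν
          rwa [← TT_mod hb, Nat.add_mul_mod_self_left, TT_mod hb] at h1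
    _ = b ^ h * ((range ((b ^ h) ^ J)).filter (fun n =>
          (TT h b H J i (fun _ => J) n).Nonempty)).card := by
        rw [← Finset.sum_filter, Finset.sum_const, smul_eq_mul, mul_comm]

lemma dn_le (H : ℕ → ℕ → ℕ → ℕ) (J : ℕ) : dn h b J H ≤ h ^ h * (b ^ h) ^ J := by
  classical
  unfold dn
  calc ∑ i ∈ NS h, ((range ((b ^ h) ^ J)).filter (fun n =>
        (TT h b H J i (fun _ => J) n).Nonempty)).card ≤ ∑ _i ∈ NS h, (b ^ h) ^ J := by
        refine Finset.sum_le_sum fun i _ => ?_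
        refine (Finset.card_filter_le _ _).trans ?_
        rw [Finset.card_range]
    _ = (NS h).card * (b ^ h) ^ J := by rw [Finset.sum_const, smul_eq_mul]
    _ ≤ _ := Nat.mul_le_mul_right _ (card_NS h)

/-- most residues have few representations -/
lemma sK_ge (H : ℕ → ℕ → ℕ → ℕ) (J K : ℕ) (hK : 0 < K) :
    (dn h b J H : ℝ) - (h : ℝ) ^ h * (((b ^ h) ^ J : ℕ) : ℝ) / K ≤ (sK h b J K H : ℝ) := by
  classical
  have hKr : (0 : ℝ) < K := by exact_mod_cast hK
  have hone : ∀ i : Fin h → ℕ, (((range ((b ^ h) ^ J)).filter (fun n =>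
      (TT h b H J i (fun _ => J) n).Nonempty)).card : ℝ) ≤ (((range ((b ^ h) ^ J)).filter (fun n =>
      (TT h b H J i (fun _ => J) n).Nonempty ∧ (TT h b H J i (fun _ => J) n).card ≤ K)).card : ℝ) +
      (((b ^ h) ^ J : ℕ) : ℝ) / K := by
    intro i
    have h1 : (((range ((b ^ h) ^ J)).filter (fun n =>
        (TT h b H J i (fun _ => J) n).Nonempty)).card : ℝ) ≤
        (((range ((b ^ h) ^ J)).filter (fun n => (TT h b H J i (fun _ => J) n).Nonempty ∧
          (TT h b H J i (fun _ => J) n).card ≤ K)).card : ℝ) +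
        (((range ((b ^ h) ^ J)).filter (fun n =>
          K < (TT h b H J i (fun _ => J) n).card)).card : ℝ) := by
      have h2 : (range ((b ^ h) ^ J)).filter (fun n =>
          (TT h b H J i (fun _ => J) n).Nonempty) ⊆
          ((range ((b ^ h) ^ J)).filter (fun n => (TT h b H J i (fun _ => J) n).Nonempty ∧
            (TT h b H J i (fun _ => J) n).card ≤ K)) ∪
          ((range ((b ^ h) ^ J)).filter (fun n => K < (TT h b H J i (fun _ => J) n).card)) := by
        intro n hn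
        obtain ⟨h3, h4⟩ := Finset.mem_filter.1 hn
        rw [Finset.mem_union, Finset.mem_filter, Finset.mem_filter]
        rcases Nat.lt_or_ge K (TT h b H J i (fun _ => J) n).card with h5 | h5
        · exact Or.inr ⟨h3, h5⟩
        · exact Or.inl ⟨h3, h4, h5⟩
      have h3 := (Finset.card_le_card h2).trans (Finset.card_union_le _ _)
      exact_mod_cast h3
    have h2 : (((range ((b ^ h) ^ J)).filter (fun n =>
        K < (TT h b H J i (fun _ => J) n).card)).card : ℝ) ≤ (((b ^ h) ^ J : ℕ) : ℝ) / K := by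
      rw [le_div_iff₀ hKr]
      have h3 : ((range ((b ^ h) ^ J)).filter (fun n =>
          K < (TT h b H J i (fun _ => J) n).card)).card * K ≤
          ∑ n ∈ range ((b ^ h) ^ J), (TT h b H J i (fun _ => J) n).card := by
        calc _ = ∑ _n ∈ (range ((b ^ h) ^ J)).filter (fun n =>
              K < (TT h b H J i (fun _ => J) n).card), K := by rw [Finset.sum_const, smul_eq_mul]
          _ ≤ ∑ n ∈ (range ((b ^ h) ^ J)).filter (fun n =>
              K < (TT h b H J i (fun _ => J) n).card), (TT h b H J i (fun _ => J) n).card :=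
              Finset.sum_le_sum fun n hn => (Finset.mem_filter.1 hn).2.le
          _ ≤ _ := Finset.sum_le_sum_of_subset (Finset.filter_subset _ _)
      have h4 : ∑ n ∈ range ((b ^ h) ^ J), (TT h b H J i (fun _ => J) n).card ≤ (b ^ h) ^ J := by
        have h5 : (Fintype.piFinset (fun _ : Fin h => range (b ^ J))).card =
            ∑ n ∈ range ((b ^ h) ^ J), ((Fintype.piFinset (fun _ : Fin h => range (b ^ J))).filter
              (fun β => SV h b H i (fun _ => J) β % (b ^ h) ^ J = n)).card := by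
          apply Finset.card_eq_sum_card_fiberwise
          intro β _
          exact Finset.mem_coe.2 (Finset.mem_range.2 (Nat.mod_lt _ (pow_pos (B_pos hb) J)))
        have h6 : (Fintype.piFinset (fun _ : Fin h => range (b ^ J))).card = (b ^ h) ^ J := by
          rw [Fintype.card_piFinset]
          simp only [Finset.card_range, Finset.prod_const, Finset.card_univ, Fintype.card_fin]
          rw [← pow_mul, ← pow_mul, mul_comm]
        rw [h6] at h5
        refine le_trans ?_ (le_of_eq h5.symm)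
        refine Finset.sum_le_sum fun n hn => Finset.card_le_card ?_
        intro β hβ
        unfold TT at hβ
        obtain ⟨h7, h8⟩ := Finset.mem_filter.1 hβ
        rw [Finset.mem_filter]
        refine ⟨h7, ?_⟩
        have h9 : SV h b H i (fun _ => J) β % (b ^ h) ^ J = n % (b ^ h) ^ J := h8
        rw [h9, Nat.mod_eq_of_lt (Finset.mem_range.1 hn)]
      exact_mod_cast h3.trans h4
    linarith
  have h1 : (dn h b J H : ℝ) ≤ (sK h b J K H : ℝ) +
      ((NS h).card : ℝ) * ((((b ^ h) ^ J : ℕ) : ℝ) / K) := by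
    unfold dn sK
    push_cast
    rw [← nsmul_eq_mul, ← Finset.sum_const, ← Finset.sum_add_distrib]
    refine Finset.sum_le_sum fun i _ => ?_
    have := hone i
    push_cast at this
    exact this
  have h2 : ((NS h).card : ℝ) * ((((b ^ h) ^ J : ℕ) : ℝ) / K) ≤
      (h : ℝ) ^ h * (((b ^ h) ^ J : ℕ) : ℝ) / K := by
    rw [mul_div_assoc]
    apply mul_le_mul_of_nonneg_right _ (by positivity)
    exact_mod_cast card_NS h
  linarith

end

/-- the average of the number of represented residues -/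
lemma avg_dn {h b : ℕ} (hb : 3 * h + 2 ≤ b) (hh : 2 ≤ h) [NeZero (b ^ h)] (H : ℕ → ℕ → ℕ → ℕ)
    (J M K : ℕ) :
    avg (b ^ h) M (fun x => (dn h b (J + 1) (newH b h H J (io h b H J) (cc h b H J) x) : ℝ)) ≤
      ((b ^ h : ℕ) : ℝ) * (dn h b J H : ℝ) -
        ((1 : ℝ) / ((b ^ h : ℕ) : ℝ)) ^ (K * h) * (sK h b J K H : ℝ) := by
  classical
  have hb2 : 2 ≤ b := by omega
  set NH := fun x => newH b h H J (io h b H J) (cc h b H J) x with hNH
  set δ : ℝ := ((1 : ℝ) / ((b ^ h : ℕ) : ℝ)) ^ (K * h) with hδ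
  have hδ0 : 0 ≤ δ := by positivity
  have hone : ∀ i ∈ NS h, ∀ n ∈ range ((b ^ h) ^ J), avg (b ^ h) M (fun x =>
      (((range (b ^ h)).filter (fun ν =>
        (TT h b (NH x) (J + 1) i (fun _ => J + 1) (n + (b ^ h) ^ J * ν)).Nonempty)).card : ℝ)) ≤
      (if (TT h b H J i (fun _ => J) n).Nonempty then ((b ^ h : ℕ) : ℝ) else 0) -
      (if ((TT h b H J i (fun _ => J) n).Nonempty ∧ (TT h b H J i (fun _ => J) n).card ≤ K) then δ
        else 0) := by
    intro i hi n hn
    obtain ⟨hi1, c0, hc0, hi2⟩ := Finset.mem_filter.1 hi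
    rw [Finset.mem_range] at hn
    by_cases hne : (TT h b H J i (fun _ => J) n).Nonempty
    · rw [if_pos hne]
      by_cases hK : (TT h b H J i (fun _ => J) n).card ≤ K
      · rw [if_pos ⟨hne, hK⟩]
        exact surv hb hh H J M (io h b H J) (cc h b H J) (cc_cases h b H J) i hc0 hi2 hn hK
      · rw [if_neg (fun hc => hK hc.2), sub_zero]
        refine (avg_mono M (f' := fun _ => ((b ^ h : ℕ) : ℝ)) fun x => ?_).trans
          (le_of_eq (avg_const _ _))
        have := Finset.card_filter_le (range (b ^ h)) (fun ν =>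
          (TT h b (NH x) (J + 1) i (fun _ => J + 1) (n + (b ^ h) ^ J * ν)).Nonempty)
        rw [Finset.card_range] at this
        exact_mod_cast this
    · rw [if_neg hne, if_neg (fun hc => hne hc.1), sub_zero]
      refine (avg_mono M (f' := fun _ => (0 : ℝ)) fun x => ?_).trans (le_of_eq (avg_const _ _))
      have h0 : ((range (b ^ h)).filter (fun ν =>
          (TT h b (NH x) (J + 1) i (fun _ => J + 1) (n + (b ^ h) ^ J * ν)).Nonempty)) = ∅ := by
        rw [Finset.filter_eq_empty_iff]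
        intro ν _ hν
        apply hne
        have h1 := TT_parent hb2 hν
        rw [← TT_mod hb2, Nat.add_mul_mod_self_left, TT_mod hb2] at h1
        have h2 : TT h b (NH x) J i (fun _ => J) n = TT h b H J i (fun _ => J) n :=
          TT_congr (fun _ => le_rfl) (fun q hq i γ => by
            show newH b h H J (io h b H J) (cc h b H J) x q i γ = H q i γ
            unfold newH
            rw [if_neg (by omega)]) n
        rwa [h2] at h1
      rw [h0]
      simp
  have h1 : ∀ x, (dn h b (J + 1) (NH x) : ℝ) = ∑ i ∈ NS h, ∑ n ∈ range ((b ^ h) ^ J),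
      (((range (b ^ h)).filter (fun ν =>
        (TT h b (NH x) (J + 1) i (fun _ => J + 1) (n + (b ^ h) ^ J * ν)).Nonempty)).card : ℝ) := by
    intro x
    unfold dn
    simp_rw [count_split hb2]
    push_cast
    rfl
  have h1' : (fun x => (dn h b (J + 1) (newH b h H J (io h b H J) (cc h b H J) x) : ℝ)) =
      fun x => ∑ i ∈ NS h, ∑ n ∈ range ((b ^ h) ^ J), (((range (b ^ h)).filter (fun ν =>
        (TT h b (NH x) (J + 1) i (fun _ => J + 1) (n + (b ^ h) ^ J * ν)).Nonempty)).card : ℝ) :=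
    funext h1
  rw [h1', avg_sum]
  have h2 : ∀ i ∈ NS h, avg (b ^ h) M (fun x => ∑ n ∈ range ((b ^ h) ^ J),
      (((range (b ^ h)).filter (fun ν =>
        (TT h b (NH x) (J + 1) i (fun _ => J + 1) (n + (b ^ h) ^ J * ν)).Nonempty)).card : ℝ)) ≤
      ((b ^ h : ℕ) : ℝ) * (((range ((b ^ h) ^ J)).filter (fun n =>
        (TT h b H J i (fun _ => J) n).Nonempty)).card : ℝ) - δ * (((range ((b ^ h) ^ J)).filter
        (fun n => (TT h b H J i (fun _ => J) n).Nonempty ∧
          (TT h b H J i (fun _ => J) n).card ≤ K)).card : ℝ) := by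
    intro i hi
    rw [avg_sum]
    refine (Finset.sum_le_sum (hone i hi)).trans (le_of_eq ?_)
    rw [Finset.sum_sub_distrib, ← Finset.sum_filter, ← Finset.sum_filter, Finset.sum_const,
      Finset.sum_const, nsmul_eq_mul, nsmul_eq_mul]
    ring
  refine (Finset.sum_le_sum h2).trans (le_of_eq ?_)
  rw [Finset.sum_sub_distrib, ← Finset.mul_sum, ← Finset.mul_sum]
  unfold dn sK
  push_cast
  rfl

lemma Phi_pos {h b : ℕ} (hb : 2 ≤ b) (hh : 2 ≤ h) (g : ℝ) (J : ℕ) (H : ℕ → ℕ → ℕ → ℕ) :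
    0 < Phi h b g J H := by
  unfold Phi
  apply Finset.sum_pos
  · intro l _
    apply Finset.sum_pos
    · intro i _
      apply Finset.sum_pos
      · intro σ _
        apply Finset.sum_pos
        · intro n _
          exact Real.exp_pos _
        · exact ⟨0, Finset.mem_range.2 (pow_pos (B_pos hb) J)⟩
      · exact ⟨fun _ => 0, mem_Ps.2 fun _ => Nat.zero_le _⟩
    · exact ⟨fun _ => 0, mem_Pi.2 fun _ => by omega⟩
  · exact ⟨0, Finset.mem_range.2 (by omega)⟩

/-- the selection of one level of the hash function -/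
lemma select {h b : ℕ} (hbp : b.Prime) (hb : 3 * h + 2 ≤ b) (hh : 2 ≤ h) {g : ℝ} (hg : 1 ≤ g)
    {J : ℕ} {H : ℕ → ℕ → ℕ → ℕ} (hPhi : Phi h b g J H ≤ Real.exp (g * ((J : ℝ) + 1) ^ 2)) :
    ∃ H' : ℕ → ℕ → ℕ → ℕ, (∀ q, q ≠ J → ∀ i γ, H' q i γ = H q i γ) ∧
      Phi h b g (J + 1) H' ≤ 2 ^ h * ((b ^ h : ℕ) : ℝ) * Phi h b g J H *
        (1 + ((J : ℝ) + 1) ^ 2 * (h : ℝ) ^ h) ∧
      (∀ K : ℕ, Dr h b (J + 1) H' ≤ Dr h b J H - ((1 : ℝ) / ((b ^ h : ℕ) : ℝ)) ^ (K * h) *
        (sK h b J K H : ℝ) / (((b ^ h) ^ (J + 1) : ℕ) : ℝ) + 1 / ((J : ℝ) + 1) ^ 2) ∧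
      (∀ i < h, ∀ m ≤ J, CC h b H' i (J + 1) m ≤ (CC h b H i J m + 1) / 2) := by
  have hb2 : 2 ≤ b := by omega
  have hBpos : 0 < b ^ h := B_pos hb2
  have : NeZero (b ^ h) := ⟨hBpos.ne'⟩
  have hBr : (0 : ℝ) < ((b ^ h : ℕ) : ℝ) := by exact_mod_cast hBpos
  have hBJ : (0 : ℝ) < (((b ^ h) ^ (J + 1) : ℕ) : ℝ) := by exact_mod_cast pow_pos hBpos (J + 1)
  have hBJ0 : (0 : ℝ) < (((b ^ h) ^ J : ℕ) : ℝ) := by exact_mod_cast pow_pos hBpos J
  set M := h * b ^ J with hM
  set NH := fun x => newH b h H J (io h b H J) (cc h b H J) x with hNH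
  set P : ℝ := 2 ^ h * ((b ^ h : ℕ) : ℝ) * Phi h b g J H with hP
  have hPpos : 0 < P := by
    have := Phi_pos hb2 hh g J H
    positivity
  set w : ℝ := ((J : ℝ) + 1) ^ 2 with hw
  have hwpos : 0 < w := by positivity
  set a : ℝ := avg (b ^ h) M (fun x => (dn h b (J + 1) (NH x) : ℝ)) /
    (((b ^ h) ^ (J + 1) : ℕ) : ℝ) with ha
  set Fx : (ℕ → ZMod (b ^ h)) → ℝ := fun x => (1 / P) * Phi h b g (J + 1) (NH x) +
    (w / (((b ^ h) ^ (J + 1) : ℕ) : ℝ)) * (dn h b (J + 1) (NH x) : ℝ) with hFx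
  have havg : avg (b ^ h) M Fx ≤ 1 + w * a := by
    rw [hFx, avg_add, avg_smul, avg_smul]
    have h1 := Phi_step hbp (by omega) hg hPhi
    have h2 : (1 / P) * avg (b ^ h) M (fun x => Phi h b g (J + 1) (NH x)) ≤ 1 := by
      rw [one_div, inv_mul_le_iff₀ hPpos, mul_one]
      exact h1
    have h3 : w / (((b ^ h) ^ (J + 1) : ℕ) : ℝ) *
        avg (b ^ h) M (fun x => (dn h b (J + 1) (NH x) : ℝ)) = w * a := by
      rw [ha]; ring
    linarith
  obtain ⟨x, hx⟩ := avg_exists M Fx
  have hx2 := hx.trans havg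
  have hA0 : 0 ≤ (1 / P) * Phi h b g (J + 1) (NH x) :=
    mul_nonneg (by positivity) (Phi_pos hb2 hh g (J + 1) _).le
  have hD0 : 0 ≤ (w / (((b ^ h) ^ (J + 1) : ℕ) : ℝ)) * (dn h b (J + 1) (NH x) : ℝ) := by
    positivity
  have hale : a ≤ (h : ℝ) ^ h := by
    rw [ha, div_le_iff₀ hBJ]
    refine (avg_mono M (f' := fun _ => (h : ℝ) ^ h * (((b ^ h) ^ (J + 1) : ℕ) : ℝ))
      fun x => ?_).trans (le_of_eq (avg_const _ _))
    exact_mod_cast dn_le hb2 (NH x) (J + 1)
  refine ⟨NH x, ?_, ?_, ?_, ?_⟩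
  · intro q hq i γ
    show newH b h H J (io h b H J) (cc h b H J) x q i γ = H q i γ
    unfold newH
    rw [if_neg hq]
  · have h1 : (1 / P) * Phi h b g (J + 1) (NH x) ≤ 1 + w * (h : ℝ) ^ h := by
      have h2 : w * a ≤ w * (h : ℝ) ^ h := mul_le_mul_of_nonneg_left hale hwpos.le
      have h3 : Fx x = (1 / P) * Phi h b g (J + 1) (NH x) +
        (w / (((b ^ h) ^ (J + 1) : ℕ) : ℝ)) * (dn h b (J + 1) (NH x) : ℝ) := rfl
      linarith
    rw [one_div, inv_mul_le_iff₀ hPpos] at h1
    exact h1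
  · intro K
    have h1 : w * Dr h b (J + 1) (NH x) ≤ 1 + w * a := by
      have h2 : w * Dr h b (J + 1) (NH x) =
          (w / (((b ^ h) ^ (J + 1) : ℕ) : ℝ)) * (dn h b (J + 1) (NH x) : ℝ) := by
        unfold Dr; ring
      have h3 : Fx x = (1 / P) * Phi h b g (J + 1) (NH x) +
        (w / (((b ^ h) ^ (J + 1) : ℕ) : ℝ)) * (dn h b (J + 1) (NH x) : ℝ) := rfl
      linarith
    have h4 : Dr h b (J + 1) (NH x) ≤ a + 1 / w := by
      have h5 : w * (a + 1 / w) = 1 + w * a := by field_simp; ring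
      rw [← h5] at h1
      exact le_of_mul_le_mul_left h1 hwpos
    have h6 : a ≤ Dr h b J H - ((1 : ℝ) / ((b ^ h : ℕ) : ℝ)) ^ (K * h) *
        (sK h b J K H : ℝ) / (((b ^ h) ^ (J + 1) : ℕ) : ℝ) := by
      have h7 := avg_dn hb hh H J M K
      rw [ha, div_le_iff₀ hBJ]
      refine h7.trans (le_of_eq ?_)
      unfold Dr
      rw [sub_mul, div_mul_cancel₀ _ hBJ.ne']
      congr 1
      have h8 : (((b ^ h) ^ (J + 1) : ℕ) : ℝ) = (((b ^ h) ^ J : ℕ) : ℝ) * ((b ^ h : ℕ) : ℝ) := by
        rw [← Nat.cast_mul, pow_succ]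
      rw [h8]
      field_simp
    linarith
  · intro i hi m hm
    exact CC_step hb2 hh H J x hi hm

end Pool.Agent.K9h24.NC
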