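import Pool.Agent.K9h24.NC8

/-!
Existence of a good hash function.
-/

set_option autoImplicit false
set_option linter.unusedSectionVars false

open Finset Filter Topology

namespace Pool.Agent.K9h24.NC

section

variable {h b : ℕ}

lemma Phi_congr {g : ℝ} {J : ℕ} {H H' : ℕ → ℕ → ℕ → ℕ}
    (hH : ∀ q < J, ∀ i γ, H q i γ = H' q i γ) : Phi h b g J H = Phi h b g J H' := by
  unfold Phi
  refine Finset.sum_congr rfl fun l _ => Finset.sum_congr rfl fun i _ =>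
    Finset.sum_congr rfl fun σ hσ => Finset.sum_congr rfl fun n _ => ?_
  rw [TT_congr (mem_Ps.1 hσ) hH n]

lemma dn_congr {J : ℕ} {H H' : ℕ → ℕ → ℕ → ℕ}
    (hH : ∀ q < J, ∀ i γ, H q i γ = H' q i γ) : dn h b J H = dn h b J H' := by
  unfold dn
  refine Finset.sum_congr rfl fun i _ => ?_
  congr 1
  refine Finset.filter_congr fun n _ => ?_
  rw [TT_congr (fun _ => le_rfl) hH n]

lemma Dr_congr {J : ℕ} {H H' : ℕ → ℕ → ℕ → ℕ}
    (hH : ∀ q < J, ∀ i γ, H q i γ = H' q i γ) : Dr h b J H = Dr h b J H' := by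
  unfold Dr
  rw [dn_congr hH]

lemma sK_congr {J K : ℕ} {H H' : ℕ → ℕ → ℕ → ℕ}
    (hH : ∀ q < J, ∀ i γ, H q i γ = H' q i γ) : sK h b J K H = sK h b J K H' := by
  unfold sK
  refine Finset.sum_congr rfl fun i _ => ?_
  congr 1
  refine Finset.filter_congr fun n _ => ?_
  rw [TT_congr (fun _ => le_rfl) hH n]

lemma CC_congr {i S m : ℕ} {H H' : ℕ → ℕ → ℕ → ℕ}
    (hH : ∀ q < S, ∀ i γ, H q i γ = H' q i γ) : CC h b H i S m = CC h b H' i S m := by
  unfold CC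
  congr 1
  refine Finset.filter_congr fun β _ => ?_
  rw [V_congr_H β (fun q hq => hH q hq i _)]

end

/-- the constant `g` -/
noncomputable def gg (h b : ℕ) : ℝ :=
  Real.log (2 ^ h * ((b ^ h : ℕ) : ℝ) * (1 + (h : ℝ) ^ h)) + Real.log ((h : ℝ) ^ (h + 1)) + 2

section

variable {h b : ℕ} (hb : 2 ≤ b) (hh : 2 ≤ h)

include hb hh

lemma logs_nonneg : 0 ≤ Real.log (2 ^ h * ((b ^ h : ℕ) : ℝ) * (1 + (h : ℝ) ^ h)) ∧
    0 ≤ Real.log ((h : ℝ) ^ (h + 1)) := by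
  have hh1 : (1 : ℝ) ≤ h := by exact_mod_cast (by omega : 1 ≤ h)
  constructor
  · apply Real.log_nonneg
    have h1 : (1 : ℝ) ≤ 2 ^ h := one_le_pow₀ (by norm_num)
    have h2 : (1 : ℝ) ≤ ((b ^ h : ℕ) : ℝ) := by exact_mod_cast B_pos (h := h) hb
    have h3 : (1 : ℝ) ≤ 1 + (h : ℝ) ^ h := by
      have : (0 : ℝ) ≤ (h : ℝ) ^ h := by positivity
      linarith
    exact one_le_mul_of_one_le_of_one_le (one_le_mul_of_one_le_of_one_le h1 h2) h3
  · exact Real.log_nonneg (one_le_pow₀ hh1)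

lemma gg_ge : 1 ≤ gg h b := by
  unfold gg
  have := logs_nonneg hb hh
  linarith [this.1, this.2]

lemma Phi_zero (H : ℕ → ℕ → ℕ → ℕ) : Phi h b (gg h b) 0 H ≤ Real.exp (gg h b * ((0 : ℕ) + 1) ^ 2) := by
  have hh1 : (1 : ℝ) ≤ h := by exact_mod_cast (by omega : 1 ≤ h)
  have hB1 : (1 : ℝ) ≤ ((b ^ h : ℕ) : ℝ) := by exact_mod_cast B_pos (h := h) hb
  have h1 : Phi h b (gg h b) 0 H ≤ ∑ _l ∈ range h, (h : ℝ) ^ h * Real.exp 1 := by
    unfold Phi
    refine Finset.sum_le_sum fun l hl => ?_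
    rw [Finset.mem_range] at hl
    have h2 : ∀ i ∈ Pi h (l + 1), ∑ σ ∈ Ps (l + 1) 0, ∑ n ∈ range ((b ^ h) ^ 0),
        Real.exp (th ((b ^ h : ℕ) : ℝ) (gg h b) l 0 * ((TT h b H 0 i σ n).card : ℝ)) ≤
        Real.exp 1 := by
      intro i _
      have hPs : Ps (l + 1) 0 = {fun _ => 0} := by
        ext σ
        rw [mem_Ps, Finset.mem_singleton]
        constructor
        · intro hσ; funext k; exact Nat.le_zero.1 (hσ k)
        · intro hσ k; rw [hσ]
      rw [hPs, Finset.sum_singleton, pow_zero, Finset.sum_range_one]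
      apply Real.exp_le_exp.2
      have h3 : (TT h b H 0 i (fun _ => 0) 0).card ≤ 1 := by
        unfold TT
        refine (Finset.card_filter_le _ _).trans ?_
        rw [Fintype.card_piFinset]
        simp
      have h4 : ((TT h b H 0 i (fun _ => 0) 0).card : ℝ) ≤ 1 := by exact_mod_cast h3
      have h5 := th_le_one hB1 (gg_ge hb hh) l 0
      have h6 := th_pos (by linarith : (0 : ℝ) < ((b ^ h : ℕ) : ℝ))
        (by linarith [gg_ge hb hh] : 0 < gg h b) l 0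
      exact mul_le_one₀ h5 (Nat.cast_nonneg _) h4
    calc _ ≤ ∑ _i ∈ Pi h (l + 1), Real.exp 1 := Finset.sum_le_sum h2
      _ = ((Pi h (l + 1)).card : ℝ) * Real.exp 1 := by rw [Finset.sum_const, nsmul_eq_mul]
      _ ≤ (h : ℝ) ^ h * Real.exp 1 := by
          apply mul_le_mul_of_nonneg_right _ (Real.exp_nonneg _)
          unfold Pi
          rw [Fintype.card_piFinset]
          simp only [Finset.card_range, Finset.prod_const, Finset.card_univ, Fintype.card_fin]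
          push_cast
          exact pow_le_pow_right₀ hh1 hl
  refine h1.trans ?_
  rw [Finset.sum_const, Finset.card_range, nsmul_eq_mul, ← mul_assoc, ← pow_succ']
  have hpos : (0 : ℝ) < (h : ℝ) ^ (h + 1) := by positivity
  have h2 : (h : ℝ) ^ (h + 1) = Real.exp (Real.log ((h : ℝ) ^ (h + 1))) := (Real.exp_log hpos).symm
  rw [h2, ← Real.exp_add]
  apply Real.exp_le_exp.2
  have := logs_nonneg hb hh
  unfold gg
  simp only [Nat.cast_zero, zero_add, one_pow, mul_one]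
  linarith [this.1]

lemma grow (J : ℕ) : 2 ^ h * ((b ^ h : ℕ) : ℝ) * Real.exp (gg h b * ((J : ℝ) + 1) ^ 2) *
    (1 + ((J : ℝ) + 1) ^ 2 * (h : ℝ) ^ h) ≤
    Real.exp (gg h b * (((J + 1 : ℕ) : ℝ) + 1) ^ 2) := by
  have hJ : (0 : ℝ) ≤ J := Nat.cast_nonneg J
  have hpos : (0 : ℝ) < 2 ^ h * ((b ^ h : ℕ) : ℝ) * (1 + (h : ℝ) ^ h) := by
    have : (0 : ℝ) < ((b ^ h : ℕ) : ℝ) := by exact_mod_cast B_pos (h := h) hb
    positivity
  have hBr : (0 : ℝ) < ((b ^ h : ℕ) : ℝ) := by exact_mod_cast B_pos (h := h) hb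
  have h1 : 1 + ((J : ℝ) + 1) ^ 2 * (h : ℝ) ^ h ≤ (1 + (h : ℝ) ^ h) * Real.exp (2 * (J + 1)) := by
    have h2 : (J : ℝ) + 1 ≤ Real.exp ((J : ℝ) + 1) := by
      have := Real.add_one_le_exp ((J : ℝ) + 1)
      linarith
    have h3 : ((J : ℝ) + 1) ^ 2 ≤ Real.exp (2 * (J + 1)) := by
      calc ((J : ℝ) + 1) ^ 2 ≤ Real.exp ((J : ℝ) + 1) ^ 2 := pow_le_pow_left₀ (by linarith) h2 2
        _ = Real.exp (2 * (J + 1)) := by
            rw [← Real.exp_nat_mul]
            norm_num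
    have h4 : (1 : ℝ) ≤ Real.exp (2 * (J + 1)) := Real.one_le_exp (by linarith)
    have h5 : (0 : ℝ) ≤ (h : ℝ) ^ h := by positivity
    nlinarith
  have h2 : 2 ^ h * ((b ^ h : ℕ) : ℝ) * (1 + (h : ℝ) ^ h) =
      Real.exp (Real.log (2 ^ h * ((b ^ h : ℕ) : ℝ) * (1 + (h : ℝ) ^ h))) :=
    (Real.exp_log hpos).symm
  calc 2 ^ h * ((b ^ h : ℕ) : ℝ) * Real.exp (gg h b * ((J : ℝ) + 1) ^ 2) *
        (1 + ((J : ℝ) + 1) ^ 2 * (h : ℝ) ^ h)
      ≤ 2 ^ h * ((b ^ h : ℕ) : ℝ) * Real.exp (gg h b * ((J : ℝ) + 1) ^ 2) *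
        ((1 + (h : ℝ) ^ h) * Real.exp (2 * (J + 1))) :=
        mul_le_mul_of_nonneg_left h1 (by positivity)
    _ = (2 ^ h * ((b ^ h : ℕ) : ℝ) * (1 + (h : ℝ) ^ h)) *
        (Real.exp (gg h b * ((J : ℝ) + 1) ^ 2) * Real.exp (2 * (J + 1))) := by ring
    _ = Real.exp (Real.log (2 ^ h * ((b ^ h : ℕ) : ℝ) * (1 + (h : ℝ) ^ h)) +
        (gg h b * ((J : ℝ) + 1) ^ 2 + 2 * (J + 1))) := by
        rw [Real.exp_add, Real.exp_add, ← h2]
    _ ≤ _ := by
        apply Real.exp_le_exp.2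
        have h3 := logs_nonneg hb hh
        have h4 : Real.log (2 ^ h * ((b ^ h : ℕ) : ℝ) * (1 + (h : ℝ) ^ h)) + 2 ≤ gg h b := by
          unfold gg; linarith [h3.2]
        set G := gg h b with hG
        rw [Nat.cast_add, Nat.cast_one]
        have h5 : G * ((J : ℝ) + 1 + 1) ^ 2 = G * ((J : ℝ) + 1) ^ 2 + G * (2 * J + 3) := by ring
        rw [h5]
        nlinarith [h3.1, h4, hJ]

end

theorem hash_exists {h b : ℕ} (hbp : b.Prime) (hb : 3 * h + 2 ≤ b) (hh : 2 ≤ h) :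
    ∃ H : ℕ → ℕ → ℕ → ℕ, (∀ J, Phi h b (gg h b) J H ≤ Real.exp (gg h b * ((J : ℝ) + 1) ^ 2)) ∧
      Tendsto (fun J => Dr h b J H) atTop (𝓝 0) ∧
      (∀ i < h, ∀ m t, CC h b H i (m + t) m * 2 ^ t ≤ b ^ m + 2 ^ t) := by
  classical
  have hb2 : 2 ≤ b := by omega
  have hBpos : 0 < b ^ h := B_pos hb2
  have hg := gg_ge hb2 hh
  have hsel : ∀ (J : ℕ) (H : ℕ → ℕ → ℕ → ℕ), ∃ H' : ℕ → ℕ → ℕ → ℕ,
      Phi h b (gg h b) J H ≤ Real.exp (gg h b * ((J : ℝ) + 1) ^ 2) →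
      ((∀ q, q ≠ J → ∀ i γ, H' q i γ = H q i γ) ∧
      Phi h b (gg h b) (J + 1) H' ≤ 2 ^ h * ((b ^ h : ℕ) : ℝ) * Phi h b (gg h b) J H *
        (1 + ((J : ℝ) + 1) ^ 2 * (h : ℝ) ^ h) ∧
      (∀ K : ℕ, Dr h b (J + 1) H' ≤ Dr h b J H - ((1 : ℝ) / ((b ^ h : ℕ) : ℝ)) ^ (K * h) *
        (sK h b J K H : ℝ) / (((b ^ h) ^ (J + 1) : ℕ) : ℝ) + 1 / ((J : ℝ) + 1) ^ 2) ∧
      (∀ i < h, ∀ m ≤ J, CC h b H' i (J + 1) m ≤ (CC h b H i J m + 1) / 2)) := by
    intro J H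
    by_cases hPhi : Phi h b (gg h b) J H ≤ Real.exp (gg h b * ((J : ℝ) + 1) ^ 2)
    · obtain ⟨H', h1⟩ := select hbp hb hh hg hPhi
      exact ⟨H', fun _ => h1⟩
    · exact ⟨H, fun hc => absurd hc hPhi⟩
  choose sel hsel using hsel
  set sq : ℕ → (ℕ → ℕ → ℕ → ℕ) := fun J => Nat.rec H0 (fun J H => sel J H) J with hsq
  have hsq_succ : ∀ J, sq (J + 1) = sel J (sq J) := fun J => rfl
  have hinv : ∀ J : ℕ, Phi h b (gg h b) J (sq J) ≤ Real.exp (gg h b * ((J : ℝ) + 1) ^ 2) := by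
    intro J
    induction J with
    | zero => exact Phi_zero hb2 hh _
    | succ J ih =>
      rw [hsq_succ]
      have h1 := (hsel J (sq J) ih).2.1
      refine h1.trans (le_trans ?_ (grow hb2 hh J))
      apply mul_le_mul_of_nonneg_right _ (by positivity)
      exact mul_le_mul_of_nonneg_left ih (by positivity)
  set Hf : ℕ → ℕ → ℕ → ℕ := fun q i γ => sq (q + 1) q i γ with hHf
  have hagree : ∀ J, ∀ q < J, ∀ i γ, sq J q i γ = Hf q i γ := by
    intro J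
    induction J with
    | zero => intro q hq; omega
    | succ J ih =>
      intro q hq i γ
      rcases Nat.lt_succ_iff_lt_or_eq.1 hq with h1 | h1
      · rw [hsq_succ, (hsel J (sq J) (hinv J)).1 q (by omega) i γ]
        exact ih q h1 i γ
      · subst h1
        rfl
  refine ⟨Hf, ?_, ?_, ?_⟩
  · intro J
    rw [← Phi_congr (hagree J)]
    exact hinv J
  · -- decrease of the density
    have hstep : ∀ J K : ℕ, Dr h b (J + 1) Hf ≤ Dr h b J Hf -
        ((1 : ℝ) / ((b ^ h : ℕ) : ℝ)) ^ (K * h) * (sK h b J K Hf : ℝ) /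
          (((b ^ h) ^ (J + 1) : ℕ) : ℝ) + 1 / ((J : ℝ) + 1) ^ 2 := by
      intro J K
      have h1 := (hsel J (sq J) (hinv J)).2.2.1 K
      rw [← hsq_succ, Dr_congr (hagree (J + 1)), Dr_congr (hagree J), sK_congr (hagree J)] at h1
      exact h1
    have hD0 : ∀ J, 0 ≤ Dr h b J Hf := fun J => by unfold Dr; positivity
    have hanti : Antitone (fun J => Dr h b J Hf) := by
      apply antitone_nat_of_succ_le
      intro J
      have h1 := dn_step (h := h) hb2 Hf J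
      have hBJ : (0 : ℝ) < (((b ^ h) ^ (J + 1) : ℕ) : ℝ) := by
        exact_mod_cast pow_pos hBpos (J + 1)
      have hBJ0 : (0 : ℝ) < (((b ^ h) ^ J : ℕ) : ℝ) := by exact_mod_cast pow_pos hBpos J
      unfold Dr
      rw [div_le_div_iff₀ hBJ hBJ0]
      have h2 : (dn h b (J + 1) Hf : ℝ) ≤ ((b ^ h : ℕ) : ℝ) * (dn h b J Hf : ℝ) := by
        exact_mod_cast h1
      have h3 : (((b ^ h) ^ (J + 1) : ℕ) : ℝ) = (((b ^ h) ^ J : ℕ) : ℝ) * ((b ^ h : ℕ) : ℝ) := by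
        rw [← Nat.cast_mul, pow_succ]
      rw [h3]
      nlinarith
    have hbdd : BddBelow (Set.range (fun J => Dr h b J Hf)) := ⟨0, by
      rintro _ ⟨J, rfl⟩
      exact hD0 J⟩
    have hlim := tendsto_atTop_ciInf hanti hbdd
    set L := ⨅ J, Dr h b J Hf with hL
    have hLle : ∀ J, L ≤ Dr h b J Hf := fun J => ciInf_le hbdd J
    have hL0 : 0 ≤ L := le_ciInf hD0
    rcases hL0.eq_or_lt with h0 | h0
    · rw [h0]; exact hlim
    · exfalso
      obtain ⟨K, hK⟩ := exists_nat_gt (2 * (h : ℝ) ^ h / L)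
      have hKpos : (0 : ℝ) < K := lt_of_le_of_lt (by positivity) hK
      have hKpos' : 0 < K := by exact_mod_cast hKpos
      set ε : ℝ := ((1 : ℝ) / ((b ^ h : ℕ) : ℝ)) ^ (K * h) * (L / 2) / ((b ^ h : ℕ) : ℝ) with hε
      have hBr : (0 : ℝ) < ((b ^ h : ℕ) : ℝ) := by exact_mod_cast hBpos
      have hε0 : 0 < ε := by positivity
      have hstep2 : ∀ J : ℕ, Dr h b (J + 1) Hf ≤ Dr h b J Hf - ε + 1 / ((J : ℝ) + 1) ^ 2 := by
        intro J
        refine (hstep J K).trans ?_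
        have hBJ : (0 : ℝ) < (((b ^ h) ^ (J + 1) : ℕ) : ℝ) := by
          exact_mod_cast pow_pos hBpos (J + 1)
        have hBJ0 : (0 : ℝ) < (((b ^ h) ^ J : ℕ) : ℝ) := by exact_mod_cast pow_pos hBpos J
        have h3 : (((b ^ h) ^ (J + 1) : ℕ) : ℝ) = (((b ^ h) ^ J : ℕ) : ℝ) * ((b ^ h : ℕ) : ℝ) := by
          rw [← Nat.cast_mul, pow_succ]
        have h4 : (L / 2) * (((b ^ h) ^ J : ℕ) : ℝ) ≤ (sK h b J K Hf : ℝ) := by
          have h5 := sK_ge (h := h) hb2 Hf J K hKpos'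
          have h6 : (dn h b J Hf : ℝ) = Dr h b J Hf * (((b ^ h) ^ J : ℕ) : ℝ) := by
            unfold Dr; rw [div_mul_cancel₀ _ hBJ0.ne']
          have h7 : (h : ℝ) ^ h * (((b ^ h) ^ J : ℕ) : ℝ) / K ≤ (L / 2) * (((b ^ h) ^ J : ℕ) : ℝ) := by
            rw [mul_div_right_comm]
            apply mul_le_mul_of_nonneg_right _ hBJ0.le
            rw [div_lt_iff₀ h0] at hK
            rw [div_le_iff₀ hKpos]
            nlinarith
          have h8 := mul_le_mul_of_nonneg_right (hLle J) hBJ0.le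
          rw [h6] at h5
          linarith
        have h5 : ε ≤ ((1 : ℝ) / ((b ^ h : ℕ) : ℝ)) ^ (K * h) * (sK h b J K Hf : ℝ) /
            (((b ^ h) ^ (J + 1) : ℕ) : ℝ) := by
          rw [le_div_iff₀ hBJ, h3]
          have h6 : ε * ((((b ^ h) ^ J : ℕ) : ℝ) * ((b ^ h : ℕ) : ℝ)) =
              ((1 : ℝ) / ((b ^ h : ℕ) : ℝ)) ^ (K * h) * ((L / 2) * (((b ^ h) ^ J : ℕ) : ℝ)) := by
            rw [hε]; field_simp
          rw [h6]
          exact mul_le_mul_of_nonneg_left h4 (by positivity)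
        linarith
      -- contradiction
      have hev : ∀ᶠ J : ℕ in atTop, 1 / ((J : ℝ) + 1) ^ 2 ≤ ε / 2 := by
        have h1 : Tendsto (fun J : ℕ => 1 / ((J : ℝ) + 1) ^ 2) atTop (𝓝 0) := by
          have h2 : Tendsto (fun J : ℕ => 1 / ((J : ℝ) + 1)) atTop (𝓝 0) :=
            tendsto_one_div_add_atTop_nhds_zero_nat
          have h3 := h2.mul h2
          rw [mul_zero] at h3
          refine h3.congr fun J => ?_
          rw [div_mul_div_comm, one_mul, ← pow_two]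
        exact h1.eventually_le_const (by positivity)
      have hlim2 : Tendsto (fun J => Dr h b (J + 1) Hf) atTop (𝓝 L) :=
        hlim.comp (tendsto_add_atTop_nat 1)
      have hle : ∀ᶠ J : ℕ in atTop, Dr h b (J + 1) Hf ≤ Dr h b J Hf - ε / 2 := by
        filter_upwards [hev] with J hJ
        have := hstep2 J
        linarith
      have := le_of_tendsto_of_tendsto hlim2 (hlim.sub_const (ε / 2)) hle
      linarith
  · intro i hi m t
    induction t with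
    | zero =>
      rw [add_zero, pow_zero, mul_one, CC_self hb2]
      omega
    | succ t ih =>
      have h1 := (hsel (m + t) (sq (m + t)) (hinv (m + t))).2.2.2 i hi m (by omega)
      rw [← hsq_succ, CC_congr (hagree (m + t + 1)), CC_congr (hagree (m + t))] at h1
      have h2 : CC h b Hf i (m + t + 1) m * 2 ≤ CC h b Hf i (m + t) m + 1 := by omega
      rw [← add_assoc]
      calc CC h b Hf i (m + t + 1) m * 2 ^ (t + 1)
          = (CC h b Hf i (m + t + 1) m * 2) * 2 ^ t := by ring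
        _ ≤ (CC h b Hf i (m + t) m + 1) * 2 ^ t := Nat.mul_le_mul_right _ h2
        _ = CC h b Hf i (m + t) m * 2 ^ t + 2 ^ t := by ring
        _ ≤ (b ^ m + 2 ^ t) + 2 ^ t := Nat.add_le_add_right ih _
        _ = b ^ m + 2 ^ (t + 1) := by ring

end Pool.Agent.K9h24.NC
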