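import Mathlib

/-!
Orthogonality of additive characters for weighted families.
-/

set_option autoImplicit false

open Finset

namespace Pool.Agent.K9h24.Pow

lemma norm_root {ζ : ℂ} {q : ℕ} (hζ : IsPrimitiveRoot ζ q) (hq : q ≠ 0) : ‖ζ‖ = 1 :=
  Complex.norm_eq_one_of_pow_eq_one hζ.pow_eq_one hq

lemma ortho {ζ : ℂ} {q : ℕ} (hζ : IsPrimitiveRoot ζ q) (hq : q ≠ 0) (n m : ℕ) :
    ∑ a ∈ range q, ζ ^ (a * n) * (starRingEnd ℂ) (ζ ^ (a * m)) =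
      if n ≡ m [MOD q] then (q : ℂ) else 0 := by
  have hn := norm_root hζ hq
  have hconj : (starRingEnd ℂ) ζ = ζ⁻¹ := by
    rw [Complex.inv_def, Complex.normSq_eq_norm_sq, hn]; simp
  have h0 : ζ ≠ 0 := hζ.ne_zero hq
  set w : ℂ := ζ ^ n * (ζ⁻¹) ^ m with hw
  have h1 : ∀ a ∈ range q, ζ ^ (a * n) * (starRingEnd ℂ) (ζ ^ (a * m)) = w ^ a := by
    intro a _
    rw [map_pow, hconj, hw, mul_pow, ← pow_mul, ← pow_mul, mul_comm n a, mul_comm m a]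
  rw [Finset.sum_congr rfl h1]
  have hwq : w ^ q = 1 := by
    rw [hw, mul_pow, ← pow_mul, ← pow_mul, mul_comm n q, mul_comm m q, pow_mul, pow_mul,
      hζ.pow_eq_one, inv_pow, hζ.pow_eq_one]
    simp
  have hw1 : w = 1 ↔ n ≡ m [MOD q] := by
    have e : w = ζ ^ ((n : ℤ) - (m : ℤ)) := by
      rw [hw, zpow_sub₀ h0, zpow_natCast, zpow_natCast, inv_pow, div_eq_mul_inv]
    rw [e, hζ.zpow_eq_one_iff_dvd, Nat.ModEq.comm, Nat.modEq_iff_dvd]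
  by_cases h : n ≡ m [MOD q]
  · rw [if_pos h]
    rw [hw1.2 h]
    simp
  · rw [if_neg h]
    have hne : w ≠ 1 := fun hh => h (hw1.1 hh)
    have := mul_neg_geom_sum w q
    rw [hwq, sub_self] at this
    have h2 : (1 - w) ≠ 0 := sub_ne_zero.2 (Ne.symm hne)
    exact (mul_eq_zero.1 this).resolve_left h2

section

variable {Ω : Type*} (P : Finset Ω) (w : Ω → ℝ) (v : Ω → ℕ)

/-- character sums of a weighted family -/
noncomputable def Ph (ζ : ℂ) (a : ℕ) : ℂ := ∑ ω ∈ P, (w ω : ℂ) * ζ ^ (a * v ω)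

/-- Parseval -/
lemma sum_Ph_sq {ζ : ℂ} {q : ℕ} (hζ : IsPrimitiveRoot ζ q) (hq : q ≠ 0) :
    ∑ a ∈ range q, ‖Ph P w v ζ a‖ ^ 2 =
      q * ∑ ω ∈ P, ∑ ω' ∈ P, (if v ω ≡ v ω' [MOD q] then w ω * w ω' else 0) := by
  have h1 : ∀ a, ((‖Ph P w v ζ a‖ ^ 2 : ℝ) : ℂ) = ∑ ω ∈ P, ∑ ω' ∈ P,
      ((w ω * w ω' : ℝ) : ℂ) * (ζ ^ (a * v ω) * (starRingEnd ℂ) (ζ ^ (a * v ω'))) := by
    intro a
    have : ((‖Ph P w v ζ a‖ ^ 2 : ℝ) : ℂ) = Ph P w v ζ a * (starRingEnd ℂ) (Ph P w v ζ a) := by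
      rw [Complex.mul_conj, Complex.normSq_eq_norm_sq]
    rw [this]
    unfold Ph
    rw [map_sum, Finset.sum_mul_sum]
    refine Finset.sum_congr rfl fun ω _ => Finset.sum_congr rfl fun ω' _ => ?_
    rw [map_mul, Complex.conj_ofReal]
    push_cast
    ring
  have h2 : ((∑ a ∈ range q, ‖Ph P w v ζ a‖ ^ 2 : ℝ) : ℂ) =
      ((q * ∑ ω ∈ P, ∑ ω' ∈ P, (if v ω ≡ v ω' [MOD q] then w ω * w ω' else 0) : ℝ) : ℂ) := by
    rw [Complex.ofReal_sum]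
    simp_rw [h1]
    rw [Finset.sum_comm]
    push_cast
    rw [Finset.mul_sum]
    refine Finset.sum_congr rfl fun ω _ => ?_
    rw [Finset.sum_comm, Finset.mul_sum]
    refine Finset.sum_congr rfl fun ω' _ => ?_
    rw [← Finset.mul_sum, ortho hζ hq]
    split_ifs
    · push_cast; ring
    · simp
  exact_mod_cast h2

/-- detection of a congruence -/
lemma sum_Ph {ζ : ℂ} {q : ℕ} (hζ : IsPrimitiveRoot ζ q) (hq : q ≠ 0) :
    ∑ a ∈ range q, Ph P w v ζ a = ((q * ∑ ω ∈ P, (if q ∣ v ω then w ω else 0) : ℝ) : ℂ) := by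
  unfold Ph
  rw [Finset.sum_comm]
  push_cast
  rw [Finset.mul_sum]
  refine Finset.sum_congr rfl fun ω _ => ?_
  rw [← Finset.mul_sum]
  have := ortho hζ hq (v ω) 0
  simp only [mul_zero, pow_zero, map_one, mul_one] at this
  rw [this]
  by_cases h : q ∣ v ω
  · rw [if_pos (Nat.modEq_zero_iff_dvd.2 h), if_pos h]
    ring
  · rw [if_neg (fun hh => h (Nat.modEq_zero_iff_dvd.1 hh)), if_neg h]
    simp

end

/-- tuples of numbers below `Q` -/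
def Tup (h Q : ℕ) : Finset (Fin h → ℕ) := Fintype.piFinset (fun _ : Fin h => range Q)

/-- sums of `h`-th powers -/
def sg (h : ℕ) (φ : Fin h → ℕ) : ℕ := ∑ i, (φ i) ^ h

lemma mem_Tup {h Q : ℕ} {φ : Fin h → ℕ} : φ ∈ Tup h Q ↔ ∀ i, φ i < Q := by
  unfold Tup
  rw [Fintype.mem_piFinset]
  simp

/-- the exponential sum over `h`-th powers -/
noncomputable def F (h Q : ℕ) (ζ : ℂ) (w : ℕ → ℝ) (a : ℕ) : ℂ :=
  ∑ x ∈ range Q, (w x : ℂ) * ζ ^ (a * x ^ h)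

lemma F_pow (h Q : ℕ) (ζ : ℂ) (w : ℕ → ℝ) (a : ℕ) :
    F h Q ζ w a ^ h = Ph (Tup h Q) (fun φ => ∏ i, w (φ i)) (sg h) ζ a := by
  unfold F Ph Tup sg
  rw [Finset.sum_pow']
  refine Finset.sum_congr rfl fun φ _ => ?_
  rw [Finset.prod_mul_distrib]
  push_cast
  rw [Finset.prod_pow_eq_pow_sum, Finset.mul_sum]

lemma F_eq (h Q : ℕ) (ζ : ℂ) (w : ℕ → ℝ) (a : ℕ) :
    F h Q ζ w a = Ph (range Q) w (fun x => x ^ h) ζ a := rfl

lemma sum_tup (h Q : ℕ) (w : ℕ → ℝ) :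
    ∑ φ ∈ Tup h Q, ∏ i, w (φ i) = (∑ x ∈ range Q, w x) ^ h := by
  unfold Tup
  rw [Finset.sum_pow']

/-- the energy inequality -/
lemma energy (h Q : ℕ) (hQ : Q ≠ 0) {ζ : ℂ} (hζ : IsPrimitiveRoot ζ Q) (g w : ℕ → ℝ) (K : ℝ)
    (hw0 : ∀ x, 0 ≤ w x) (hwg : ∀ x, w x ≤ g x)
    (hK : ∀ c, ∑ φ ∈ Tup h Q, (if c ≡ sg h φ [MOD Q] then ∏ i, g (φ i) else 0) ≤ K) :
    ∑ a ∈ range Q, ‖F h Q ζ w a‖ ^ (2 * h) ≤ Q * (K * (∑ x ∈ range Q, w x) ^ h) := by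
  have h1 : ∀ a ∈ range Q, ‖F h Q ζ w a‖ ^ (2 * h) =
      ‖Ph (Tup h Q) (fun φ => ∏ i, w (φ i)) (sg h) ζ a‖ ^ 2 := by
    intro a _
    rw [← F_pow, norm_pow, ← pow_mul, mul_comm]
  rw [Finset.sum_congr rfl h1, sum_Ph_sq _ _ _ hζ hQ]
  apply mul_le_mul_of_nonneg_left _ (Nat.cast_nonneg _)
  rw [← sum_tup, Finset.mul_sum]
  refine Finset.sum_le_sum fun φ _ => ?_
  have hpos : 0 ≤ ∏ i, w (φ i) := Finset.prod_nonneg fun i _ => hw0 _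
  calc ∑ ψ ∈ Tup h Q, (if sg h φ ≡ sg h ψ [MOD Q] then (∏ i, w (φ i)) * ∏ i, w (ψ i) else 0)
      = (∏ i, w (φ i)) * ∑ ψ ∈ Tup h Q, (if sg h φ ≡ sg h ψ [MOD Q] then ∏ i, w (ψ i) else 0) := by
        rw [Finset.mul_sum]
        refine Finset.sum_congr rfl fun ψ _ => ?_
        split_ifs <;> simp
    _ ≤ (∏ i, w (φ i)) * ∑ ψ ∈ Tup h Q, (if sg h φ ≡ sg h ψ [MOD Q] then ∏ i, g (ψ i) else 0) := by
        apply mul_le_mul_of_nonneg_left _ hpos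
        refine Finset.sum_le_sum fun ψ _ => ?_
        split_ifs
        · exact Finset.prod_le_prod (fun i _ => hw0 _) (fun i _ => hwg _)
        · exact le_rfl
    _ ≤ (∏ i, w (φ i)) * K := mul_le_mul_of_nonneg_left (hK _) hpos
    _ = K * ∏ i, w (φ i) := mul_comm _ _

end Pool.Agent.K9h24.Pow
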