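import Pool.Agent.K9h24.Pow1

/-!
Setup for sums of `h`-th powers modulo a product of `h`-th powers of primes; removal of the
primes supporting the large frequencies.
-/

set_option autoImplicit false

open Finset

namespace Pool.Agent.K9h24.Pow

/-- product of the primes of `R`, each to the power `h` -/
def QR (h : ℕ) (R : Finset ℕ) : ℕ := ∏ p ∈ R, p ^ h

/-- product of the primes of `R` -/
def PR (R : Finset ℕ) : ℕ := ∏ p ∈ R, p

lemma QR_eq (h : ℕ) (R : Finset ℕ) : QR h R = PR R ^ h := by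
  unfold QR PR; rw [Finset.prod_pow]

lemma QR_pos {h : ℕ} {R : Finset ℕ} (hR : ∀ p ∈ R, p.Prime) : 0 < QR h R :=
  Finset.prod_pos fun p hp => pow_pos (hR p hp).pos _

lemma PR_pos {R : Finset ℕ} (hR : ∀ p ∈ R, p.Prime) : 0 < PR R :=
  Finset.prod_pos fun p hp => (hR p hp).pos

lemma QR_sdiff (h : ℕ) {I P : Finset ℕ} (hI : I ⊆ P) : QR h I * QR h (P \ I) = QR h P := by
  unfold QR
  rw [mul_comm, Finset.prod_sdiff hI]

lemma QR_insert (h : ℕ) {p : ℕ} {R : Finset ℕ} (hp : p ∉ R) :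
    QR h (insert p R) = p ^ h * QR h R := Finset.prod_insert hp

lemma PR_insert {p : ℕ} {R : Finset ℕ} (hp : p ∉ R) :
    PR (insert p R) = p * PR R := Finset.prod_insert hp

lemma cop_prime {p : ℕ} (hp : p.Prime) {R : Finset ℕ} (hR : ∀ p ∈ R, p.Prime) (hpR : p ∉ R)
    (h : ℕ) : Nat.Coprime (p ^ h) (QR h R) := by
  unfold QR
  refine Nat.Coprime.prod_right fun r hr => ?_
  refine Nat.Coprime.pow _ _ ((Nat.coprime_primes hp (hR r hr)).2 ?_)
  rintro rfl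
  exact hpR hr

lemma cop_disj {I R : Finset ℕ} (hI : ∀ p ∈ I, p.Prime) (hR : ∀ p ∈ R, p.Prime)
    (hd : Disjoint I R) (h : ℕ) : Nat.Coprime (QR h I) (QR h R) := by
  unfold QR
  refine Nat.Coprime.prod_left fun p hp => Nat.Coprime.prod_right fun r hr => ?_
  refine Nat.Coprime.pow _ _ ((Nat.coprime_primes (hI p hp) (hR r hr)).2 ?_)
  rintro rfl
  exact (Finset.disjoint_left.1 hd hp) hr

lemma QR_dvd {h : ℕ} {R : Finset ℕ} (hR : ∀ p ∈ R, p.Prime) {a : ℕ}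
    (ha : ∀ p ∈ R, p ^ h ∣ a) : QR h R ∣ a := by
  induction R using Finset.induction_on with
  | empty => simp [QR]
  | insert p R hp ih =>
    rw [QR_insert h hp]
    have hR' : ∀ q ∈ R, q.Prime := fun q hq => hR q (Finset.mem_insert_of_mem hq)
    exact Nat.Coprime.mul_dvd_of_dvd_of_dvd
      (cop_prime (hR p (Finset.mem_insert_self _ _)) hR' hp h)
      (ha p (Finset.mem_insert_self _ _))
      (ih hR' fun q hq => ha q (Finset.mem_insert_of_mem hq))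

lemma dvd_QR {h : ℕ} {R : Finset ℕ} {p : ℕ} (hp : p ∈ R) : p ^ h ∣ QR h R :=
  Finset.dvd_prod_of_mem _ hp

lemma dvd_PR {R : Finset ℕ} {p : ℕ} (hp : p ∈ R) : p ∣ PR R :=
  Finset.dvd_prod_of_mem _ hp

/-- restriction to the multiples of `D` -/
noncomputable def uI (g : ℕ → ℝ) (D : ℕ) (x : ℕ) : ℝ := if D ∣ x then g x else 0

lemma uI_nonneg {g : ℕ → ℝ} (h0 : ∀ x, 0 ≤ g x) (D x : ℕ) : 0 ≤ uI g D x := by
  unfold uI; split_ifs
  · exact h0 x
  · exact le_rfl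

lemma uI_le {g : ℕ → ℝ} (h0 : ∀ x, 0 ≤ g x) (D x : ℕ) : uI g D x ≤ g x := by
  unfold uI; split_ifs
  · exact le_rfl
  · exact h0 x

/-- the number of multiples of `m ∣ Q` below `Q` -/
lemma card_mult {Q m : ℕ} (hm : m ∣ Q) (hQ : Q ≠ 0) :
    ((range Q).filter (fun x => m ∣ x)).card = Q / m := by
  obtain ⟨k, rfl⟩ := hm
  have hm0 : 0 < m := Nat.pos_of_ne_zero (by rintro rfl; simp at hQ)
  rw [Nat.mul_div_cancel_left _ hm0]
  have : (range (m * k)).filter (fun x => m ∣ x) = (range k).image (fun y => m * y) := by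
    ext x
    simp only [Finset.mem_filter, Finset.mem_range, Finset.mem_image]
    constructor
    · rintro ⟨hx, y, rfl⟩
      exact ⟨y, lt_of_mul_lt_mul_left hx (Nat.zero_le _), rfl⟩
    · rintro ⟨y, hy, rfl⟩
      exact ⟨Nat.mul_lt_mul_of_pos_left hy hm0, dvd_mul_right _ _⟩
  rw [this, Finset.card_image_of_injective, Finset.card_range]
  intro a b hab
  exact Nat.eq_of_mul_eq_mul_left hm0 hab

lemma card_mult_real {Q m : ℕ} (hm : m ∣ Q) (hQ : Q ≠ 0) :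
    (((range Q).filter (fun x => m ∣ x)).card : ℝ) = (Q : ℝ) / m := by
  rw [card_mult hm hQ, Nat.cast_div hm]
  rintro h
  have : m = 0 := by exact_mod_cast h
  rw [this] at hm
  exact hQ (Nat.eq_zero_of_zero_dvd hm)

lemma sum_uI_le {g : ℕ → ℝ} (h1 : ∀ x, g x ≤ 1) {Q D : ℕ} (hD : D ∣ Q)
    (hQ : Q ≠ 0) : ∑ x ∈ range Q, uI g D x ≤ (Q : ℝ) / D := by
  rw [← card_mult_real hD hQ]
  unfold uI
  rw [← Finset.sum_filter]
  calc _ ≤ ∑ x ∈ (range Q).filter (fun x => D ∣ x), (1 : ℝ) :=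
        Finset.sum_le_sum fun x _ => h1 x
    _ = _ := by simp

lemma F_periodic {h Q D Q' : ℕ} (hD : D ^ h * Q' = Q) {ζ : ℂ}
    (hζ : IsPrimitiveRoot ζ Q) (g : ℕ → ℝ) (a k : ℕ) :
    F h Q ζ (uI g D) (Q' * k + a) = F h Q ζ (uI g D) a := by
  unfold F
  refine Finset.sum_congr rfl fun x _ => ?_
  by_cases hx : D ∣ x
  · congr 1
    have h1 : Q ∣ Q' * k * x ^ h := by
      rw [← hD]
      obtain ⟨y, rfl⟩ := hx
      refine ⟨k * y ^ h, ?_⟩
      ring
    obtain ⟨m, hm⟩ := h1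
    rw [add_mul, pow_add, hm, pow_mul, hζ.pow_eq_one, one_pow, one_mul]
  · have : uI g D x = 0 := by unfold uI; rw [if_neg hx]
    rw [this]; simp

lemma F_mod {h Q D Q' : ℕ} (hD : D ^ h * Q' = Q) {ζ : ℂ}
    (hζ : IsPrimitiveRoot ζ Q) (g : ℕ → ℝ) (a : ℕ) :
    F h Q ζ (uI g D) (a % Q') = F h Q ζ (uI g D) a := by
  conv_rhs => rw [← Nat.div_add_mod a Q']
  rw [F_periodic hD hζ]

lemma sum_periodic (f : ℕ → ℝ) (Q' : ℕ) (hf : ∀ a k, f (Q' * k + a) = f a) (M : ℕ) :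
    ∑ a ∈ range (Q' * M), f a = M * ∑ a ∈ range Q', f a := by
  induction M with
  | zero => simp
  | succ M ih =>
    rw [mul_add, mul_one, Finset.sum_range_add, ih]
    simp_rw [hf]
    push_cast
    ring

lemma bad_card {h Q D Q' : ℕ} (hh : h ≠ 0) (hD : D ^ h * Q' = Q) (hQ : Q ≠ 0) {ζ : ℂ}
    (hζ : IsPrimitiveRoot ζ Q) {g : ℕ → ℝ} (h0 : ∀ x, 0 ≤ g x) (h1 : ∀ x, g x ≤ 1) {K : ℝ}
    (hK0 : 0 ≤ K)
    (hK : ∀ c, ∑ φ ∈ Tup h Q, (if c ≡ sg h φ [MOD Q] then ∏ i, g (φ i) else 0)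
      ≤ K * (Q : ℝ) ^ (h - 1)) {c' : ℝ} (hc' : 0 < c') :
    (((range Q').filter (fun a => c' * ((Q : ℝ) / D) ≤ ‖F h Q ζ (uI g D) a‖)).card : ℝ)
      * c' ^ (2 * h) ≤ K := by
  have hD0 : D ≠ 0 := by
    rintro rfl
    rw [zero_pow hh, zero_mul] at hD
    exact hQ hD.symm
  have hDQ : D ∣ Q := by
    rw [← hD]
    exact Dvd.dvd.mul_right (dvd_pow_self _ hh) _
  have hQr : (0 : ℝ) < Q := by exact_mod_cast Nat.pos_of_ne_zero hQ
  have hDr : (0 : ℝ) < D := by exact_mod_cast Nat.pos_of_ne_zero hD0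
  set V : ℝ := (Q : ℝ) / D with hV
  have hVpos : 0 < V := div_pos hQr hDr
  have he := energy h Q hQ hζ g (uI g D) (K * (Q : ℝ) ^ (h - 1)) (uI_nonneg h0 D) (uI_le h0 D) hK
  have hper : ∑ a ∈ range Q, ‖F h Q ζ (uI g D) a‖ ^ (2 * h) =
      (D : ℝ) ^ h * ∑ a ∈ range Q', ‖F h Q ζ (uI g D) a‖ ^ (2 * h) := by
    have := sum_periodic (fun a => ‖F h Q ζ (uI g D) a‖ ^ (2 * h)) Q'
      (fun a k => by simp only [F_periodic hD hζ g a k]) (D ^ h)
    rw [mul_comm Q' (D ^ h), hD] at this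
    rw [this]
    push_cast
    ring
  set B := (range Q').filter (fun a => c' * V ≤ ‖F h Q ζ (uI g D) a‖) with hB
  have hlow : (B.card : ℝ) * (c' * V) ^ (2 * h) ≤
      ∑ a ∈ range Q', ‖F h Q ζ (uI g D) a‖ ^ (2 * h) := by
    calc (B.card : ℝ) * (c' * V) ^ (2 * h) = ∑ a ∈ B, (c' * V) ^ (2 * h) := by simp
      _ ≤ ∑ a ∈ B, ‖F h Q ζ (uI g D) a‖ ^ (2 * h) := by
          refine Finset.sum_le_sum fun a ha => ?_
          exact pow_le_pow_left₀ (mul_pos hc' hVpos).le (Finset.mem_filter.1 ha).2 _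
      _ ≤ _ := Finset.sum_le_sum_of_subset_of_nonneg (Finset.filter_subset _ _)
          (fun _ _ _ => by positivity)
  have hs : ∑ x ∈ range Q, uI g D x ≤ V := sum_uI_le h1 hDQ hQ
  have hs0 : 0 ≤ ∑ x ∈ range Q, uI g D x := Finset.sum_nonneg fun x _ => uI_nonneg h0 D x
  have hup : (Q : ℝ) * (K * (Q : ℝ) ^ (h - 1) * (∑ x ∈ range Q, uI g D x) ^ h) ≤
      K * ((Q : ℝ) ^ h * V ^ h) := by
    have e : (Q : ℝ) ^ h = Q * (Q : ℝ) ^ (h - 1) := by
      rw [← pow_succ', Nat.sub_add_cancel (Nat.one_le_iff_ne_zero.2 hh)]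
    rw [e]
    have := pow_le_pow_left₀ hs0 hs h
    calc (Q : ℝ) * (K * (Q : ℝ) ^ (h - 1) * (∑ x ∈ range Q, uI g D x) ^ h)
        = K * ((Q * (Q : ℝ) ^ (h - 1)) * (∑ x ∈ range Q, uI g D x) ^ h) := by ring
      _ ≤ K * ((Q * (Q : ℝ) ^ (h - 1)) * V ^ h) := by
          apply mul_le_mul_of_nonneg_left _ hK0
          apply mul_le_mul_of_nonneg_left this
          positivity
  have hQV : (Q : ℝ) ^ h = (D : ℝ) ^ h * V ^ h := by
    rw [← mul_pow, hV, mul_div_cancel₀ _ hDr.ne']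
  have hfin : (D : ℝ) ^ h * ((B.card : ℝ) * (c' * V) ^ (2 * h)) ≤
      K * ((D : ℝ) ^ h * V ^ h * V ^ h) := by
    calc (D : ℝ) ^ h * ((B.card : ℝ) * (c' * V) ^ (2 * h))
        ≤ (D : ℝ) ^ h * ∑ a ∈ range Q', ‖F h Q ζ (uI g D) a‖ ^ (2 * h) :=
          mul_le_mul_of_nonneg_left hlow (by positivity)
      _ = ∑ a ∈ range Q, ‖F h Q ζ (uI g D) a‖ ^ (2 * h) := hper.symm
      _ ≤ _ := he
      _ ≤ _ := hup
      _ = _ := by rw [hQV]
  have hpos : 0 < (D : ℝ) ^ h * (V ^ h * V ^ h) := by positivity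
  have e2 : (D : ℝ) ^ h * ((B.card : ℝ) * (c' * V) ^ (2 * h)) =
      (B.card : ℝ) * c' ^ (2 * h) * ((D : ℝ) ^ h * (V ^ h * V ^ h)) := by
    rw [mul_pow, two_mul h, pow_add V]
    ring
  have e3 : K * ((D : ℝ) ^ h * V ^ h * V ^ h) = K * ((D : ℝ) ^ h * (V ^ h * V ^ h)) := by ring
  rw [e2, e3] at hfin
  exact le_of_mul_le_mul_right hfin hpos

/-- removing the primes that support large frequencies -/
lemma clean {h : ℕ} (hh : h ≠ 0) {P I N : Finset ℕ} (hP : ∀ p ∈ P, p.Prime) (hI : I ⊆ P)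
    (hN : N ⊆ P \ I) {ζ : ℂ}
    (hζ : IsPrimitiveRoot ζ (QR h P)) {g : ℕ → ℝ} (h0 : ∀ x, 0 ≤ g x) (h1 : ∀ x, g x ≤ 1) {K : ℝ}
    (hK0 : 0 ≤ K)
    (hK : ∀ c, ∑ φ ∈ Tup h (QR h P), (if c ≡ sg h φ [MOD (QR h P)] then ∏ i, g (φ i) else 0)
      ≤ K * ((QR h P : ℕ) : ℝ) ^ (h - 1)) {c' : ℝ} (hc' : 0 < c') :
    ∃ N' : Finset ℕ, N' ⊆ N ∧ ((N \ N').card : ℝ) * c' ^ (2 * h) ≤ K ∧
      ∀ R : Finset ℕ, R ⊆ N' → ∀ b, b * QR h R = QR h P → ∀ a, 0 < a → a < QR h R →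
        ‖F h (QR h P) ζ (uI g (PR I)) (a * b)‖ < c' * (((QR h P : ℕ) : ℝ) / ((PR I : ℕ) : ℝ)) := by
  classical
  set Q := QR h P with hQdef
  have hQ : Q ≠ 0 := (QR_pos hP).ne'
  set Q' := QR h (P \ I) with hQ'def
  have hPI : ∀ p ∈ P \ I, p.Prime := fun p hp => hP p (Finset.sdiff_subset hp)
  have hPI' : ∀ p ∈ I, p.Prime := fun p hp => hP p (hI hp)
  have hQ'pos : 0 < Q' := QR_pos hPI
  have hD : PR I ^ h * Q' = Q := by
    rw [← QR_eq, QR_sdiff h hI]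
  set B := (range Q').filter (fun a => c' * ((Q : ℝ) / ((PR I : ℕ) : ℝ)) ≤
    ‖F h Q ζ (uI g (PR I)) a‖) with hB
  have hBc := bad_card hh hD hQ hζ h0 h1 hK0 hK hc'
  have hpick : ∀ a : ℕ, ∃ p, (0 < a → a < Q' → p ∈ P \ I ∧ ¬ p ^ h ∣ a) := by
    intro a
    by_cases ha : 0 < a ∧ a < Q'
    · by_contra hcon
      push Not at hcon
      have : Q' ∣ a := QR_dvd hPI (fun p hp => by
        obtain ⟨_, _, h3⟩ := hcon p
        exact h3 hp)
      exact absurd (Nat.le_of_dvd ha.1 this) (by omega)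
    · exact ⟨0, fun h1 h2 => absurd ⟨h1, h2⟩ ha⟩
  choose pick hpick using hpick
  refine ⟨N \ B.image pick, Finset.sdiff_subset, ?_, ?_⟩
  · refine le_trans ?_ hBc
    apply mul_le_mul_of_nonneg_right _ (by positivity)
    have : N \ (N \ B.image pick) ⊆ B.image pick := by
      intro x hx
      simp only [Finset.mem_sdiff, not_and, not_not] at hx
      exact hx.2 hx.1
    exact_mod_cast (Finset.card_le_card this).trans Finset.card_image_le
  · intro R hR b hb a ha0 ha1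
    by_contra hcon
    push Not at hcon
    have hRN : R ⊆ N := fun p hp => Finset.sdiff_subset (hR hp)
    have hRPI : R ⊆ P \ I := hRN.trans hN
    have hRp : ∀ p ∈ R, p.Prime := fun p hp => hPI p (hRPI hp)
    have hdis : Disjoint I R := by
      rw [Finset.disjoint_left]
      intro p hp hp'
      exact (Finset.mem_sdiff.1 (hRPI hp')).2 hp
    set a' := (a * b) % Q' with ha'
    have hF : F h Q ζ (uI g (PR I)) a' = F h Q ζ (uI g (PR I)) (a * b) := F_mod hD hζ g _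
    have ha'lt : a' < Q' := Nat.mod_lt _ hQ'pos
    have ha'0 : 0 < a' := by
      rcases Nat.eq_zero_or_pos a' with h2 | h2
      · exfalso
        have h3 : Q' ∣ a * b := Nat.dvd_of_mod_eq_zero h2
        have h4 : b * QR h R ∣ b * (PR I ^ h * a) := by
          rw [hb, ← hD]
          obtain ⟨m, hm⟩ := h3
          refine ⟨m, ?_⟩
          calc b * (PR I ^ h * a) = PR I ^ h * (a * b) := by ring
            _ = PR I ^ h * Q' * m := by rw [hm]; ring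
        have hb0 : 0 < b := by
          rcases Nat.eq_zero_or_pos b with h5 | h5
          · rw [h5, zero_mul] at hb
            exact absurd hb.symm hQ
          · exact h5
        have h5 : QR h R ∣ PR I ^ h * a := Nat.dvd_of_mul_dvd_mul_left hb0 h4
        rw [← QR_eq] at h5
        have h6 : QR h R ∣ a :=
          Nat.Coprime.dvd_of_dvd_mul_left (cop_disj hPI' hRp hdis h).symm h5
        exact absurd (Nat.le_of_dvd ha0 h6) (by omega)
      · exact h2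
    have ha'B : a' ∈ B := by
      rw [hB, Finset.mem_filter, Finset.mem_range]
      exact ⟨ha'lt, by rw [hF]; exact hcon⟩
    obtain ⟨h7, h8⟩ := hpick a' ha'0 ha'lt
    apply h8
    have h9 : pick a' ∉ R := by
      intro h10
      have := (Finset.mem_sdiff.1 (hR h10)).2
      exact this (Finset.mem_image_of_mem _ ha'B)
    have h10 : pick a' ^ h ∣ Q' := dvd_QR h7
    rw [ha', Nat.dvd_mod_iff h10]
    have h11 : pick a' ^ h ∣ b * QR h R := by
      rw [hb, ← hD]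
      exact Dvd.dvd.mul_left h10 _
    have h12 : pick a' ^ h ∣ b :=
      Nat.Coprime.dvd_of_dvd_mul_right (cop_prime (hPI _ h7) hRp h9 h) h11
    exact Dvd.dvd.mul_left h12 _

end Pool.Agent.K9h24.Pow
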