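import Pool.Agent.K9h24.Pow2

/-!
A Turán–Kubilius argument: for some prime of a rich pool the density of the multiples of `p`
is nearly the global density.
-/

set_option autoImplicit false

open Finset

namespace Pool.Agent.K9h24.Pow

/-- indicator of divisibility -/
noncomputable def dv (m x : ℕ) : ℝ := if m ∣ x then 1 else 0

lemma sum_dv {Q m : ℕ} (hm : m ∣ Q) (hQ : Q ≠ 0) : ∑ x ∈ range Q, dv m x = (Q : ℝ) / m := by
  rw [← card_mult_real hm hQ]
  unfold dv
  rw [Finset.sum_ite]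
  simp

lemma dv_mul {a b : ℕ} (hab : Nat.Coprime a b) (x : ℕ) : dv a x * dv b x = dv (a * b) x := by
  unfold dv
  by_cases ha : a ∣ x
  · by_cases hb : b ∣ x
    · rw [if_pos ha, if_pos hb, if_pos (Nat.Coprime.mul_dvd_of_dvd_of_dvd hab ha hb)]; simp
    · rw [if_pos ha, if_neg hb, if_neg (fun h => hb ((dvd_mul_left b a).trans h))]; simp
  · rw [if_neg ha, if_neg (fun h => ha ((dvd_mul_right a b).trans h))]; simp

lemma dv_sq (a x : ℕ) : dv a x * dv a x = dv a x := by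
  unfold dv; split_ifs <;> simp

lemma uI_eq (g : ℕ → ℝ) (D x : ℕ) : uI g D x = g x * dv D x := by
  unfold uI dv; split_ifs <;> simp

lemma density {Q D : ℕ} (hQ : Q ≠ 0) (hDQ : D ∣ Q) (N : Finset ℕ) (hN : ∀ p ∈ N, p.Prime)
    (hD1 : ∀ p ∈ N, D * p ∣ Q) (hD2 : ∀ p ∈ N, ∀ p' ∈ N, p ≠ p' → D * p * p' ∣ Q)
    (hcop : ∀ p ∈ N, Nat.Coprime D p) {g : ℕ → ℝ} (h0 : ∀ x, 0 ≤ g x) (h1 : ∀ x, g x ≤ 1)
    {η : ℝ} (hη : 0 < η) (hL : 1 < η ^ 2 * ∑ p ∈ N, (1 : ℝ) / p) :
    ∃ p ∈ N, (∑ x ∈ range Q, uI g D x - η * ((Q : ℝ) / D)) / p ≤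
      ∑ x ∈ range Q, uI g (D * p) x := by
  classical
  by_contra hcon
  push Not at hcon
  have hQr : (0 : ℝ) < Q := by exact_mod_cast Nat.pos_of_ne_zero hQ
  have hD0 : D ≠ 0 := by rintro rfl; exact hQ (Nat.eq_zero_of_zero_dvd hDQ)
  have hDr : (0 : ℝ) < D := by exact_mod_cast Nat.pos_of_ne_zero hD0
  set V : ℝ := (Q : ℝ) / D with hV
  have hVpos : 0 < V := div_pos hQr hDr
  set L : ℝ := ∑ p ∈ N, (1 : ℝ) / p with hLdef
  have hpr : ∀ p ∈ N, (0 : ℝ) < p := fun p hp => by exact_mod_cast (hN p hp).pos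
  have hLpos : 0 < L := by
    by_contra hneg
    push Not at hneg
    have : η ^ 2 * L ≤ 0 := mul_nonpos_of_nonneg_of_nonpos (sq_nonneg _) hneg
    linarith
  set s := ∑ x ∈ range Q, uI g D x with hs
  set G : ℕ → ℝ := fun x => dv D x * ∑ p ∈ N, (dv p x - 1 / (p : ℝ)) with hG
  -- correlation of `g` with `G`
  have hcor : ∑ x ∈ range Q, g x * G x = ∑ p ∈ N, (∑ x ∈ range Q, uI g (D * p) x - s / p) := by
    have e1 : ∀ x, g x * G x = ∑ p ∈ N, (uI g (D * p) x - uI g D x / p) := by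
      intro x
      simp only [hG, uI_eq]
      rw [Finset.mul_sum, Finset.mul_sum]
      refine Finset.sum_congr rfl fun p hp => ?_
      rw [← dv_mul (hcop p hp)]
      ring
    simp_rw [e1]
    rw [Finset.sum_comm]
    refine Finset.sum_congr rfl fun p _ => ?_
    rw [Finset.sum_sub_distrib, hs, Finset.sum_div]
  have hcor2 : ∑ x ∈ range Q, g x * G x ≤ -(η * V * L) := by
    rw [hcor, hLdef, Finset.mul_sum, ← Finset.sum_neg_distrib]
    refine Finset.sum_le_sum fun p hp => ?_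
    have h3 := (hcon p hp).le
    have : (s - η * V) / (p : ℝ) = s / p - η * V * (1 / p) := by ring
    rw [this] at h3
    linarith
  -- second moment
  have hGsq : ∑ x ∈ range Q, G x ^ 2 ≤ V * L := by
    have e2 : ∀ x, G x ^ 2 = ∑ p ∈ N, ∑ p' ∈ N,
        (dv D x * ((dv p x - 1 / (p : ℝ)) * (dv p' x - 1 / (p' : ℝ)))) := by
      intro x
      simp only [hG]
      rw [mul_pow, sq, dv_sq, sq, Finset.sum_mul_sum, Finset.mul_sum]
      refine Finset.sum_congr rfl fun p _ => ?_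
      rw [Finset.mul_sum]
    simp_rw [e2]
    rw [Finset.sum_comm]
    have e3 : ∀ p ∈ N, ∑ x ∈ range Q, ∑ p' ∈ N,
        (dv D x * ((dv p x - 1 / (p : ℝ)) * (dv p' x - 1 / (p' : ℝ)))) ≤ V * (1 / (p : ℝ)) := by
      intro p hp
      rw [Finset.sum_comm]
      have hp0 := hpr p hp
      rw [← Finset.add_sum_erase _ _ hp]
      have hdiag : ∑ x ∈ range Q, (dv D x * ((dv p x - 1 / (p : ℝ)) * (dv p x - 1 / (p : ℝ))))
          ≤ V * (1 / (p : ℝ)) := by
        have e4 : ∀ x, dv D x * ((dv p x - 1 / (p : ℝ)) * (dv p x - 1 / (p : ℝ))) =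
            (1 - 2 / (p : ℝ)) * dv (D * p) x + (1 / (p : ℝ)) ^ 2 * dv D x := by
          intro x
          rw [← dv_mul (hcop p hp)]
          have := dv_sq p x
          calc _ = dv D x * (dv p x * dv p x) - 2 / (p : ℝ) * (dv D x * dv p x) +
                (1 / (p : ℝ)) ^ 2 * dv D x := by ring
            _ = _ := by rw [this]; ring
        simp_rw [e4]
        rw [Finset.sum_add_distrib, ← Finset.mul_sum, ← Finset.mul_sum, sum_dv (hD1 p hp) hQ,
          sum_dv hDQ hQ]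
        have e5 : (Q : ℝ) / ((D * p : ℕ) : ℝ) = V * (1 / p) := by
          push_cast; rw [hV]; field_simp
        rw [e5, ← hV]
        have e6 : (1 - 2 / (p : ℝ)) * (V * (1 / p)) + (1 / (p : ℝ)) ^ 2 * V =
            V * (1 / p) - V * (1 / (p : ℝ)) ^ 2 := by ring
        rw [e6]
        have : 0 ≤ V * (1 / (p : ℝ)) ^ 2 := by positivity
        linarith
      have hoff : ∑ p' ∈ N.erase p, ∑ x ∈ range Q,
          (dv D x * ((dv p x - 1 / (p : ℝ)) * (dv p' x - 1 / (p' : ℝ)))) = 0 := by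
        apply Finset.sum_eq_zero
        intro p' hp'
        obtain ⟨hne, hp'N⟩ := Finset.mem_erase.1 hp'
        have hp'0 := hpr p' hp'N
        have hcc : Nat.Coprime (D * p) p' := by
          refine Nat.Coprime.mul_left (hcop p' hp'N) ?_
          exact (Nat.coprime_primes (hN p hp) (hN p' hp'N)).2 (Ne.symm hne)
        have e4 : ∀ x, dv D x * ((dv p x - 1 / (p : ℝ)) * (dv p' x - 1 / (p' : ℝ))) =
            dv (D * p * p') x - 1 / (p' : ℝ) * dv (D * p) x - 1 / (p : ℝ) * dv (D * p') x +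
              1 / (p : ℝ) * (1 / (p' : ℝ)) * dv D x := by
          intro x
          rw [← dv_mul hcc, ← dv_mul (hcop p hp), ← dv_mul (hcop p' hp'N)]
          ring
        simp_rw [e4]
        rw [Finset.sum_add_distrib, Finset.sum_sub_distrib, Finset.sum_sub_distrib,
          ← Finset.mul_sum, ← Finset.mul_sum, ← Finset.mul_sum,
          sum_dv (hD2 p hp p' hp'N (Ne.symm hne)) hQ, sum_dv (hD1 p hp) hQ,
          sum_dv (hD1 p' hp'N) hQ, sum_dv hDQ hQ]
        push_cast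
        field_simp
        ring
      rw [hoff, add_zero]
      exact hdiag
    calc _ ≤ ∑ p ∈ N, V * (1 / (p : ℝ)) := Finset.sum_le_sum e3
      _ = V * L := by rw [← Finset.mul_sum]
  -- Cauchy–Schwarz
  have hgG : ∀ x, g x * G x = uI g D x * G x := by
    intro x
    simp only [hG, uI_eq]
    rw [← dv_sq D x]
    have := dv_sq D x
    calc g x * (dv D x * dv D x * ∑ p ∈ N, (dv p x - 1 / (p : ℝ)))
        = g x * (dv D x * dv D x) * ∑ p ∈ N, (dv p x - 1 / (p : ℝ)) := by ring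
      _ = g x * ((dv D x * dv D x) * (dv D x * dv D x)) *
          ∑ p ∈ N, (dv p x - 1 / (p : ℝ)) := by rw [this, this]
      _ = _ := by ring
  have hCS := Finset.sum_mul_sq_le_sq_mul_sq (range Q) (fun x => uI g D x) G
  have husq : ∑ x ∈ range Q, uI g D x ^ 2 ≤ V := by
    rw [hV, ← sum_dv hDQ hQ]
    refine Finset.sum_le_sum fun x _ => ?_
    rw [uI_eq, mul_pow, sq (dv D x), dv_sq]
    have hd : 0 ≤ dv D x := by unfold dv; split_ifs <;> norm_num
    have : g x ^ 2 ≤ 1 := pow_le_one₀ (h0 x) (h1 x)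
    calc g x ^ 2 * dv D x ≤ 1 * dv D x := mul_le_mul_of_nonneg_right this hd
      _ = dv D x := one_mul _
  have hcor3 : ∑ x ∈ range Q, uI g D x * G x ≤ -(η * V * L) := by
    calc _ = ∑ x ∈ range Q, g x * G x := Finset.sum_congr rfl fun x _ => (hgG x).symm
      _ ≤ _ := hcor2
  have hpos : 0 < η * V * L := by positivity
  have h5 : (η * V * L) ^ 2 ≤ (∑ x ∈ range Q, uI g D x * G x) ^ 2 := by
    have h9 : η * V * L ≤ -∑ x ∈ range Q, uI g D x * G x := by linarith
    have h10 := pow_le_pow_left₀ hpos.le h9 2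
    rwa [neg_sq] at h10
  have h6 : (η * V * L) ^ 2 ≤ V * (V * L) := by
    refine h5.trans (hCS.trans ?_)
    exact mul_le_mul husq hGsq (Finset.sum_nonneg fun x _ => sq_nonneg _) hVpos.le
  have h7 : (η ^ 2 * L) * (V ^ 2 * L) ≤ 1 * (V ^ 2 * L) := by
    calc (η ^ 2 * L) * (V ^ 2 * L) = (η * V * L) ^ 2 := by ring
      _ ≤ V * (V * L) := h6
      _ = 1 * (V ^ 2 * L) := by ring
  have h8 := le_of_mul_le_mul_right h7 (by positivity)
  linarith

end Pool.Agent.K9h24.Pow
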