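import Pool.Agent.K9h24.Pow3

/-!
Counting `h`-th roots modulo products of `h`-th powers of odd primes.
-/

set_option autoImplicit false

open Finset

namespace Pool.Agent.K9h24.Pow

lemma roots_card {p h : ℕ} (hp : p.Prime) (hp2 : p ≠ 2) (hh : 0 < h) {x : ℕ} (hx : ¬ p ∣ x) :
    ((range (p ^ h)).filter (fun z => z ^ h ≡ x ^ h [MOD p ^ h])).card ≤ h := by
  classical
  haveI : Fact p.Prime := ⟨hp⟩
  haveI : NeZero (p ^ h) := ⟨(pow_pos hp.pos h).ne'⟩
  haveI : IsCyclic (ZMod (p ^ h))ˣ := ZMod.isCyclic_units_of_prime_pow p hp hp2 h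
  have hxc : Nat.Coprime x (p ^ h) :=
    (Nat.Coprime.pow_right h ((Nat.Prime.coprime_iff_not_dvd hp).2 hx).symm)
  set xu : (ZMod (p ^ h))ˣ := ZMod.unitOfCoprime x hxc with hxu
  have hT : ((Finset.univ : Finset (ZMod (p ^ h))ˣ).filter (fun w => w ^ h = 1)).card ≤ h :=
    IsCyclic.card_pow_eq_one_le hh
  refine le_trans ?_ hT
  have hsub : (range (p ^ h)).filter (fun z => z ^ h ≡ x ^ h [MOD p ^ h]) ⊆
      ((Finset.univ : Finset (ZMod (p ^ h))ˣ).filter (fun w => w ^ h = 1)).image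
        (fun w => ((xu * w : (ZMod (p ^ h))ˣ) : ZMod (p ^ h)).val) := by
    intro z hz
    rw [Finset.mem_filter, Finset.mem_range] at hz
    obtain ⟨hz1, hz2⟩ := hz
    have hpz : ¬ p ∣ z := by
      intro hpz
      have h1 : p ∣ z ^ h := hpz.trans (dvd_pow_self _ hh.ne')
      have h2 : p ∣ p ^ h := dvd_pow_self _ hh.ne'
      have h3 : p ∣ x ^ h := ((Nat.ModEq.dvd_iff hz2 h2).1 h1)
      exact hx (hp.dvd_of_dvd_pow h3)
    have hzc : Nat.Coprime z (p ^ h) :=
      (Nat.Coprime.pow_right h ((Nat.Prime.coprime_iff_not_dvd hp).2 hpz).symm)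
    have hzx : ((z : ℕ) : ZMod (p ^ h)) ^ h = ((x : ℕ) : ZMod (p ^ h)) ^ h := by
      have := (ZMod.natCast_eq_natCast_iff _ _ _).2 hz2
      push_cast at this
      exact this
    have hu : (ZMod.unitOfCoprime z hzc) ^ h = xu ^ h := by
      apply Units.ext
      push_cast
      rw [hxu, ZMod.coe_unitOfCoprime, ZMod.coe_unitOfCoprime]
      exact hzx
    rw [Finset.mem_image]
    refine ⟨xu⁻¹ * ZMod.unitOfCoprime z hzc, ?_, ?_⟩
    · rw [Finset.mem_filter]
      refine ⟨Finset.mem_univ _, ?_⟩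
      rw [mul_pow, hu, inv_pow, inv_mul_cancel]
    · show ((xu * (xu⁻¹ * ZMod.unitOfCoprime z hzc) : (ZMod (p ^ h))ˣ) : ZMod (p ^ h)).val = z
      rw [mul_inv_cancel_left, ZMod.coe_unitOfCoprime, ZMod.val_natCast, Nat.mod_eq_of_lt hz1]
  exact (Finset.card_le_card hsub).trans Finset.card_image_le

lemma class_card {Q m : ℕ} (hm : m ∣ Q) (Y : Finset ℕ) (hY : Y ⊆ range Q)
    (hc : ∀ y ∈ Y, ∀ y' ∈ Y, y ≡ y' [MOD m]) : Y.card ≤ Q / m := by
  have : (Y.image (fun y => y / m)).card ≤ (range (Q / m)).card := by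
    apply Finset.card_le_card
    intro z hz
    obtain ⟨y, hy, rfl⟩ := Finset.mem_image.1 hz
    rw [Finset.mem_range]
    exact Nat.div_lt_div_of_lt_of_dvd hm (Finset.mem_range.1 (hY hy))
  rw [Finset.card_range] at this
  refine le_trans (le_of_eq ?_) this
  rw [Finset.card_image_of_injOn]
  intro y hy y' hy' hyy
  have h1 : y % m = y' % m := hc y hy y' hy'
  have h2 : y / m = y' / m := hyy
  rw [← Nat.div_add_mod y m, ← Nat.div_add_mod y' m, h1, h2]

lemma fibre_card {h : ℕ} (hh : 0 < h) {P I R : Finset ℕ} (hP : ∀ p ∈ P, p.Prime)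
    (hodd : ∀ p ∈ P, p ≠ 2) (hI : I ⊆ P) (hR : R ⊆ P \ I) {x : ℕ} (hx : ∀ p ∈ R, ¬ p ∣ x) :
    ((range (QR h P)).filter (fun y => PR I ∣ y ∧ x ^ h ≡ y ^ h [MOD QR h R])).card ≤
      h ^ R.card * (QR h P / (PR I * QR h R)) := by
  classical
  have hIp : ∀ p ∈ I, p.Prime := fun p hp => hP p (hI hp)
  have hRp : ∀ p ∈ R, p.Prime := fun p hp => hP p (Finset.sdiff_subset (hR hp))
  have hdis : Disjoint I R := by
    rw [Finset.disjoint_left]
    intro p hp hp'
    exact (Finset.mem_sdiff.1 (hR hp')).2 hp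
  have hcopD : Nat.Coprime (PR I) (QR h R) := by
    have h1 := cop_disj hIp hRp hdis h
    rw [QR_eq h I] at h1
    exact Nat.Coprime.coprime_dvd_left (dvd_pow_self _ hh.ne') h1
  have hmQ : PR I * QR h R ∣ QR h P := by
    have h1 : PR I * QR h R ∣ QR h I * QR h R :=
      Nat.mul_dvd_mul_right (by rw [QR_eq h I]; exact dvd_pow_self _ hh.ne') _
    refine h1.trans ?_
    rw [← QR_sdiff h hI]
    exact Nat.mul_dvd_mul_left _ (Finset.prod_dvd_prod_of_subset _ _ _ hR)
  set S := (range (QR h P)).filter (fun y => PR I ∣ y ∧ x ^ h ≡ y ^ h [MOD QR h R]) with hS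
  set f : ℕ → (∀ p ∈ R, ℕ) := fun y p _ => y % p ^ h with hf
  set t := R.pi (fun p => (range (p ^ h)).filter (fun z => z ^ h ≡ x ^ h [MOD p ^ h])) with ht
  have hmaps : ∀ y ∈ S, f y ∈ t := by
    intro y hy
    rw [ht, Finset.mem_pi]
    intro p hp
    rw [Finset.mem_filter, Finset.mem_range]
    refine ⟨Nat.mod_lt _ (pow_pos (hRp p hp).pos _), ?_⟩
    have h1 : x ^ h ≡ y ^ h [MOD QR h R] := (Finset.mem_filter.1 hy).2.2
    have h2 : x ^ h ≡ y ^ h [MOD p ^ h] := Nat.ModEq.of_dvd (dvd_QR hp) h1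
    exact ((Nat.mod_modEq y (p ^ h)).pow h).trans h2.symm
  have htc : t.card ≤ h ^ R.card := by
    rw [ht, Finset.card_pi]
    refine (Finset.prod_le_pow_card _ _ h ?_)
    intro p hp
    exact roots_card (hRp p hp) (hodd p (Finset.sdiff_subset (hR hp))) hh (hx p hp)
  have hfib : ∀ b ∈ t, (S.filter (fun y => f y = b)).card ≤ QR h P / (PR I * QR h R) := by
    intro b _
    apply class_card hmQ
    · intro y hy
      exact (Finset.mem_filter.1 (Finset.mem_filter.1 hy).1).1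
    · have key : ∀ y ∈ S.filter (fun y => f y = b), ∀ y' ∈ S.filter (fun y => f y = b),
          y ≤ y' → y ≡ y' [MOD (PR I * QR h R)] := by
        intro y hy y' hy' hle
        obtain ⟨hy1, hy2⟩ := Finset.mem_filter.1 hy
        obtain ⟨hy1', hy2'⟩ := Finset.mem_filter.1 hy'
        have hD1 : PR I ∣ y := (Finset.mem_filter.1 hy1).2.1
        have hD2 : PR I ∣ y' := (Finset.mem_filter.1 hy1').2.1
        rw [Nat.modEq_iff_dvd' hle]
        apply Nat.Coprime.mul_dvd_of_dvd_of_dvd hcopD (Nat.dvd_sub hD2 hD1)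
        apply QR_dvd hRp
        intro p hp
        have h3 : f y = f y' := hy2.trans hy2'.symm
        have h4 : y % p ^ h = y' % p ^ h := congrFun (congrFun h3 p) hp
        exact (Nat.modEq_iff_dvd' hle).1 h4
      intro y hy y' hy'
      rcases le_total y y' with hle | hle
      · exact key y hy y' hy' hle
      · exact (key y' hy' y hy hle).symm
  calc S.card ≤ (QR h P / (PR I * QR h R)) * t.card :=
        Finset.card_le_mul_card_image_of_maps_to hmaps _ hfib
    _ ≤ (QR h P / (PR I * QR h R)) * h ^ R.card := Nat.mul_le_mul_left _ htc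
    _ = _ := mul_comm _ _

end Pool.Agent.K9h24.Pow
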