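import Pool.Agent.K9h24.Pow4

/-!
Lower bound for the number of solutions of one type.
-/

set_option autoImplicit false

open Finset

namespace Pool.Agent.K9h24.Pow

/-- restriction to the multiples of `PR I` prime to `R` -/
noncomputable def uT (g : ℕ → ℝ) (I R : Finset ℕ) (x : ℕ) : ℝ :=
  if (∀ p ∈ R, ¬ p ∣ x) then uI g (PR I) x else 0

lemma uT_nonneg {g : ℕ → ℝ} (h0 : ∀ x, 0 ≤ g x) (I R : Finset ℕ) (x : ℕ) : 0 ≤ uT g I R x := by
  unfold uT; split_ifs
  · exact uI_nonneg h0 _ x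
  · exact le_rfl

lemma uT_le {g : ℕ → ℝ} (h0 : ∀ x, 0 ≤ g x) (I R : Finset ℕ) (x : ℕ) :
    uT g I R x ≤ uI g (PR I) x := by
  unfold uT; split_ifs
  · exact le_rfl
  · exact uI_nonneg h0 _ x

lemma uT_diff {g : ℕ → ℝ} (h1 : ∀ x, g x ≤ 1) (I R : Finset ℕ) (x : ℕ)
    (hcop : ∀ p ∈ R, Nat.Coprime (PR I) p) :
    uI g (PR I) x - uT g I R x ≤ ∑ p ∈ R, dv (PR I * p) x := by
  have hnn : ∀ p ∈ R, 0 ≤ dv (PR I * p) x := fun p _ => by unfold dv; split_ifs <;> norm_num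
  unfold uT
  by_cases h : ∀ p ∈ R, ¬ p ∣ x
  · rw [if_pos h, sub_self]
    exact Finset.sum_nonneg hnn
  · rw [if_neg h, sub_zero]
    push Not at h
    obtain ⟨p, hp, hpx⟩ := h
    refine le_trans ?_ (Finset.single_le_sum hnn hp)
    unfold uI dv
    by_cases hD : PR I ∣ x
    · rw [if_pos hD, if_pos (Nat.Coprime.mul_dvd_of_dvd_of_dvd (hcop p hp) hD hpx)]
      exact h1 x
    · rw [if_neg hD]
      split_ifs <;> norm_num

/-- a weighted number of solutions of one type -/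
noncomputable def TT (h Q : ℕ) (g : ℕ → ℝ) (I R : Finset ℕ) : ℝ :=
  ∑ φ ∈ Tup h Q, (if QR h R ∣ sg h φ then ∏ i, uT g I R (φ i) else 0)

lemma type_count {h : ℕ} (hh : 2 ≤ h) {P I R : Finset ℕ} (hP : ∀ p ∈ P, p.Prime)
    (hodd : ∀ p ∈ P, p ≠ 2) (hI : I ⊆ P) (hR : R ⊆ P \ I) {ζ : ℂ}
    (hζ : IsPrimitiveRoot ζ (QR h P)) {g : ℕ → ℝ} (h0 : ∀ x, 0 ≤ g x) (h1 : ∀ x, g x ≤ 1)
    {b : ℕ} (hb : b * QR h R = QR h P) {c β : ℝ} (hc : 0 ≤ c) (hβ : 0 ≤ β)
    (hgood : ∀ a, 0 < a → a < QR h R →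
      ‖F h (QR h P) ζ (uI g (PR I)) (a * b)‖ ≤ c / 2 * (((QR h P : ℕ) : ℝ) / ((PR I : ℕ) : ℝ)))
    (hsmall : ∑ p ∈ R, (1 : ℝ) / p ≤ c / 2)
    (hlow : (β + ∑ p ∈ R, (1 : ℝ) / p) * (((QR h P : ℕ) : ℝ) / ((PR I : ℕ) : ℝ)) ≤
      ∑ x ∈ range (QR h P), uI g (PR I) x) :
    (β ^ h - c ^ (h - 2) * (h : ℝ) ^ R.card) *
      ((((QR h P : ℕ) : ℝ) / ((PR I : ℕ) : ℝ)) ^ h / ((QR h R : ℕ) : ℝ)) ≤
      TT h (QR h P) g I R := by
  classical
  have hIp : ∀ p ∈ I, p.Prime := fun p hp => hP p (hI hp)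
  have hRp : ∀ p ∈ R, p.Prime := fun p hp => hP p (Finset.sdiff_subset (hR hp))
  have hdis : Disjoint I R := by
    rw [Finset.disjoint_left]
    intro p hp hp'
    exact (Finset.mem_sdiff.1 (hR hp')).2 hp
  have hcop : ∀ p ∈ R, Nat.Coprime (PR I) p := by
    intro p hp
    unfold PR
    refine Nat.Coprime.prod_left fun r hr => ?_
    refine (Nat.coprime_primes (hIp r hr) (hRp p hp)).2 ?_
    rintro rfl
    exact (Finset.disjoint_left.1 hdis hr) hp
  have hh0 : 0 < h := by omega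
  set Q := QR h P with hQdef
  have hQ : Q ≠ 0 := (QR_pos hP).ne'
  set D := PR I with hDdef
  set q := QR h R with hqdef
  have hq : 0 < q := QR_pos hRp
  have hD0 : 0 < D := PR_pos hIp
  have hmQ : D * q ∣ Q := by
    have h1 : D * q ∣ QR h I * q :=
      Nat.mul_dvd_mul_right (by rw [QR_eq h I]; exact dvd_pow_self _ hh0.ne') _
    refine h1.trans ?_
    rw [hQdef, ← QR_sdiff h hI]
    exact Nat.mul_dvd_mul_left _ (Finset.prod_dvd_prod_of_subset _ _ _ hR)
  have hDQ : D ∣ Q := (dvd_mul_right D q).trans hmQ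
  have hDpQ : ∀ p ∈ R, D * p ∣ Q := fun p hp =>
    (Nat.mul_dvd_mul_left D ((dvd_pow_self p hh0.ne').trans (dvd_QR hp))).trans hmQ
  have hQr : (0 : ℝ) < Q := by exact_mod_cast Nat.pos_of_ne_zero hQ
  have hDr : (0 : ℝ) < D := by exact_mod_cast hD0
  have hqr : (0 : ℝ) < q := by exact_mod_cast hq
  set V : ℝ := (Q : ℝ) / D with hV
  have hVpos : 0 < V := div_pos hQr hDr
  set u := uT g I R with hu
  have hu0 : ∀ x, 0 ≤ u x := uT_nonneg h0 I R
  set ξ : ℂ := ζ ^ b with hξ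
  have hξq : IsPrimitiveRoot ξ q := by
    refine hζ.pow (Nat.pos_of_ne_zero hQ) hb.symm
  -- difference
  have hdiff : ∑ x ∈ range Q, (uI g D x - u x) ≤ (∑ p ∈ R, (1 : ℝ) / p) * V := by
    calc ∑ x ∈ range Q, (uI g D x - u x) ≤ ∑ x ∈ range Q, ∑ p ∈ R, dv (D * p) x :=
          Finset.sum_le_sum fun x _ => uT_diff h1 I R x hcop
      _ = ∑ p ∈ R, ∑ x ∈ range Q, dv (D * p) x := Finset.sum_comm
      _ = ∑ p ∈ R, (1 / (p : ℝ)) * V := by
          refine Finset.sum_congr rfl fun p hp => ?_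
          rw [sum_dv (hDpQ p hp) hQ, hV]
          have : (0 : ℝ) < p := by exact_mod_cast (hRp p hp).pos
          push_cast
          field_simp
      _ = _ := by rw [← Finset.sum_mul]
  set Φ : ℕ → ℂ := fun a => F h Q ξ u a with hΦ
  -- the zero frequency
  have hsu : β * V ≤ ∑ x ∈ range Q, u x := by
    have : ∑ x ∈ range Q, u x = ∑ x ∈ range Q, uI g D x - ∑ x ∈ range Q, (uI g D x - u x) := by
      rw [← Finset.sum_sub_distrib]
      exact Finset.sum_congr rfl fun x _ => by ring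
    rw [this]
    nlinarith [hdiff, hlow]
  have hsuV : ∑ x ∈ range Q, u x ≤ V :=
    (Finset.sum_le_sum fun x _ => uT_le h0 I R x).trans (sum_uI_le h1 hDQ hQ)
  have hΦ0 : Φ 0 = ((∑ x ∈ range Q, u x : ℝ) : ℂ) := by
    simp only [hΦ, F, zero_mul, pow_zero, mul_one]
    push_cast
    rfl
  -- the other frequencies
  have hΦa : ∀ a, 0 < a → a < q → ‖Φ a‖ ≤ c * V := by
    intro a ha0 ha1
    have e1 : Φ a = F h Q ζ (uI g D) (a * b) -
        ∑ x ∈ range Q, ((uI g D x - u x : ℝ) : ℂ) * ζ ^ ((a * b) * x ^ h) := by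
      simp only [hΦ, F]
      rw [← Finset.sum_sub_distrib]
      refine Finset.sum_congr rfl fun x _ => ?_
      rw [hξ, ← pow_mul]
      have : b * (a * x ^ h) = a * b * x ^ h := by ring
      rw [this]
      push_cast
      ring
    have e2 : ‖∑ x ∈ range Q, ((uI g D x - u x : ℝ) : ℂ) * ζ ^ ((a * b) * x ^ h)‖ ≤
        ∑ x ∈ range Q, (uI g D x - u x) := by
      refine (norm_sum_le _ _).trans (Finset.sum_le_sum fun x _ => ?_)
      rw [norm_mul, norm_pow, norm_root hζ hQ, one_pow, mul_one, Complex.norm_real,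
        Real.norm_of_nonneg (sub_nonneg.2 (uT_le h0 I R x))]
    rw [e1]
    refine (norm_sub_le _ _).trans ?_
    have h3 := hgood a ha0 ha1
    have h4 : (∑ p ∈ R, (1 : ℝ) / p) * V ≤ c / 2 * V :=
      mul_le_mul_of_nonneg_right hsmall hVpos.le
    linarith
  -- detection
  have hdet : ∑ a ∈ range q, Φ a ^ h = ((q * TT h Q g I R : ℝ) : ℂ) := by
    simp_rw [hΦ, F_pow]
    rw [sum_Ph _ _ _ hξq hq.ne']
    rfl
  -- Parseval
  have hpars : ∑ a ∈ range q, ‖Φ a‖ ^ 2 ≤ (h : ℝ) ^ R.card * V ^ 2 := by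
    simp_rw [hΦ, F_eq]
    rw [sum_Ph_sq _ _ _ hξq hq.ne']
    have hrow : ∀ x ∈ range Q, ∑ y ∈ range Q, (if x ^ h ≡ y ^ h [MOD q] then u x * u y else 0) ≤
        u x * ((h : ℝ) ^ R.card * (V / q)) := by
      intro x _
      by_cases hx : ∀ p ∈ R, ¬ p ∣ x
      · have hfc := fibre_card hh0 hP hodd hI hR hx
        calc ∑ y ∈ range Q, (if x ^ h ≡ y ^ h [MOD q] then u x * u y else 0)
            ≤ ∑ y ∈ range Q, (if (D ∣ y ∧ x ^ h ≡ y ^ h [MOD q]) then u x else 0) := by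
              refine Finset.sum_le_sum fun y _ => ?_
              by_cases hxy : x ^ h ≡ y ^ h [MOD q]
              · rw [if_pos hxy]
                by_cases hDy : D ∣ y
                · rw [if_pos ⟨hDy, hxy⟩]
                  have : u y ≤ 1 := (uT_le h0 I R y).trans ((uI_le h0 _ y).trans (h1 y))
                  exact mul_le_of_le_one_right (hu0 x) this
                · rw [if_neg (fun hc => hDy hc.1)]
                  have : u y ≤ 0 := by
                    refine (uT_le h0 I R y).trans ?_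
                    unfold uI
                    rw [if_neg hDy]
                  exact mul_nonpos_of_nonneg_of_nonpos (hu0 x) this
              · rw [if_neg hxy, if_neg (fun hc => hxy hc.2)]
          _ = u x * (((range Q).filter (fun y => D ∣ y ∧ x ^ h ≡ y ^ h [MOD q])).card : ℝ) := by
              rw [← Finset.sum_filter, Finset.sum_const, nsmul_eq_mul, mul_comm]
          _ ≤ u x * ((h : ℝ) ^ R.card * (V / q)) := by
              apply mul_le_mul_of_nonneg_left _ (hu0 x)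
              have h5 : (((range Q).filter (fun y => D ∣ y ∧ x ^ h ≡ y ^ h [MOD q])).card : ℝ) ≤
                  ((h ^ R.card * (Q / (D * q)) : ℕ) : ℝ) := by exact_mod_cast hfc
              refine h5.trans (le_of_eq ?_)
              rw [Nat.cast_mul, Nat.cast_div hmQ (by push_cast; positivity), hV]
              push_cast
              field_simp
      · have hux : u x = 0 := by
          rw [hu]; unfold uT; rw [if_neg hx]
        rw [hux]
        simp
    calc (q : ℝ) * ∑ x ∈ range Q, ∑ y ∈ range Q,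
          (if x ^ h ≡ y ^ h [MOD q] then u x * u y else 0)
        ≤ q * ∑ x ∈ range Q, u x * ((h : ℝ) ^ R.card * (V / q)) :=
          mul_le_mul_of_nonneg_left (Finset.sum_le_sum hrow) hqr.le
      _ = (∑ x ∈ range Q, u x) * ((h : ℝ) ^ R.card * V) := by
          rw [← Finset.sum_mul]; field_simp
      _ ≤ V * ((h : ℝ) ^ R.card * V) := mul_le_mul_of_nonneg_right hsuV (by positivity)
      _ = _ := by ring
  -- conclusion
  have hmain : ‖((q * TT h Q g I R - (∑ x ∈ range Q, u x) ^ h : ℝ) : ℂ)‖ ≤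
      c ^ (h - 2) * (h : ℝ) ^ R.card * V ^ h := by
    have e1 : ((q * TT h Q g I R - (∑ x ∈ range Q, u x) ^ h : ℝ) : ℂ) =
        ∑ a ∈ (range q).erase 0, Φ a ^ h := by
      rw [Finset.sum_erase_eq_sub (Finset.mem_range.2 hq), hdet, hΦ0]
      push_cast
      ring
    rw [e1]
    calc ‖∑ a ∈ (range q).erase 0, Φ a ^ h‖ ≤ ∑ a ∈ (range q).erase 0, ‖Φ a ^ h‖ :=
          norm_sum_le _ _
      _ ≤ ∑ a ∈ (range q).erase 0, (c * V) ^ (h - 2) * ‖Φ a‖ ^ 2 := by
          refine Finset.sum_le_sum fun a ha => ?_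
          obtain ⟨ha0, ha1⟩ := Finset.mem_erase.1 ha
          have h6 := hΦa a (Nat.pos_of_ne_zero ha0) (Finset.mem_range.1 ha1)
          rw [norm_pow]
          calc ‖Φ a‖ ^ h = ‖Φ a‖ ^ (h - 2) * ‖Φ a‖ ^ 2 := by
                rw [← pow_add, Nat.sub_add_cancel hh]
            _ ≤ _ := mul_le_mul_of_nonneg_right
                (pow_le_pow_left₀ (norm_nonneg _) h6 _) (sq_nonneg _)
      _ = (c * V) ^ (h - 2) * ∑ a ∈ (range q).erase 0, ‖Φ a‖ ^ 2 := by rw [← Finset.mul_sum]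
      _ ≤ (c * V) ^ (h - 2) * ∑ a ∈ range q, ‖Φ a‖ ^ 2 := by
          apply mul_le_mul_of_nonneg_left _ (pow_nonneg (mul_nonneg hc hVpos.le) _)
          exact Finset.sum_le_sum_of_subset_of_nonneg (Finset.erase_subset _ _)
            (fun _ _ _ => sq_nonneg _)
      _ ≤ (c * V) ^ (h - 2) * ((h : ℝ) ^ R.card * V ^ 2) :=
          mul_le_mul_of_nonneg_left hpars (pow_nonneg (mul_nonneg hc hVpos.le) _)
      _ = c ^ (h - 2) * (h : ℝ) ^ R.card * (V ^ (h - 2) * V ^ 2) := by rw [mul_pow]; ring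
      _ = _ := by rw [← pow_add, Nat.sub_add_cancel hh]
  rw [Complex.norm_real, Real.norm_eq_abs] at hmain
  have h7 := (abs_le.1 hmain).1
  have h8 : (β * V) ^ h ≤ (∑ x ∈ range Q, u x) ^ h :=
    pow_le_pow_left₀ (mul_nonneg hβ hVpos.le) hsu _
  rw [mul_pow] at h8
  have h9 : (β ^ h - c ^ (h - 2) * (h : ℝ) ^ R.card) * V ^ h ≤ q * TT h Q g I R := by
    nlinarith [h7, h8]
  calc (β ^ h - c ^ (h - 2) * (h : ℝ) ^ R.card) * (V ^ h / q)
      = ((β ^ h - c ^ (h - 2) * (h : ℝ) ^ R.card) * V ^ h) / q := by ring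
    _ ≤ (q * TT h Q g I R) / q := div_le_div_of_nonneg_right h9 hqr.le
    _ = TT h Q g I R := by field_simp

end Pool.Agent.K9h24.Pow
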