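import Pool.Agent.K9h24.Pow5

/-!
The induction over scales and the finite theorem.
-/

set_option autoImplicit false

open Finset

namespace Pool.Agent.K9h24.Pow

/-- weighted number of solutions in multiples of `PR I` of a congruence modulo `QR h R` -/
noncomputable def WW (h Q : ℕ) (g : ℕ → ℝ) (I R : Finset ℕ) : ℝ :=
  ∑ φ ∈ Tup h Q, (if QR h R ∣ sg h φ then ∏ i, uI g (PR I) (φ i) else 0)

lemma WW_rec {h : ℕ} (hh : 0 < h) (Q : ℕ) {g : ℕ → ℝ} (h0 : ∀ x, 0 ≤ g x) {I R : Finset ℕ} {p : ℕ}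
    (hp : p.Prime) (hRp : ∀ r ∈ R, r.Prime) (hpI : p ∉ I) (hpR : p ∉ R) :
    WW h Q g (insert p I) R + TT h Q g I (insert p R) ≤ WW h Q g I (insert p R) := by
  unfold WW TT
  rw [← Finset.sum_add_distrib]
  refine Finset.sum_le_sum fun φ _ => ?_
  have hprod0 : 0 ≤ ∏ i, uI g (PR I) (φ i) := Finset.prod_nonneg fun i _ => uI_nonneg h0 _ _
  by_cases hA : ∀ i, p ∣ φ i
  · -- all entries divisible by p
    have h2 : (if QR h (insert p R) ∣ sg h φ then ∏ i, uT g I (insert p R) (φ i) else 0) = 0 := by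
      split_ifs
      · apply Finset.prod_eq_zero (Finset.mem_univ (⟨0, hh⟩ : Fin h))
        unfold uT
        rw [if_neg]
        intro hcon
        exact hcon p (Finset.mem_insert_self _ _) (hA _)
      · rfl
    rw [h2, add_zero]
    by_cases hq : QR h R ∣ sg h φ
    · have hph : p ^ h ∣ sg h φ := by
        unfold sg
        exact Finset.dvd_sum fun i _ => pow_dvd_pow_of_dvd (hA i) h
      have h3 : QR h (insert p R) ∣ sg h φ := by
        rw [QR_insert h hpR]
        exact Nat.Coprime.mul_dvd_of_dvd_of_dvd (cop_prime hp hRp hpR h) hph hq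
      rw [if_pos hq, if_pos h3]
      refine Finset.prod_le_prod (fun i _ => uI_nonneg h0 _ _) (fun i _ => ?_)
      rw [PR_insert hpI]
      unfold uI
      by_cases hd : p * PR I ∣ φ i
      · rw [if_pos hd, if_pos ((dvd_mul_left _ _).trans hd)]
      · rw [if_neg hd]
        split_ifs
        · exact h0 _
        · exact le_rfl
    · rw [if_neg hq]
      split_ifs
      · exact hprod0
      · exact le_rfl
  · push Not at hA
    obtain ⟨i, hi⟩ := hA
    have h2 : (if QR h R ∣ sg h φ then ∏ i, uI g (PR (insert p I)) (φ i) else 0) = 0 := by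
      split_ifs
      · apply Finset.prod_eq_zero (Finset.mem_univ i)
        rw [PR_insert hpI]
        unfold uI
        rw [if_neg (fun hcon => hi ((dvd_mul_right _ _).trans hcon))]
      · rfl
    rw [h2, zero_add]
    split_ifs
    · exact Finset.prod_le_prod (fun i _ => uT_nonneg h0 _ _ _) (fun i _ => uT_le h0 _ _ _)
    · exact le_rfl

lemma induct {h : ℕ} (hh : 2 ≤ h) {P : Finset ℕ} (hP : ∀ p ∈ P, p.Prime)
    (hodd : ∀ p ∈ P, p ≠ 2) {ζ : ℂ} (hζ : IsPrimitiveRoot ζ (QR h P)) {g : ℕ → ℝ}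
    (h0 : ∀ x, 0 ≤ g x) (h1 : ∀ x, g x ≤ 1) {K : ℝ} (hK0 : 0 ≤ K)
    (hK : ∀ c, ∑ φ ∈ Tup h (QR h P), (if c ≡ sg h φ [MOD (QR h P)] then ∏ i, g (φ i) else 0)
      ≤ K * ((QR h P : ℕ) : ℝ) ^ (h - 1)) {δ c η κ ε : ℝ} {t : ℕ} (hδ : 0 < δ) (hc : 0 < c)
    (hη : 0 < η) (hκ0 : 0 ≤ κ) (hκ : ∀ n, n ≤ t → κ ≤ (δ / 4) ^ h - c ^ (h - 2) * (h : ℝ) ^ n)
    (hε : ∀ p ∈ P, (1 : ℝ) / p ≤ ε) (hε1 : (t : ℝ) * ε ≤ c / 2) (hε2 : (t : ℝ) * ε ≤ δ / 4)
    (hε3 : K * ε ≤ (c / 2) ^ (2 * h)) (hε4 : ε ≤ 1) (hε0 : 0 ≤ ε) :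
    ∀ n, n ≤ t → ∀ I N : Finset ℕ, I ⊆ P → N ⊆ P \ I →
      (n : ℝ) * (1 / η ^ 2 + 3) ≤ ∑ p ∈ N, (1 : ℝ) / p →
      (δ / 2 + n * η) * (((QR h P : ℕ) : ℝ) / ((PR I : ℕ) : ℝ)) ≤
        ∑ x ∈ range (QR h P), uI g (PR I) x →
      ∃ R, R ⊆ N ∧ R.card = n ∧
        ((n : ℝ) + 1) * κ * ((((QR h P : ℕ) : ℝ) / ((PR I : ℕ) : ℝ)) ^ h / ((QR h R : ℕ) : ℝ)) ≤
          WW h (QR h P) g I R := by
  classical
  set Q := QR h P with hQdef
  have hQ : Q ≠ 0 := (QR_pos hP).ne'
  have hQr : (0 : ℝ) < Q := by exact_mod_cast Nat.pos_of_ne_zero hQ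
  have hh0 : 0 < h := by omega
  intro n
  induction n with
  | zero =>
    intro _ I N hI hN _ hs
    have hIp : ∀ p ∈ I, p.Prime := fun p hp => hP p (hI hp)
    have hDr : (0 : ℝ) < ((PR I : ℕ) : ℝ) := by exact_mod_cast PR_pos hIp
    have hV : (0 : ℝ) < (Q : ℝ) / ((PR I : ℕ) : ℝ) := div_pos hQr hDr
    refine ⟨∅, Finset.empty_subset _, Finset.card_empty, ?_⟩
    have e1 : WW h Q g I ∅ = (∑ x ∈ range Q, uI g (PR I) x) ^ h := by
      unfold WW
      rw [← sum_tup]
      refine Finset.sum_congr rfl fun φ _ => ?_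
      rw [if_pos]
      simp [QR]
    rw [e1]
    have e2 : ((QR h ∅ : ℕ) : ℝ) = 1 := by simp [QR]
    rw [e2, div_one]
    simp only [Nat.cast_zero, zero_add, one_mul, zero_mul, add_zero] at hs ⊢
    have h2 : κ ≤ (δ / 2) ^ h := by
      refine (hκ 0 (Nat.zero_le _)).trans ?_
      have h3 : (δ / 4) ^ h ≤ (δ / 2) ^ h :=
        pow_le_pow_left₀ (by positivity) (by linarith) _
      have h4 : 0 ≤ c ^ (h - 2) * (h : ℝ) ^ 0 := by positivity
      linarith
    calc κ * ((Q : ℝ) / ((PR I : ℕ) : ℝ)) ^ h ≤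
        (δ / 2) ^ h * ((Q : ℝ) / ((PR I : ℕ) : ℝ)) ^ h :=
          mul_le_mul_of_nonneg_right h2 (by positivity)
      _ = (δ / 2 * ((Q : ℝ) / ((PR I : ℕ) : ℝ))) ^ h := by rw [mul_pow]
      _ ≤ _ := pow_le_pow_left₀ (by positivity) hs _
  | succ n ih =>
    intro hnt I N hI hN hsum hs
    have hIp : ∀ p ∈ I, p.Prime := fun p hp => hP p (hI hp)
    have hDr : (0 : ℝ) < ((PR I : ℕ) : ℝ) := by exact_mod_cast PR_pos hIp
    set V : ℝ := (Q : ℝ) / ((PR I : ℕ) : ℝ) with hVdef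
    have hV : (0 : ℝ) < V := div_pos hQr hDr
    have hc' : 0 < c / 2 := by linarith
    obtain ⟨N', hN'N, hcard, hgood⟩ := clean hh0.ne' hP hI hN hζ h0 h1 hK0 hK hc'
    -- the sum over the remaining primes
    have hrem : ∑ p ∈ N \ N', (1 : ℝ) / p ≤ 1 := by
      have h2 : ∑ p ∈ N \ N', (1 : ℝ) / p ≤ ((N \ N').card : ℝ) * ε := by
        rw [← nsmul_eq_mul]
        refine Finset.sum_le_card_nsmul _ _ _ fun p hp => ?_
        exact hε p (Finset.sdiff_subset (hN (Finset.sdiff_subset hp)))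
      have hpw : 0 < (c / 2) ^ (2 * h) := by positivity
      have h3 : ((N \ N').card : ℝ) * ε * (c / 2) ^ (2 * h) ≤ 1 * (c / 2) ^ (2 * h) := by
        calc ((N \ N').card : ℝ) * ε * (c / 2) ^ (2 * h) =
              (((N \ N').card : ℝ) * (c / 2) ^ (2 * h)) * ε := by ring
          _ ≤ K * ε := mul_le_mul_of_nonneg_right hcard hε0
          _ ≤ (c / 2) ^ (2 * h) := hε3
          _ = _ := (one_mul _).symm
      have h4 := le_of_mul_le_mul_right h3 hpw
      linarith
    have hN'sum : ((n : ℝ) + 1) * (1 / η ^ 2 + 3) - 1 ≤ ∑ p ∈ N', (1 : ℝ) / p := by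
      have h2 := Finset.sum_sdiff (f := fun p : ℕ => (1 : ℝ) / p) hN'N
      push_cast at hsum
      linarith
    have hη2 : 0 < 1 / η ^ 2 := by positivity
    have hNN : N' ⊆ P \ I := hN'N.trans hN
    have hN'P : ∀ p ∈ N', p ∈ P := fun p hp => Finset.sdiff_subset (hNN hp)
    have hN'p : ∀ p ∈ N', p.Prime := fun p hp => hP p (hN'P p hp)
    have hN'I : ∀ p ∈ N', p ∉ I := fun p hp => (Finset.mem_sdiff.1 (hNN hp)).2
    have hL : 1 < η ^ 2 * ∑ p ∈ N', (1 : ℝ) / p := by
      have h2 : 1 / η ^ 2 + 2 ≤ ∑ p ∈ N', (1 : ℝ) / p := by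
        have : 0 ≤ (n : ℝ) * (1 / η ^ 2 + 3) := by positivity
        linarith
      have h3 : η ^ 2 * (1 / η ^ 2 + 2) ≤ η ^ 2 * ∑ p ∈ N', (1 : ℝ) / p :=
        mul_le_mul_of_nonneg_left h2 (by positivity)
      have h4 : η ^ 2 * (1 / η ^ 2 + 2) = 1 + 2 * η ^ 2 := by field_simp
      have h5 : 0 < η ^ 2 := by positivity
      linarith
    -- divisibility facts
    have hdI : ∀ J : Finset ℕ, J ⊆ P → PR J ∣ Q := by
      intro J hJ
      have h2 : PR J ∣ QR h J := by rw [QR_eq]; exact dvd_pow_self _ hh0.ne'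
      exact h2.trans (Finset.prod_dvd_prod_of_subset _ _ _ hJ)
    have hcopI : ∀ p ∈ N', Nat.Coprime (PR I) p := by
      intro p hp
      unfold PR
      refine Nat.Coprime.prod_left fun r hr => ?_
      refine (Nat.coprime_primes (hIp r hr) (hN'p p hp)).2 ?_
      rintro rfl
      exact hN'I _ hp hr
    obtain ⟨p, hpN', hdens⟩ := density hQ (hdI I hI) N' hN'p
      (fun p hp => by
        rw [mul_comm, ← PR_insert (hN'I p hp)]
        exact hdI _ (Finset.insert_subset (hN'P p hp) hI))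
      (fun p hp p' hp' hne => by
        have h2 : p' ∉ insert p I := by
          rw [Finset.mem_insert]
          rintro (h3 | h3)
          · exact hne h3.symm
          · exact hN'I p' hp' h3
        have h3 : PR I * p * p' = PR (insert p' (insert p I)) := by
          rw [PR_insert h2, PR_insert (hN'I p hp)]; ring
        rw [h3]
        exact hdI _ (Finset.insert_subset (hN'P p' hp') (Finset.insert_subset (hN'P p hp) hI)))
      hcopI h0 h1 hη hL
    have hpP := hN'P p hpN'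
    have hpp := hN'p p hpN'
    have hpI := hN'I p hpN'
    have hpr : (0 : ℝ) < p := by exact_mod_cast hpp.pos
    have hPRins : PR (insert p I) = p * PR I := PR_insert hpI
    have hVins : (Q : ℝ) / ((PR (insert p I) : ℕ) : ℝ) = V / p := by
      rw [hPRins, hVdef]; push_cast; field_simp
    obtain ⟨R, hRN, hRc, hW⟩ := ih (by omega) (insert p I) (N'.erase p)
      (Finset.insert_subset hpP hI)
      (by
        intro r hr
        obtain ⟨h2, h3⟩ := Finset.mem_erase.1 hr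
        rw [Finset.mem_sdiff]
        refine ⟨hN'P r h3, ?_⟩
        rw [Finset.mem_insert]
        rintro (h4 | h4)
        · exact h2 h4
        · exact hN'I r h3 h4)
      (by
        have h2 := Finset.add_sum_erase N' (fun p : ℕ => (1 : ℝ) / p) hpN'
        have h3 := hε p hpP
        linarith)
      (by
        rw [hVins, hPRins, mul_comm p (PR I)]
        refine le_trans ?_ hdens
        have h2 : (δ / 2 + (n : ℝ) * η) * (V / p) = ((δ / 2 + ((n : ℝ) + 1) * η) * V - η * V) / p := by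
          ring
        rw [h2]
        apply div_le_div_of_nonneg_right _ hpr.le
        push_cast at hs
        linarith)
    have hpR : p ∉ R := fun hp => (Finset.mem_erase.1 (hRN hp)).1 rfl
    have hRN' : insert p R ⊆ N' :=
      Finset.insert_subset hpN' (hRN.trans (Finset.erase_subset _ _))
    have hRp : ∀ r ∈ R, r.Prime := fun r hr => hN'p r (hRN' (Finset.mem_insert_of_mem hr))
    refine ⟨insert p R, hRN'.trans hN'N, by rw [Finset.card_insert_of_notMem hpR, hRc], ?_⟩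
    -- type count
    have hRsum : ∑ r ∈ insert p R, (1 : ℝ) / r ≤ t * ε := by
      have h2 : ∑ r ∈ insert p R, (1 : ℝ) / r ≤ ((insert p R).card : ℝ) * ε := by
        rw [← nsmul_eq_mul]
        refine Finset.sum_le_card_nsmul _ _ _ fun r hr => ?_
        exact hε r (hN'P r (hRN' hr))
      have h3 : ((insert p R).card : ℝ) ≤ t := by
        rw [Finset.card_insert_of_notMem hpR, hRc]
        exact_mod_cast hnt
      exact h2.trans (mul_le_mul_of_nonneg_right h3 hε0)
    have hqQ : QR h (insert p R) ∣ Q :=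
      Finset.prod_dvd_prod_of_subset _ _ _ (hRN'.trans (fun r hr => hN'P r hr))
    obtain ⟨b, hb⟩ := hqQ
    have hb' : b * QR h (insert p R) = Q := by rw [hb, mul_comm]
    have htype := type_count (β := δ / 4) hh hP hodd hI (hRN'.trans hNN) hζ h0 h1 hb' hc.le
      (by positivity) (fun a ha0 ha1 => (hgood _ hRN' b hb' a ha0 ha1).le)
      (hRsum.trans hε1)
      (by
        refine le_trans ?_ hs
        apply mul_le_mul_of_nonneg_right _ hV.le
        have : (0 : ℝ) ≤ ((n + 1 : ℕ) : ℝ) * η := by positivity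
        linarith)
    have hrec := WW_rec hh0 Q h0 hpp hRp hpI hpR
    have hκn : κ * (V ^ h / ((QR h (insert p R) : ℕ) : ℝ)) ≤ TT h Q g I (insert p R) := by
      refine le_trans ?_ htype
      apply mul_le_mul_of_nonneg_right
      · apply hκ
        rw [Finset.card_insert_of_notMem hpR, hRc]
        exact hnt
      · positivity
    have hnorm : (V / p) ^ h / ((QR h R : ℕ) : ℝ) = V ^ h / ((QR h (insert p R) : ℕ) : ℝ) := by
      rw [QR_insert h hpR]
      push_cast
      rw [div_pow, div_div]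
    rw [hVins, hnorm] at hW
    push_cast
    calc ((n : ℝ) + 1 + 1) * κ * (V ^ h / ((QR h (insert p R) : ℕ) : ℝ))
        = ((n : ℝ) + 1) * κ * (V ^ h / ((QR h (insert p R) : ℕ) : ℝ)) +
          κ * (V ^ h / ((QR h (insert p R) : ℕ) : ℝ)) := by ring
      _ ≤ WW h Q g (insert p I) R + TT h Q g I (insert p R) := add_le_add hW hκn
      _ ≤ _ := hrec

lemma primes_pool (L : ℝ) (P0 : ℕ) : ∃ P : Finset ℕ, (∀ p ∈ P, p.Prime ∧ P0 ≤ p) ∧
    L ≤ ∑ p ∈ P, (1 : ℝ) / p := by
  classical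
  have hns := not_summable_one_div_on_primes
  have hnn : ∀ n, 0 ≤ Set.indicator {p : ℕ | p.Prime} (fun n : ℕ => (1 : ℝ) / n) n := by
    intro n
    apply Set.indicator_nonneg
    intro x _
    positivity
  rw [not_summable_iff_tendsto_nat_atTop_of_nonneg hnn] at hns
  set C : ℝ := ∑ i ∈ range P0, Set.indicator {p : ℕ | p.Prime} (fun n : ℕ => (1 : ℝ) / n) i
    with hC
  obtain ⟨n, hn⟩ := (hns.eventually (Filter.eventually_ge_atTop (L + C))).exists
  refine ⟨(range n).filter (fun p => p.Prime ∧ P0 ≤ p), ?_, ?_⟩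
  · intro p hp
    exact (Finset.mem_filter.1 hp).2
  · have h1 : ∑ i ∈ range n, Set.indicator {p : ℕ | p.Prime} (fun n : ℕ => (1 : ℝ) / n) i ≤
        ∑ p ∈ (range n).filter (fun p => p.Prime ∧ P0 ≤ p), (1 : ℝ) / p + C := by
      rw [← Finset.sum_filter_add_sum_filter_not (range n) (fun p => P0 ≤ p)]
      apply add_le_add
      · rw [Finset.sum_filter, Finset.sum_filter]
        refine Finset.sum_le_sum fun i _ => ?_
        by_cases hi : P0 ≤ i
        · by_cases hip : i.Prime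
          · rw [if_pos hi, if_pos ⟨hip, hi⟩, Set.indicator_of_mem (by exact hip)]
          · rw [if_pos hi, if_neg (fun hc => hip hc.1), Set.indicator_of_notMem (by exact hip)]
        · rw [if_neg hi, if_neg (fun hc => hi hc.2)]
      · rw [hC]
        apply Finset.sum_le_sum_of_subset_of_nonneg
        · intro i hi
          have := (Finset.mem_filter.1 hi).2
          rw [Finset.mem_range]
          omega
        · intro i _ _
          exact hnn i
    linarith

/-- **The finite theorem.** -/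
theorem finite_thm {h : ℕ} (hh : 3 ≤ h) {δ : ℝ} (hδ : 0 < δ) (K : ℝ) :
    ∃ Q : ℕ, 0 < Q ∧ ∀ g : ℕ → ℝ, (∀ x, 0 ≤ g x) → (∀ x, g x ≤ 1) →
      δ * Q ≤ ∑ x ∈ range Q, g x →
      ∃ c : ℕ, K * (Q : ℝ) ^ (h - 1) <
        ∑ φ ∈ Tup h Q, (if c ≡ sg h φ [MOD Q] then ∏ i, g (φ i) else 0) := by
  classical
  wlog hK0 : 0 ≤ K generalizing K with H
  · obtain ⟨Q, hQ, hQ2⟩ := H 0 le_rfl
    refine ⟨Q, hQ, fun g h0 h1 hs => ?_⟩
    obtain ⟨c, hc⟩ := hQ2 g h0 h1 hs
    refine ⟨c, lt_of_le_of_lt ?_ hc⟩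
    push Not at hK0
    exact mul_le_mul_of_nonneg_right hK0.le (by positivity)
  have hhr : (0 : ℝ) < (h : ℝ) := by exact_mod_cast (by omega : 0 < h)
  set κ : ℝ := (δ / 4) ^ h / 2 with hκ
  have hκ0 : 0 < κ := by positivity
  obtain ⟨t, ht⟩ := exists_nat_gt (K / κ)
  set c : ℝ := min 1 ((δ / 4) ^ h / (2 * (h : ℝ) ^ t)) with hc
  have hc0 : 0 < c := lt_min one_pos (by positivity)
  set η : ℝ := δ / (2 * (t + 1)) with hη
  have hη0 : 0 < η := by positivity
  set ε : ℝ := min (min 1 ((c / 2) / (t + 1))) (min ((δ / 4) / (t + 1))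
    ((c / 2) ^ (2 * h) / (K + 1))) with hε
  have hε0 : 0 < ε := lt_min (lt_min one_pos (by positivity)) (lt_min (by positivity)
    (by positivity))
  have hε1 : ε ≤ 1 := (min_le_left _ _).trans (min_le_left _ _)
  have hε2 : ε ≤ (c / 2) / (t + 1) := (min_le_left _ _).trans (min_le_right _ _)
  have hε3 : ε ≤ (δ / 4) / (t + 1) := (min_le_right _ _).trans (min_le_left _ _)
  have hε4 : ε ≤ (c / 2) ^ (2 * h) / (K + 1) := (min_le_right _ _).trans (min_le_right _ _)
  obtain ⟨P1, hP1⟩ := exists_nat_gt (1 / ε)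
  obtain ⟨P, hP, hPs⟩ := primes_pool ((t : ℝ) * (1 / η ^ 2 + 3)) (max P1 3)
  have hPp : ∀ p ∈ P, p.Prime := fun p hp => (hP p hp).1
  have hodd : ∀ p ∈ P, p ≠ 2 := fun p hp => by
    have := (le_max_right P1 3).trans (hP p hp).2
    omega
  have hPε : ∀ p ∈ P, (1 : ℝ) / p ≤ ε := by
    intro p hp
    have h2 : (P1 : ℝ) ≤ p := by exact_mod_cast (le_max_left P1 3).trans (hP p hp).2
    have hppos : (0 : ℝ) < p := by exact_mod_cast (hPp p hp).pos
    rw [div_le_iff₀ hppos]
    have h3 : 1 / ε < p := lt_of_lt_of_le hP1 h2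
    rw [div_lt_iff₀ hε0] at h3
    linarith
  have hQ : QR h P ≠ 0 := (QR_pos hPp).ne'
  refine ⟨QR h P, QR_pos hPp, fun g h0 h1 hs => ?_⟩
  by_contra hcon
  push Not at hcon
  have htt : (0 : ℝ) < (t : ℝ) + 1 := by positivity
  have hζ := Complex.isPrimitiveRoot_exp (QR h P) hQ
  obtain ⟨R, hRP, hRc, hW⟩ := induct (by omega) hPp hodd hζ h0 h1 hK0 hcon hδ hc0 hη0 hκ0.le
    (t := t) (ε := ε) (by
      intro n hn
      have h2 : c ^ (h - 2) ≤ c := by
        calc c ^ (h - 2) ≤ c ^ 1 := pow_le_pow_of_le_one hc0.le (min_le_left _ _) (by omega)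
          _ = c := pow_one _
      have h3 : (h : ℝ) ^ n ≤ (h : ℝ) ^ t :=
        pow_le_pow_right₀ (by exact_mod_cast (by omega : 1 ≤ h)) hn
      have h4 : c ^ (h - 2) * (h : ℝ) ^ n ≤ c * (h : ℝ) ^ t :=
        mul_le_mul h2 h3 (by positivity) hc0.le
      have h5 : c * (h : ℝ) ^ t ≤ (δ / 4) ^ h / 2 := by
        have h6 : c ≤ (δ / 4) ^ h / (2 * (h : ℝ) ^ t) := min_le_right _ _
        calc c * (h : ℝ) ^ t ≤ (δ / 4) ^ h / (2 * (h : ℝ) ^ t) * (h : ℝ) ^ t :=
              mul_le_mul_of_nonneg_right h6 (by positivity)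
          _ = _ := by field_simp
      rw [hκ]
      linarith) hPε
    (by
      calc (t : ℝ) * ε ≤ (t + 1) * ((c / 2) / (t + 1)) :=
            mul_le_mul (by linarith) hε2 hε0.le htt.le
        _ = c / 2 := by field_simp)
    (by
      calc (t : ℝ) * ε ≤ (t + 1) * ((δ / 4) / (t + 1)) :=
            mul_le_mul (by linarith) hε3 hε0.le htt.le
        _ = δ / 4 := by field_simp)
    (by
      have : 0 < K + 1 := by linarith
      calc K * ε ≤ (K + 1) * ((c / 2) ^ (2 * h) / (K + 1)) :=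
            mul_le_mul (by linarith) hε4 hε0.le this.le
        _ = _ := by field_simp)
    hε1 hε0.le t le_rfl ∅ P (Finset.empty_subset _) (by simp) hPs
    (by
      have e1 : ((PR ∅ : ℕ) : ℝ) = 1 := by simp [PR]
      have e2 : ∀ x, uI g (PR ∅) x = g x := by intro x; simp [uI, PR]
      rw [e1, div_one]
      simp_rw [e2]
      refine le_trans ?_ hs
      apply mul_le_mul_of_nonneg_right _ (Nat.cast_nonneg _)
      have h2 : (t : ℝ) * η ≤ δ / 2 := by
        calc (t : ℝ) * η ≤ (t + 1) * η := mul_le_mul_of_nonneg_right (by linarith) hη0.le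
          _ = δ / 2 := by rw [hη]; field_simp
      linarith)
  -- upper bound for `WW`
  have hRp : ∀ r ∈ R, r.Prime := fun r hr => hPp r (hRP hr)
  have hq : 0 < QR h R := QR_pos hRp
  have hqQ : QR h R ∣ QR h P := Finset.prod_dvd_prod_of_subset _ _ _ hRP
  have hup : WW h (QR h P) g ∅ R ≤
      ((QR h P : ℕ) : ℝ) / ((QR h R : ℕ) : ℝ) * (K * ((QR h P : ℕ) : ℝ) ^ (h - 1)) := by
    have e2 : ∀ x, uI g (PR ∅) x = g x := by intro x; simp [uI, PR]
    unfold WW
    simp_rw [e2]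
    calc ∑ φ ∈ Tup h (QR h P), (if QR h R ∣ sg h φ then ∏ i, g (φ i) else 0)
        ≤ ∑ φ ∈ Tup h (QR h P), ∑ c ∈ (range (QR h P)).filter (fun c => QR h R ∣ c),
            (if c ≡ sg h φ [MOD (QR h P)] then ∏ i, g (φ i) else 0) := by
          refine Finset.sum_le_sum fun φ _ => ?_
          have hpr : 0 ≤ ∏ i, g (φ i) := Finset.prod_nonneg fun i _ => h0 _
          have hnn : ∀ c ∈ (range (QR h P)).filter (fun c => QR h R ∣ c),
              0 ≤ (if c ≡ sg h φ [MOD (QR h P)] then ∏ i, g (φ i) else 0) := by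
            intro c _
            split_ifs
            · exact hpr
            · exact le_rfl
          by_cases hd : QR h R ∣ sg h φ
          · rw [if_pos hd]
            have hmem : sg h φ % (QR h P) ∈ (range (QR h P)).filter (fun c => QR h R ∣ c) := by
              rw [Finset.mem_filter, Finset.mem_range]
              exact ⟨Nat.mod_lt _ (QR_pos hPp), (Nat.dvd_mod_iff hqQ).2 hd⟩
            refine le_trans (le_of_eq ?_) (Finset.single_le_sum hnn hmem)
            rw [if_pos (Nat.mod_modEq _ _)]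
          · rw [if_neg hd]
            exact Finset.sum_nonneg hnn
      _ = ∑ c ∈ (range (QR h P)).filter (fun c => QR h R ∣ c), ∑ φ ∈ Tup h (QR h P),
            (if c ≡ sg h φ [MOD (QR h P)] then ∏ i, g (φ i) else 0) := Finset.sum_comm
      _ ≤ ∑ c ∈ (range (QR h P)).filter (fun c => QR h R ∣ c),
            K * ((QR h P : ℕ) : ℝ) ^ (h - 1) := Finset.sum_le_sum fun c _ => hcon c
      _ = (((range (QR h P)).filter (fun c => QR h R ∣ c)).card : ℝ) *
            (K * ((QR h P : ℕ) : ℝ) ^ (h - 1)) := by rw [Finset.sum_const, nsmul_eq_mul]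
      _ = _ := by rw [card_mult_real hqQ hQ]
  have hfin := hW.trans hup
  have e1 : ((PR ∅ : ℕ) : ℝ) = 1 := by simp [PR]
  rw [e1, div_one] at hfin
  have hQr : (0 : ℝ) < ((QR h P : ℕ) : ℝ) := by exact_mod_cast QR_pos hPp
  have hqr : (0 : ℝ) < ((QR h R : ℕ) : ℝ) := by exact_mod_cast hq
  have e3 : ((QR h P : ℕ) : ℝ) / ((QR h R : ℕ) : ℝ) * (K * ((QR h P : ℕ) : ℝ) ^ (h - 1)) =
      K * (((QR h P : ℕ) : ℝ) ^ h / ((QR h R : ℕ) : ℝ)) := by
    have : ((QR h P : ℕ) : ℝ) ^ h = ((QR h P : ℕ) : ℝ) * ((QR h P : ℕ) : ℝ) ^ (h - 1) := by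
      rw [← pow_succ', Nat.sub_add_cancel (by omega)]
    rw [this]; ring
  rw [e3] at hfin
  have h9 := le_of_mul_le_mul_right hfin (by positivity)
  rw [div_lt_iff₀ hκ0] at ht
  nlinarith

end Pool.Agent.K9h24.Pow
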