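import Pool.Agent.K9h24.Pow6

/-!
Transfer to sets of integers of positive upper density, and to sets near `h`-th powers.
-/

set_option autoImplicit false

open Finset Filter

namespace Pool.Agent.K9h24.Pow

/-- Representations as sums of `h` `h`-th powers of elements of a set of positive upper density. -/
theorem powers_core {h : ℕ} (hh : 3 ≤ h) (S : Set ℕ) {δ : ℝ} (hδ : 0 < δ)
    (hS : ∃ᶠ N : ℕ in atTop, δ * N ≤ ((S ∩ Set.Iio N).ncard : ℝ)) (K : ℕ)
    (hK : ∀ n : ℕ, ∀ T : Finset (Fin h → ℕ), (∀ φ ∈ T, (∀ i, φ i ∈ S) ∧ sg h φ = n) →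
      T.card ≤ K) : False := by
  classical
  obtain ⟨Q, hQ, hfin⟩ := finite_thm hh (half_pos hδ) ((K : ℝ) * h)
  obtain ⟨N, hNQ, hN⟩ := (frequently_atTop.1 hS) (Q + 1)
  have hQr : (0 : ℝ) < Q := by exact_mod_cast hQ
  set Y := N / Q + 1 with hY
  have hYpos : 0 < Y := Nat.succ_pos _
  have hYr : (0 : ℝ) < Y := by exact_mod_cast hYpos
  have hQY1 : N < Q * Y := by
    have := Nat.div_add_mod N Q
    have h2 := Nat.mod_lt N hQ
    rw [hY, mul_add, mul_one]
    omega
  have hQY2 : Q * Y ≤ 2 * N := by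
    have := Nat.div_mul_le_self N Q
    rw [hY, mul_add, mul_one, mul_comm Q]
    omega
  set SF : Finset ℕ := (range (Q * Y)).filter (fun y => y ∈ S) with hSF
  have hSFcard : (δ / 2) * (Q * Y) ≤ (SF.card : ℝ) := by
    have h1 : ((S ∩ Set.Iio N).ncard : ℝ) ≤ (SF.card : ℝ) := by
      have h2 : (S ∩ Set.Iio N) ⊆ (SF : Set ℕ) := by
        rintro y ⟨hy1, hy2⟩
        rw [hSF, Finset.coe_filter]
        refine ⟨Finset.mem_range.2 ?_, hy1⟩
        exact lt_trans hy2 hQY1
      have h3 := Set.ncard_le_ncard h2 (Finset.finite_toSet _)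
      rw [Set.ncard_coe_finset] at h3
      exact_mod_cast h3
    have h4 : ((Q * Y : ℕ) : ℝ) ≤ ((2 * N : ℕ) : ℝ) := by exact_mod_cast hQY2
    push_cast at h4
    nlinarith
  set cls : ℕ → Finset ℕ := fun c => SF.filter (fun y => y % Q = c) with hcls
  set g : ℕ → ℝ := fun c => ((cls c).card : ℝ) / Y with hg
  have hg0 : ∀ c, 0 ≤ g c := fun c => by positivity
  have hg1 : ∀ c, g c ≤ 1 := by
    intro c
    apply div_le_one_of_le₀ _ hYr.le
    have h1 : (cls c).card ≤ (Q * Y) / Q := by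
      apply class_card (dvd_mul_right _ _)
      · intro y hy
        exact (Finset.mem_filter.1 (Finset.mem_filter.1 hy).1).1
      · intro y hy y' hy'
        exact (Finset.mem_filter.1 hy).2.trans (Finset.mem_filter.1 hy').2.symm
    rw [Nat.mul_div_cancel_left _ hQ] at h1
    exact_mod_cast h1
  have hgs : (δ / 2) * Q ≤ ∑ x ∈ range Q, g x := by
    have h1 : ∑ x ∈ range Q, g x = (SF.card : ℝ) / Y := by
      simp only [hg]
      rw [← Finset.sum_div]
      congr 1
      have h2 : SF.card = ∑ x ∈ range Q, (cls x).card := by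
        apply Finset.card_eq_sum_card_fiberwise
        intro y _
        exact Finset.mem_coe.2 (Finset.mem_range.2 (Nat.mod_lt _ hQ))
      rw [h2]
      push_cast
      rfl
    rw [h1, le_div_iff₀ hYr]
    calc δ / 2 * Q * Y = (δ / 2) * (Q * Y) := by ring
      _ ≤ _ := hSFcard
  obtain ⟨c0, hc0⟩ := hfin g hg0 hg1 hgs
  -- multiply by `Y ^ h`
  set Ψ : Finset (Fin h → ℕ) :=
    (Fintype.piFinset (fun _ : Fin h => SF)).filter (fun ψ => c0 ≡ sg h ψ [MOD Q]) with hΨ
  have hlow : (Y : ℝ) ^ h * ∑ φ ∈ Tup h Q, (if c0 ≡ sg h φ [MOD Q] then ∏ i, g (φ i) else 0) ≤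
      (Ψ.card : ℝ) := by
    have h1 : ∀ φ : Fin h → ℕ, (Y : ℝ) ^ h * ∏ i, g (φ i) =
        ((Fintype.piFinset (fun i : Fin h => cls (φ i))).card : ℝ) := by
      intro φ
      rw [Fintype.card_piFinset]
      simp only [hg]
      rw [Finset.prod_div_distrib]
      simp only [Finset.prod_const, Finset.card_univ, Fintype.card_fin]
      rw [Nat.cast_prod, ← mul_div_assoc, mul_comm, mul_div_assoc,
        div_self (pow_pos hYr h).ne', mul_one]
    rw [Finset.mul_sum]
    have h2 : ∀ φ ∈ Tup h Q, (Y : ℝ) ^ h * (if c0 ≡ sg h φ [MOD Q] then ∏ i, g (φ i) else 0) ≤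
        ((Ψ.filter (fun ψ => (fun i => ψ i % Q) = φ)).card : ℝ) := by
      intro φ _
      by_cases hφ : c0 ≡ sg h φ [MOD Q]
      · rw [if_pos hφ, h1]
        have h3 : Fintype.piFinset (fun i : Fin h => cls (φ i)) ⊆
            Ψ.filter (fun ψ => (fun i => ψ i % Q) = φ) := by
          intro ψ hψ
          rw [Fintype.mem_piFinset] at hψ
          have h4 : ∀ i, ψ i % Q = φ i := fun i => (Finset.mem_filter.1 (hψ i)).2
          rw [Finset.mem_filter, hΨ, Finset.mem_filter, Fintype.mem_piFinset]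
          refine ⟨⟨fun i => (Finset.mem_filter.1 (hψ i)).1, ?_⟩, funext h4⟩
          refine hφ.trans ?_
          unfold sg
          have h5 : ∀ i, (φ i) ^ h ≡ (ψ i) ^ h [MOD Q] := by
            intro i
            apply Nat.ModEq.pow
            rw [← h4 i]
            exact Nat.mod_modEq _ _
          exact Nat.ModEq.sum (fun i _ => h5 i)
        exact_mod_cast Finset.card_le_card h3
      · rw [if_neg hφ, mul_zero]
        positivity
    refine (Finset.sum_le_sum h2).trans ?_
    have h6 : Ψ.card = ∑ φ ∈ Tup h Q, (Ψ.filter (fun ψ => (fun i => ψ i % Q) = φ)).card := by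
      apply Finset.card_eq_sum_card_fiberwise
      intro ψ _
      apply Finset.mem_coe.2
      rw [mem_Tup]
      intro i
      exact Nat.mod_lt _ hQ
    rw [h6]
    push_cast
    exact le_rfl
  have hup : Ψ.card ≤ K * (h * (Q ^ (h - 1) * Y ^ h)) := by
    set t := (range (h * (Q * Y) ^ h)).filter (fun n => c0 ≡ n [MOD Q]) with ht
    have htc : t.card ≤ h * (Q ^ (h - 1) * Y ^ h) := by
      have h1 : t.card ≤ (h * (Q * Y) ^ h) / Q := by
        apply class_card
        · exact Dvd.dvd.mul_left ((dvd_mul_right Q Y).trans (dvd_pow_self _ (by omega))) _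
        · exact Finset.filter_subset _ _
        · intro y hy y' hy'
          exact ((Finset.mem_filter.1 hy).2.symm).trans (Finset.mem_filter.1 hy').2
      have h2 : h * (Q * Y) ^ h = Q * (h * (Q ^ (h - 1) * Y ^ h)) := by
        have : Q ^ h = Q * Q ^ (h - 1) := by
          rw [← pow_succ', Nat.sub_add_cancel (by omega)]
        rw [mul_pow, this]; ring
      rw [h2, Nat.mul_div_cancel_left _ hQ] at h1
      exact h1
    have hmaps : ∀ ψ ∈ Ψ, sg h ψ ∈ t := by
      intro ψ hψ
      obtain ⟨h1, h2⟩ := Finset.mem_filter.1 hψ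
      rw [Fintype.mem_piFinset] at h1
      rw [ht, Finset.mem_filter, Finset.mem_range]
      refine ⟨?_, h2⟩
      unfold sg
      have h3 : ∀ i : Fin h, (ψ i) ^ h < (Q * Y) ^ h := fun i =>
        Nat.pow_lt_pow_left (Finset.mem_range.1 (Finset.mem_filter.1 (h1 i)).1) (by omega)
      calc ∑ i, (ψ i) ^ h < ∑ _i : Fin h, (Q * Y) ^ h :=
            Finset.sum_lt_sum_of_nonempty ⟨⟨0, by omega⟩, Finset.mem_univ _⟩ (fun i _ => h3 i)
        _ = h * (Q * Y) ^ h := by simp
    have h4 := Finset.card_le_mul_card_image_of_maps_to hmaps K (fun n _ => by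
      apply hK n
      intro φ hφ
      obtain ⟨h5, h6⟩ := Finset.mem_filter.1 hφ
      obtain ⟨h7, _⟩ := Finset.mem_filter.1 h5
      rw [Fintype.mem_piFinset] at h7
      exact ⟨fun i => (Finset.mem_filter.1 (h7 i)).2, h6⟩)
    exact h4.trans (Nat.mul_le_mul_left _ htc)
  have hup' : (Ψ.card : ℝ) ≤ K * (h * ((Q : ℝ) ^ (h - 1) * (Y : ℝ) ^ h)) := by exact_mod_cast hup
  have hYh : (0 : ℝ) < (Y : ℝ) ^ h := by positivity
  have h8 := mul_lt_mul_of_pos_left hc0 hYh
  have h9 : (Y : ℝ) ^ h * ((K : ℝ) * h * (Q : ℝ) ^ (h - 1)) =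
      K * (h * ((Q : ℝ) ^ (h - 1) * (Y : ℝ) ^ h)) := by ring
  linarith

/-- a set of integers near one real number is small -/
lemma card_near (T : Finset ℕ) (y : ℝ) (B : ℕ) (hT : ∀ a ∈ T, |(a : ℝ) - y| ≤ B) :
    T.card ≤ 2 * B + 1 := by
  rcases T.eq_empty_or_nonempty with rfl | hne
  · simp
  · have hsub : T ⊆ Finset.Icc (T.min' hne) (T.min' hne + 2 * B) := by
      intro a ha
      rw [Finset.mem_Icc]
      refine ⟨Finset.min'_le _ _ ha, ?_⟩
      have h1 := abs_le.1 (hT a ha)
      have h2 := abs_le.1 (hT _ (Finset.min'_mem T hne))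
      have h3 : (a : ℝ) ≤ ((T.min' hne + 2 * B : ℕ) : ℝ) := by
        push_cast
        linarith [h1.2, h2.1]
      exact_mod_cast h3
    have := Finset.card_le_card hsub
    rw [Nat.card_Icc] at this
    omega

/-- the unordered representation function of order `h` -/
noncomputable def rr (A : Set ℕ) (h n : ℕ) : ℕ :=
  Set.ncard {s : Multiset ℕ | Multiset.card s = h ∧ (∀ a ∈ s, a ∈ A) ∧ s.sum = n}

lemma rr_finite (A : Set ℕ) (h n : ℕ) :
    {s : Multiset ℕ | Multiset.card s = h ∧ (∀ a ∈ s, a ∈ A) ∧ s.sum = n}.Finite := by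
  classical
  apply Set.Finite.subset (Set.finite_range
    (fun φ : Fin h → Fin (n + 1) => Multiset.ofList (List.ofFn (fun i => (φ i : ℕ)))))
  rintro s ⟨h1, _, h3⟩
  obtain ⟨l, rfl⟩ := Quot.exists_rep s
  change Multiset.card (l : Multiset ℕ) = h at h1
  change ((l : Multiset ℕ)).sum = n at h3
  rw [Multiset.coe_card] at h1
  subst h1
  rw [Multiset.sum_coe] at h3
  have hle : ∀ a ∈ l, a ≤ n := by
    intro a ha
    rw [← h3]
    exact List.single_le_sum (fun _ _ => Nat.zero_le _) a ha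
  refine ⟨fun i => ⟨l.get i, Nat.lt_succ_of_le (hle _ (List.get_mem l i))⟩, ?_⟩
  show (Multiset.ofList (List.ofFn (fun i => l.get i)) : Multiset ℕ) = (l : Multiset ℕ)
  rw [List.ofFn_get]

/-- ordered tuples against multisets -/
lemma ordered_le (A : Set ℕ) (h n : ℕ) (K : ℕ) (hK : rr A h n ≤ K) (T : Finset (Fin h → ℕ))
    (hT : ∀ φ ∈ T, (∀ i, φ i ∈ A) ∧ ∑ i, φ i = n) : T.card ≤ h ^ h * K := by
  classical
  set M := (rr_finite A h n).toFinset with hM
  have hMc : M.card ≤ K := by
    have h1 := Set.ncard_eq_toFinset_card _ (rr_finite A h n)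
    rw [hM, ← h1]
    exact hK
  set f : (Fin h → ℕ) → Multiset ℕ := fun φ => Finset.univ.val.map φ with hf
  have hmaps : ∀ φ ∈ T, f φ ∈ M := by
    intro φ hφ
    obtain ⟨h1, h2⟩ := hT φ hφ
    rw [hM, Set.Finite.mem_toFinset]
    refine ⟨?_, ?_, ?_⟩
    · simp [hf]
    · intro a ha
      simp only [hf, Multiset.mem_map] at ha
      obtain ⟨i, _, rfl⟩ := ha
      exact h1 i
    · exact h2
  have := Finset.card_le_mul_card_image_of_maps_to hmaps (h ^ h) (fun s hs => by
    rw [hM, Set.Finite.mem_toFinset] at hs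
    have h3 : T.filter (fun φ => f φ = s) ⊆ Fintype.piFinset (fun _ : Fin h => s.toFinset) := by
      intro φ hφ
      have h4 := (Finset.mem_filter.1 hφ).2
      rw [Fintype.mem_piFinset]
      intro i
      rw [Multiset.mem_toFinset, ← h4]
      simp only [hf, Multiset.mem_map]
      exact ⟨i, Finset.mem_univ_val _, rfl⟩
    refine (Finset.card_le_card h3).trans ?_
    rw [Fintype.card_piFinset]
    simp only [Finset.prod_const, Finset.card_univ, Fintype.card_fin]
    apply Nat.pow_le_pow_left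
    exact (Multiset.toFinset_card_le s).trans hs.1.le)
  exact this.trans (Nat.mul_le_mul_left _ hMc)

end Pool.Agent.K9h24.Pow
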