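import Pool.Agent.K9h24.Pow7

/-!
Sets with many elements near multiples of `h`-th powers.
-/

set_option autoImplicit false

open Finset Filter

namespace Pool.Agent.K9h24.Pow

lemma pow_gap {h : ℕ} (hh : 2 ≤ h) {n m : ℕ} (hnm : n < m) : n ^ h + n ≤ m ^ h := by
  have h1 : (n + 1) ^ h ≤ m ^ h := Nat.pow_le_pow_left hnm h
  refine le_trans ?_ h1
  obtain ⟨k, rfl⟩ : ∃ k, h = k + 2 := ⟨h - 2, by omega⟩
  have h2 : n ^ (k + 1) ≤ (n + 1) ^ (k + 1) := Nat.pow_le_pow_left (Nat.le_succ n) _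
  have h3 : 1 ≤ (n + 1) ^ (k + 1) := Nat.one_le_pow _ _ (Nat.succ_pos n)
  rcases Nat.eq_zero_or_pos n with rfl | hn
  · simp
  · have h4 : n ≤ n ^ (k + 1) := Nat.le_self_pow (Nat.succ_ne_zero k) n
    calc n ^ (k + 2) + n = n ^ (k + 1) * n + n := by rw [pow_succ]
      _ ≤ (n + 1) ^ (k + 1) * n + (n + 1) ^ (k + 1) :=
          Nat.add_le_add (Nat.mul_le_mul_right _ h2) (h4.trans h2)
      _ = (n + 1) ^ (k + 2) := by rw [pow_succ (n + 1) (k + 1)]; ring

/-- the natural numbers whose multiple power is near an element of `A` -/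
def Sal (A : Set ℕ) (h B : ℕ) (α : ℝ) : Set ℕ :=
  {n | ∃ a ∈ A, |(a : ℝ) - α * (n : ℝ) ^ h| ≤ B}

/-- step 3: one multiplier -/
lemma one_alpha {h : ℕ} (hh : 3 ≤ h) (A : Set ℕ) (B : ℕ) {α : ℝ} (hα : 0 < α) {δ : ℝ}
    (hδ : 0 < δ)
    (hS : ∃ᶠ N : ℕ in atTop, δ * N ≤ ((Sal A h B α ∩ Set.Iio N).ncard : ℝ)) (K0 : ℕ)
    (hK0 : ∀ n, rr A h n ≤ K0) : False := by
  classical
  obtain ⟨n0, hn0⟩ := exists_nat_gt (2 * B / α)
  have hn0' : 2 * B < α * n0 := by
    rw [div_lt_iff₀ hα] at hn0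
    linarith
  set S' : Set ℕ := {n | n ∈ Sal A h B α ∧ n0 ≤ n} with hS'
  have hfreq : ∃ᶠ N : ℕ in atTop, δ / 2 * N ≤ ((S' ∩ Set.Iio N).ncard : ℝ) := by
    obtain ⟨N1, hN1⟩ := exists_nat_gt (2 * n0 / δ)
    refine (hS.and_eventually (eventually_ge_atTop N1)).mono ?_
    rintro N ⟨h1, h2⟩
    have h3 : ((Sal A h B α ∩ Set.Iio N).ncard : ℝ) ≤ ((S' ∩ Set.Iio N).ncard : ℝ) + n0 := by
      have h4 : Sal A h B α ∩ Set.Iio N ⊆ (S' ∩ Set.Iio N) ∪ Set.Iio n0 := by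
        rintro n ⟨hn1, hn2⟩
        by_cases hn3 : n0 ≤ n
        · exact Or.inl ⟨⟨hn1, hn3⟩, hn2⟩
        · exact Or.inr (by rw [Set.mem_Iio]; omega)
      have h5 := Set.ncard_le_ncard h4
        (((Set.finite_Iio N).subset Set.inter_subset_right).union (Set.finite_Iio n0))
      have h6 := Set.ncard_union_le (S' ∩ Set.Iio N) (Set.Iio n0)
      rw [Set.ncard_Iio_nat] at h6
      exact_mod_cast h5.trans h6
    have h7 : (N1 : ℝ) ≤ N := by exact_mod_cast h2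
    rw [div_lt_iff₀ hδ] at hN1
    nlinarith
  choose! a ha using fun (n : ℕ) (hn : n ∈ Sal A h B α) => hn
  have hinj : ∀ n ∈ S', ∀ m ∈ S', n < m → a n < a m := by
    rintro n ⟨hn1, hn2⟩ m ⟨hm1, hm2⟩ hnm
    have h1 := abs_le.1 (ha n hn1).2
    have h2 := abs_le.1 (ha m hm1).2
    have h3 : ((n ^ h + n : ℕ) : ℝ) ≤ ((m ^ h : ℕ) : ℝ) := by
      exact_mod_cast pow_gap (by omega) hnm
    push_cast at h3
    have h4 : (n0 : ℝ) ≤ n := by exact_mod_cast hn2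
    have h5 : α * ((n : ℝ) ^ h + n) ≤ α * (m : ℝ) ^ h := mul_le_mul_of_nonneg_left h3 hα.le
    have h6 : α * n0 ≤ α * n := mul_le_mul_of_nonneg_left h4 hα.le
    have h7 : (a n : ℝ) < a m := by
      rw [mul_add] at h5
      linarith [h1.1, h1.2, h2.1, h2.2]
    exact_mod_cast h7
  have hinj' : ∀ n ∈ S', ∀ m ∈ S', a n = a m → n = m := by
    intro n hn m hm hnm
    rcases lt_trichotomy n m with h1 | h1 | h1
    · exact absurd hnm (hinj n hn m hm h1).ne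
    · exact h1
    · exact absurd hnm.symm (hinj m hm n hn h1).ne
  apply powers_core hh S' (half_pos hδ) hfreq ((h ^ h * K0) * (2 * (h * B) + 1))
  intro n T hT
  set U := T.image (fun (φ : Fin h → ℕ) (i : Fin h) => a (φ i)) with hU
  have hUT : U.card = T.card := by
    rw [hU]
    apply Finset.card_image_of_injOn
    intro φ hφ φ' hφ' heq
    funext i
    exact hinj' _ ((hT φ hφ).1 i) _ ((hT φ' hφ').1 i) (congrFun heq i)
  rw [← hUT]
  set W := U.image (fun ψ : Fin h → ℕ => ∑ i, ψ i) with hW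
  have hWc : W.card ≤ 2 * (h * B) + 1 := by
    apply card_near W (α * n)
    intro s hs
    obtain ⟨ψ, hψ, rfl⟩ := Finset.mem_image.1 hs
    obtain ⟨φ, hφ, rfl⟩ := Finset.mem_image.1 hψ
    obtain ⟨h1, h2⟩ := hT φ hφ
    rw [← h2]
    unfold sg
    push_cast
    rw [Finset.mul_sum, ← Finset.sum_sub_distrib]
    calc |∑ i, ((a (φ i) : ℝ) - α * (φ i : ℝ) ^ h)| ≤ ∑ i, |(a (φ i) : ℝ) - α * (φ i : ℝ) ^ h| :=
          Finset.abs_sum_le_sum_abs _ _
      _ ≤ ∑ _i : Fin h, (B : ℝ) := Finset.sum_le_sum fun i _ => (ha _ (h1 i).1).2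
      _ = h * B := by simp
  have hUc : U.card ≤ (h ^ h * K0) * W.card := by
    apply Finset.card_le_mul_card_image_of_maps_to (f := fun ψ : Fin h → ℕ => ∑ i, ψ i)
      (fun ψ hψ => Finset.mem_image_of_mem _ hψ)
    intro s _
    apply ordered_le A h s K0 (hK0 s)
    intro ψ hψ
    obtain ⟨h1, h2⟩ := Finset.mem_filter.1 hψ
    obtain ⟨φ, hφ, rfl⟩ := Finset.mem_image.1 h1
    exact ⟨fun i => (ha _ ((hT φ hφ).1 i).1).1, h2⟩
  exact hUc.trans (Nat.mul_le_mul_left _ hWc)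

/-- the general case -/
theorem near_powers {h : ℕ} (hh : 3 ≤ h) (F : Finset ℝ) (hF : ∀ α ∈ F, 0 < α) (A : Set ℕ) (B : ℕ)
    {c : ℝ} (hc : 0 < c)
    (hfreq : ∃ᶠ x : ℕ in atTop, c * (x : ℝ) ^ ((1 : ℝ) / h) ≤
      ({a : ℕ | a ∈ A ∧ a ≤ x ∧ ∃ α ∈ F, ∃ n : ℕ, |(a : ℝ) - α * (n : ℝ) ^ h| ≤ B}.ncard : ℝ))
    (K0 : ℕ) (hK0 : ∀ n, rr A h n ≤ K0) : False := by
  classical
  have hhr : (0 : ℝ) < (h : ℝ) := by exact_mod_cast (by omega : 0 < h)
  -- the constant C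
  set C : ℝ := ∑ α ∈ F, (1 + (B : ℝ)) / α + 1 with hC
  have hsum0 : 0 ≤ ∑ α ∈ F, (1 + (B : ℝ)) / α := Finset.sum_nonneg fun α hα => by
    have := hF α hα
    positivity
  have hC1 : 1 ≤ C := by linarith
  have hCα : ∀ α ∈ F, (1 + (B : ℝ)) / α ≤ C ^ h := by
    intro α hα
    have h1 : (1 + (B : ℝ)) / α ≤ C := by
      have := Finset.single_le_sum (f := fun α => (1 + (B : ℝ)) / α) (fun β hβ => by
        have := hF β hβ
        positivity) hα
      linarith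
    exact h1.trans (le_self_pow₀ hC1 (by omega))
  set Nx : ℕ → ℕ := fun x => ⌊C * (x : ℝ) ^ ((1 : ℝ) / h)⌋₊ + 1 with hNx
  have hxtend : Tendsto (fun x : ℕ => (x : ℝ) ^ ((1 : ℝ) / h)) atTop atTop :=
    (tendsto_rpow_atTop (by positivity)).comp tendsto_natCast_atTop_atTop
  have hNtend : Tendsto Nx atTop atTop := by
    have h1 : Tendsto (fun x : ℕ => ⌊C * (x : ℝ) ^ ((1 : ℝ) / h)⌋₊) atTop atTop :=
      tendsto_nat_floor_atTop.comp (hxtend.const_mul_atTop (by linarith))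
    exact tendsto_atTop_mono (fun x => Nat.le_succ _) h1
  -- counting
  have hcount : ∀ x : ℕ, 1 ≤ x →
      ({a : ℕ | a ∈ A ∧ a ≤ x ∧ ∃ α ∈ F, ∃ n : ℕ, |(a : ℝ) - α * (n : ℝ) ^ h| ≤ B}.ncard : ℝ) ≤
      (2 * B + 1) * ∑ α ∈ F, ((Sal A h B α ∩ Set.Iio (Nx x)).ncard : ℝ) := by
    intro x hx
    set near : ℝ → ℕ → Finset ℕ := fun α n =>
      (range (x + 1)).filter (fun a => |(a : ℝ) - α * (n : ℝ) ^ h| ≤ B) with hnear
    set SS : ℝ → Finset ℕ := fun α => (range (Nx x)).filter (fun n => n ∈ Sal A h B α) with hSS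
    have hSSc : ∀ α, (Sal A h B α ∩ Set.Iio (Nx x)).ncard = (SS α).card := by
      intro α
      rw [← Set.ncard_coe_finset]
      congr 1
      ext n
      simp only [hSS, Set.mem_inter_iff, Set.mem_Iio, Finset.coe_filter, Finset.mem_range,
        Set.mem_ofPred_eq]
      tauto
    have hsub : {a : ℕ | a ∈ A ∧ a ≤ x ∧ ∃ α ∈ F, ∃ n : ℕ, |(a : ℝ) - α * (n : ℝ) ^ h| ≤ B} ⊆
        ((F.biUnion (fun α => (SS α).biUnion (fun n => near α n)) : Finset ℕ) : Set ℕ) := by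
      rintro a ⟨haA, hax, α, hα, n, hn⟩
      rw [Finset.mem_coe, Finset.mem_biUnion]
      refine ⟨α, hα, ?_⟩
      rw [Finset.mem_biUnion]
      have hα0 := hF α hα
      have hxr : (1 : ℝ) ≤ x := by exact_mod_cast hx
      have haxr : (a : ℝ) ≤ x := by exact_mod_cast hax
      have hnlt : n < Nx x := by
        have h1 : (n : ℝ) ^ h ≤ C ^ h * x := by
          have h2 := (abs_le.1 hn).1
          have h3 : α * (n : ℝ) ^ h ≤ (1 + B) * x := by nlinarith [Nat.cast_nonneg (α := ℝ) B]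
          have h4 := hCα α hα
          rw [div_le_iff₀ hα0] at h4
          have h5 : α * (n : ℝ) ^ h ≤ α * (C ^ h * x) := by
            calc α * (n : ℝ) ^ h ≤ (1 + B) * x := h3
              _ ≤ (C ^ h * α) * x := mul_le_mul_of_nonneg_right h4 (by linarith)
              _ = _ := by ring
          exact le_of_mul_le_mul_left h5 hα0
        have h6 : (n : ℝ) ≤ C * (x : ℝ) ^ ((1 : ℝ) / h) := by
          have h7 : (C * (x : ℝ) ^ ((1 : ℝ) / h)) ^ h = C ^ h * x := by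
            rw [mul_pow, ← Real.rpow_natCast ((x : ℝ) ^ ((1 : ℝ) / h)) h, ← Real.rpow_mul (by linarith),
              one_div, inv_mul_cancel₀ hhr.ne', Real.rpow_one]
          rw [← h7] at h1
          exact le_of_pow_le_pow_left₀ (by omega) (by positivity) h1
        simp only [hNx]
        exact Nat.lt_succ_of_le (Nat.le_floor h6)
      refine ⟨n, ?_, ?_⟩
      · simp only [hSS, Finset.mem_filter, Finset.mem_range]
        exact ⟨hnlt, a, haA, hn⟩
      · simp only [hnear, Finset.mem_filter, Finset.mem_range]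
        exact ⟨Nat.lt_succ_of_le hax, hn⟩
    have h1 := Set.ncard_le_ncard hsub (Finset.finite_toSet _)
    rw [Set.ncard_coe_finset] at h1
    have h2 : (F.biUnion (fun α => (SS α).biUnion (fun n => near α n))).card ≤
        ∑ α ∈ F, (SS α).card * (2 * B + 1) := by
      refine Finset.card_biUnion_le.trans (Finset.sum_le_sum fun α _ => ?_)
      apply Finset.card_biUnion_le_card_mul
      intro n _
      apply card_near _ (α * (n : ℝ) ^ h)
      intro a ha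
      exact (Finset.mem_filter.1 ha).2
    have h3 : (({a : ℕ | a ∈ A ∧ a ≤ x ∧ ∃ α ∈ F, ∃ n : ℕ,
        |(a : ℝ) - α * (n : ℝ) ^ h| ≤ B}.ncard : ℕ) : ℝ) ≤
        ((∑ α ∈ F, (SS α).card * (2 * B + 1) : ℕ) : ℝ) := by exact_mod_cast h1.trans h2
    refine h3.trans (le_of_eq ?_)
    simp_rw [hSSc]
    push_cast
    rw [← Finset.sum_mul]
    ring
  -- pigeonhole
  set m : ℝ := (F.card : ℝ) + 1 with hm
  have hm0 : 0 < m := by positivity
  have hBpos : (0 : ℝ) < 2 * B + 1 := by positivity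
  set δ : ℝ := c / (2 * (2 * B + 1) * m * C) with hδ
  have hC0 : 0 < C := by linarith
  have hδ0 : 0 < δ := by positivity
  by_cases hex : ∃ α ∈ F, ∃ᶠ N : ℕ in atTop, δ * N ≤ ((Sal A h B α ∩ Set.Iio N).ncard : ℝ)
  · obtain ⟨α, hα, hαf⟩ := hex
    exact one_alpha hh A B (hF α hα) hδ0 hαf K0 hK0
  · push Not at hex
    have hev : ∀ᶠ N : ℕ in atTop, ∀ α ∈ F, ((Sal A h B α ∩ Set.Iio N).ncard : ℝ) < δ * N := by
      rw [Filter.eventually_all_finset]
      intro α hα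
      exact hex α hα
    have hev2 := hNtend.eventually hev
    have hev3 : ∀ᶠ x : ℕ in atTop, 1 ≤ C * (x : ℝ) ^ ((1 : ℝ) / h) :=
      (hxtend.const_mul_atTop hC0).eventually (eventually_ge_atTop 1)
    obtain ⟨x, hx1, hx2, hx3, hx4⟩ :=
      (hfreq.and_eventually (hev2.and (hev3.and (eventually_ge_atTop 1)))).exists
    have h1 := hx1.trans (hcount x hx4)
    have h2 : ∑ α ∈ F, ((Sal A h B α ∩ Set.Iio (Nx x)).ncard : ℝ) ≤ m * (δ * Nx x) := by
      calc ∑ α ∈ F, ((Sal A h B α ∩ Set.Iio (Nx x)).ncard : ℝ) ≤ ∑ _α ∈ F, δ * Nx x :=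
            Finset.sum_le_sum fun α hα => (hx2 α hα).le
        _ = F.card * (δ * Nx x) := by rw [Finset.sum_const, nsmul_eq_mul]
        _ ≤ m * (δ * Nx x) := mul_le_mul_of_nonneg_right (by linarith) (by positivity)
    have hfl : (Nx x : ℝ) ≤ 2 * (C * (x : ℝ) ^ ((1 : ℝ) / h)) := by
      simp only [hNx]
      push_cast
      have := Nat.floor_le (a := C * (x : ℝ) ^ ((1 : ℝ) / h)) (by linarith)
      linarith
    have hFne : (F.card : ℝ) < m := by linarith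
    have h3 : (2 * (B : ℝ) + 1) * ∑ α ∈ F, ((Sal A h B α ∩ Set.Iio (Nx x)).ncard : ℝ) <
        c * (x : ℝ) ^ ((1 : ℝ) / h) := by
      have hxp : 0 < (x : ℝ) ^ ((1 : ℝ) / h) := by
        apply Real.rpow_pos_of_pos
        exact_mod_cast hx4
      have hNpos : (0 : ℝ) < Nx x := by exact_mod_cast Nat.succ_pos _
      have h4 : ∑ α ∈ F, ((Sal A h B α ∩ Set.Iio (Nx x)).ncard : ℝ) < m * (δ * Nx x) := by
        calc ∑ α ∈ F, ((Sal A h B α ∩ Set.Iio (Nx x)).ncard : ℝ) ≤ ∑ _α ∈ F, δ * Nx x :=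
            Finset.sum_le_sum fun α hα => (hx2 α hα).le
          _ = F.card * (δ * Nx x) := by rw [Finset.sum_const, nsmul_eq_mul]
          _ < m * (δ * Nx x) := mul_lt_mul_of_pos_right hFne (by positivity)
      calc (2 * (B : ℝ) + 1) * ∑ α ∈ F, ((Sal A h B α ∩ Set.Iio (Nx x)).ncard : ℝ)
          < (2 * (B : ℝ) + 1) * (m * (δ * Nx x)) := mul_lt_mul_of_pos_left h4 hBpos
        _ ≤ (2 * (B : ℝ) + 1) * (m * (δ * (2 * (C * (x : ℝ) ^ ((1 : ℝ) / h))))) := by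
            gcongr
        _ = c * (x : ℝ) ^ ((1 : ℝ) / h) := by rw [hδ]; field_simp
    linarith

end Pool.Agent.K9h24.Pow
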