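import Pool.Agent.TH854.BV.Inf

/-!
Elementary symmetric functions of exponential sums and pairs of sets with a common element.
-/

set_option autoImplicit false

open Finset

namespace Pool.Agent.K9h24.Sing

open Pool.Agent.H396R2 Pool.Agent.TH854.BV

/-- elementary symmetric function of the `z ^ a`, `a ∈ F` -/
noncomputable def E (F : Finset ℕ) (j : ℕ) (z : ℂ) : ℂ := ∑ U ∈ F.powersetCard j, z ^ (∑ a ∈ U, a)

noncomputable def ff (F : Finset ℕ) (z : ℂ) : ℂ := ∑ a ∈ F, z ^ a

noncomputable def p2 (F : Finset ℕ) (z : ℂ) : ℝ := ∑ a ∈ F, ‖z‖ ^ (2 * a)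

lemma E_zero (F : Finset ℕ) (z : ℂ) : E F 0 z = 1 := by
  unfold E; simp

lemma E_succ_mul (F : Finset ℕ) (j : ℕ) (z : ℂ) :
    ((j : ℂ) + 1) * E F (j + 1) z = ∑ u ∈ F, z ^ u * E (F.erase u) j z := by
  classical
  unfold E
  have h1 : ((j : ℂ) + 1) * ∑ U ∈ F.powersetCard (j + 1), z ^ (∑ a ∈ U, a) =
      ∑ U ∈ F.powersetCard (j + 1), ∑ u ∈ U, z ^ (∑ a ∈ U, a) := by
    rw [Finset.mul_sum]
    refine Finset.sum_congr rfl fun U hU => ?_
    rw [Finset.mem_powersetCard] at hU
    rw [Finset.sum_const, hU.2, nsmul_eq_mul]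
    push_cast
    ring
  rw [h1]
  simp_rw [Finset.mul_sum]
  rw [Finset.sum_sigma', Finset.sum_sigma']
  refine Finset.sum_bij' (fun p _ => ⟨p.2, p.1.erase p.2⟩) (fun p _ => ⟨insert p.1 p.2, p.1⟩) ?_ ?_ ?_ ?_ ?_
  · rintro ⟨U, u⟩ h
    simp only [Finset.mem_sigma, Finset.mem_powersetCard] at h ⊢
    obtain ⟨⟨hU, hc⟩, hu⟩ := h
    refine ⟨hU hu, Finset.erase_subset_erase u hU, ?_⟩
    rw [Finset.card_erase_of_mem hu, hc]
    rfl
  · rintro ⟨u, U⟩ h
    simp only [Finset.mem_sigma, Finset.mem_powersetCard] at h ⊢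
    obtain ⟨hu, hU, hc⟩ := h
    have hnu : u ∉ U := fun hcon => Finset.notMem_erase u F (hU hcon)
    refine ⟨⟨?_, ?_⟩, Finset.mem_insert_self _ _⟩
    · exact Finset.insert_subset hu (hU.trans (Finset.erase_subset _ _))
    · rw [Finset.card_insert_of_notMem hnu, hc]
  · rintro ⟨U, u⟩ h
    simp only [Finset.mem_sigma, Finset.mem_powersetCard] at h
    simp only
    rw [Finset.insert_erase h.2]
  · rintro ⟨u, U⟩ h
    simp only [Finset.mem_sigma, Finset.mem_powersetCard] at h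
    obtain ⟨hu, hU, hc⟩ := h
    have hnu : u ∉ U := fun hcon => Finset.notMem_erase u F (hU hcon)
    simp only
    rw [Finset.erase_insert hnu]
  · rintro ⟨U, u⟩ h
    simp only [Finset.mem_sigma, Finset.mem_powersetCard] at h
    simp only
    rw [← pow_add, Finset.add_sum_erase U (fun a => a) h.2]

lemma E_erase (F : Finset ℕ) (j u : ℕ) (hu : u ∈ F) (z : ℂ) :
    E (F.erase u) (j + 1) z = E F (j + 1) z - z ^ u * E (F.erase u) j z := by
  classical
  have hnu : u ∉ F.erase u := Finset.notMem_erase u F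
  have h1 : F.powersetCard (j + 1) = (F.erase u).powersetCard (j + 1) ∪
      ((F.erase u).powersetCard j).image (insert u) := by
    conv_lhs => rw [← Finset.insert_erase hu]
    rw [Finset.powersetCard_succ_insert hnu]
  unfold E
  rw [h1, Finset.sum_union, Finset.sum_image]
  · have h2 : ∑ x ∈ (F.erase u).powersetCard j, z ^ (∑ a ∈ insert u x, a) =
        z ^ u * ∑ U ∈ (F.erase u).powersetCard j, z ^ (∑ a ∈ U, a) := by
      rw [Finset.mul_sum]
      refine Finset.sum_congr rfl fun U hU => ?_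
      rw [Finset.mem_powersetCard] at hU
      rw [Finset.sum_insert (fun h => hnu (hU.1 h)), pow_add]
    rw [h2]
    ring
  · intro U hU V hV hUV
    rw [Finset.mem_coe, Finset.mem_powersetCard] at hU hV
    have h3 : (insert u U).erase u = (insert u V).erase u := by
      rw [hUV]
    rwa [Finset.erase_insert (fun h => hnu (hU.1 h)), Finset.erase_insert (fun h => hnu (hV.1 h))] at h3
  · rw [Finset.disjoint_left]
    intro U hU hU'
    rw [Finset.mem_powersetCard] at hU
    rw [Finset.mem_image] at hU'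
    obtain ⟨V, _, rfl⟩ := hU'
    exact hnu (hU.1 (Finset.mem_insert_self _ _))

lemma ff_erase_norm (F : Finset ℕ) (u : ℕ) (hu : u ∈ F) (z : ℂ) (hz : ‖z‖ ≤ 1) :
    ‖ff (F.erase u) z‖ ≤ ‖ff F z‖ + 1 := by
  have h1 : ff F z = z ^ u + ff (F.erase u) z := by
    unfold ff
    rw [Finset.add_sum_erase F (fun a => z ^ a) hu]
  have h2 : ff (F.erase u) z = ff F z - z ^ u := by rw [h1]; ring
  rw [h2]
  refine (norm_sub_le _ _).trans ?_
  rw [norm_pow]
  have := pow_le_one₀ (norm_nonneg z) hz (n := u)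
  linarith

lemma p2_erase (F : Finset ℕ) (u : ℕ) (z : ℂ) : p2 (F.erase u) z ≤ p2 F z := by
  unfold p2
  exact Finset.sum_le_sum_of_subset_of_nonneg (Finset.erase_subset _ _)
    (fun _ _ _ => by positivity)

/-- bound for the elementary symmetric functions -/
lemma E_bound (z : ℂ) (hz : ‖z‖ ≤ 1) (β : ℝ) (hβ : 1 ≤ β) (k : ℕ) :
    ∀ F : Finset ℕ, ‖ff F z‖ + k ≤ β → p2 F z ≤ β ^ 2 → ‖E F k z‖ ≤ β ^ k := by
  induction k using Nat.strong_induction_on with
  | _ k ih =>
    intro F h1 h2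
    match k, ih, h1 with
    | 0, _, _ => rw [E_zero]; simp
    | 1, _, h1 =>
      have h3 := E_succ_mul F 0 z
      simp only [Nat.cast_zero, zero_add, one_mul, E_zero, mul_one] at h3
      rw [h3, pow_one]
      have : ‖ff F z‖ ≤ β := by
        push_cast at h1
        linarith
      exact this
    | (j + 2), ih, h1 =>
      have h3 := E_succ_mul F (j + 1) z
      have h4 : ∑ u ∈ F, z ^ u * E (F.erase u) (j + 1) z =
          ff F z * E F (j + 1) z - ∑ u ∈ F, z ^ (2 * u) * E (F.erase u) j z := by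
        unfold ff
        rw [Finset.sum_mul, ← Finset.sum_sub_distrib]
        refine Finset.sum_congr rfl fun u hu => ?_
        rw [E_erase F j u hu z, two_mul, pow_add]
        ring
      rw [h4] at h3
      push_cast at h1
      have a1 : ‖E F (j + 1) z‖ ≤ β ^ (j + 1) := ih (j + 1) (by omega) F (by push_cast; linarith) h2
      have a2 : ∀ u ∈ F, ‖E (F.erase u) j z‖ ≤ β ^ j := by
        intro u hu
        apply ih j (by omega) _ _ ((p2_erase F u z).trans h2)
        have := ff_erase_norm F u hu z hz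
        linarith
      have a3 : ‖ff F z‖ ≤ β := by
        have : (0 : ℝ) ≤ j := Nat.cast_nonneg _
        linarith
      have hβ0 : 0 ≤ β := by linarith
      have a4 : ‖∑ u ∈ F, z ^ (2 * u) * E (F.erase u) j z‖ ≤ β ^ (j + 2) := by
        calc ‖∑ u ∈ F, z ^ (2 * u) * E (F.erase u) j z‖
            ≤ ∑ u ∈ F, ‖z‖ ^ (2 * u) * β ^ j := by
              refine (norm_sum_le _ _).trans (Finset.sum_le_sum fun u hu => ?_)
              rw [norm_mul, norm_pow]
              exact mul_le_mul_of_nonneg_left (a2 u hu) (by positivity)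
          _ = p2 F z * β ^ j := by unfold p2; rw [Finset.sum_mul]
          _ ≤ β ^ 2 * β ^ j := mul_le_mul_of_nonneg_right h2 (by positivity)
          _ = β ^ (j + 2) := by ring
      have a5 : ‖ff F z * E F (j + 1) z‖ ≤ β ^ (j + 2) := by
        rw [norm_mul]
        calc ‖ff F z‖ * ‖E F (j + 1) z‖ ≤ β * β ^ (j + 1) := mul_le_mul a3 a1 (norm_nonneg _) hβ0
          _ = β ^ (j + 2) := by ring
      have a6 : ‖(((j + 1 : ℕ) : ℂ) + 1) * E F (j + 1 + 1) z‖ ≤ 2 * β ^ (j + 2) := by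
        rw [h3]
        refine (norm_sub_le _ _).trans ?_
        linarith
      rw [norm_mul] at a6
      have a7 : ‖(((j + 1 : ℕ) : ℂ) + 1)‖ = (j : ℝ) + 2 := by
        have : (((j + 1 : ℕ) : ℂ) + 1) = ((j + 2 : ℕ) : ℂ) := by push_cast; ring
        rw [this, Complex.norm_natCast]
        push_cast
        ring
      rw [a7] at a6
      have a8 : 0 ≤ ‖E F (j + 1 + 1) z‖ := norm_nonneg _
      have a9 : (0 : ℝ) ≤ j := Nat.cast_nonneg _
      have a10 : 2 * ‖E F (j + 1 + 1) z‖ ≤ 2 * β ^ (j + 2) := by nlinarith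
      have a11 : ‖E F (j + 2) z‖ = ‖E F (j + 1 + 1) z‖ := rfl
      rw [a11]
      linarith

lemma ff_sdiff_norm (z : ℂ) (hz : ‖z‖ ≤ 1) (F W : Finset ℕ) (hW : W ⊆ F) :
    ‖ff (F \ W) z‖ ≤ ‖ff F z‖ + W.card := by
  have h1 : ff F z = ff (F \ W) z + ff W z := by
    unfold ff
    rw [Finset.sum_sdiff hW]
  have h2 : ff (F \ W) z = ff F z - ff W z := by rw [h1]; ring
  rw [h2]
  refine (norm_sub_le _ _).trans ?_
  have h3 : ‖ff W z‖ ≤ W.card := by
    unfold ff
    refine (norm_sum_le _ _).trans ?_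
    calc ∑ a ∈ W, ‖z ^ a‖ ≤ ∑ a ∈ W, (1 : ℝ) := by
          apply Finset.sum_le_sum
          intro a _
          rw [norm_pow]
          exact pow_le_one₀ (norm_nonneg z) hz
      _ = W.card := by simp
  linarith

/-- subsets containing a given set -/
lemma sum_superset (F W : Finset ℕ) (hW : W ⊆ F) (k : ℕ) (z : ℂ) :
    ∑ U ∈ F.powersetCard k, (if W ⊆ U then z ^ (∑ a ∈ U, a) else 0) =
      if W.card ≤ k then z ^ (∑ a ∈ W, a) * E (F \ W) (k - W.card) z else 0 := by
  classical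
  split_ifs with h
  · unfold E
    rw [Finset.mul_sum, ← Finset.sum_filter]
    refine Finset.sum_bij' (fun U _ => U \ W) (fun U _ => U ∪ W) ?_ ?_ ?_ ?_ ?_
    · intro U hU
      rw [Finset.mem_filter, Finset.mem_powersetCard] at hU
      rw [Finset.mem_powersetCard]
      refine ⟨Finset.sdiff_subset_sdiff hU.1.1 le_rfl, ?_⟩
      rw [Finset.card_sdiff_of_subset hU.2, hU.1.2]
    · intro U hU
      rw [Finset.mem_powersetCard] at hU
      have hd : Disjoint U W := by
        rw [Finset.disjoint_left]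
        intro a ha
        exact (Finset.mem_sdiff.1 (hU.1 ha)).2
      rw [Finset.mem_filter, Finset.mem_powersetCard]
      refine ⟨⟨Finset.union_subset (hU.1.trans Finset.sdiff_subset) hW, ?_⟩,
        Finset.subset_union_right⟩
      rw [Finset.card_union_of_disjoint hd, hU.2]
      omega
    · intro U hU
      rw [Finset.mem_filter] at hU
      exact Finset.sdiff_union_of_subset hU.2
    · intro U hU
      rw [Finset.mem_powersetCard] at hU
      have hd : Disjoint U W := by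
        rw [Finset.disjoint_left]
        intro a ha
        exact (Finset.mem_sdiff.1 (hU.1 ha)).2
      exact Finset.union_sdiff_cancel_right hd
    · intro U hU
      rw [Finset.mem_filter] at hU
      rw [← pow_add, add_comm, Finset.sum_sdiff hU.2]
  · apply Finset.sum_eq_zero
    intro U hU
    rw [Finset.mem_powersetCard] at hU
    rw [if_neg]
    intro hWU
    have := Finset.card_le_card hWU
    omega

/-- the part of the pairs with a common element -/
noncomputable def Tf (F : Finset ℕ) (k m : ℕ) (z : ℂ) : ℂ :=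
  ∑ ω ∈ (PW F k m).filter (fun ω => ¬ Disjoint ω.1 ω.2),
    z ^ (∑ a ∈ ω.1, a) * (starRingEnd ℂ z) ^ (∑ a ∈ ω.2, a)

/-- inclusion and exclusion -/
lemma Tf_eq (F : Finset ℕ) (k m : ℕ) (z : ℂ) :
    Tf F k m z = ∑ W ∈ F.powerset.filter (fun W => W ≠ ∅), (-(-1) ^ W.card) *
      ((∑ U ∈ F.powersetCard k, (if W ⊆ U then z ^ (∑ a ∈ U, a) else 0)) *
       ∑ V ∈ F.powersetCard m, (if W ⊆ V then (starRingEnd ℂ z) ^ (∑ a ∈ V, a) else 0)) := by
  classical
  have h1 : ∀ W : Finset ℕ, (∑ U ∈ F.powersetCard k, (if W ⊆ U then z ^ (∑ a ∈ U, a) else 0)) *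
       ∑ V ∈ F.powersetCard m, (if W ⊆ V then (starRingEnd ℂ z) ^ (∑ a ∈ V, a) else 0) =
       ∑ ω ∈ PW F k m, (if W ⊆ ω.1 ∩ ω.2 then
         z ^ (∑ a ∈ ω.1, a) * (starRingEnd ℂ z) ^ (∑ a ∈ ω.2, a) else 0) := by
    intro W
    unfold PW
    rw [Finset.sum_mul_sum, Finset.sum_product]
    refine Finset.sum_congr rfl fun U _ => Finset.sum_congr rfl fun V _ => ?_
    by_cases hU : W ⊆ U
    · by_cases hV : W ⊆ V
      · rw [if_pos hU, if_pos hV, if_pos (Finset.subset_inter hU hV)]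
      · rw [if_neg hV, mul_zero, if_neg]
        intro h
        exact hV (h.trans Finset.inter_subset_right)
    · rw [if_neg hU, zero_mul, if_neg]
      intro h
      exact hU (h.trans Finset.inter_subset_left)
  simp_rw [h1, Finset.mul_sum]
  rw [Finset.sum_comm]
  unfold Tf
  rw [Finset.sum_filter]
  refine Finset.sum_congr rfl fun ω hω => ?_
  rw [mem_PW] at hω
  have h2 : ∑ W ∈ F.powerset.filter (fun W => W ≠ ∅), (-(-1 : ℂ) ^ W.card) *
      (if W ⊆ ω.1 ∩ ω.2 then z ^ (∑ a ∈ ω.1, a) * (starRingEnd ℂ z) ^ (∑ a ∈ ω.2, a) else 0) =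
      (-∑ W ∈ (ω.1 ∩ ω.2).powerset.filter (fun W => W ≠ ∅), (-1 : ℂ) ^ W.card) *
      (z ^ (∑ a ∈ ω.1, a) * (starRingEnd ℂ z) ^ (∑ a ∈ ω.2, a)) := by
    rw [← Finset.sum_neg_distrib, Finset.sum_mul]
    have h3 : (ω.1 ∩ ω.2).powerset.filter (fun W => W ≠ ∅) =
        (F.powerset.filter (fun W => W ≠ ∅)).filter (fun W => W ⊆ ω.1 ∩ ω.2) := by
      ext W
      simp only [Finset.mem_filter, Finset.mem_powerset]
      constructor
      · rintro ⟨a, b⟩
        exact ⟨⟨(a.trans Finset.inter_subset_left).trans hω.1.1, b⟩, a⟩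
      · rintro ⟨⟨_, b⟩, c⟩
        exact ⟨c, b⟩
    rw [h3, Finset.sum_filter (p := fun W => W ⊆ ω.1 ∩ ω.2)]
    refine Finset.sum_congr rfl fun W _ => ?_
    split_ifs
    · ring
    · ring
  rw [h2]
  have h4 : ∑ W ∈ (ω.1 ∩ ω.2).powerset, (-1 : ℂ) ^ W.card =
      if ω.1 ∩ ω.2 = ∅ then 1 else 0 := by
    have := Finset.sum_powerset_neg_one_pow_card (x := ω.1 ∩ ω.2)
    have h5 : ((∑ W ∈ (ω.1 ∩ ω.2).powerset, (-1 : ℤ) ^ W.card : ℤ) : ℂ) =
        ∑ W ∈ (ω.1 ∩ ω.2).powerset, (-1 : ℂ) ^ W.card := by push_cast; rfl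
    rw [← h5, this]
    split_ifs <;> simp
  have h5 : ∑ W ∈ (ω.1 ∩ ω.2).powerset, (-1 : ℂ) ^ W.card =
      1 + ∑ W ∈ (ω.1 ∩ ω.2).powerset.filter (fun W => W ≠ ∅), (-1 : ℂ) ^ W.card := by
    rw [← Finset.sum_filter_add_sum_filter_not _ (fun W => W = ∅)]
    congr 1
    have h6 : (ω.1 ∩ ω.2).powerset.filter (fun W => W = ∅) = {∅} := by
      ext W
      simp only [Finset.mem_filter, Finset.mem_powerset, Finset.mem_singleton]
      constructor
      · exact fun h => h.2
      · rintro rfl; exact ⟨Finset.empty_subset _, rfl⟩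
    rw [h6]
    simp
  have h6 : -∑ W ∈ (ω.1 ∩ ω.2).powerset.filter (fun W => W ≠ ∅), (-1 : ℂ) ^ W.card =
      if Disjoint ω.1 ω.2 then 0 else 1 := by
    have h7 : ∑ W ∈ (ω.1 ∩ ω.2).powerset.filter (fun W => W ≠ ∅), (-1 : ℂ) ^ W.card =
        (if ω.1 ∩ ω.2 = ∅ then 1 else 0) - 1 := by rw [← h4, h5]; ring
    rw [h7]
    by_cases hd : Disjoint ω.1 ω.2
    · rw [if_pos hd, if_pos (Finset.disjoint_iff_inter_eq_empty.1 hd)]; ring
    · rw [if_neg hd, if_neg (fun h => hd (Finset.disjoint_iff_inter_eq_empty.2 h))]; ring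
  rw [h6]
  by_cases hd : Disjoint ω.1 ω.2
  · rw [if_pos hd, if_neg (not_not.2 hd), zero_mul]
  · rw [if_neg hd, if_pos hd, one_mul]

lemma p2_eq (F : Finset ℕ) (z : ℂ) : p2 F z = pp F ‖z‖ := rfl

/-- bound for the part of the pairs with a common element -/
lemma Tf_bound (F : Finset ℕ) (k m : ℕ) (hmk : m ≤ k) (hm : 1 ≤ m) (z : ℂ) (hz : ‖z‖ ≤ 1) (β : ℝ)
    (hβ : 1 ≤ β) (h1 : ‖ff F z‖ + (k + m) ≤ β) (h2 : p2 F z ≤ β ^ 2) :
    ‖Tf F k m z‖ ≤ m * (p2 F z * β ^ (k + m - 2)) := by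
  classical
  have hz' : ‖(starRingEnd ℂ) z‖ = ‖z‖ := RCLike.norm_conj z
  have hff : ∀ G : Finset ℕ, ‖ff G ((starRingEnd ℂ) z)‖ = ‖ff G z‖ := by
    intro G
    have : ff G ((starRingEnd ℂ) z) = (starRingEnd ℂ) (ff G z) := by
      unfold ff
      rw [map_sum]
      refine Finset.sum_congr rfl fun a _ => ?_
      rw [map_pow]
    rw [this, RCLike.norm_conj]
  have hβ0 : 0 ≤ β := by linarith
  rw [Tf_eq]
  have hterm : ∀ W ∈ F.powerset.filter (fun W => W ≠ ∅), ‖(-(-1 : ℂ) ^ W.card) *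
      ((∑ U ∈ F.powersetCard k, (if W ⊆ U then z ^ (∑ a ∈ U, a) else 0)) *
       ∑ V ∈ F.powersetCard m, (if W ⊆ V then (starRingEnd ℂ z) ^ (∑ a ∈ V, a) else 0))‖ ≤
      if W.card ≤ m then ‖z‖ ^ (2 * ∑ a ∈ W, a) * β ^ (k + m - 2 * W.card) else 0 := by
    intro W hW
    rw [Finset.mem_filter, Finset.mem_powerset] at hW
    rw [sum_superset F W hW.1 k z, sum_superset F W hW.1 m ((starRingEnd ℂ) z)]
    by_cases hc : W.card ≤ m
    · rw [if_pos hc, if_pos (hc.trans hmk), if_pos hc]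
      rw [norm_mul, norm_mul, norm_mul, norm_mul, norm_neg, norm_pow, norm_pow, norm_pow, norm_neg,
        norm_one, one_pow, one_mul, hz']
      have b1 : ‖E (F \ W) (k - W.card) z‖ ≤ β ^ (k - W.card) := by
        apply E_bound z hz β hβ
        · have := ff_sdiff_norm z hz F W hW.1
          have e : ((k - W.card : ℕ) : ℝ) = (k : ℝ) - W.card := by
            rw [Nat.cast_sub (hc.trans hmk)]
          have hm0 : (0 : ℝ) ≤ m := Nat.cast_nonneg _
          rw [e]; linarith
        · refine le_trans ?_ h2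
          unfold p2
          exact Finset.sum_le_sum_of_subset_of_nonneg Finset.sdiff_subset
            (fun _ _ _ => by positivity)
      have b2 : ‖E (F \ W) (m - W.card) ((starRingEnd ℂ) z)‖ ≤ β ^ (m - W.card) := by
        apply E_bound _ (by rw [hz']; exact hz) β hβ
        · rw [hff]
          have := ff_sdiff_norm z hz F W hW.1
          have e : ((m - W.card : ℕ) : ℝ) = (m : ℝ) - W.card := by
            rw [Nat.cast_sub hc]
          have hm0 : (0 : ℝ) ≤ k := Nat.cast_nonneg _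
          rw [e]; linarith
        · refine le_trans ?_ h2
          unfold p2
          rw [hz']
          exact Finset.sum_le_sum_of_subset_of_nonneg Finset.sdiff_subset
            (fun _ _ _ => by positivity)
      calc ‖z‖ ^ (∑ a ∈ W, a) * ‖E (F \ W) (k - W.card) z‖ *
            (‖z‖ ^ (∑ a ∈ W, a) * ‖E (F \ W) (m - W.card) ((starRingEnd ℂ) z)‖)
          = ‖z‖ ^ (2 * ∑ a ∈ W, a) * (‖E (F \ W) (k - W.card) z‖ *
            ‖E (F \ W) (m - W.card) ((starRingEnd ℂ) z)‖) := by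
              rw [two_mul, pow_add]; ring
        _ ≤ ‖z‖ ^ (2 * ∑ a ∈ W, a) * (β ^ (k - W.card) * β ^ (m - W.card)) := by
              apply mul_le_mul_of_nonneg_left _ (by positivity)
              exact mul_le_mul b1 b2 (norm_nonneg _) (by positivity)
        _ = ‖z‖ ^ (2 * ∑ a ∈ W, a) * β ^ (k + m - 2 * W.card) := by
              rw [← pow_add]
              congr 2
              omega
    · rw [if_neg hc, if_neg hc, mul_zero, mul_zero, norm_zero]
  refine (norm_sum_le _ _).trans ((Finset.sum_le_sum hterm).trans ?_)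
  rw [← Finset.sum_filter]
  rw [← Finset.sum_fiberwise_of_maps_to (g := fun W : Finset ℕ => W.card) (t := Icc 1 m)]
  · have hj : ∀ j ∈ Icc 1 m, ∑ W ∈ ((F.powerset.filter (fun W => W ≠ ∅)).filter
        (fun W => W.card ≤ m)).filter (fun W => W.card = j),
        ‖z‖ ^ (2 * ∑ a ∈ W, a) * β ^ (k + m - 2 * W.card) ≤ p2 F z * β ^ (k + m - 2) := by
      intro j hj
      rw [Finset.mem_Icc] at hj
      have e1 : ∑ W ∈ ((F.powerset.filter (fun W => W ≠ ∅)).filter
          (fun W => W.card ≤ m)).filter (fun W => W.card = j),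
          ‖z‖ ^ (2 * ∑ a ∈ W, a) * β ^ (k + m - 2 * W.card) ≤
          ∑ W ∈ F.powersetCard j, ‖z‖ ^ (2 * ∑ a ∈ W, a) * β ^ (k + m - 2 * j) := by
        rw [Finset.sum_congr rfl (g := fun W => ‖z‖ ^ (2 * ∑ a ∈ W, a) * β ^ (k + m - 2 * j))]
        · apply Finset.sum_le_sum_of_subset_of_nonneg
          · intro W hW
            simp only [Finset.mem_filter, Finset.mem_powerset] at hW
            rw [Finset.mem_powersetCard]
            exact ⟨hW.1.1.1, hW.2⟩
          · intro W _ _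
            positivity
        · intro W hW
          rw [Finset.mem_filter] at hW
          rw [hW.2]
      refine e1.trans ?_
      rw [← Finset.sum_mul]
      have e2 : ∑ W ∈ F.powersetCard j, ‖z‖ ^ (2 * ∑ a ∈ W, a) = ee F ‖z‖ j := rfl
      rw [e2]
      have e3 := ee_le_pow F ‖z‖ (norm_nonneg z) j
      rw [← p2_eq] at e3
      have hp0 : 0 ≤ p2 F z := by rw [p2_eq]; exact pp_nonneg F _
      calc ee F ‖z‖ j * β ^ (k + m - 2 * j) ≤ (p2 F z) ^ j * β ^ (k + m - 2 * j) :=
            mul_le_mul_of_nonneg_right e3 (by positivity)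
        _ = p2 F z * ((p2 F z) ^ (j - 1) * β ^ (k + m - 2 * j)) := by
            rw [← mul_assoc, ← pow_succ', Nat.sub_add_cancel hj.1]
        _ ≤ p2 F z * ((β ^ 2) ^ (j - 1) * β ^ (k + m - 2 * j)) := by
            apply mul_le_mul_of_nonneg_left _ hp0
            apply mul_le_mul_of_nonneg_right _ (by positivity)
            exact pow_le_pow_left₀ hp0 h2 _
        _ = p2 F z * β ^ (k + m - 2) := by
            rw [← pow_mul, ← pow_add]
            congr 2
            omega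
    refine (Finset.sum_le_sum hj).trans ?_
    rw [Finset.sum_const, Nat.card_Icc, nsmul_eq_mul, Nat.add_sub_cancel]
  · intro W hW
    simp only [Finset.mem_filter, Finset.mem_powerset] at hW
    rw [Finset.mem_Icc]
    exact ⟨Finset.card_pos.2 (Finset.nonempty_iff_ne_empty.2 hW.1.2), hW.2⟩

/-- bound for the product -/
lemma S_bound (F : Finset ℕ) (k m : ℕ) (z : ℂ) (hz : ‖z‖ ≤ 1) (β : ℝ)
    (hβ : 1 ≤ β) (h1 : ‖ff F z‖ + (k + m) ≤ β) (h2 : p2 F z ≤ β ^ 2) :
    ‖E F k z * E F m z‖ ≤ β ^ (k + m) := by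
  have hk0 : (0 : ℝ) ≤ k := Nat.cast_nonneg _
  have hm0 : (0 : ℝ) ≤ m := Nat.cast_nonneg _
  have b1 := E_bound z hz β hβ k F (by linarith) h2
  have b2 := E_bound z hz β hβ m F (by linarith) h2
  rw [norm_mul, pow_add]
  exact mul_le_mul b1 b2 (norm_nonneg _) (by positivity)

end Pool.Agent.K9h24.Sing
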