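import Pool.Agent.K9h24.Sing1

/-!
Orthogonality for finite exponential sums with integer frequencies.
-/

set_option autoImplicit false

open Finset MeasureTheory

namespace Pool.Agent.K9h24.Sing

open Pool.Agent.H396R2 Pool.Agent.TH854.BV

/-- `e(nθ)` -/
noncomputable def ex (n : ℤ) (θ : ℝ) : ℂ := Complex.exp ((n : ℂ) * (θ * Complex.I))

lemma ex_cont (n : ℤ) : Continuous (ex n) := by
  unfold ex
  fun_prop

lemma ex_conj (n : ℤ) (θ : ℝ) : (starRingEnd ℂ) (ex n θ) = ex (-n) θ := by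
  unfold ex
  rw [← Complex.exp_conj]
  congr 1
  simp

lemma ex_add (m n : ℤ) (θ : ℝ) : ex (m + n) θ = ex m θ * ex n θ := by
  unfold ex
  rw [← Complex.exp_add]
  congr 1
  push_cast
  ring

lemma int_ex (n : ℤ) : ∫ θ in Set.Ioc 0 (2 * Real.pi), ex n θ = if n = 0 then (2 * Real.pi : ℂ) else 0 := by
  rw [← intervalIntegral.integral_of_le Real.two_pi_pos.le]
  split_ifs with h
  · subst h
    unfold ex
    simp
  · have h1 : ∀ θ : ℝ, ex n θ = Complex.exp (((n : ℂ) * Complex.I) * θ) := by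
      intro θ
      unfold ex
      congr 1
      ring
    simp_rw [h1]
    have hc : (n : ℂ) * Complex.I ≠ 0 := by
      apply mul_ne_zero _ Complex.I_ne_zero
      exact_mod_cast h
    rw [integral_exp_mul_complex hc]
    have h2 : Complex.exp ((n : ℂ) * Complex.I * ((2 * Real.pi : ℝ) : ℂ)) = 1 := by
      rw [Complex.exp_eq_one_iff]
      exact ⟨n, by push_cast; ring⟩
    rw [h2]
    simp

section

variable {Ω Ω' : Type*}

/-- exponential sums -/
noncomputable def Gs (P : Finset Ω) (w : Ω → ℝ) (ν : Ω → ℤ) (θ : ℝ) : ℂ :=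
  ∑ ω ∈ P, (w ω : ℂ) * ex (ν ω) θ

lemma Gs_cont (P : Finset Ω) (w : Ω → ℝ) (ν : Ω → ℤ) : Continuous (Gs P w ν) := by
  unfold Gs
  exact continuous_finsetSum _ fun ω _ => continuous_const.mul (ex_cont _)

lemma inner_eq (P : Finset Ω) (Q : Finset Ω') (w : Ω → ℝ) (v : Ω' → ℝ) (ν : Ω → ℤ) (μ : Ω' → ℤ) :
    ∫ θ in Set.Ioc 0 (2 * Real.pi), Gs P w ν θ * (starRingEnd ℂ) (Gs Q v μ θ) =
      ((2 * Real.pi * ∑ ω ∈ P, ∑ ω' ∈ Q, (if ν ω = μ ω' then w ω * v ω' else 0) : ℝ) : ℂ) := by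
  have h1 : ∀ θ, Gs P w ν θ * (starRingEnd ℂ) (Gs Q v μ θ) =
      ∑ ω ∈ P, ∑ ω' ∈ Q, ((w ω * v ω' : ℝ) : ℂ) * ex (ν ω - μ ω') θ := by
    intro θ
    unfold Gs
    rw [map_sum, Finset.sum_mul_sum]
    refine Finset.sum_congr rfl fun ω _ => Finset.sum_congr rfl fun ω' _ => ?_
    rw [map_mul, ex_conj, Complex.conj_ofReal, sub_eq_add_neg, ex_add]
    push_cast
    ring
  simp_rw [h1]
  have hint : ∀ f : ℝ → ℂ, Continuous f → Integrable f (volume.restrict (Set.Ioc 0 (2 * Real.pi))) := by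
    intro f hf
    exact (hf.integrableOn_Icc (a := 0) (b := 2 * Real.pi)).mono_set Set.Ioc_subset_Icc_self
  rw [integral_finsetSum]
  · rw [Finset.mul_sum]
    push_cast
    refine Finset.sum_congr rfl fun ω _ => ?_
    rw [integral_finsetSum]
    · rw [Finset.mul_sum]
      refine Finset.sum_congr rfl fun ω' _ => ?_
      rw [integral_const_mul, int_ex]
      by_cases h : ν ω = μ ω'
      · rw [if_pos (sub_eq_zero.2 h), if_pos h]
        push_cast
        ring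
      · rw [if_neg (sub_ne_zero.2 h), if_neg h]
        simp
    · intro ω' _
      exact hint _ (continuous_const.mul (ex_cont _))
  · intro ω _
    exact hint _ (continuous_finsetSum _ fun ω' _ => continuous_const.mul (ex_cont _))

lemma inner_re (P : Finset Ω) (Q : Finset Ω') (w : Ω → ℝ) (v : Ω' → ℝ) (ν : Ω → ℤ) (μ : Ω' → ℤ) :
    ∫ θ in Set.Ioc 0 (2 * Real.pi), (Gs P w ν θ * (starRingEnd ℂ) (Gs Q v μ θ)).re =
      2 * Real.pi * ∑ ω ∈ P, ∑ ω' ∈ Q, (if ν ω = μ ω' then w ω * v ω' else 0) := by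
  have hi : Integrable (fun θ => Gs P w ν θ * (starRingEnd ℂ) (Gs Q v μ θ))
      (volume.restrict (Set.Ioc 0 (2 * Real.pi))) := by
    have hc : Continuous (fun θ => Gs P w ν θ * (starRingEnd ℂ) (Gs Q v μ θ)) :=
      (Gs_cont _ _ _).mul (Complex.continuous_conj.comp (Gs_cont _ _ _))
    exact (hc.integrableOn_Icc (a := 0) (b := 2 * Real.pi)).mono_set Set.Ioc_subset_Icc_self
  have h1 := integral_re hi
  rw [inner_eq] at h1
  have h2 : RCLike.re (((2 * Real.pi * ∑ ω ∈ P, ∑ ω' ∈ Q, (if ν ω = μ ω' then w ω * v ω' else 0) : ℝ) : ℂ))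
      = 2 * Real.pi * ∑ ω ∈ P, ∑ ω' ∈ Q, (if ν ω = μ ω' then w ω * v ω' else 0) :=
    Complex.ofReal_re _
  rw [h2] at h1
  exact h1

lemma inner_nonneg (P : Finset Ω) (Q : Finset Ω') (w : Ω → ℝ) (v : Ω' → ℝ) (ν : Ω → ℤ) (μ : Ω' → ℤ)
    (hw : ∀ ω, 0 ≤ w ω) (hv : ∀ ω, 0 ≤ v ω) :
    0 ≤ ∫ θ in Set.Ioc 0 (2 * Real.pi), (Gs P w ν θ * (starRingEnd ℂ) (Gs Q v μ θ)).re := by
  rw [inner_re]
  apply mul_nonneg Real.two_pi_pos.le
  refine Finset.sum_nonneg fun ω _ => Finset.sum_nonneg fun ω' _ => ?_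
  split_ifs
  · exact mul_nonneg (hw _) (hv _)
  · exact le_rfl

lemma norm_sq_re (a : ℂ) : (a * (starRingEnd ℂ) a).re = ‖a‖ ^ 2 := by
  rw [Complex.mul_conj, Complex.ofReal_re, Complex.normSq_eq_norm_sq]

lemma norm_sq_int (P : Finset Ω) (w : Ω → ℝ) (ν : Ω → ℤ) :
    ∫ θ in Set.Ioc 0 (2 * Real.pi), ‖Gs P w ν θ‖ ^ 2 =
      2 * Real.pi * ∑ ω ∈ P, ∑ ω' ∈ P, (if ν ω = ν ω' then w ω * w ω' else 0) := by
  rw [← inner_re]
  refine integral_congr_ae (Filter.Eventually.of_forall fun θ => ?_)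
  simp only
  rw [norm_sq_re]

end

/-- Parseval for real polynomials given by their coefficients -/
lemma pars_poly (N : ℕ) (c : ℕ → ℝ) (x : ℝ) :
    ∫ θ in Set.Ioc 0 (2 * Real.pi), ‖∑ n ∈ range N, (c n : ℂ) * (circleMap 0 x θ) ^ n‖ ^ 2 =
      2 * Real.pi * ∑ n ∈ range N, c n ^ 2 * x ^ (2 * n) := by
  have h1 : ∀ θ : ℝ, ∑ n ∈ range N, (c n : ℂ) * (circleMap 0 x θ) ^ n =
      Gs (range N) (fun n => c n * x ^ n) (fun n => (n : ℤ)) θ := by
    intro θ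
    unfold Gs
    refine Finset.sum_congr rfl fun n _ => ?_
    unfold ex
    rw [circleMap_zero, mul_pow, ← Complex.exp_nat_mul]
    push_cast
    ring
  simp_rw [h1]
  rw [norm_sq_int]
  congr 1
  refine Finset.sum_congr rfl fun n hn => ?_
  have h2 : ∀ m ∈ range N, (if ((n : ℕ) : ℤ) = ((m : ℕ) : ℤ) then c n * x ^ n * (c m * x ^ m) else 0) =
      if n = m then c n ^ 2 * x ^ (2 * n) else 0 := by
    intro m _
    by_cases h : n = m
    · subst h
      rw [if_pos rfl, if_pos rfl, two_mul, pow_add]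
      ring
    · rw [if_neg (fun hh => h (by exact_mod_cast hh)), if_neg h]
  rw [Finset.sum_congr rfl h2, Finset.sum_ite_eq, if_pos hn]

/-- for coefficients between `0` and `K` -/
lemma pars_bdd (N : ℕ) (c : ℕ → ℝ) (x K : ℝ) (hx : 0 ≤ x) (h0 : ∀ n, 0 ≤ c n) (hK : ∀ n, c n ≤ K) :
    ∫ θ in Set.Ioc 0 (2 * Real.pi), ‖∑ n ∈ range N, (c n : ℂ) * (circleMap 0 x θ) ^ n‖ ^ 2 ≤
      2 * Real.pi * (K * ∑ n ∈ range N, c n * x ^ (2 * n)) := by
  rw [pars_poly]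
  apply mul_le_mul_of_nonneg_left _ Real.two_pi_pos.le
  rw [Finset.mul_sum]
  refine Finset.sum_le_sum fun n _ => ?_
  have h1 : 0 ≤ x ^ (2 * n) := by positivity
  calc c n ^ 2 * x ^ (2 * n) = (c n * c n) * x ^ (2 * n) := by ring
    _ ≤ (K * c n) * x ^ (2 * n) :=
        mul_le_mul_of_nonneg_right (mul_le_mul_of_nonneg_right (hK n) (h0 n)) h1
    _ = _ := by ring

end Pool.Agent.K9h24.Sing
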