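import Pool.Agent.K9h24.Sing2

/-!
The energy of the pairs with a common element.
-/

set_option autoImplicit false

open Finset MeasureTheory

namespace Pool.Agent.K9h24.Sing

open Pool.Agent.H396R2 Pool.Agent.TH854.BV

/-- pairs with a common element -/
noncomputable def ND (F : Finset ℕ) (k m : ℕ) : Finset (Finset ℕ × Finset ℕ) :=
  (PW F k m).filter (fun ω => ¬ Disjoint ω.1 ω.2)

/-- difference of the sums -/
def nd (ω : Finset ℕ × Finset ℕ) : ℤ := ((∑ a ∈ ω.1, a : ℕ) : ℤ) - ((∑ a ∈ ω.2, a : ℕ) : ℤ)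

lemma circle_pow (x θ : ℝ) (a b : ℕ) :
    (circleMap 0 x θ) ^ a * ((starRingEnd ℂ) (circleMap 0 x θ)) ^ b =
      ((x ^ a * x ^ b : ℝ) : ℂ) * ex ((a : ℤ) - (b : ℤ)) θ := by
  have h1 : circleMap 0 x θ = (x : ℂ) * ex 1 θ := by
    unfold ex
    rw [circleMap_zero]
    push_cast
    ring_nf
  have h2 : ∀ n : ℕ, ∀ s : ℤ, (ex s θ) ^ n = ex ((n : ℤ) * s) θ := by
    intro n s
    unfold ex
    rw [← Complex.exp_nat_mul]
    congr 1
    push_cast
    ring
  rw [h1, map_mul, Complex.conj_ofReal, ex_conj, mul_pow, mul_pow, h2, h2, sub_eq_add_neg, ex_add]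
  have e1 : ((a : ℤ) * 1) = a := by ring
  have e2 : ((b : ℤ) * -1) = -b := by ring
  rw [e1, e2]
  push_cast
  ring

lemma Tf_Gs (F : Finset ℕ) (k m : ℕ) (x θ : ℝ) :
    Tf F k m (circleMap 0 x θ) = Gs (ND F k m) (ww x) nd θ := by
  unfold Tf Gs ND
  refine Finset.sum_congr rfl fun ω _ => ?_
  rw [circle_pow]
  rfl

/-- the sum over all pairs -/
lemma S_Gs (F : Finset ℕ) (k m : ℕ) (x θ : ℝ) :
    E F k (circleMap 0 x θ) * (starRingEnd ℂ) (E F m (circleMap 0 x θ)) =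
      Gs (ND F k m) (ww x) nd θ + Gs (DP F k m) (ww x) nd θ := by
  have h1 : E F k (circleMap 0 x θ) * (starRingEnd ℂ) (E F m (circleMap 0 x θ)) =
      Gs (PW F k m) (ww x) nd θ := by
    unfold E Gs PW
    rw [map_sum, Finset.sum_mul_sum, Finset.sum_product]
    refine Finset.sum_congr rfl fun U _ => Finset.sum_congr rfl fun V _ => ?_
    rw [map_pow, circle_pow]
    rfl
  rw [h1, add_comm]
  unfold Gs ND DP
  rw [Finset.sum_filter_add_sum_filter_not]

lemma count_ND (H : Finset ℕ) (k m : ℕ) (hH : H.card = k + m) :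
    ((k + m).choose m : ℝ) * (((k + m).choose m : ℝ) - 1) ≤
      (((H.powersetCard k ×ˢ H.powersetCard m).filter (fun p => ¬ Disjoint p.1 p.2)).card : ℝ) := by
  classical
  have h1 := Finset.card_filter_add_card_filter_not (s := H.powersetCard k ×ˢ H.powersetCard m)
    (fun p => Disjoint p.1 p.2)
  rw [Finset.card_product, Finset.card_powersetCard, Finset.card_powersetCard, hH] at h1
  have h2 : ((H.powersetCard k ×ˢ H.powersetCard m).filter (fun p => Disjoint p.1 p.2)).card ≤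
      (k + m).choose m := by
    rw [← hH, ← Finset.card_powersetCard]
    apply Finset.card_le_card_of_injOn (fun p => p.2)
    · intro p hp
      rw [Finset.mem_coe, Finset.mem_filter, Finset.mem_product] at hp
      exact hp.1.2
    · have key : ∀ p ∈ ((H.powersetCard k ×ˢ H.powersetCard m).filter (fun p => Disjoint p.1 p.2)),
          p.1 = H \ p.2 := by
        intro p hp
        simp only [Finset.mem_filter, Finset.mem_product, Finset.mem_powersetCard] at hp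
        obtain ⟨⟨⟨a1, a2⟩, a3, a4⟩, a5⟩ := hp
        apply Finset.eq_of_subset_of_card_le
        · exact Finset.subset_sdiff.2 ⟨a1, a5⟩
        · rw [Finset.card_sdiff_of_subset a3, hH, a4, a2]
          omega
      intro p hp q hq hpq
      have e1 := key p hp
      have e2 := key q hq
      simp only at hpq
      exact Prod.ext (by rw [e1, e2, hpq]) hpq
  have h3 : (k + m).choose k = (k + m).choose m := by
    rw [Nat.choose_symm_add]
  rw [h3] at h1
  have h4 : (((k + m).choose m * (k + m).choose m : ℕ) : ℝ) ≤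
      (((H.powersetCard k ×ˢ H.powersetCard m).filter (fun p => ¬ Disjoint p.1 p.2)).card : ℝ) +
        ((k + m).choose m : ℕ) := by
    rw [← h1]
    push_cast
    have : (((H.powersetCard k ×ˢ H.powersetCard m).filter (fun p => Disjoint p.1 p.2)).card : ℝ) ≤
        ((k + m).choose m : ℝ) := by exact_mod_cast h2
    linarith
  push_cast at h4
  linarith

/-- lower bound for the energy -/
theorem T_energy (F : Finset ℕ) (k m : ℕ) (x : ℝ) (hx : 0 ≤ x) :
    2 * Real.pi * (((k + m).choose m : ℝ) * (((k + m).choose m : ℝ) - 1) * ee F x (k + m)) ≤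
      ∫ θ in Set.Ioc 0 (2 * Real.pi), ‖Tf F k m (circleMap 0 x θ)‖ ^ 2 := by
  classical
  simp_rw [Tf_Gs]
  rw [norm_sq_int]
  apply mul_le_mul_of_nonneg_left _ Real.two_pi_pos.le
  set g : (Finset ℕ × Finset ℕ) × (Finset ℕ × Finset ℕ) → ℝ := fun p =>
    if nd p.1 = nd p.2 then ww x p.1 * ww x p.2 else 0 with hg
  have hg0 : ∀ p, 0 ≤ g p := by
    intro p
    rw [hg]
    simp only
    split_ifs
    · exact mul_nonneg (ww_nonneg x hx _) (ww_nonneg x hx _)
    · exact le_rfl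
  have h1 : ∑ ω ∈ ND F k m, ∑ ω' ∈ ND F k m, (if nd ω = nd ω' then ww x ω * ww x ω' else 0) =
      ∑ p ∈ ND F k m ×ˢ ND F k m, g p := by
    rw [Finset.sum_product]
  rw [h1]
  set Q : Finset (Σ _ : Finset ℕ, Finset ℕ × Finset ℕ) := (F.powersetCard (k + m)).sigma
    (fun H => (H.powersetCard k ×ˢ H.powersetCard m).filter (fun p => ¬ Disjoint p.1 p.2)) with hQ
  set Φ : (Σ _ : Finset ℕ, Finset ℕ × Finset ℕ) → (Finset ℕ × Finset ℕ) × (Finset ℕ × Finset ℕ) :=
    fun q => (q.2, (q.1 \ q.2.2, q.1 \ q.2.1)) with hΦ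
  have hmem : ∀ q ∈ Q, (q.1 ⊆ F ∧ q.1.card = k + m) ∧ ((q.2.1 ⊆ q.1 ∧ q.2.1.card = k) ∧
      (q.2.2 ⊆ q.1 ∧ q.2.2.card = m)) ∧ ¬ Disjoint q.2.1 q.2.2 := by
    intro q hq
    rw [hQ, Finset.mem_sigma, Finset.mem_filter, Finset.mem_product, Finset.mem_powersetCard,
      Finset.mem_powersetCard, Finset.mem_powersetCard] at hq
    exact hq
  have hinj : Set.InjOn Φ (Q : Set (Σ _ : Finset ℕ, Finset ℕ × Finset ℕ)) := by
    rintro ⟨H, U, V⟩ hq ⟨H', U', V'⟩ hq' h
    have m1 := hmem _ hq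
    have m2 := hmem _ hq'
    rw [hΦ] at h
    simp only [Prod.mk.injEq] at h
    obtain ⟨⟨h2, h3⟩, h4, h5⟩ := h
    subst h2
    subst h3
    have e1 : H = U ∪ (H \ U) := (Finset.union_sdiff_of_subset m1.2.1.1.1).symm
    have e2 : H' = U ∪ (H' \ U) := (Finset.union_sdiff_of_subset m2.2.1.1.1).symm
    have e3 : H = H' := by rw [e1, e2, h5]
    subst e3
    rfl
  have himg : Q.image Φ ⊆ ND F k m ×ˢ ND F k m := by
    intro p hp
    rw [Finset.mem_image] at hp
    obtain ⟨q, hq, rfl⟩ := hp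
    obtain ⟨⟨a1, a2⟩, ⟨⟨a3, a4⟩, a5, a6⟩, a7⟩ := hmem q hq
    rw [Finset.mem_product]
    unfold ND
    rw [Finset.mem_filter, Finset.mem_filter, mem_PW, mem_PW]
    refine ⟨⟨⟨⟨a3.trans a1, a4⟩, a5.trans a1, a6⟩, a7⟩, ⟨⟨Finset.sdiff_subset.trans a1, ?_⟩,
      Finset.sdiff_subset.trans a1, ?_⟩, ?_⟩
    · change (q.1 \ q.2.2).card = k
      rw [Finset.card_sdiff_of_subset a5, a2, a6]; omega
    · change (q.1 \ q.2.1).card = m
      rw [Finset.card_sdiff_of_subset a3, a2, a4]; omega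
    · change ¬ Disjoint (q.1 \ q.2.2) (q.1 \ q.2.1)
      intro hd
      have h2 : (q.2.1 ∪ q.2.2).card < q.1.card := by
        have h3 := Finset.card_union_add_card_inter q.2.1 q.2.2
        have h4 : 0 < (q.2.1 ∩ q.2.2).card := by
          rw [Finset.card_pos]
          rw [Finset.nonempty_iff_ne_empty]
          exact fun h => a7 (Finset.disjoint_iff_inter_eq_empty.2 h)
        omega
      obtain ⟨b, hb1, hb2⟩ : ∃ b ∈ q.1, b ∉ q.2.1 ∪ q.2.2 := by
        by_contra hcon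
        push Not at hcon
        have := Finset.card_le_card (show q.1 ⊆ q.2.1 ∪ q.2.2 from fun b hb => hcon b hb)
        omega
      rw [Finset.mem_union, not_or] at hb2
      exact Finset.disjoint_left.1 hd (Finset.mem_sdiff.2 ⟨hb1, hb2.2⟩) (Finset.mem_sdiff.2 ⟨hb1, hb2.1⟩)
  have h2 : ∑ q ∈ Q, g (Φ q) ≤ ∑ p ∈ ND F k m ×ˢ ND F k m, g p := by
    rw [← Finset.sum_image hinj]
    exact Finset.sum_le_sum_of_subset_of_nonneg himg (fun p _ _ => hg0 p)
  refine le_trans ?_ h2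
  have h3 : ∀ q ∈ Q, g (Φ q) = x ^ (2 * ∑ a ∈ q.1, a) := by
    intro q hq
    obtain ⟨⟨a1, a2⟩, ⟨⟨a3, a4⟩, a5, a6⟩, a7⟩ := hmem q hq
    have s1 : ∑ a ∈ q.1 \ q.2.2, a + ∑ a ∈ q.2.2, a = ∑ a ∈ q.1, a := Finset.sum_sdiff a5
    have s2 : ∑ a ∈ q.1 \ q.2.1, a + ∑ a ∈ q.2.1, a = ∑ a ∈ q.1, a := Finset.sum_sdiff a3
    rw [hg, hΦ]
    simp only
    rw [if_pos]
    · unfold ww
      simp only
      rw [← pow_add, ← pow_add, ← pow_add]
      congr 1
      omega
    · unfold nd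
      simp only
      omega
  rw [Finset.sum_congr rfl h3, hQ, Finset.sum_sigma]
  unfold ee
  rw [Finset.mul_sum]
  refine Finset.sum_le_sum fun H hH => ?_
  rw [Finset.mem_powersetCard] at hH
  simp only
  rw [Finset.sum_const, nsmul_eq_mul]
  exact mul_le_mul_of_nonneg_right (count_ND H k m hH.2) (by positivity)

lemma int_on {g : ℝ → ℝ} (hg : Continuous g) {s : Set ℝ} (hs : s ⊆ Set.Ioc 0 (2 * Real.pi)) :
    IntegrableOn g s :=
  ((hg.integrableOn_Icc (a := 0) (b := 2 * Real.pi)).mono_set Set.Ioc_subset_Icc_self).mono_set hs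

lemma E_cont (F : Finset ℕ) (k : ℕ) (x : ℝ) : Continuous fun θ : ℝ => E F k (circleMap 0 x θ) := by
  unfold E
  exact continuous_finsetSum _ fun U _ => (continuous_circleMap 0 x).pow _

lemma Tf_cont (F : Finset ℕ) (k m : ℕ) (x : ℝ) : Continuous fun θ : ℝ => Tf F k m (circleMap 0 x θ) := by
  simp_rw [Tf_Gs]
  exact Gs_cont _ _ _

/-- the energy off a set `V` of angles -/
theorem off_V (F : Finset ℕ) (k m : ℕ) (x : ℝ) (hx : 0 ≤ x) (V : Set ℝ) (hV : MeasurableSet V) :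
    2 * Real.pi * (((k + m).choose m : ℝ) * (((k + m).choose m : ℝ) - 1) * ee F x (k + m)) ≤
      (∫ θ in Set.Ioc 0 (2 * Real.pi) \ V, ‖E F k (circleMap 0 x θ) * E F m (circleMap 0 x θ)‖ ^ 2) +
      ∫ θ in Set.Ioc 0 (2 * Real.pi) ∩ V, (3 * ‖Tf F k m (circleMap 0 x θ)‖ ^ 2 +
        2 * (‖Tf F k m (circleMap 0 x θ)‖ *
          ‖E F k (circleMap 0 x θ) * E F m (circleMap 0 x θ)‖)) := by
  set J : Set ℝ := Set.Ioc 0 (2 * Real.pi) with hJ
  set U : ℝ → ℂ := fun θ => Gs (DP F k m) (ww x) nd θ with hU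
  set T : ℝ → ℂ := fun θ => Tf F k m (circleMap 0 x θ) with hT
  set S : ℝ → ℂ := fun θ => E F k (circleMap 0 x θ) * E F m (circleMap 0 x θ) with hS
  have hUc : Continuous U := Gs_cont _ _ _
  have hTc : Continuous T := Tf_cont F k m x
  have hSc : Continuous S := (E_cont F k x).mul (E_cont F m x)
  set G : ℝ → ℝ := fun θ => ‖T θ‖ ^ 2 + 2 * (T θ * (starRingEnd ℂ) (U θ)).re with hG
  have hGc : Continuous G := by
    apply (hTc.norm.pow 2).add
    apply Continuous.mul continuous_const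
    exact Complex.continuous_re.comp (hTc.mul (Complex.continuous_conj.comp hUc))
  have hSU : ∀ θ, ‖S θ‖ = ‖T θ + U θ‖ := by
    intro θ
    have h1 := S_Gs F k m x θ
    rw [← Tf_Gs] at h1
    have h2 : ‖E F k (circleMap 0 x θ) * (starRingEnd ℂ) (E F m (circleMap 0 x θ))‖ = ‖S θ‖ := by
      rw [hS]
      simp only
      rw [norm_mul, norm_mul, RCLike.norm_conj]
    rw [← h2, h1]
  have hpt : ∀ θ, G θ ≤ ‖S θ‖ ^ 2 := by
    intro θ
    rw [hSU, hG]
    simp only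
    have h1 : ‖T θ + U θ‖ ^ 2 = ‖T θ‖ ^ 2 + ‖U θ‖ ^ 2 + 2 * (T θ * (starRingEnd ℂ) (U θ)).re := by
      rw [← Complex.normSq_eq_norm_sq, ← Complex.normSq_eq_norm_sq, ← Complex.normSq_eq_norm_sq,
        Complex.normSq_add]
    rw [h1]
    have : 0 ≤ ‖U θ‖ ^ 2 := by positivity
    linarith
  have hpt2 : ∀ θ, G θ ≤ 3 * ‖T θ‖ ^ 2 + 2 * (‖T θ‖ * ‖S θ‖) := by
    intro θ
    have h1 : ‖U θ‖ ≤ ‖S θ‖ + ‖T θ‖ := by
      rw [hSU]
      have : U θ = (T θ + U θ) - T θ := by ring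
      calc ‖U θ‖ = ‖(T θ + U θ) - T θ‖ := by rw [← this]
        _ ≤ _ := norm_sub_le _ _
    have h2 : (T θ * (starRingEnd ℂ) (U θ)).re ≤ ‖T θ‖ * ‖U θ‖ := by
      refine (Complex.re_le_norm _).trans ?_
      rw [norm_mul, RCLike.norm_conj]
    have h3 : ‖T θ‖ * ‖U θ‖ ≤ ‖T θ‖ * (‖S θ‖ + ‖T θ‖) := mul_le_mul_of_nonneg_left h1 (norm_nonneg _)
    rw [hG]
    simp only
    nlinarith
  have hfull : 2 * Real.pi * (((k + m).choose m : ℝ) * (((k + m).choose m : ℝ) - 1) * ee F x (k + m)) ≤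
      ∫ θ in J, G θ := by
    have h1 : ∫ θ in J, G θ = (∫ θ in J, ‖T θ‖ ^ 2) + ∫ θ in J, 2 * (T θ * (starRingEnd ℂ) (U θ)).re := by
      rw [hG]
      apply integral_add
      · exact int_on (hTc.norm.pow 2) le_rfl
      · exact int_on (Continuous.mul continuous_const
          (Complex.continuous_re.comp (hTc.mul (Complex.continuous_conj.comp hUc)))) le_rfl
    have h2 : 0 ≤ ∫ θ in J, (T θ * (starRingEnd ℂ) (U θ)).re := by
      have h3 := inner_nonneg (ND F k m) (DP F k m) (ww x) (ww x) nd nd (ww_nonneg x hx)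
        (ww_nonneg x hx)
      simp_rw [← Tf_Gs] at h3
      exact h3
    rw [integral_const_mul] at h1
    have h4 := T_energy F k m x hx
    rw [h1]
    linarith
  have hsplit : ∫ θ in J, G θ = (∫ θ in J ∩ V, G θ) + ∫ θ in J \ V, G θ :=
    (integral_inter_add_sdiff hV (int_on hGc le_rfl)).symm
  have i1 : ∫ θ in J \ V, G θ ≤ ∫ θ in J \ V, ‖S θ‖ ^ 2 :=
    setIntegral_mono (int_on hGc Set.sdiff_subset) (int_on (hSc.norm.pow 2) Set.sdiff_subset) hpt
  have i2 : ∫ θ in J ∩ V, G θ ≤ ∫ θ in J ∩ V, (3 * ‖T θ‖ ^ 2 + 2 * (‖T θ‖ * ‖S θ‖)) := by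
    apply setIntegral_mono (int_on hGc Set.inter_subset_left) (int_on _ Set.inter_subset_left) hpt2
    exact (continuous_const.mul (hTc.norm.pow 2)).add
      (continuous_const.mul (hTc.norm.mul hSc.norm))
  linarith

end Pool.Agent.K9h24.Sing
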