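import Pool.Agent.K9h24.Sing3

/-!
Mean values of the generating functions of a finite set.
-/

set_option autoImplicit false

open Finset MeasureTheory

namespace Pool.Agent.K9h24.Sing

open Pool.Agent.H396R2 Pool.Agent.TH854.BV

open Polynomial in
/-- generating polynomial of `F` -/
noncomputable def fP (F : Finset ℕ) : ℝ[X] := ∑ a ∈ F, X ^ a

open Polynomial in
/-- generating polynomial of the multisets -/
noncomputable def hP (F : Finset ℕ) (j : ℕ) : ℝ[X] := ∑ M ∈ msets F j, X ^ M.sum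

open Polynomial in
/-- generating polynomial of the subsets -/
noncomputable def eP (F : Finset ℕ) (j : ℕ) : ℝ[X] := ∑ U ∈ F.powersetCard j, X ^ (∑ a ∈ U, a)

lemma coeff_hP (F : Finset ℕ) (j n : ℕ) : (hP F j).coeff n = rM F j n := by
  unfold hP rM
  rw [Polynomial.finsetSum_coeff]
  simp_rw [Polynomial.coeff_X_pow]
  rw [Finset.card_filter]
  push_cast
  refine Finset.sum_congr rfl fun M _ => ?_
  by_cases h : n = M.sum
  · rw [if_pos h, if_pos h.symm]
  · rw [if_neg h, if_neg (fun hh => h hh.symm)]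

lemma hP_mul_le (F : Finset ℕ) (j n : ℕ) :
    (hP F j * fP F).coeff n ≤ (j + 1 : ℝ) * (hP F (j + 1)).coeff n := by
  classical
  set w : Multiset ℕ → ℝ := fun M => if n = M.sum then 1 else 0 with hw
  have hw0 : ∀ M, 0 ≤ w M := by
    intro M; rw [hw]; simp only; split_ifs <;> norm_num
  have h1 := sum_cons_le (msets F j ×ˢ F) j (fun p hp => by
    rw [Finset.mem_product, mem_msets] at hp
    exact hp.1.1) w hw0
  have h2 : (hP F j * fP F).coeff n = ∑ p ∈ msets F j ×ˢ F, w (p.2 ::ₘ p.1) := by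
    unfold hP fP
    rw [Finset.sum_mul_sum, Polynomial.finsetSum_coeff, Finset.sum_product]
    refine Finset.sum_congr rfl fun M _ => ?_
    rw [Polynomial.finsetSum_coeff]
    refine Finset.sum_congr rfl fun a _ => ?_
    rw [← pow_add, Polynomial.coeff_X_pow, hw]
    simp only [Multiset.sum_cons]
    rw [add_comm]
  have h3 : ∑ M ∈ (msets F j ×ˢ F).image (fun p => p.2 ::ₘ p.1), w M ≤ (hP F (j + 1)).coeff n := by
    unfold hP
    rw [Polynomial.finsetSum_coeff]
    simp_rw [Polynomial.coeff_X_pow]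
    apply Finset.sum_le_sum_of_subset_of_nonneg
    · intro M hM
      rw [Finset.mem_image] at hM
      obtain ⟨p, hp, rfl⟩ := hM
      rw [Finset.mem_product, mem_msets] at hp
      rw [mem_msets]
      refine ⟨by rw [Multiset.card_cons, hp.1.1], ?_⟩
      intro a ha
      rw [Multiset.mem_cons] at ha
      rcases ha with rfl | ha
      · exact hp.2
      · exact hp.1.2 a ha
    · intro M _ _
      exact hw0 M
  rw [h2]
  exact h1.trans (mul_le_mul_of_nonneg_left h3 (by positivity))

lemma coeff_nonneg_sum (n : ℕ) {ι : Type*} (s : Finset ι) (g : ι → ℕ) :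
    0 ≤ (∑ i ∈ s, (Polynomial.X : Polynomial ℝ) ^ g i).coeff n := by
  rw [Polynomial.finsetSum_coeff]
  refine Finset.sum_nonneg fun i _ => ?_
  rw [Polynomial.coeff_X_pow]
  split_ifs <;> norm_num

lemma coeff_mul_le {p q r : Polynomial ℝ} (hpq : ∀ n, p.coeff n ≤ q.coeff n)
    (hr : ∀ n, 0 ≤ r.coeff n) (n : ℕ) : (p * r).coeff n ≤ (q * r).coeff n := by
  rw [Polynomial.coeff_mul, Polynomial.coeff_mul]
  exact Finset.sum_le_sum fun x _ => mul_le_mul_of_nonneg_right (hpq _) (hr _)

lemma coeff_mul_nonneg {p q : Polynomial ℝ} (hp : ∀ n, 0 ≤ p.coeff n) (hq : ∀ n, 0 ≤ q.coeff n)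
    (n : ℕ) : 0 ≤ (p * q).coeff n := by
  rw [Polynomial.coeff_mul]
  exact Finset.sum_nonneg fun x _ => mul_nonneg (hp _) (hq _)

lemma fP_pow_le (F : Finset ℕ) (j : ℕ) : ∀ n, (fP F ^ j).coeff n ≤ (j.factorial : ℝ) * rM F j n := by
  induction j with
  | zero =>
    intro n
    rw [← coeff_hP]
    have h : hP F 0 = 1 := by
      unfold hP
      have : msets F 0 = {0} := by
        ext m
        rw [mem_msets, Finset.mem_singleton]
        constructor
        · rintro ⟨h, _⟩; exact Multiset.card_eq_zero.1 h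
        · rintro rfl; simp
      rw [this]
      simp
    rw [h]
    simp
  | succ j ih =>
    intro n
    rw [pow_succ]
    have h1 : (fP F ^ j * fP F).coeff n ≤
        ((Polynomial.C (j.factorial : ℝ) * hP F j) * fP F).coeff n := by
      apply coeff_mul_le _ (fun n => coeff_nonneg_sum n F (fun a => a))
      intro n
      rw [Polynomial.coeff_C_mul, coeff_hP]
      exact ih n
    refine h1.trans ?_
    rw [mul_assoc, Polynomial.coeff_C_mul]
    have h2 := hP_mul_le F j n
    rw [coeff_hP] at h2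
    calc (j.factorial : ℝ) * (hP F j * fP F).coeff n
        ≤ (j.factorial : ℝ) * ((j + 1 : ℝ) * rM F (j + 1) n) :=
          mul_le_mul_of_nonneg_left h2 (by positivity)
      _ = ((j + 1).factorial : ℝ) * rM F (j + 1) n := by
          rw [Nat.factorial_succ]; push_cast; ring

lemma fP_pow_nonneg (F : Finset ℕ) (j : ℕ) : ∀ n, 0 ≤ (fP F ^ j).coeff n := by
  induction j with
  | zero =>
    intro n
    rw [pow_zero, Polynomial.coeff_one]
    split_ifs <;> norm_num
  | succ j ih =>
    intro n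
    rw [pow_succ]
    exact coeff_mul_nonneg ih (fun n => coeff_nonneg_sum n F (fun a => a)) n

lemma aeval_sum (p : Polynomial ℝ) (z : ℂ) :
    Polynomial.aeval z p = ∑ n ∈ range (p.natDegree + 1), (p.coeff n : ℂ) * z ^ n := by
  rw [Polynomial.aeval_eq_sum_range]
  refine Finset.sum_congr rfl fun n _ => ?_
  rw [Complex.real_smul]

lemma aeval_fP (F : Finset ℕ) (z : ℂ) : Polynomial.aeval z (fP F) = ff F z := by
  unfold fP ff
  rw [map_sum]
  simp

lemma aeval_eP (F : Finset ℕ) (j : ℕ) (z : ℂ) : Polynomial.aeval z (eP F j) = E F j z := by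
  unfold eP E
  rw [map_sum]
  simp

/-- Parseval inequality for polynomials with coefficients in `[0, K]` -/
lemma pars_pol (p : Polynomial ℝ) (x K : ℝ) (hx : 0 ≤ x) (h0 : ∀ n, 0 ≤ p.coeff n)
    (hK : ∀ n, p.coeff n ≤ K) :
    ∫ θ in Set.Ioc 0 (2 * Real.pi), ‖Polynomial.aeval (circleMap 0 x θ) p‖ ^ 2 ≤
      2 * Real.pi * (K * p.eval (x ^ 2)) := by
  simp_rw [aeval_sum]
  refine (pars_bdd _ _ x K hx h0 hK).trans (le_of_eq ?_)
  rw [Polynomial.eval_eq_sum_range]
  simp_rw [← pow_mul]

lemma eval_fP (F : Finset ℕ) (x : ℝ) : (fP F).eval (x ^ 2) = pp F x := by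
  unfold fP pp
  rw [Polynomial.eval_finsetSum]
  refine Finset.sum_congr rfl fun a _ => ?_
  rw [Polynomial.eval_pow, Polynomial.eval_X, ← pow_mul]

lemma eval_hP (F : Finset ℕ) (x : ℝ) (j : ℕ) : (hP F j).eval (x ^ 2) = EE F x j := by
  unfold hP EE
  rw [Polynomial.eval_finsetSum]
  refine Finset.sum_congr rfl fun a _ => ?_
  rw [Polynomial.eval_pow, Polynomial.eval_X, ← pow_mul]

lemma eval_eP (F : Finset ℕ) (x : ℝ) (j : ℕ) : (eP F j).eval (x ^ 2) = ee F x j := by
  unfold eP ee
  rw [Polynomial.eval_finsetSum]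
  refine Finset.sum_congr rfl fun a _ => ?_
  rw [Polynomial.eval_pow, Polynomial.eval_X, ← pow_mul]

/-- the mean value of `|f|^{2h}` -/
theorem mean_ff (F : Finset ℕ) (h : ℕ) (x K0 : ℝ) (hx : 0 ≤ x) (hK : ∀ n, (rM F h n : ℝ) ≤ K0) :
    ∫ θ in Set.Ioc 0 (2 * Real.pi), ‖ff F (circleMap 0 x θ)‖ ^ (2 * h) ≤
      2 * Real.pi * (h.factorial * K0 * (pp F x) ^ h) := by
  have h1 := pars_pol (fP F ^ h) x (h.factorial * K0) hx (fP_pow_nonneg F h)
    (fun n => (fP_pow_le F h n).trans (mul_le_mul_of_nonneg_left (hK n) (by positivity)))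
  rw [Polynomial.eval_pow, eval_fP] at h1
  refine le_trans (le_of_eq ?_) h1
  refine integral_congr_ae (Filter.Eventually.of_forall fun θ => ?_)
  simp only
  rw [map_pow, aeval_fP, norm_pow, ← pow_mul, mul_comm]

/-- the difference between sets and multisets is small in mean square -/
theorem mean_diff (F : Finset ℕ) (k m : ℕ) (x K0 : ℝ) (hx : 0 ≤ x)
    (hK : ∀ n, (rM F (k + m) n : ℝ) ≤ K0) :
    ∫ θ in Set.Ioc 0 (2 * Real.pi), ‖((k + m).choose m : ℂ) *
        Polynomial.aeval (circleMap 0 x θ) (hP F (k + m)) -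
        E F k (circleMap 0 x θ) * E F m (circleMap 0 x θ)‖ ^ 2 ≤
      2 * Real.pi * (((k + m).choose m : ℝ) * K0 * (((k + m).choose m : ℝ) * EE F x (k + m) -
        ee F x k * ee F x m)) := by
  classical
  set C : ℝ := ((k + m).choose m : ℝ) with hC
  have hC0 : 0 ≤ C := by rw [hC]; positivity
  have hcoef : ∀ n, (eP F k * eP F m).coeff n = (cnt (PW F k m) nu n : ℝ) := by
    intro n
    unfold eP cnt PW
    rw [Finset.sum_mul_sum, Polynomial.finsetSum_coeff, Finset.card_filter, Finset.sum_product]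
    push_cast
    refine Finset.sum_congr rfl fun U _ => ?_
    rw [Polynomial.finsetSum_coeff]
    refine Finset.sum_congr rfl fun V _ => ?_
    rw [← pow_add, Polynomial.coeff_X_pow]
    unfold nu
    by_cases h : n = ∑ a ∈ U, a + ∑ a ∈ V, a
    · rw [if_pos h, if_pos h.symm]
    · rw [if_neg h, if_neg (fun hh => h hh.symm)]
  have h1 := pars_pol (Polynomial.C C * hP F (k + m) - eP F k * eP F m) x (C * K0) hx
    (by
      intro n
      rw [Polynomial.coeff_sub, Polynomial.coeff_C_mul, coeff_hP, hcoef]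
      have : (cnt (PW F k m) nu n : ℝ) ≤ C * (rM F (k + m) n : ℝ) := by
        rw [hC]; exact_mod_cast cnt_PW_le F k m n
      linarith)
    (by
      intro n
      rw [Polynomial.coeff_sub, Polynomial.coeff_C_mul, coeff_hP, hcoef]
      have h2 : C * (rM F (k + m) n : ℝ) ≤ C * K0 := mul_le_mul_of_nonneg_left (hK n) hC0
      have h3 : (0 : ℝ) ≤ (cnt (PW F k m) nu n : ℝ) := Nat.cast_nonneg _
      linarith)
  rw [Polynomial.eval_sub, Polynomial.eval_mul, Polynomial.eval_mul, Polynomial.eval_C, eval_hP,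
    eval_eP, eval_eP] at h1
  refine le_trans (le_of_eq ?_) h1
  refine integral_congr_ae (Filter.Eventually.of_forall fun θ => ?_)
  simp only
  rw [map_sub, map_mul, map_mul, aeval_eP, aeval_eP, Polynomial.aeval_C]
  rw [hC]
  simp

end Pool.Agent.K9h24.Sing
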