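import Pool.Agent.K9h24.Sing4

/-!
The energy on a small set of angles.
-/

set_option autoImplicit false

open Finset MeasureTheory

namespace Pool.Agent.K9h24.Sing

open Pool.Agent.H396R2 Pool.Agent.TH854.BV

lemma ff_cont (F : Finset ℕ) (x : ℝ) : Continuous fun θ : ℝ => ff F (circleMap 0 x θ) := by
  unfold ff
  exact continuous_finsetSum _ fun U _ => (continuous_circleMap 0 x).pow _

/-- pointwise bound -/
lemma point (F : Finset ℕ) (k m : ℕ) (hmk : m ≤ k) (hm : 1 ≤ m) (z : ℂ) (hz : ‖z‖ ≤ 1) (X β τ : ℝ)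
    (hX : p2 F z = X) (hβ : 1 ≤ β) (h1 : ‖ff F z‖ + (k + m) ≤ β) (h2 : X ≤ β ^ 2) (hX0 : 0 ≤ X)
    (hτ : 1 ≤ τ) :
    3 * ‖Tf F k m z‖ ^ 2 + 2 * (‖Tf F k m z‖ * ‖E F k z * E F m z‖) ≤
      5 * (m : ℝ) ^ 2 * (τ⁻¹ * β ^ (2 * (k + m)) + τ ^ (k + m - 1) * X ^ (k + m)) := by
  have hβ0 : 0 ≤ β := by linarith
  have hm1 : (1 : ℝ) ≤ m := by exact_mod_cast hm
  have hT := Tf_bound F k m hmk hm z hz β hβ h1 (by rw [hX]; exact h2)
  have hS := S_bound F k m z hz β hβ h1 (by rw [hX]; exact h2)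
  rw [hX] at hT
  set t := ‖Tf F k m z‖ with ht
  set s := ‖E F k z * E F m z‖ with hs
  have ht0 : 0 ≤ t := norm_nonneg _
  have hs0 : 0 ≤ s := norm_nonneg _
  obtain ⟨n, hn⟩ : ∃ n, k + m = n + 2 := ⟨k + m - 2, by omega⟩
  rw [hn] at hT hS ⊢
  have e1 : n + 2 - 2 = n := by omega
  have e2 : n + 2 - 1 = n + 1 := by omega
  rw [e1] at hT
  rw [e2]
  -- main quantity
  have a1 : t ^ 2 ≤ (m : ℝ) ^ 2 * (X * β ^ (2 * n + 2)) := by
    calc t ^ 2 ≤ (m * (X * β ^ n)) ^ 2 := pow_le_pow_left₀ ht0 hT 2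
      _ = (m : ℝ) ^ 2 * (X * (X * β ^ (2 * n))) := by ring
      _ ≤ (m : ℝ) ^ 2 * (X * (β ^ 2 * β ^ (2 * n))) := by gcongr
      _ = _ := by ring
  have a2 : t * s ≤ (m : ℝ) ^ 2 * (X * β ^ (2 * n + 2)) := by
    calc t * s ≤ (m * (X * β ^ n)) * β ^ (n + 2) := mul_le_mul hT hS hs0 (by positivity)
      _ = (m : ℝ) * (X * β ^ (2 * n + 2)) := by ring
      _ ≤ (m : ℝ) ^ 2 * (X * β ^ (2 * n + 2)) := by
          apply mul_le_mul_of_nonneg_right _ (by positivity)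
          nlinarith
  have a3 : X * β ^ (2 * n + 2) ≤ τ⁻¹ * β ^ (2 * (n + 2)) + τ ^ (n + 1) * X ^ (n + 2) := by
    have hτ0 : 0 < τ := by linarith
    by_cases hc : τ * X ≤ β ^ 2
    · have b1 : X ≤ τ⁻¹ * β ^ 2 := by
        rw [inv_mul_eq_div, le_div_iff₀ hτ0]
        linarith
      have b2 : X * β ^ (2 * n + 2) ≤ (τ⁻¹ * β ^ 2) * β ^ (2 * n + 2) :=
        mul_le_mul_of_nonneg_right b1 (by positivity)
      have b3 : (τ⁻¹ * β ^ 2) * β ^ (2 * n + 2) = τ⁻¹ * β ^ (2 * (n + 2)) := by ring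
      have b4 : 0 ≤ τ ^ (n + 1) * X ^ (n + 2) := by positivity
      linarith
    · rw [not_le] at hc
      have b1 : β ^ (2 * n + 2) ≤ (τ * X) ^ (n + 1) := by
        calc β ^ (2 * n + 2) = (β ^ 2) ^ (n + 1) := by rw [← pow_mul]; rfl
          _ ≤ _ := pow_le_pow_left₀ (by positivity) hc.le _
      have b2 : X * β ^ (2 * n + 2) ≤ X * (τ * X) ^ (n + 1) := mul_le_mul_of_nonneg_left b1 hX0
      have b3 : X * (τ * X) ^ (n + 1) = τ ^ (n + 1) * X ^ (n + 2) := by rw [mul_pow]; ring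
      have b4 : 0 ≤ τ⁻¹ * β ^ (2 * (n + 2)) := by positivity
      linarith
  have a4 : 5 * (m : ℝ) ^ 2 * (X * β ^ (2 * n + 2)) ≤
      5 * (m : ℝ) ^ 2 * (τ⁻¹ * β ^ (2 * (n + 2)) + τ ^ (n + 1) * X ^ (n + 2)) :=
    mul_le_mul_of_nonneg_left a3 (by positivity)
  linarith

/-- the integral over a small set -/
theorem on_V (F : Finset ℕ) (k m : ℕ) (hmk : m ≤ k) (hm : 1 ≤ m) (x K0 τ ε : ℝ) (hx0 : 0 ≤ x)
    (hx1 : x ≤ 1) (hK : ∀ n, (rM F (k + m) n : ℝ) ≤ K0) (hX : 1 ≤ pp F x) (hτ : 1 ≤ τ) (hε : 0 ≤ ε)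
    (V : Set ℝ) (hV : MeasurableSet V) (hV1 : volume V ≤ ENNReal.ofReal ε) :
    ∫ θ in Set.Ioc 0 (2 * Real.pi) ∩ V, (3 * ‖Tf F k m (circleMap 0 x θ)‖ ^ 2 +
        2 * (‖Tf F k m (circleMap 0 x θ)‖ *
          ‖E F k (circleMap 0 x θ) * E F m (circleMap 0 x θ)‖)) ≤
      5 * (m : ℝ) ^ 2 * ((τ⁻¹ * (2 * Real.pi * (2 ^ (2 * (k + m) - 1) * (((k + m).factorial : ℝ) * K0 +
        ((k + m : ℝ) + 1) ^ (2 * (k + m))))) + τ ^ (k + m - 1) * ε) * (pp F x) ^ (k + m)) := by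
  have hτ0 : 0 < τ := by linarith
  have hpi := Real.two_pi_pos
  set J : Set ℝ := Set.Ioc 0 (2 * Real.pi) with hJ
  obtain ⟨X, hXe⟩ : ∃ X, X = pp F x := ⟨_, rfl⟩
  rw [← hXe] at hX ⊢
  have hX0 : 0 ≤ X := by linarith
  obtain ⟨h, hh⟩ : ∃ h, h = k + m := ⟨_, rfl⟩
  have hhR : (h : ℝ) = k + m := by rw [hh]; push_cast; ring
  set β : ℝ → ℝ := fun θ => ‖ff F (circleMap 0 x θ)‖ + (h + √X) with hβ
  have hβc : Continuous β := (ff_cont F x).norm.add continuous_const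
  have hsX : 1 ≤ √X := by rw [Real.one_le_sqrt]; exact hX
  have hh0 : (0 : ℝ) ≤ h := Nat.cast_nonneg _
  have hh1 : 1 ≤ 2 * h := by omega
  have hnorm : ∀ θ : ℝ, ‖circleMap 0 x θ‖ = x := by
    intro θ; rw [norm_circleMap_zero, abs_of_nonneg hx0]
  have hβ1 : ∀ θ, 1 ≤ β θ := by
    intro θ
    rw [hβ]
    simp only
    have := norm_nonneg (ff F (circleMap 0 x θ))
    linarith
  have hp : ∀ θ, 3 * ‖Tf F k m (circleMap 0 x θ)‖ ^ 2 +
        2 * (‖Tf F k m (circleMap 0 x θ)‖ *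
          ‖E F k (circleMap 0 x θ) * E F m (circleMap 0 x θ)‖) ≤
      5 * (m : ℝ) ^ 2 * (τ⁻¹ * (β θ) ^ (2 * h) + τ ^ (h - 1) * X ^ h) := by
    intro θ
    have h0 := hβ1 θ
    rw [hh]
    apply point F k m hmk hm _ _ X (β θ) τ _ h0 _ _ hX0 hτ
    · rw [hnorm]; exact hx1
    · rw [p2_eq, hnorm, hXe]
    · rw [hβ]
      simp only
      rw [hhR]
      linarith
    · have h3 : √X ≤ β θ := by
        rw [hβ]
        simp only
        have := norm_nonneg (ff F (circleMap 0 x θ))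
        linarith
      calc X = (√X) ^ 2 := (Real.sq_sqrt hX0).symm
        _ ≤ _ := pow_le_pow_left₀ (Real.sqrt_nonneg _) h3 2
  have hTc := Tf_cont F k m x
  have hSc : Continuous fun θ : ℝ => E F k (circleMap 0 x θ) * E F m (circleMap 0 x θ) :=
    (E_cont F k x).mul (E_cont F m x)
  have hcb : Continuous fun θ => τ⁻¹ * (β θ) ^ (2 * h) + τ ^ (h - 1) * X ^ h :=
    (continuous_const.mul (hβc.pow _)).add continuous_const
  have i1 : ∫ θ in J ∩ V, (3 * ‖Tf F k m (circleMap 0 x θ)‖ ^ 2 +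
        2 * (‖Tf F k m (circleMap 0 x θ)‖ *
          ‖E F k (circleMap 0 x θ) * E F m (circleMap 0 x θ)‖)) ≤
      ∫ θ in J ∩ V, 5 * (m : ℝ) ^ 2 * (τ⁻¹ * (β θ) ^ (2 * h) + τ ^ (h - 1) * X ^ h) := by
    apply setIntegral_mono (int_on _ Set.inter_subset_left) (int_on _ Set.inter_subset_left) hp
    · exact (continuous_const.mul (hTc.norm.pow 2)).add
        (continuous_const.mul (hTc.norm.mul hSc.norm))
    · exact continuous_const.mul hcb
  refine i1.trans ?_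
  rw [integral_const_mul]
  apply mul_le_mul_of_nonneg_left _ (by positivity)
  have i2 : ∫ θ in J ∩ V, (τ⁻¹ * (β θ) ^ (2 * h) + τ ^ (h - 1) * X ^ h) =
      (∫ θ in J ∩ V, τ⁻¹ * (β θ) ^ (2 * h)) + ∫ θ in J ∩ V, τ ^ (h - 1) * X ^ h := by
    apply integral_add
    · exact int_on (continuous_const.mul (hβc.pow _)) Set.inter_subset_left
    · exact int_on continuous_const Set.inter_subset_left
  rw [i2, integral_const_mul]
  -- first integral
  have i3 : ∫ θ in J ∩ V, (β θ) ^ (2 * h) ≤ ∫ θ in J, (β θ) ^ (2 * h) := by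
    apply setIntegral_mono_set
    · exact int_on (hβc.pow _) le_rfl
    · exact Filter.Eventually.of_forall fun θ => by
        have := hβ1 θ
        show 0 ≤ (β θ) ^ (2 * h)
        positivity
    · exact Filter.Eventually.of_forall fun θ hθ => hθ.1
  have i4 : ∫ θ in J, (β θ) ^ (2 * h) ≤ ∫ θ in J, 2 ^ (2 * h - 1) *
      (‖ff F (circleMap 0 x θ)‖ ^ (2 * h) + (h + √X) ^ (2 * h)) := by
    apply setIntegral_mono (int_on (hβc.pow _) le_rfl) (int_on _ le_rfl)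
    · intro θ
      exact add_pow_le (norm_nonneg _) (by positivity) _
    · exact continuous_const.mul (((ff_cont F x).norm.pow _).add continuous_const)
  have i5 : ∫ θ in J, 2 ^ (2 * h - 1) *
      (‖ff F (circleMap 0 x θ)‖ ^ (2 * h) + (h + √X) ^ (2 * h)) ≤
      2 ^ (2 * h - 1) * (2 * Real.pi * (h.factorial * K0 * X ^ h) +
        2 * Real.pi * (((h : ℝ) + 1) ^ (2 * h) * X ^ h)) := by
    rw [integral_const_mul]
    apply mul_le_mul_of_nonneg_left _ (by positivity)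
    have i8 : ∫ θ in J, (‖ff F (circleMap 0 x θ)‖ ^ (2 * h) + (h + √X) ^ (2 * h)) =
        (∫ θ in J, ‖ff F (circleMap 0 x θ)‖ ^ (2 * h)) + ∫ θ in J, ((h : ℝ) + √X) ^ (2 * h) := by
      apply integral_add
      · exact int_on ((ff_cont F x).norm.pow _) le_rfl
      · exact int_on continuous_const le_rfl
    rw [i8]
    apply add_le_add
    · rw [hXe]
      exact mean_ff F h x K0 hx0 (by rw [hh]; exact hK)
    · rw [setIntegral_const]
      have hvol : (volume J).toReal = 2 * Real.pi := by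
        rw [hJ, Real.volume_Ioc, sub_zero, ENNReal.toReal_ofReal hpi.le]
      rw [smul_eq_mul, Measure.real, hvol]
      apply mul_le_mul_of_nonneg_left _ hpi.le
      have e1 : (h : ℝ) + √X ≤ (h + 1) * √X := by nlinarith
      calc ((h : ℝ) + √X) ^ (2 * h) ≤ ((h + 1) * √X) ^ (2 * h) :=
            pow_le_pow_left₀ (by positivity) e1 _
        _ = ((h : ℝ) + 1) ^ (2 * h) * X ^ h := by
            rw [mul_pow]
            congr 1
            rw [pow_mul, Real.sq_sqrt hX0]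
  -- second integral
  have i6 : ∫ θ in J ∩ V, τ ^ (h - 1) * X ^ h ≤ ε * (τ ^ (h - 1) * X ^ h) := by
    rw [setIntegral_const, smul_eq_mul]
    apply mul_le_mul_of_nonneg_right _ (by positivity)
    rw [Measure.real]
    apply ENNReal.toReal_le_of_le_ofReal hε
    exact (measure_mono Set.inter_subset_right).trans hV1
  have i7 : τ⁻¹ * ∫ θ in J ∩ V, (β θ) ^ (2 * h) ≤ τ⁻¹ * (2 ^ (2 * h - 1) *
      (2 * Real.pi * (h.factorial * K0 * X ^ h) +
        2 * Real.pi * (((h : ℝ) + 1) ^ (2 * h) * X ^ h))) :=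
    mul_le_mul_of_nonneg_left (i3.trans (i4.trans i5)) (by positivity)
  refine (add_le_add i7 i6).trans (le_of_eq ?_)
  rw [← hh, ← hhR]
  ring

end Pool.Agent.K9h24.Sing
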