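import Pool.Agent.K9h24.Sing5
import Pool.Agent.H303R3.ET.SpecC

/-!
The inequality at one radius.
-/

set_option autoImplicit false

open Finset MeasureTheory Filter Topology

namespace Pool.Agent.K9h24.Sing

open Pool.Agent.H396R2 Pool.Agent.TH854.BV
open Pool.Agent.H303R3 Pool.Agent.H303R3.ET

lemma four_sq (b1 b2 b3 b4 : ℂ) (s : ℝ) (hs : 0 < s) :
    ‖b1 + (b2 + b3 + b4)‖ ^ 2 ≤ (1 + s) * ‖b1‖ ^ 2 +
      3 * (1 + s⁻¹) * (‖b2‖ ^ 2 + ‖b3‖ ^ 2 + ‖b4‖ ^ 2) := by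
  have h1 : ‖b1 + (b2 + b3 + b4)‖ ≤ ‖b1‖ + (‖b2‖ + ‖b3‖ + ‖b4‖) :=
    (norm_add_le _ _).trans (add_le_add le_rfl ((norm_add_le _ _).trans
      (add_le_add (norm_add_le _ _) le_rfl)))
  have h2 := pow_le_pow_left₀ (norm_nonneg _) h1 2
  refine h2.trans ?_
  set a := ‖b1‖
  set b := ‖b2‖
  set c := ‖b3‖
  set d := ‖b4‖
  have h3 : 2 * (a * (b + c + d)) ≤ s * a ^ 2 + s⁻¹ * (b + c + d) ^ 2 := by
    have h4 : 0 ≤ s⁻¹ * (s * a - (b + c + d)) ^ 2 := by positivity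
    have h5 : s⁻¹ * (s * a - (b + c + d)) ^ 2 = s * a ^ 2 - 2 * (a * (b + c + d)) +
        s⁻¹ * (b + c + d) ^ 2 := by
      field_simp
      ring
    linarith
  have h6 : (b + c + d) ^ 2 ≤ 3 * (b ^ 2 + c ^ 2 + d ^ 2) := by
    nlinarith [sq_nonneg (b - c), sq_nonneg (b - d), sq_nonneg (c - d)]
  have h7 : 0 < s⁻¹ := inv_pos.2 hs
  have h8 : (1 + s⁻¹) * (b + c + d) ^ 2 ≤ (1 + s⁻¹) * (3 * (b ^ 2 + c ^ 2 + d ^ 2)) :=
    mul_le_mul_of_nonneg_left h6 (by linarith)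
  nlinarith

/-- the truncated generating function is uniformly close to the full one -/
theorem trunc (A : Set ℕ) (h K0 : ℕ) (hK : ∀ n, rep A h n ≤ K0) (x : ℝ) (hx0 : 0 < x) (hx1 : x < 1) :
    ∀ᶠ T : ℕ in atTop, ∀ θ : ℝ, ‖ev (Pw fun n => (rep A h n : ℝ)) (circleMap 0 x θ) -
      Polynomial.aeval (circleMap 0 x θ) (hP (FT A T) h)‖ ≤ 1 := by
  have hsum : Summable fun n : ℕ => (K0 : ℝ) * x ^ n :=
    (summable_geometric_of_lt_one hx0.le hx1).mul_left _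
  have ht : Tendsto (fun T : ℕ => ∑' n : ℕ, ((rep A h n : ℝ) - rM (FT A T) h n) * x ^ n) atTop
      (𝓝 (∑' _n : ℕ, (0 : ℝ))) := by
    apply tendsto_tsum_of_dominated_convergence (bound := fun n => (K0 : ℝ) * x ^ n) hsum
    · intro n
      apply tendsto_const_nhds.congr'
      filter_upwards [eventually_ge_atTop n] with T hT
      rw [rM_FT_eq A T h n hT]
      simp
    · refine Eventually.of_forall fun T n => ?_
      have h1 : (rM (FT A T) h n : ℝ) ≤ rep A h n := by exact_mod_cast rM_FT_le A T h n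
      have h2 : (rep A h n : ℝ) ≤ K0 := by exact_mod_cast hK n
      have h3 : (0 : ℝ) ≤ rM (FT A T) h n := Nat.cast_nonneg _
      rw [Real.norm_of_nonneg (mul_nonneg (by linarith) (by positivity))]
      exact mul_le_mul_of_nonneg_right (by linarith) (by positivity)
  rw [tsum_zero] at ht
  filter_upwards [ht.eventually (gt_mem_nhds one_pos)] with T hT θ
  set z := circleMap 0 x θ with hz
  have hzn : ‖z‖ = x := by rw [hz, norm_circleMap_zero, abs_of_pos hx0]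
  have hs1 : Summable fun n : ℕ => ((rep A h n : ℝ) : ℂ) * z ^ n := by
    apply Summable.of_norm
    apply Summable.of_nonneg_of_le (fun n => norm_nonneg _) _ hsum
    intro n
    rw [norm_mul, norm_pow, hzn, Complex.norm_real, Real.norm_of_nonneg (Nat.cast_nonneg _)]
    exact mul_le_mul_of_nonneg_right (by exact_mod_cast hK n) (by positivity)
  have hs2 : Summable fun n : ℕ => ((rM (FT A T) h n : ℝ) : ℂ) * z ^ n := by
    apply Summable.of_norm
    apply Summable.of_nonneg_of_le (fun n => norm_nonneg _) _ hsum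
    intro n
    rw [norm_mul, norm_pow, hzn, Complex.norm_real, Real.norm_of_nonneg (Nat.cast_nonneg _)]
    exact mul_le_mul_of_nonneg_right (by exact_mod_cast (rM_FT_le A T h n).trans (hK n))
      (by positivity)
  have e1 : ev (Pw fun n => (rep A h n : ℝ)) z = ∑' n : ℕ, ((rep A h n : ℝ) : ℂ) * z ^ n := by
    unfold ev Pw
    simp only [PowerSeries.coeff_mk]
  have e2 : Polynomial.aeval z (hP (FT A T) h) = ∑' n : ℕ, ((rM (FT A T) h n : ℝ) : ℂ) * z ^ n := by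
    rw [aeval_sum, tsum_eq_sum (s := range ((hP (FT A T) h).natDegree + 1))]
    · refine Finset.sum_congr rfl fun n _ => ?_
      rw [coeff_hP]
    · intro n hn
      rw [Finset.mem_range, not_lt] at hn
      have h2 := Polynomial.coeff_eq_zero_of_natDegree_lt (p := hP (FT A T) h) (n := n) (by omega)
      rw [coeff_hP] at h2
      rw [h2]
      simp
  rw [e1, e2, ← hs1.tsum_sub hs2]
  have hs3 : Summable fun n : ℕ => ‖((rep A h n : ℝ) : ℂ) * z ^ n - ((rM (FT A T) h n : ℝ) : ℂ) * z ^ n‖ :=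
    (hs1.sub hs2).norm
  refine (norm_tsum_le_tsum_norm hs3).trans (le_trans (le_of_eq ?_) hT.le)
  refine tsum_congr fun n => ?_
  rw [← sub_mul, norm_mul, norm_pow, hzn, ← Complex.ofReal_sub, Complex.norm_real,
    Real.norm_of_nonneg]
  have h1 : (rM (FT A T) h n : ℝ) ≤ rep A h n := by exact_mod_cast rM_FT_le A T h n
  linarith

/-- the inequality at one radius -/
theorem rad (A : Set ℕ) (k m : ℕ) (hmk : m ≤ k) (hm : 1 ≤ m) (K0 : ℕ)
    (hK : ∀ n, rep A (k + m) n ≤ K0) (P : ℕ → ℝ) (κ D1 : ℝ)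
    (hPc : Conv (Pw P)) (hEc : Conv (Pw fun n => (rep A (k + m) n : ℝ) - P n))
    (h1 : ∀ N : ℕ, ∑ n ∈ Finset.range N, (((rep A (k + m) n : ℝ) - P n) ^ 2 -
      κ * rep A (k + m) n) ≤ D1)
    (x : ℝ) (hx0 : 0 < x) (hx1 : x < 1) (V : Set ℝ) (hV : MeasurableSet V) (ε : ℝ) (hε : 0 ≤ ε)
    (hV1 : volume V ≤ ENNReal.ofReal ε)
    (hQ : (1 - x) * ∫ θ in Set.Ioc 0 (2 * Real.pi) \ V,
      ‖∑' n : ℕ, (P n : ℂ) * circleMap 0 x θ ^ n‖ ^ 2 ≤ ε)
    (s : ℝ) (hs : 0 < s) (τ : ℝ) (hτ : 1 ≤ τ) (T : ℕ)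
    (hT : ∀ θ : ℝ, ‖ev (Pw fun n => (rep A (k + m) n : ℝ)) (circleMap 0 x θ) -
      Polynomial.aeval (circleMap 0 x θ) (hP (FT A T) (k + m))‖ ≤ 1)
    (hX : 1 ≤ pp (FT A T) x) :
    2 * Real.pi * (((k + m).choose m : ℝ) * (((k + m).choose m : ℝ) - 1) * ee (FT A T) x (k + m)) ≤
      (1 + s) * (((k + m).choose m : ℝ) ^ 2 * (2 * Real.pi *
        (κ * (∑' n : ℕ, (rep A (k + m) n : ℝ) * (x ^ 2) ^ n) + D1))) +
      3 * (1 + s⁻¹) * (((k + m).choose m : ℝ) ^ 2 * (ε * (1 - x)⁻¹) +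
        ((k + m).choose m : ℝ) ^ 2 * (2 * Real.pi) +
        2 * Real.pi * (((k + m).choose m : ℝ) * K0 * (((k + m).choose m : ℝ) *
          EE (FT A T) x (k + m) - ee (FT A T) x k * ee (FT A T) x m))) +
      5 * (m : ℝ) ^ 2 * ((τ⁻¹ * (2 * Real.pi * (2 ^ (2 * (k + m) - 1) * (((k + m).factorial : ℝ) * K0 +
        ((k + m : ℝ) + 1) ^ (2 * (k + m))))) + τ ^ (k + m - 1) * ε) * (pp (FT A T) x) ^ (k + m)) := by
  set J : Set ℝ := Set.Ioc 0 (2 * Real.pi) with hJ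
  set F := FT A T with hF
  set C : ℝ := ((k + m).choose m : ℝ) with hC
  have hpi := Real.two_pi_pos
  have hKF : ∀ n, (rM F (k + m) n : ℝ) ≤ K0 := fun n => by
    exact_mod_cast (rM_FT_le A T (k + m) n).trans (hK n)
  have e1 := off_V F k m x hx0.le V hV
  have e2 := on_V F k m hmk hm x K0 τ ε hx0.le hx1.le hKF hX hτ hε V hV hV1
  have hnorm : ∀ θ : ℝ, ‖circleMap 0 x θ‖ < 1 := by
    intro θ; rw [norm_circleMap_zero, abs_of_pos hx0]; exact hx1
  have hRc : Conv (Pw fun n => (rep A (k + m) n : ℝ)) := by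
    have h2 : (Pw fun n => (rep A (k + m) n : ℝ)) =
        (Pw fun n => (rep A (k + m) n : ℝ) - P n) + Pw P := by
      rw [Pw_add]
      congr 1
      funext n
      ring
    rw [h2]
    exact hEc.add hPc
  set b1 : ℝ → ℂ := fun θ => C * ev (Pw fun n => (rep A (k + m) n : ℝ) - P n) (circleMap 0 x θ) with hb1
  set b2 : ℝ → ℂ := fun θ => C * ev (Pw P) (circleMap 0 x θ) with hb2
  set b3 : ℝ → ℂ := fun θ => -(C * (ev (Pw fun n => (rep A (k + m) n : ℝ)) (circleMap 0 x θ) -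
    Polynomial.aeval (circleMap 0 x θ) (hP F (k + m)))) with hb3
  set b4 : ℝ → ℂ := fun θ => -(C * Polynomial.aeval (circleMap 0 x θ) (hP F (k + m)) -
    E F k (circleMap 0 x θ) * E F m (circleMap 0 x θ)) with hb4
  have hc1 : Continuous b1 := continuous_const.mul (ev_cont hEc hx0.le hx1)
  have hc2 : Continuous b2 := continuous_const.mul (ev_cont hPc hx0.le hx1)
  have hcp : Continuous fun θ : ℝ => Polynomial.aeval (circleMap 0 x θ) (hP F (k + m)) := by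
    simp_rw [aeval_sum]
    exact continuous_finsetSum _ fun n _ => continuous_const.mul ((continuous_circleMap 0 x).pow _)
  have hc3 : Continuous b3 := (continuous_const.mul ((ev_cont hRc hx0.le hx1).sub hcp)).neg
  have hSc : Continuous fun θ : ℝ => E F k (circleMap 0 x θ) * E F m (circleMap 0 x θ) :=
    (E_cont F k x).mul (E_cont F m x)
  have hc4 : Continuous b4 := ((continuous_const.mul hcp).sub hSc).neg
  have hsum : ∀ θ, E F k (circleMap 0 x θ) * E F m (circleMap 0 x θ) = b1 θ + (b2 θ + b3 θ + b4 θ) := by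
    intro θ
    have h2 : ev (Pw fun n => (rep A (k + m) n : ℝ)) (circleMap 0 x θ) =
        ev (Pw fun n => (rep A (k + m) n : ℝ) - P n) (circleMap 0 x θ) +
          ev (Pw P) (circleMap 0 x θ) := by
      rw [← ev_add hEc hPc (hnorm θ), Pw_add]
      congr 2
      funext n
      ring
    rw [hb1, hb2, hb3, hb4]
    simp only
    rw [h2]
    ring
  have hpt : ∀ θ, ‖E F k (circleMap 0 x θ) * E F m (circleMap 0 x θ)‖ ^ 2 ≤
      (1 + s) * ‖b1 θ‖ ^ 2 + 3 * (1 + s⁻¹) * (‖b2 θ‖ ^ 2 + ‖b3 θ‖ ^ 2 + ‖b4 θ‖ ^ 2) := by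
    intro θ
    rw [hsum]
    exact four_sq _ _ _ _ s hs
  have hsi : 0 < s⁻¹ := inv_pos.2 hs
  have i1 : ∫ θ in J \ V, ‖E F k (circleMap 0 x θ) * E F m (circleMap 0 x θ)‖ ^ 2 ≤
      (1 + s) * (∫ θ in J \ V, ‖b1 θ‖ ^ 2) + 3 * (1 + s⁻¹) * ((∫ θ in J \ V, ‖b2 θ‖ ^ 2) +
        (∫ θ in J \ V, ‖b3 θ‖ ^ 2) + (∫ θ in J \ V, ‖b4 θ‖ ^ 2)) := by
    have hi : ∀ {g : ℝ → ℂ}, Continuous g → IntegrableOn (fun θ => ‖g θ‖ ^ 2) (J \ V) :=
      fun hg => int_on (hg.norm.pow 2) Set.sdiff_subset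
    have i2 : ∫ θ in J \ V, ((1 + s) * ‖b1 θ‖ ^ 2 + 3 * (1 + s⁻¹) * (‖b2 θ‖ ^ 2 + ‖b3 θ‖ ^ 2 + ‖b4 θ‖ ^ 2)) =
        (1 + s) * (∫ θ in J \ V, ‖b1 θ‖ ^ 2) + 3 * (1 + s⁻¹) * ((∫ θ in J \ V, ‖b2 θ‖ ^ 2) +
        (∫ θ in J \ V, ‖b3 θ‖ ^ 2) + (∫ θ in J \ V, ‖b4 θ‖ ^ 2)) := by
      rw [integral_add, integral_const_mul, integral_const_mul, integral_add, integral_add]
      · exact hi hc2
      · exact hi hc3
      · exact (hi hc2).add (hi hc3)
      · exact hi hc4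
      · exact (hi hc1).const_mul _
      · exact (((hi hc2).add (hi hc3)).add (hi hc4)).const_mul _
    rw [← i2]
    apply setIntegral_mono (int_on (hSc.norm.pow 2) Set.sdiff_subset) _ hpt
    exact ((hi hc1).const_mul _).add ((((hi hc2).add (hi hc3)).add (hi hc4)).const_mul _)
  have hsub : ∀ {g : ℝ → ℂ}, Continuous g → ∫ θ in J \ V, ‖g θ‖ ^ 2 ≤ ∫ θ in J, ‖g θ‖ ^ 2 := by
    intro g hg
    apply setIntegral_mono_set (int_on (hg.norm.pow 2) le_rfl)
    · exact Eventually.of_forall fun θ => by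
        show 0 ≤ ‖g θ‖ ^ 2
        positivity
    · exact Eventually.of_forall fun θ hθ => hθ.1
  have hCn : ∀ w : ℂ, ‖(C : ℂ) * w‖ ^ 2 = C ^ 2 * ‖w‖ ^ 2 := by
    intro w
    rw [norm_mul, mul_pow, Complex.norm_real, Real.norm_eq_abs, sq_abs]
  -- first term
  have j1 : ∫ θ in J \ V, ‖b1 θ‖ ^ 2 ≤ C ^ 2 * (2 * Real.pi *
      (κ * (∑' n : ℕ, (rep A (k + m) n : ℝ) * (x ^ 2) ^ n) + D1)) := by
    refine (hsub hc1).trans ?_
    rw [hb1]
    simp only
    simp_rw [hCn]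
    rw [integral_const_mul, mass_le hEc hx0.le hx1]
    apply mul_le_mul_of_nonneg_left _ (by positivity)
    apply mul_le_mul_of_nonneg_left _ hpi.le
    have hq0 : 0 ≤ x ^ 2 := by positivity
    have hq1 : x ^ 2 < 1 := by nlinarith
    have hcoef : ∀ n, ‖PowerSeries.coeff n (Pw fun n => (rep A (k + m) n : ℝ) - P n)‖ ^ 2 *
        (x ^ 2) ^ n = ((rep A (k + m) n : ℝ) - P n) ^ 2 * (x ^ 2) ^ n := by
      intro n
      unfold Pw
      rw [PowerSeries.coeff_mk, Complex.norm_real, Real.norm_eq_abs, sq_abs]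
    have hEs : Summable fun n => ((rep A (k + m) n : ℝ) - P n) ^ 2 * (x ^ 2) ^ n :=
      (parseval hEc hx0.le hx1).summable.congr hcoef
    have hRs : Summable fun n => (rep A (k + m) n : ℝ) * (x ^ 2) ^ n := by
      have := Pool.Agent.TH854.BV.summable_rep A (k + m) K0 hK 1 (x ^ 2) hq0 hq1
      refine this.congr fun n => ?_
      rw [pow_one, mul_comm]
    rw [tsum_congr hcoef]
    have h3 := abel_le (c := fun n => ((rep A (k + m) n : ℝ) - P n) ^ 2 - κ * rep A (k + m) n)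
      (B := 0) (D := D1) hq0 hq1 (by
        simp_rw [sub_mul, mul_assoc]
        exact hEs.sub (hRs.mul_left κ)) (fun N => by rw [zero_mul, zero_add]; exact h1 N)
    simp_rw [sub_mul, mul_assoc] at h3
    rw [hEs.tsum_sub (hRs.mul_left κ), tsum_mul_left] at h3
    linarith
  have j2 : ∫ θ in J \ V, ‖b2 θ‖ ^ 2 ≤ C ^ 2 * (ε * (1 - x)⁻¹) := by
    rw [hb2]
    simp only
    simp_rw [hCn]
    rw [integral_const_mul]
    apply mul_le_mul_of_nonneg_left _ (by positivity)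
    have hev : ∀ θ : ℝ, ev (Pw P) (circleMap 0 x θ) = ∑' n : ℕ, (P n : ℂ) * circleMap 0 x θ ^ n := by
      intro θ
      unfold ev Pw
      simp only [PowerSeries.coeff_mk]
    simp_rw [hev]
    have hx : 0 < 1 - x := by linarith
    rw [← div_eq_mul_inv, le_div_iff₀ hx, mul_comm]
    exact hQ
  have j3 : ∫ θ in J \ V, ‖b3 θ‖ ^ 2 ≤ C ^ 2 * (2 * Real.pi) := by
    refine (hsub hc3).trans ?_
    have h2 : ∫ θ in J, ‖b3 θ‖ ^ 2 ≤ ∫ _θ in J, C ^ 2 := by
      apply setIntegral_mono (int_on (hc3.norm.pow 2) le_rfl) (int_on continuous_const le_rfl)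
      intro θ
      show ‖-(C * (ev (Pw fun n => (rep A (k + m) n : ℝ)) (circleMap 0 x θ) -
        Polynomial.aeval (circleMap 0 x θ) (hP F (k + m))))‖ ^ 2 ≤ C ^ 2
      rw [norm_neg, hCn]
      have h4 := hT θ
      have h5 : ‖ev (Pw fun n => (rep A (k + m) n : ℝ)) (circleMap 0 x θ) -
        Polynomial.aeval (circleMap 0 x θ) (hP F (k + m))‖ ^ 2 ≤ 1 := pow_le_one₀ (norm_nonneg _) h4
      calc C ^ 2 * _ ≤ C ^ 2 * 1 := mul_le_mul_of_nonneg_left h5 (by positivity)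
        _ = C ^ 2 := mul_one _
    refine h2.trans (le_of_eq ?_)
    rw [setIntegral_const, smul_eq_mul, Measure.real, hJ, Real.volume_Ioc, sub_zero,
      ENNReal.toReal_ofReal hpi.le]
    ring
  have j4 : ∫ θ in J \ V, ‖b4 θ‖ ^ 2 ≤ 2 * Real.pi * (C * K0 * (C *
          EE F x (k + m) - ee F x k * ee F x m)) := by
    refine (hsub hc4).trans ?_
    have h2 := mean_diff F k m x K0 hx0.le hKF
    rw [← hC] at h2
    refine le_trans (le_of_eq ?_) h2
    refine integral_congr_ae (Eventually.of_forall fun θ => ?_)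
    rw [hb4]
    simp only
    rw [norm_neg, hC]
    push_cast
    rfl
  have j5 : (1 + s) * (∫ θ in J \ V, ‖b1 θ‖ ^ 2) ≤ (1 + s) * (C ^ 2 * (2 * Real.pi *
      (κ * (∑' n : ℕ, (rep A (k + m) n : ℝ) * (x ^ 2) ^ n) + D1))) :=
    mul_le_mul_of_nonneg_left j1 (by linarith)
  have j6 : 3 * (1 + s⁻¹) * ((∫ θ in J \ V, ‖b2 θ‖ ^ 2) +
        (∫ θ in J \ V, ‖b3 θ‖ ^ 2) + (∫ θ in J \ V, ‖b4 θ‖ ^ 2)) ≤
      3 * (1 + s⁻¹) * (C ^ 2 * (ε * (1 - x)⁻¹) + C ^ 2 * (2 * Real.pi) +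
        2 * Real.pi * (C * K0 * (C * EE F x (k + m) - ee F x k * ee F x m))) :=
    mul_le_mul_of_nonneg_left (by linarith) (by positivity)
  linarith

end Pool.Agent.K9h24.Sing
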