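import Pool.Agent.K9h24.Sing6

/-!
Bounded representation functions of order `h` are far from functions with singular spectrum.
-/

set_option autoImplicit false

open Finset MeasureTheory Filter Topology

namespace Pool.Agent.K9h24.Sing

open Pool.Agent.H396R2 Pool.Agent.TH854.BV
open Pool.Agent.H303R3 Pool.Agent.H303R3.ET

/-- asymptotics of the elementary symmetric functions -/
lemma asym (F : Finset ℕ) (k m : ℕ) (hmk : m ≤ k) (hm : 1 ≤ m) (x : ℝ) (hx0 : 0 < x) (hx1 : x < 1)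
    (T : ℕ) (hFT : ∀ a ∈ F, a ≤ T) (η : ℝ) (hη0 : 0 < η) (hη1 : η ≤ 1 / 2)
    (hPa : ((k + m : ℕ) : ℝ) ^ 2 / η ≤ pp F x) (hPh : (k + m : ℝ) + 1 ≤ pp F x) :
    (pp F x) ^ (k + m) ≤ ((k + m).factorial : ℝ) * EE F x (k + m) ∧
    (1 - 2 * η) * EE F x (k + m) ≤ ee F x (k + m) ∧
    (1 - 2 * η) * (((k + m).choose m : ℝ) * EE F x (k + m)) ≤ ee F x k * ee F x m := by
  obtain ⟨g, hg⟩ : ∃ g, k + m = g + 2 := ⟨k + m - 2, by omega⟩
  set C : ℝ := ((k + m).choose m : ℝ) with hC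
  set hf : ℝ := ((k + m).factorial : ℝ) with hhf
  have hhf0 : 0 < hf := by rw [hhf]; exact_mod_cast Nat.factorial_pos _
  set kf : ℝ := (k.factorial : ℝ) * (m.factorial : ℝ) with hkf
  have hkf0 : 0 < kf := by
    rw [hkf]
    have h1 : (0 : ℝ) < (k.factorial : ℝ) := by exact_mod_cast Nat.factorial_pos _
    have h2 : (0 : ℝ) < (m.factorial : ℝ) := by exact_mod_cast Nat.factorial_pos _
    positivity
  have hCf : C = hf / kf := by
    rw [hC, hhf, hkf, Nat.cast_choose ℝ (by omega : m ≤ k + m)]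
    rw [Nat.add_sub_cancel, mul_comm (m.factorial : ℝ)]
  set P := pp F x with hP
  have hP0 : 0 < P := by
    have : (0 : ℝ) ≤ k + m := by positivity
    linarith
  set q := P - (k + m) with hq
  have hq1 : 1 ≤ q := by linarith
  have hηP : ((k + m : ℕ) : ℝ) ^ 2 / P ≤ η := by
    rw [div_le_iff₀ hP0]
    rw [div_le_iff₀ hη0] at hPa
    linarith
  set E := EE F x (k + m) with hE
  have hE0 : 0 ≤ E := EE_nonneg F x (k + m)
  have h1 : P ^ (k + m) ≤ hf * E := by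
    have := EE_ge F x hx0.le (k + m)
    rw [div_le_iff₀ hhf0] at this
    linarith
  have h1' : (1 - η) * E ≤ P ^ (k + m) / hf := by
    have h := EE_upper F x hx0 hx1.le g T hFT hP0
    rw [← hg] at h
    refine le_trans ?_ h
    exact mul_le_mul_of_nonneg_right (by linarith) hE0
  have h1'' : (1 - η) * (hf * E) ≤ P ^ (k + m) := by
    rw [le_div_iff₀ hhf0] at h1'
    linarith
  have hqh : (1 - η) * P ^ (k + m) ≤ q ^ (k + m) := by
    have hb := one_add_mul_le_pow (a := -((k + m : ℝ) / P)) (by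
      have : (k + m : ℝ) / P ≤ 1 := by rw [div_le_one hP0]; linarith
      linarith) (k + m)
    have e1 : q = (1 + -((k + m : ℝ) / P)) * P := by
      rw [hq]; field_simp; ring
    have e2 : 1 - ((k + m : ℕ) : ℝ) ^ 2 / P = 1 + ((k + m : ℕ) : ℝ) * -((k + m : ℝ) / P) := by
      push_cast; ring
    rw [e1, mul_pow]
    apply mul_le_mul_of_nonneg_right _ (by positivity)
    refine le_trans ?_ hb
    rw [← e2]
    linarith
  have hqf : (1 - 2 * η) * (hf * E) ≤ q ^ (k + m) := by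
    have h2 : (1 - η) * ((1 - η) * (hf * E)) ≤ (1 - η) * P ^ (k + m) :=
      mul_le_mul_of_nonneg_left h1'' (by linarith)
    have h3 : 0 ≤ η ^ 2 * (hf * E) := by positivity
    have e : (1 - η) * ((1 - η) * (hf * E)) = (1 - 2 * η) * (hf * E) + η ^ 2 * (hf * E) := by ring
    linarith
  refine ⟨h1, ?_, ?_⟩
  · have ha := ee_ge F x hx0.le hx1.le q (by linarith) (k + m) (by
      rw [hq]; push_cast; linarith)
    refine le_trans ?_ ha
    rw [← hhf, le_div_iff₀ hhf0]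
    calc (1 - 2 * η) * E * hf = (1 - 2 * η) * (hf * E) := by ring
      _ ≤ _ := hqf
  · have h2 : (1 - 2 * η) * (C * E) ≤ q ^ (k + m) / kf := by
      rw [le_div_iff₀ hkf0]
      have e : C * kf = hf := by rw [hCf]; field_simp
      calc (1 - 2 * η) * (C * E) * kf = (1 - 2 * η) * ((C * kf) * E) := by ring
        _ ≤ q ^ (k + m) := by rw [e]; exact hqf
    refine h2.trans ?_
    have ha := ee_ge F x hx0.le hx1.le q (by linarith) k (by
      have : (0 : ℝ) ≤ m := Nat.cast_nonneg _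
      rw [hq]; linarith)
    have hb := ee_ge F x hx0.le hx1.le q (by linarith) m (by
      have : (0 : ℝ) ≤ k := Nat.cast_nonneg _
      rw [hq]; linarith)
    calc q ^ (k + m) / kf = (q ^ k / (k.factorial : ℝ)) * (q ^ m / (m.factorial : ℝ)) := by
          rw [hkf, pow_add]; field_simp
      _ ≤ _ := mul_le_mul ha hb (by positivity) (ee_nonneg F x hx0.le k)

/-- a set with positive mean of the representation function is infinite -/
lemma infinite_of_mean (A : Set ℕ) (h : ℕ) (c0 : ℝ) (hc0 : 0 < c0)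
    (hmean : ∀ᶠ N : ℕ in atTop, c0 * N ≤ ∑ n ∈ range N, (rep A h n : ℝ)) : A.Infinite := by
  intro hfin
  obtain ⟨B, hB⟩ := hfin.bddAbove
  have hz : ∀ n, h * B < n → rep A h n = 0 := by
    intro n hn
    unfold Pool.Agent.H396R2.rep
    rw [Set.ncard_eq_zero (rep_set_finite A h n), Set.eq_empty_iff_forall_notMem]
    rintro s ⟨hs1, hs2, hs3⟩
    have h3 : s.sum ≤ Multiset.card s • B :=
      Multiset.sum_le_card_nsmul s B (fun a ha => hB (hs2 a ha))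
    rw [smul_eq_mul, hs1] at h3
    omega
  have hbd : ∀ N : ℕ, ∑ n ∈ range N, (rep A h n : ℝ) ≤ ∑ n ∈ range (h * B + 1), (rep A h n : ℝ) := by
    intro N
    have h1 : ∑ n ∈ range N, (rep A h n : ℝ) =
        ∑ n ∈ (range N).filter (fun n => n ≤ h * B), (rep A h n : ℝ) := by
      rw [Finset.sum_filter]
      refine Finset.sum_congr rfl fun n _ => ?_
      split_ifs with hn
      · rfl
      · rw [hz n (by omega)]; simp
    rw [h1]
    apply Finset.sum_le_sum_of_subset_of_nonneg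
    · intro n hn
      rw [Finset.mem_filter] at hn
      exact Finset.mem_range.2 (by omega)
    · intro n _ _; positivity
  obtain ⟨S, hS⟩ : ∃ S : ℝ, S = ∑ n ∈ range (h * B + 1), (rep A h n : ℝ) := ⟨_, rfl⟩
  obtain ⟨N1, hN1⟩ := exists_nat_gt (S / c0)
  obtain ⟨N, hN⟩ := (hmean.and (eventually_ge_atTop N1)).exists
  have h2 := hN.1.trans (hbd N)
  rw [← hS] at h2
  rw [div_lt_iff₀ hc0] at hN1
  have h3 : (N1 : ℝ) ≤ N := by exact_mod_cast hN.2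
  nlinarith

lemma small_of {Y δ ε : ℝ} (hY : 0 ≤ Y) (hε : 0 ≤ ε) (h : ε ≤ δ / (8 * (Y + 1))) :
    Y * ε ≤ δ / 8 := by
  rw [le_div_iff₀ (by positivity)] at h
  nlinarith

lemma growth_aux {a K D κ n : ℝ} (ha : a ^ 2 ≤ κ * K * (n + 1) + D) (hn : 0 ≤ n) (hκ : 0 ≤ κ)
    (hK : 0 ≤ K) (hD : 0 ≤ D) : |a| ≤ (1 + κ * K + D) * (n + 1) ^ 2 := by
  have hn1 : n + 1 ≤ (n + 1) ^ 2 := by nlinarith
  have hn2 : (1 : ℝ) ≤ (n + 1) ^ 2 := by nlinarith
  have h5 : |a| ≤ 1 + a ^ 2 := by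
    have := sq_abs a
    nlinarith [sq_nonneg (|a| - 1), abs_nonneg a]
  have h6 : D ≤ D * (n + 1) ^ 2 := le_mul_of_one_le_right hD hn2
  have h7 : κ * K * (n + 1) ≤ κ * K * (n + 1) ^ 2 :=
    mul_le_mul_of_nonneg_left hn1 (by positivity)
  have h8 : (1 + κ * K + D) * (n + 1) ^ 2 = (n + 1) ^ 2 + κ * K * (n + 1) ^ 2 + D * (n + 1) ^ 2 := by
    ring
  rw [h8]
  linarith

theorem sing_main_h (A : Set ℕ) (k m : ℕ) (hmk : m ≤ k) (hm : 1 ≤ m) (c0 : ℝ) (hc0 : 0 < c0)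
    (hmean : ∀ᶠ N : ℕ in atTop, c0 * N ≤ ∑ n ∈ range N, (rep A (k + m) n : ℝ)) (K0 : ℕ)
    (hK : ∀ n, rep A (k + m) n ≤ K0) (P : ℕ → ℝ) (hP : Conc P) (κ : ℝ)
    (hκ : κ < 1 - 1 / ((k + m).choose m : ℝ))
    (hd : ∀ᶠ N : ℕ in atTop, ∑ n ∈ range N, ((rep A (k + m) n : ℝ) - P n) ^ 2 ≤
      κ * ∑ n ∈ range N, (rep A (k + m) n : ℝ)) : False := by
  have hA : A.Infinite := infinite_of_mean A (k + m) c0 hc0 hmean
  obtain ⟨C, hC⟩ : ∃ C : ℝ, C = ((k + m).choose m : ℝ) := ⟨_, rfl⟩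
  have hC2 : 2 ≤ C := by
    rw [hC]
    have h1 : 2 ≤ (k + m).choose m := by
      obtain ⟨m', rfl⟩ : ∃ m', m = m' + 1 := ⟨m - 1, by omega⟩
      have h2 : k + (m' + 1) = (k + m') + 1 := by ring
      rw [h2, Nat.choose_succ_succ]
      have h3 : 0 < (k + m').choose m' := Nat.choose_pos (by omega)
      have h4 : 0 < (k + m').choose m'.succ := Nat.choose_pos (by omega)
      omega
    exact_mod_cast h1
  have hCpos : 0 < C := by linarith
  -- replace `κ` by a nonnegative number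
  obtain ⟨κ', hκ'⟩ : ∃ κ' : ℝ, κ' = max κ 0 := ⟨_, rfl⟩
  have hκ0 : 0 ≤ κ' := by rw [hκ']; exact le_max_right _ _
  have hκκ : κ ≤ κ' := by rw [hκ']; exact le_max_left _ _
  have hκ1 : κ' < 1 - 1 / C := by
    rw [hκ']
    apply max_lt
    · rw [hC]; exact hκ
    · have : 1 / C ≤ 1 / 2 := one_div_le_one_div_of_le (by norm_num) hC2
      linarith
  have hR0 : ∀ n, (0 : ℝ) ≤ rep A (k + m) n := fun n => Nat.cast_nonneg _
  have hRK : ∀ n, (rep A (k + m) n : ℝ) ≤ K0 := fun n => by exact_mod_cast hK n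
  obtain ⟨D1, hD10, hD1⟩ := ev_bound (c := fun n => ((rep A (k + m) n : ℝ) - P n) ^ 2 -
    κ' * rep A (k + m) n) (B := 0)
    (by
      filter_upwards [hd] with N hN
      rw [Finset.sum_sub_distrib, ← Finset.mul_sum, zero_mul]
      have h1 : 0 ≤ ∑ n ∈ Finset.range N, (rep A (k + m) n : ℝ) :=
        Finset.sum_nonneg fun _ _ => Nat.cast_nonneg _
      have h2 := mul_le_mul_of_nonneg_right hκκ h1
      linarith)
  obtain ⟨D2, hD20, hD2⟩ := ev_bound (c := fun n => -(rep A (k + m) n : ℝ)) (B := -c0)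
    (by
      filter_upwards [hmean] with N hN
      rw [Finset.sum_neg_distrib]
      linarith)
  -- growth of the sequences
  have hgr : ∀ n : ℕ, |(rep A (k + m) n : ℝ) - P n| ≤ (1 + κ' * K0 + D1) * ((n : ℝ) + 1) ^ 2 := by
    intro n
    have h1 := hD1 (n + 1)
    rw [zero_mul, zero_add, Finset.sum_sub_distrib] at h1
    have h2 : ((rep A (k + m) n : ℝ) - P n) ^ 2 ≤
        ∑ m' ∈ Finset.range (n + 1), ((rep A (k + m) m' : ℝ) - P m') ^ 2 :=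
      Finset.single_le_sum (f := fun m' => ((rep A (k + m) m' : ℝ) - P m') ^ 2)
        (fun _ _ => sq_nonneg _) (Finset.mem_range.mpr (Nat.lt_succ_self n))
    have h3 : ∑ m' ∈ Finset.range (n + 1), κ' * (rep A (k + m) m' : ℝ) ≤ κ' * K0 * ((n : ℝ) + 1) := by
      calc ∑ m' ∈ Finset.range (n + 1), κ' * (rep A (k + m) m' : ℝ) ≤
            ∑ m' ∈ Finset.range (n + 1), κ' * (K0 : ℝ) :=
            Finset.sum_le_sum fun m' _ => mul_le_mul_of_nonneg_left (hRK m') hκ0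
        _ = _ := by rw [Finset.sum_const, Finset.card_range, nsmul_eq_mul]; push_cast; ring
    have h4 : ((rep A (k + m) n : ℝ) - P n) ^ 2 ≤ κ' * K0 * ((n : ℝ) + 1) + D1 := by linarith
    exact growth_aux h4 (Nat.cast_nonneg _) hκ0 (Nat.cast_nonneg _) hD10
  have hEc : Conv (Pw fun n => (rep A (k + m) n : ℝ) - P n) := conv_Pw hgr
  have hPc : Conv (Pw P) := by
    apply conv_Pw (D := 1 + κ' * K0 + D1 + K0)
    intro n
    have h1 := hgr n
    have h2 : |P n| ≤ |(rep A (k + m) n : ℝ) - P n| + |(rep A (k + m) n : ℝ)| := by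
      have := abs_sub_abs_le_abs_sub (P n) (rep A (k + m) n : ℝ)
      rw [abs_sub_comm] at this
      linarith
    have h3 : |(rep A (k + m) n : ℝ)| ≤ K0 := by
      rw [abs_of_nonneg (hR0 n)]; exact hRK n
    have hn0 : (0 : ℝ) ≤ n := Nat.cast_nonneg n
    have hn2 : (1 : ℝ) ≤ ((n : ℝ) + 1) ^ 2 := one_le_pow₀ (by linarith)
    have hK00 : (0 : ℝ) ≤ K0 := Nat.cast_nonneg _
    have h4 : (K0 : ℝ) ≤ K0 * ((n : ℝ) + 1) ^ 2 := le_mul_of_one_le_right hK00 hn2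
    have h5 : (1 + κ' * K0 + D1 + K0) * ((n : ℝ) + 1) ^ 2 =
        (1 + κ' * K0 + D1) * ((n : ℝ) + 1) ^ 2 + K0 * ((n : ℝ) + 1) ^ 2 := by ring
    rw [h5]
    linarith
  -- parameters
  obtain ⟨δ, hδ⟩ : ∃ δ : ℝ, δ = C * (C - 1) - C ^ 2 * κ' := ⟨_, rfl⟩
  have hδ0 : 0 < δ := by
    have h1 : C ^ 2 * κ' < C ^ 2 * (1 - 1 / C) := mul_lt_mul_of_pos_left hκ1 (by positivity)
    have h2 : C ^ 2 * (1 - 1 / C) = C * (C - 1) := by field_simp
    rw [hδ]; linarith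
  obtain ⟨s, hs⟩ : ∃ s : ℝ, s = δ / (8 * C ^ 2 * (κ' + 1)) := ⟨_, rfl⟩
  have hs0 : 0 < s := by rw [hs]; positivity
  have a1 : s * C ^ 2 * κ' ≤ δ / 8 := by
    have h1 : s * C ^ 2 * (κ' + 1) = δ / 8 := by rw [hs]; field_simp
    have h2 : 0 ≤ s * C ^ 2 := by positivity
    rw [mul_add, mul_one] at h1
    linarith
  obtain ⟨hf, hhf⟩ : ∃ hf : ℝ, hf = ((k + m).factorial : ℝ) := ⟨_, rfl⟩
  have hhf1 : 1 ≤ hf := by rw [hhf]; exact_mod_cast Nat.factorial_pos _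
  obtain ⟨M, hM⟩ : ∃ M : ℝ, M = 2 ^ (2 * (k + m) - 1) * (((k + m).factorial : ℝ) * K0 +
        ((k + m : ℝ) + 1) ^ (2 * (k + m))) := ⟨_, rfl⟩
  have hM0 : 0 ≤ M := by rw [hM]; positivity
  obtain ⟨τ, hτ⟩ : ∃ τ : ℝ, τ = 1 + 40 * (m : ℝ) ^ 2 * M * hf / δ := ⟨_, rfl⟩
  have hτ1 : 1 ≤ τ := by
    rw [hτ]
    have : 0 ≤ 40 * (m : ℝ) ^ 2 * M * hf / δ := by positivity
    linarith
  have hτ0 : 0 < τ := by linarith
  have a2 : 5 * (m : ℝ) ^ 2 * (τ⁻¹ * M * hf) ≤ δ / 8 := by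
    have h1 : 40 * (m : ℝ) ^ 2 * M * hf / δ ≤ τ := by rw [hτ]; linarith
    rw [div_le_iff₀ hδ0] at h1
    have h2 : 5 * (m : ℝ) ^ 2 * (τ⁻¹ * M * hf) = (40 * (m : ℝ) ^ 2 * M * hf) * τ⁻¹ / 8 := by ring
    rw [h2]
    have h3 : (40 * (m : ℝ) ^ 2 * M * hf) * τ⁻¹ ≤ (τ * δ) * τ⁻¹ :=
      mul_le_mul_of_nonneg_right h1 (inv_pos.2 hτ0).le
    have h4 : (τ * δ) * τ⁻¹ = δ := by field_simp
    linarith
  have hsi : 0 < s⁻¹ := inv_pos.2 hs0
  obtain ⟨ε, hε⟩ : ∃ ε : ℝ, ε = min (δ / (8 * (5 * (m : ℝ) ^ 2 * τ ^ (k + m - 1) * hf + 1)))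
    (δ / (8 * (3 * (1 + s⁻¹) * C ^ 2 * (2 / c0) + 1))) := ⟨_, rfl⟩
  have hε0 : 0 < ε := by rw [hε]; apply lt_min <;> positivity
  have a3 : 5 * (m : ℝ) ^ 2 * (τ ^ (k + m - 1) * ε * hf) ≤ δ / 8 := by
    have h1 : ε ≤ δ / (8 * (5 * (m : ℝ) ^ 2 * τ ^ (k + m - 1) * hf + 1)) := by
      rw [hε]; exact min_le_left _ _
    have h2 := small_of (by positivity) hε0.le h1
    calc 5 * (m : ℝ) ^ 2 * (τ ^ (k + m - 1) * ε * hf) =
        5 * (m : ℝ) ^ 2 * τ ^ (k + m - 1) * hf * ε := by ring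
      _ ≤ _ := h2
  have a4 : 3 * (1 + s⁻¹) * C ^ 2 * (2 / c0) * ε ≤ δ / 8 := by
    have h1 : ε ≤ δ / (8 * (3 * (1 + s⁻¹) * C ^ 2 * (2 / c0) + 1)) := by
      rw [hε]; exact min_le_right _ _
    exact small_of (by positivity) hε0.le h1
  obtain ⟨W, hW⟩ : ∃ W : ℝ, W = 2 * C ^ 2 + 6 * (1 + s⁻¹) * C ^ 2 * K0 := ⟨_, rfl⟩
  have hW0 : 0 ≤ W := by rw [hW]; positivity
  obtain ⟨η, hη⟩ : ∃ η : ℝ, η = min (δ / (8 * (W + 1))) (1 / 2) := ⟨_, rfl⟩
  have hη0 : 0 < η := by rw [hη]; apply lt_min <;> positivity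
  have hη1 : η ≤ 1 / 2 := by rw [hη]; exact min_le_right _ _
  have a5 : W * η ≤ δ / 8 := by
    have h1 : η ≤ δ / (8 * (W + 1)) := by rw [hη]; exact min_le_left _ _
    exact small_of hW0 hη0.le h1
  obtain ⟨B, hB⟩ : ∃ B : ℝ, B = (1 + s) * C ^ 2 * (κ' + D1) +
    3 * (1 + s⁻¹) * (C ^ 2 * ε * (2 / c0) * (1 + D2) + C ^ 2) := ⟨_, rfl⟩
  have hB0 : 0 ≤ B := by rw [hB]; positivity
  obtain ⟨R, hR⟩ : ∃ R : ℝ, R = max (((k + m : ℕ) : ℝ) ^ 2 / η) ((k + m : ℝ) + 1) +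
    hf * (8 * (B + 1) / (3 * δ)) := ⟨_, rfl⟩
  obtain ⟨N1, hN1⟩ := pp_large A hA R
  have hIoo : ∀ᶠ ρ : ℝ in 𝓝[<] 1, ρ ∈ Set.Ioo (0 : ℝ) 1 :=
    Ioo_mem_nhdsLT (show (0 : ℝ) < 1 by norm_num)
  obtain ⟨x, ⟨V, hV, hV1, hQ⟩, hx, hxN⟩ :=
    ((hP ε hε0).and_eventually (hIoo.and (eventually_pow (2 * N1)))).exists
  obtain ⟨hx0, hx1⟩ := hx
  have hq0 : 0 ≤ x ^ 2 := by positivity
  have hq1 : x ^ 2 < 1 := by nlinarith
  -- the Abel sum
  obtain ⟨lam, hlam⟩ : ∃ lam : ℝ, lam = ∑' n : ℕ, (rep A (k + m) n : ℝ) * (x ^ 2) ^ n := ⟨_, rfl⟩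
  have hRs : Summable fun n => (rep A (k + m) n : ℝ) * (x ^ 2) ^ n := by
    have := Pool.Agent.TH854.BV.summable_rep A (k + m) K0 hK 1 (x ^ 2) hq0 hq1
    refine this.congr fun n => ?_
    rw [pow_one, mul_comm]
  have hlow : (1 - x)⁻¹ ≤ 2 / c0 * (lam + D2) := by
    have h1 := abel_le (c := fun n => -(rep A (k + m) n : ℝ)) (B := -c0) (D := D2) hq0 hq1
      (by simp_rw [neg_mul]; exact hRs.neg) hD2
    simp_rw [neg_mul] at h1
    rw [tsum_neg, ← hlam] at h1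
    have h2 : c0 * (1 - x ^ 2)⁻¹ ≤ lam + D2 := by linarith
    have h3 : (1 - x)⁻¹ ≤ 2 * (1 - x ^ 2)⁻¹ := by
      have e : (1 - x ^ 2) = (1 - x) * (1 + x) := by ring
      have hx' : 0 < 1 - x := by linarith
      rw [e, mul_inv, ← mul_assoc, mul_comm 2, mul_assoc]
      apply le_mul_of_one_le_right (inv_pos.2 hx').le
      rw [← div_eq_mul_inv, le_div_iff₀ (by linarith)]
      linarith
    refine h3.trans ?_
    rw [div_mul_eq_mul_div, le_div_iff₀ hc0]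
    have h4 : 2 * (1 - x ^ 2)⁻¹ * c0 = 2 * (c0 * (1 - x ^ 2)⁻¹) := by ring
    rw [h4]
    linarith
  -- choice of the truncation
  have hev1 := trunc A (k + m) K0 hK x hx0 hx1
  have hev2 : ∀ᶠ T : ℕ in atTop, lam ≤ EE (FT A T) x (k + m) + 1 := by
    have h1 := tendsto_sections A (k + m) K0 hK 1 one_ne_zero x hx0 hx1
    simp only [pow_one] at h1
    have h2 : ∑' n : ℕ, (x ^ 2) ^ n * (rep A (k + m) n : ℝ) = lam := by
      rw [hlam]; exact tsum_congr fun n => mul_comm _ _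
    rw [h2] at h1
    filter_upwards [h1.eventually (lt_mem_nhds (show lam - 1 < lam by linarith))] with T hT
    rw [EE_eq (FT A T) x (k + m) T (fun a ha => (mem_FT.1 ha).2)]
    linarith
  obtain ⟨T, hT1, hT2, hT3⟩ := (hev1.and (hev2.and (eventually_ge_atTop N1))).exists
  have hX := hN1 T hT3 x hx0.le hx1.le hxN
  obtain ⟨X, hXe⟩ : ∃ X, X = pp (FT A T) x := ⟨_, rfl⟩
  rw [← hXe] at hX
  have hRp : 0 ≤ hf * (8 * (B + 1) / (3 * δ)) := by positivity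
  have hXa : ((k + m : ℕ) : ℝ) ^ 2 / η ≤ X := by
    have := le_max_left (((k + m : ℕ) : ℝ) ^ 2 / η) ((k + m : ℝ) + 1)
    linarith
  have hXb : (k + m : ℝ) + 1 ≤ X := by
    have := le_max_right (((k + m : ℕ) : ℝ) ^ 2 / η) ((k + m : ℝ) + 1)
    linarith
  have hXc : hf * (8 * (B + 1) / (3 * δ)) ≤ X := by
    have := le_max_right (((k + m : ℕ) : ℝ) ^ 2 / η) ((k + m : ℝ) + 1)
    have h2 : (0 : ℝ) ≤ k + m := by positivity
    linarith
  have hX1 : 1 ≤ X := by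
    have : (0 : ℝ) ≤ k + m := by positivity
    linarith
  have has := asym (FT A T) k m hmk hm x hx0 hx1 T (fun a ha => (mem_FT.1 ha).2) η hη0 hη1
    (by rw [← hXe]; exact hXa) (by rw [← hXe]; exact hXb)
  rw [← hC, ← hhf, ← hXe] at has
  obtain ⟨L, hL⟩ : ∃ L, L = EE (FT A T) x (k + m) := ⟨_, rfl⟩
  rw [← hL] at has hT2
  obtain ⟨b1, b2, b3⟩ := has
  have hL0 : 0 ≤ L := by rw [hL]; exact EE_nonneg _ _ _
  have hrad := rad A k m hmk hm K0 hK P κ' D1 hPc hEc (fun N => by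
    have := hD1 N
    rwa [zero_mul, zero_add] at this) x hx0 hx1 V hV ε hε0.le hV1 hQ s hs0 τ hτ1 T hT1
    (by rw [← hXe]; exact hX1)
  rw [← hC, ← hM, ← hL, ← hXe, ← hlam] at hrad
  have hpi := Real.two_pi_pos
  have hpi1 : 1 ≤ 2 * Real.pi := by
    have := Real.pi_gt_three
    linarith
  -- estimate the right hand side
  have c1 : (1 + s) * (C ^ 2 * (2 * Real.pi * (κ' * lam + D1))) ≤
      2 * Real.pi * ((1 + s) * C ^ 2 * (κ' * (L + 1) + D1)) := by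
    have h1 : κ' * lam ≤ κ' * (L + 1) := mul_le_mul_of_nonneg_left hT2 hκ0
    have h2 : 0 ≤ 2 * Real.pi * ((1 + s) * C ^ 2) := by positivity
    have h3 := mul_le_mul_of_nonneg_left (add_le_add h1 (le_refl D1)) h2
    calc (1 + s) * (C ^ 2 * (2 * Real.pi * (κ' * lam + D1)))
        = 2 * Real.pi * ((1 + s) * C ^ 2) * (κ' * lam + D1) := by ring
      _ ≤ _ := h3
      _ = _ := by ring
  have c2 : C ^ 2 * (ε * (1 - x)⁻¹) ≤ 2 * Real.pi * (C ^ 2 * ε * (2 / c0) * (L + 1 + D2)) := by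
    have h1 : (1 - x)⁻¹ ≤ 2 / c0 * (L + 1 + D2) := by
      refine hlow.trans ?_
      apply mul_le_mul_of_nonneg_left (by linarith) (by positivity)
    have h2 : C ^ 2 * (ε * (1 - x)⁻¹) ≤ C ^ 2 * (ε * (2 / c0 * (L + 1 + D2))) := by
      apply mul_le_mul_of_nonneg_left _ (by positivity)
      exact mul_le_mul_of_nonneg_left h1 hε0.le
    have h3 : 0 ≤ C ^ 2 * (ε * (2 / c0 * (L + 1 + D2))) := by positivity
    calc C ^ 2 * (ε * (1 - x)⁻¹) ≤ 1 * (C ^ 2 * (ε * (2 / c0 * (L + 1 + D2)))) := by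
          rw [one_mul]; exact h2
      _ ≤ 2 * Real.pi * (C ^ 2 * (ε * (2 / c0 * (L + 1 + D2)))) :=
          mul_le_mul_of_nonneg_right hpi1 h3
      _ = _ := by ring
  have c3 : C * K0 * (C * L - ee (FT A T) x k * ee (FT A T) x m) ≤ 2 * C ^ 2 * K0 * η * L := by
    have h1 : C * L - ee (FT A T) x k * ee (FT A T) x m ≤ 2 * η * (C * L) := by linarith
    have h2 : (0 : ℝ) ≤ C * K0 := by positivity
    calc C * K0 * (C * L - ee (FT A T) x k * ee (FT A T) x m) ≤ C * K0 * (2 * η * (C * L)) :=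
          mul_le_mul_of_nonneg_left h1 h2
      _ = _ := by ring
  have c4 : 5 * (m : ℝ) ^ 2 * ((τ⁻¹ * (2 * Real.pi * M) + τ ^ (k + m - 1) * ε) * X ^ (k + m)) ≤
      2 * Real.pi * (5 * (m : ℝ) ^ 2 * (τ⁻¹ * M * hf) * L +
        5 * (m : ℝ) ^ 2 * (τ ^ (k + m - 1) * ε * hf) * L) := by
    have h1 : (τ⁻¹ * (2 * Real.pi * M) + τ ^ (k + m - 1) * ε) ≤
        2 * Real.pi * (τ⁻¹ * M + τ ^ (k + m - 1) * ε) := by
      have h2 : 0 ≤ τ ^ (k + m - 1) * ε := by positivity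
      have h3 := le_mul_of_one_le_left h2 hpi1
      have h4 : 2 * Real.pi * (τ⁻¹ * M + τ ^ (k + m - 1) * ε) =
          τ⁻¹ * (2 * Real.pi * M) + 2 * Real.pi * (τ ^ (k + m - 1) * ε) := by ring
      rw [h4]
      linarith
    have h3 : 0 ≤ 2 * Real.pi * (τ⁻¹ * M + τ ^ (k + m - 1) * ε) := by positivity
    have h4 : (τ⁻¹ * (2 * Real.pi * M) + τ ^ (k + m - 1) * ε) * X ^ (k + m) ≤
        2 * Real.pi * (τ⁻¹ * M + τ ^ (k + m - 1) * ε) * (hf * L) :=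
      mul_le_mul h1 b1 (by positivity) h3
    calc 5 * (m : ℝ) ^ 2 * ((τ⁻¹ * (2 * Real.pi * M) + τ ^ (k + m - 1) * ε) * X ^ (k + m))
        ≤ 5 * (m : ℝ) ^ 2 * (2 * Real.pi * (τ⁻¹ * M + τ ^ (k + m - 1) * ε) * (hf * L)) :=
          mul_le_mul_of_nonneg_left h4 (by positivity)
      _ = _ := by ring
  have c5 : 2 * Real.pi * (C * (C - 1) * ((1 - 2 * η) * L)) ≤
      2 * Real.pi * (C * (C - 1) * ee (FT A T) x (k + m)) := by
    apply mul_le_mul_of_nonneg_left _ hpi.le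
    apply mul_le_mul_of_nonneg_left b2
    have : 0 ≤ C - 1 := by linarith
    positivity
  have c6 : 3 * (1 + s⁻¹) * (C ^ 2 * (ε * (1 - x)⁻¹) + C ^ 2 * (2 * Real.pi) +
      2 * Real.pi * (C * K0 * (C * L - ee (FT A T) x k * ee (FT A T) x m))) ≤
      2 * Real.pi * (3 * (1 + s⁻¹) * (C ^ 2 * ε * (2 / c0) * (L + 1 + D2) + C ^ 2 +
        2 * C ^ 2 * K0 * η * L)) := by
    have h1 : C ^ 2 * (ε * (1 - x)⁻¹) + C ^ 2 * (2 * Real.pi) +
      2 * Real.pi * (C * K0 * (C * L - ee (FT A T) x k * ee (FT A T) x m)) ≤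
      2 * Real.pi * (C ^ 2 * ε * (2 / c0) * (L + 1 + D2) + C ^ 2 + 2 * C ^ 2 * K0 * η * L) := by
      have h2 := mul_le_mul_of_nonneg_left c3 hpi.le
      linarith
    calc _ ≤ 3 * (1 + s⁻¹) * (2 * Real.pi * (C ^ 2 * ε * (2 / c0) * (L + 1 + D2) + C ^ 2 +
          2 * C ^ 2 * K0 * η * L)) := mul_le_mul_of_nonneg_left h1 (by positivity)
      _ = _ := by ring
  have key : 2 * Real.pi * (C * (C - 1) * ((1 - 2 * η) * L)) ≤ 2 * Real.pi *
      ((1 + s) * C ^ 2 * (κ' * (L + 1) + D1) +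
        3 * (1 + s⁻¹) * (C ^ 2 * ε * (2 / c0) * (L + 1 + D2) + C ^ 2 + 2 * C ^ 2 * K0 * η * L) +
        (5 * (m : ℝ) ^ 2 * (τ⁻¹ * M * hf) * L +
        5 * (m : ℝ) ^ 2 * (τ ^ (k + m - 1) * ε * hf) * L)) := by
    linarith
  have key2 := le_of_mul_le_mul_left key hpi
  have e1 : 2 * η * (C * (C - 1)) * L ≤ 2 * C ^ 2 * η * L := by
    apply mul_le_mul_of_nonneg_right _ hL0
    have e0 : 2 * η * (C * (C - 1)) = 2 * C ^ 2 * η - 2 * η * C := by ring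
    have e2 : 0 ≤ 2 * η * C := by positivity
    rw [e0]
    linarith
  have key3 : δ * L ≤ s * C ^ 2 * κ' * L + W * η * L + 3 * (1 + s⁻¹) * C ^ 2 * (2 / c0) * ε * L +
      5 * (m : ℝ) ^ 2 * (τ⁻¹ * M * hf) * L + 5 * (m : ℝ) ^ 2 * (τ ^ (k + m - 1) * ε * hf) * L + B := by
    rw [hδ, hW, hB]
    linarith
  have f1 := mul_le_mul_of_nonneg_right a1 hL0
  have f2 := mul_le_mul_of_nonneg_right a2 hL0
  have f3 := mul_le_mul_of_nonneg_right a3 hL0
  have f4 := mul_le_mul_of_nonneg_right a4 hL0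
  have f5 := mul_le_mul_of_nonneg_right a5 hL0
  have key4 : 3 * δ / 8 * L ≤ B := by linarith
  have hLX : X ≤ hf * L := by
    refine le_trans ?_ b1
    exact le_self_pow₀ hX1 (by omega)
  have g1 : 8 * (B + 1) / (3 * δ) ≤ L := by
    have h1 : hf * (8 * (B + 1) / (3 * δ)) ≤ hf * L := hXc.trans hLX
    exact le_of_mul_le_mul_left h1 (by linarith)
  rw [div_le_iff₀ (by positivity)] at g1
  linarith

end Pool.Agent.K9h24.Sing
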