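import Mathlib

/-!
# Transfinite iteration of set operators; Cantor-Bendixson derivatives
-/

set_option autoImplicit false

open Set Filter Topology

namespace Pool.Agent.K9h24.Sz

/-- transfinite iteration of a set operator: `A`, `d A`, ..., with intersections at limits -/
noncomputable def iter {X : Type} (d : Set X → Set X) (A : Set X) (α : Ordinal.{0}) : Set X :=
  Ordinal.limitRecOn α A (fun _ B => d B) (fun β _ ih => ⋂ γ : Set.Iio β, ih γ.1 γ.2)

section generic

variable {X : Type} {d : Set X → Set X}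

@[simp] lemma iter_zero (A : Set X) : iter d A 0 = A := by
  unfold iter; rw [Ordinal.limitRecOn_zero]

@[simp] lemma iter_add_one (A : Set X) (α : Ordinal.{0}) : iter d A (α + 1) = d (iter d A α) := by
  unfold iter; rw [Ordinal.limitRecOn_add_one]

lemma iter_limit (A : Set X) {α : Ordinal.{0}} (h : Order.IsSuccLimit α) :
    iter d A α = ⋂ β : Set.Iio α, iter d A β := by
  unfold iter; rw [Ordinal.limitRecOn_limit _ _ _ _ h]

lemma mem_iter_limit {A : Set X} {α : Ordinal.{0}} (h : Order.IsSuccLimit α) {x : X} :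
    x ∈ iter d A α ↔ ∀ β < α, x ∈ iter d A β := by
  rw [iter_limit A h]; simp

/-- good classes of sets -/
structure Good (d : Set X → Set X) (G : Set X → Prop) : Prop where
  map : ∀ A, G A → G (d A)
  sub : ∀ A, G A → d A ⊆ A
  inter : ∀ (ι : Type 1) (S : ι → Set X), Nonempty ι → (∀ i, G (S i)) → G (⋂ i, S i)

variable {G : Set X → Prop}

lemma iter_good (h : Good d G) {A : Set X} (hA : G A) (α : Ordinal.{0}) : G (iter d A α) := by
  induction α using Ordinal.limitRecOn with
  | zero => simpa using hA
  | add_one α ih => rw [iter_add_one]; exact h.map _ ih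
  | limit α hα ih =>
    rw [iter_limit A hα]
    apply h.inter
    · exact ⟨⟨0, by simpa using hα.bot_lt⟩⟩
    · rintro ⟨β, hβ⟩
      exact ih β hβ

lemma iter_anti (h : Good d G) {A : Set X} (hA : G A) {α β : Ordinal.{0}} (hab : α ≤ β) :
    iter d A β ⊆ iter d A α := by
  induction β using Ordinal.limitRecOn with
  | zero =>
    have : α = 0 := by simpa using hab
    rw [this]
  | add_one β ih =>
    rcases hab.lt_or_eq with h1 | h1
    · have h2 : α ≤ β := Order.lt_add_one_iff.1 h1
      rw [iter_add_one]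
      exact (h.sub _ (iter_good h hA β)).trans (ih h2)
    · rw [h1]
  | limit β hβ ih =>
    rcases hab.lt_or_eq with h1 | h1
    · intro x hx
      exact (mem_iter_limit hβ).1 hx α h1
    · rw [h1]

lemma iter_mono (hd : ∀ A B : Set X, A ⊆ B → d A ⊆ d B) {A B : Set X} (hAB : A ⊆ B)
    (α : Ordinal.{0}) : iter d A α ⊆ iter d B α := by
  induction α using Ordinal.limitRecOn with
  | zero => simpa using hAB
  | add_one α ih => rw [iter_add_one, iter_add_one]; exact hd _ _ ih
  | limit α hα ih =>
    intro x hx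
    rw [mem_iter_limit hα] at hx ⊢
    exact fun β hβ => ih β hβ (hx β hβ)

lemma iter_add (h : Good d G) {A : Set X} (hA : G A) (α β : Ordinal.{0}) :
    iter d A (α + β) = iter d (iter d A α) β := by
  induction β using Ordinal.limitRecOn with
  | zero => simp
  | add_one β ih => rw [← add_assoc, iter_add_one, iter_add_one, ih]
  | limit β hβ ih =>
    have hl : Order.IsSuccLimit (α + β) := Ordinal.isSuccLimit_add α hβ
    ext x
    rw [mem_iter_limit hl, mem_iter_limit hβ]
    constructor
    · intro hx γ hγ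
      rw [← ih γ hγ]
      exact hx _ (by gcongr)
    · intro hx γ hγ
      rcases lt_or_ge γ α with h1 | h1
      · have h2 := hx 0 (by simpa using hβ.bot_lt)
        rw [iter_zero] at h2
        exact iter_anti h hA h1.le h2
      · have h2 : γ = α + (γ - α) := (Ordinal.add_sub_cancel_of_le h1).symm
        have h3 : γ - α < β := by
          rw [h2] at hγ
          exact (add_lt_add_iff_left α).1 hγ
        rw [h2, ih _ h3]
        exact hx _ h3

end generic

section cb

variable {K : Type} [TopologicalSpace K]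

lemma good_cb [T1Space K] : Good (derivedSet (X := K)) IsClosed where
  map A _ := isClosed_derivedSet A
  sub A hA := (isClosed_iff_derivedSet_subset A).1 hA
  inter _ _ _ h := isClosed_iInter h

/-- the transfinite Cantor-Bendixson derivatives of a closed set -/
noncomputable abbrev cb (A : Set K) (α : Ordinal.{0}) : Set K := iter derivedSet A α

lemma cb_mono {A B : Set K} (h : A ⊆ B) (α : Ordinal.{0}) : cb A α ⊆ cb B α :=
  iter_mono (fun A B h => derivedSet_mono A B h) h α

lemma cb_closed [T1Space K] {A : Set K} (hA : IsClosed A) (α : Ordinal.{0}) : IsClosed (cb A α) :=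
  iter_good good_cb hA α

lemma cb_anti [T1Space K] {A : Set K} (hA : IsClosed A) {α β : Ordinal.{0}} (hab : α ≤ β) :
    cb A β ⊆ cb A α := iter_anti good_cb hA hab

lemma cb_sub [T1Space K] {A : Set K} (hA : IsClosed A) (α : Ordinal.{0}) : cb A α ⊆ A := by
  have := cb_anti hA (show (0 : Ordinal.{0}) ≤ α by simp)
  simpa using this

lemma cb_add [T1Space K] {A : Set K} (hA : IsClosed A) (α β : Ordinal.{0}) :
    cb A (α + β) = cb (cb A α) β := iter_add good_cb hA α β

/-- derivatives are local -/
lemma cb_inter_open (A : Set K) {P : Set K} (hP : IsOpen P) (α : Ordinal.{0}) :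
    cb A α ∩ P ⊆ cb (A ∩ P) α := by
  induction α using Ordinal.limitRecOn with
  | zero => simp
  | add_one α ih =>
    rintro x ⟨hx, hxP⟩
    rw [cb, iter_add_one] at hx ⊢
    rw [mem_derivedSet, accPt_iff_nhds] at hx ⊢
    intro U hU
    obtain ⟨y, ⟨hyU, hy⟩, hne⟩ := hx (U ∩ P) (inter_mem hU (hP.mem_nhds hxP))
    exact ⟨y, ⟨hyU.1, ih ⟨hy, hyU.2⟩⟩, hne⟩
  | limit α hα ih =>
    rintro x ⟨hx, hxP⟩
    rw [cb, mem_iter_limit hα] at hx ⊢
    exact fun β hβ => ih β hβ ⟨hx β hβ, hxP⟩

/-- compactness -/
lemma exists_lt_of_cb_limit [T2Space K] [CompactSpace K] {A : Set K} (hA : IsClosed A)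
    {α : Ordinal.{0}} (hα : Order.IsSuccLimit α) (h : cb A α = ∅) : ∃ β < α, cb A β = ∅ := by
  by_contra hcon
  push Not at hcon
  have h1 : (⋂ β : Set.Iio α, cb A β).Nonempty := by
    have : Nonempty (Set.Iio α) := ⟨⟨0, by simpa using hα.bot_lt⟩⟩
    apply IsCompact.nonempty_iInter_of_directed_nonempty_isCompact_isClosed
    · intro a b
      rcases le_total a.1 b.1 with h1 | h1
      · exact ⟨b, cb_anti hA h1, subset_rfl⟩
      · exact ⟨a, subset_rfl, cb_anti hA h1⟩
    · rintro ⟨β, hβ⟩
      exact hcon β hβ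
    · rintro ⟨β, hβ⟩
      exact (cb_closed hA β).isCompact
    · rintro ⟨β, hβ⟩
      exact cb_closed hA β
  rw [← iter_limit A hα] at h1
  rw [cb] at h
  rw [h] at h1
  exact h1.ne_empty rfl

lemma inter_limit_nonempty [T2Space K] [CompactSpace K] {A S : Set K} (hA : IsClosed A)
    (hS : IsClosed S)
    {α : Ordinal.{0}} (hα : Order.IsSuccLimit α) (h : ∀ β < α, (S ∩ cb A β).Nonempty) :
    (S ∩ cb A α).Nonempty := by
  have h1 : (⋂ β : Set.Iio α, S ∩ cb A β).Nonempty := by
    have : Nonempty (Set.Iio α) := ⟨⟨0, by simpa using hα.bot_lt⟩⟩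
    apply IsCompact.nonempty_iInter_of_directed_nonempty_isCompact_isClosed
    · intro a b
      rcases le_total a.1 b.1 with h1 | h1
      · exact ⟨b, inter_subset_inter_right _ (cb_anti hA h1), subset_rfl⟩
      · exact ⟨a, subset_rfl, inter_subset_inter_right _ (cb_anti hA h1)⟩
    · rintro ⟨β, hβ⟩
      exact h β hβ
    · rintro ⟨β, hβ⟩
      exact (hS.inter (cb_closed hA β)).isCompact
    · rintro ⟨β, hβ⟩
      exact hS.inter (cb_closed hA β)
  obtain ⟨x, hx⟩ := h1
  rw [mem_iInter] at hx
  refine ⟨x, (hx ⟨0, by simpa using hα.bot_lt⟩).1, ?_⟩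
  rw [cb, mem_iter_limit hα]
  exact fun β hβ => (hx ⟨β, hβ⟩).2

/-- closed set without accumulation points in a compact space is finite -/
lemma finite_of_derivedSet_empty [T1Space K] [CompactSpace K] {A : Set K}
    (h : derivedSet A = ∅) : A.Finite := by
  by_contra hinf
  have h1 : ∃ x, AccPt x (𝓟 A) := Set.Infinite.exists_accPt_principal hinf
  obtain ⟨x, hx⟩ := h1
  have : x ∈ derivedSet A := hx
  rw [h] at this
  exact this

end cb

section countable

variable {K : Type} [TopologicalSpace K] [CompactSpace K] [T2Space K] [Countable K]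

lemma exists_clopen_sep {x y : K} (hxy : x ≠ y) : ∃ U : Set K, IsClopen U ∧ x ∈ U ∧ y ∉ U := by
  obtain ⟨f, hf0, hf1, hf⟩ := exists_continuous_zero_one_of_isClosed (X := K)
    (isClosed_singleton (x := x)) (isClosed_singleton (x := y)) (by simpa using hxy)
  have hc : (range f).Countable := countable_range f
  have h2 : ∃ r ∈ Ioo (0 : ℝ) 1, r ∉ range f := by
    by_contra hcon
    push Not at hcon
    have h3 : (Ioo (0 : ℝ) 1).Countable := hc.mono hcon
    exact (Cardinal.mk_Ioo_real (show (0 : ℝ) < 1 by norm_num)).not_lt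
      (lt_of_le_of_lt (Cardinal.mk_le_aleph0_iff.2 h3.to_subtype) Cardinal.aleph0_lt_continuum)
  obtain ⟨r, hr, hrf⟩ := h2
  refine ⟨f ⁻¹' Iio r, ⟨?_, isOpen_Iio.preimage f.continuous⟩, ?_, ?_⟩
  · have : f ⁻¹' Iio r = f ⁻¹' Iic r := by
      ext z
      simp only [mem_preimage, mem_Iio, mem_Iic]
      constructor
      · exact fun h => h.le
      · intro h
        exact lt_of_le_of_ne h (fun h' => hrf ⟨z, h'⟩)
    rw [this]
    exact isClosed_Iic.preimage f.continuous
  · have := hf0 (mem_singleton x)
    simp only [mem_preimage, mem_Iio, this, Pi.zero_apply]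
    exact hr.1
  · have := hf1 (mem_singleton y)
    simp only [mem_preimage, mem_Iio, this, Pi.one_apply, not_lt]
    exact hr.2.le

lemma totallyDisconnected : TotallyDisconnectedSpace K := by
  have : TotallySeparatedSpace K := by
    constructor
    intro x _ y _ hxy
    obtain ⟨U, hU, hx, hy⟩ := exists_clopen_sep hxy
    exact ⟨U, Uᶜ, hU.isOpen, hU.compl.isOpen, hx, hy, by simp, disjoint_compl_right⟩
  infer_instance

lemma exists_clopen {x : K} {U : Set K} (hU : U ∈ 𝓝 x) :
    ∃ V : Set K, IsClopen V ∧ x ∈ V ∧ V ⊆ U := by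
  have := totallyDisconnected (K := K)
  obtain ⟨W, hWU, hW, hxW⟩ := mem_nhds_iff.1 hU
  obtain ⟨V, hV, hxV, hVW⟩ := compact_exists_isClopen_in_isOpen hW hxW
  exact ⟨V, hV, hxV, hVW.trans hWU⟩

/-- a nonempty closed set has an isolated point -/
lemma derivedSet_ne {A : Set K} (hA : IsClosed A) (hne : A.Nonempty) : derivedSet A ≠ A := by
  intro h
  have : CompactSpace A := isCompact_iff_compactSpace.1 hA.isCompact
  have : Nonempty A := hne.to_subtype
  have : Countable A := inferInstance
  have h1 : (⋃ x : A, ({x} : Set A)) = univ := by ext z; simp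
  obtain ⟨x, hx⟩ := nonempty_interior_of_iUnion_of_closed (fun x : A => isClosed_singleton (x := x)) h1
  have h2 : interior ({x} : Set A) = {x} := by
    obtain ⟨z, hz⟩ := hx
    have hzx : z ∈ ({x} : Set A) := interior_subset hz
    rw [mem_singleton_iff] at hzx
    subst hzx
    apply Subset.antisymm interior_subset
    intro w hw
    rw [mem_singleton_iff] at hw
    rw [hw]
    exact hz
  have h3 : IsOpen ({x} : Set A) := interior_eq_iff_isOpen.1 h2
  obtain ⟨U, hU, hUx⟩ := isOpen_induced_iff.1 h3
  have hxd : (x : K) ∈ derivedSet A := by rw [h]; exact x.2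
  rw [mem_derivedSet, accPt_iff_nhds] at hxd
  have hxU : (x : K) ∈ U := by
    have : x ∈ Subtype.val ⁻¹' U := by rw [hUx]; rfl
    exact this
  obtain ⟨y, ⟨hyU, hyA⟩, hne⟩ := hxd U (hU.mem_nhds hxU)
  have h4 : (⟨y, hyA⟩ : A) ∈ Subtype.val ⁻¹' U := hyU
  rw [hUx] at h4
  apply hne
  have : (⟨y, hyA⟩ : A) = x := h4
  exact congrArg Subtype.val this

/-- countable compact spaces are scattered -/
lemma exists_cb_empty {A : Set K} (hA : IsClosed A) : ∃ α : Ordinal.{0}, cb A α = ∅ := by
  by_contra hcon
  push Not at hcon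
  have hss : ∀ α, cb A (α + 1) ≠ cb A α := by
    intro α
    rw [cb, iter_add_one]
    exact derivedSet_ne (cb_closed hA α) (hcon α)
  apply _root_.not_injective_of_ordinal (fun α : Ordinal.{0} => cb A α)
  intro α β hab
  by_contra hne
  rcases lt_or_gt_of_ne hne with h | h
  · apply hss α
    apply Subset.antisymm (cb_anti hA (by simp))
    have h1 : cb A α = cb A β := hab
    rw [h1]
    exact cb_anti hA (Order.add_one_le_of_lt h)
  · apply hss β
    apply Subset.antisymm (cb_anti hA (by simp))
    have h1 : cb A α = cb A β := hab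
    rw [← h1]
    exact cb_anti hA (Order.add_one_le_of_lt h)

/-- separation of finitely many points by disjoint clopen sets inside a clopen set -/
lemma exists_disjoint_clopens (N : ℕ) (x : Fin N → K) (hx : Function.Injective x) {U : Set K}
    (hU : IsOpen U) (hxU : ∀ i, x i ∈ U) :
    ∃ V : Fin N → Set K, (∀ i, IsClopen (V i)) ∧ (∀ i, x i ∈ V i) ∧ (∀ i, V i ⊆ U) ∧
      ∀ i j, i ≠ j → Disjoint (V i) (V j) := by
  classical
  have h1 : ∀ i, ∃ W : Set K, IsClopen W ∧ x i ∈ W ∧ W ⊆ U ∩ (x '' {j | j ≠ i})ᶜ := by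
    intro i
    apply exists_clopen
    apply IsOpen.mem_nhds
    · exact hU.inter (((toFinite {j | j ≠ i}).image x).isClosed.isOpen_compl)
    · refine ⟨hxU i, ?_⟩
      rintro ⟨j, hj, hji⟩
      exact hj (hx hji)
  choose W hWc hxW hWU using h1
  refine ⟨fun i => W i \ ⋃ j ∈ {j | j ≠ i}, W j, ?_, ?_, ?_, ?_⟩
  · intro i
    exact (hWc i).diff ((toFinite {j | j ≠ i}).isClopen_biUnion (fun j _ => hWc j))
  · intro i
    refine ⟨hxW i, ?_⟩
    simp only [mem_ofPred_eq, mem_iUnion, not_exists]
    intro j hj hxj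
    have := (hWU j hxj).2
    exact this ⟨i, fun h => hj h.symm, rfl⟩
  · intro i
    exact sdiff_subset.trans ((hWU i).trans inter_subset_left)
  · intro i j hij
    rw [Set.disjoint_left]
    rintro z ⟨hz1, _⟩ ⟨_, hz2⟩
    apply hz2
    simp only [mem_ofPred_eq, mem_iUnion]
    exact ⟨i, hij, hz1⟩

/-- a finite nonempty subset is a retract, by a locally constant map -/
lemma exists_retraction (C : Set K) (hC : C.Finite) (hne : C.Nonempty) :
    ∃ p : K → K, IsLocallyConstant p ∧ (∀ x, p x ∈ C) ∧ ∀ c ∈ C, p c = c := by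
  classical
  induction C, hC using Set.Finite.induction_on with
  | empty => exact absurd hne (by simp)
  | @insert a s ha hs ih =>
    rcases s.eq_empty_or_nonempty with rfl | hsn
    · refine ⟨fun _ => a, IsLocallyConstant.const a, fun _ => by simp, ?_⟩
      intro c hc
      have h1 : c = a := by simpa using hc
      exact h1.symm
    · obtain ⟨p, hp, hp1, hp2⟩ := ih hsn
      obtain ⟨V, hV, haV, hVs⟩ := exists_clopen (x := a) (U := sᶜ)
        (hs.isClosed.isOpen_compl.mem_nhds ha)
      refine ⟨fun x => if x ∈ V then a else p x, ?_, ?_, ?_⟩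
      · rw [IsLocallyConstant.iff_exists_open]
        intro x
        by_cases hx : x ∈ V
        · refine ⟨V, hV.isOpen, hx, fun y hy => ?_⟩
          simp [hx, hy]
        · obtain ⟨U, hU, hxU, hUc⟩ := (IsLocallyConstant.iff_exists_open p).1 hp x
          refine ⟨U ∩ Vᶜ, hU.inter hV.compl.isOpen, ⟨hxU, hx⟩, fun y hy => ?_⟩
          have hy2 : y ∉ V := hy.2
          simp only [hx, hy2, if_false]
          exact hUc y hy.1
      · intro x
        by_cases hx : x ∈ V
        · simp [hx]
        · simp only [hx, if_false]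
          exact mem_insert_of_mem _ (hp1 x)
      · intro c hc
        rcases hc with rfl | hc
        · simp [haV]
        · have : c ∉ V := fun h => hVs h hc
          simp only [this, if_false]
          exact hp2 c hc

end countable

end Pool.Agent.K9h24.Sz
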