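import Pool.Agent.K9h24.SzA

/-!
# The localisation lemma

`T ρ v` (`ρ` an ordinal, `v ≥ 0` a continuous function on a scattered compact space `K`) is
subadditive, monotone and homogeneous in `v` and decreasing in `ρ`.  If `K` has height less than
`ω ^ (β + 1)` and the index set contains all `ρ ≤ ω ^ (β + 1)`, then there are `ρ`, `v` and a FINITE
set `C` such that `T (ρ + 1) v` is almost as large as all `T ρ (v + q)`, `q` the indicator of a
clopen set disjoint from `C`.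
-/

set_option autoImplicit false

open Set Filter Topology

namespace Pool.Agent.K9h24.Sz

open Ordinal in
/-- `ω ^ β` -/
noncomputable abbrev wp (β : Ordinal.{0}) : Ordinal.{0} := ω ^ β

section

variable {K : Type} [TopologicalSpace K]

/-- indicators of clopen sets -/
def Idem (q : C(K, ℝ)) : Prop := ∀ x, q x = 0 ∨ q x = 1

lemma Idem.nonneg {q : C(K, ℝ)} (h : Idem q) : 0 ≤ q := by
  intro x
  rcases h x with h | h <;> simp [h]

lemma Idem.zero : Idem (0 : C(K, ℝ)) := fun _ => Or.inl rfl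

/-- continuous functions with values in `{0, ..., k}` which are larger than `j` on `D j` -/
structure NatF (D : ℕ → Set K) (k : ℕ) (e : C(K, ℝ)) : Prop where
  nat : ∀ x, ∃ n : ℕ, n ≤ k ∧ e x = n
  large : ∀ j < k, ∀ x ∈ D j, (j : ℝ) + 1 ≤ e x

lemma NatF.nonneg {D : ℕ → Set K} {k : ℕ} {e : C(K, ℝ)} (h : NatF D k e) (x : K) : 0 ≤ e x := by
  obtain ⟨n, _, hn⟩ := h.nat x
  rw [hn]; positivity

lemma NatF.le {D : ℕ → Set K} {k : ℕ} {e : C(K, ℝ)} (h : NatF D k e) (x : K) : e x ≤ k := by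
  obtain ⟨n, hn1, hn⟩ := h.nat x
  rw [hn]; exact_mod_cast hn1

lemma NatF.const (D : ℕ → Set K) (k : ℕ) : NatF D k (ContinuousMap.const K (k : ℝ)) := by
  constructor
  · intro x
    exact ⟨k, le_rfl, rfl⟩
  · intro j hj x _
    simp only [ContinuousMap.const_apply]
    exact_mod_cast hj

/-- the top part -/
def top (D : ℕ → Set K) (k : ℕ) (e : C(K, ℝ)) : Set K :=
  ⋃ j ∈ Finset.range k, ({x | e x = (j : ℝ) + 1} ∩ D j)

lemma mem_top {D : ℕ → Set K} {k : ℕ} {e : C(K, ℝ)} {x : K} :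
    x ∈ top D k e ↔ ∃ j < k, e x = (j : ℝ) + 1 ∧ x ∈ D j := by
  unfold top
  simp only [Finset.mem_range, mem_iUnion, mem_inter_iff, mem_ofPred_eq, exists_prop]

lemma top_closed {D : ℕ → Set K} (hD : ∀ j, IsClosed (D j)) (k : ℕ) (e : C(K, ℝ)) :
    IsClosed (top D k e) := by
  apply isClosed_biUnion_finset
  intro j _
  exact (isClosed_eq e.continuous continuous_const).inter (hD j)

lemma top_cb {D : ℕ → Set K} {γ : Ordinal.{0}} (hDs : ∀ j, cb (D j) γ ⊆ D (j + 1))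
    {k : ℕ} (hk : D k = ∅) {e : C(K, ℝ)} (he : NatF D k e) : cb (top D k e) γ = ∅ := by
  rw [eq_empty_iff_forall_notMem]
  intro x hx
  obtain ⟨n, hnk, hn⟩ := he.nat x
  set P : Set K := e ⁻¹' (Ioo ((n : ℝ) - 1 / 2) (n + 1 / 2)) with hP
  have hPo : IsOpen P := isOpen_Ioo.preimage e.continuous
  have hxP : x ∈ P := by
    rw [hP, mem_preimage, hn]
    constructor <;> linarith
  have h1 : x ∈ cb (top D k e ∩ P) γ := cb_inter_open _ hPo γ ⟨hx, hxP⟩
  have hPn : ∀ y ∈ P, e y = n := by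
    intro y hy
    obtain ⟨m, _, hm⟩ := he.nat y
    rw [hP, mem_preimage, hm] at hy
    have h2 : (m : ℝ) - n < 1 := by linarith [hy.2]
    have h3 : (n : ℝ) - m < 1 := by linarith [hy.1]
    have h4 : m = n := by
      have h5 : m < n + 1 := by
        have : (m : ℝ) < n + 1 := by linarith
        exact_mod_cast this
      have h6 : n < m + 1 := by
        have : (n : ℝ) < m + 1 := by linarith
        exact_mod_cast this
      omega
    rw [hm, h4]
  rcases Nat.eq_zero_or_pos n with h0 | h0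
  · have h2 : top D k e ∩ P = ∅ := by
      rw [eq_empty_iff_forall_notMem]
      rintro y ⟨hy1, hy2⟩
      obtain ⟨j, _, hj, _⟩ := mem_top.1 hy1
      rw [hPn y hy2, h0] at hj
      have : (0 : ℝ) < (j : ℝ) + 1 := by positivity
      simp at hj
      linarith
    have h3 : cb (top D k e ∩ P) γ ⊆ cb ∅ γ := cb_mono (by rw [h2]) γ
    have h4 : cb (∅ : Set K) γ ⊆ cb (D k) γ := cb_mono (empty_subset _) γ
    have h5 := hDs k (h4 (h3 h1))
    -- `D (k + 1)` could be nonempty in principle; use locality with the empty set instead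
    have h6 : ∀ α : Ordinal.{0}, cb (∅ : Set K) α = ∅ := by
      intro α
      induction α using Ordinal.limitRecOn with
      | zero => simp [cb]
      | add_one α ih =>
        rw [cb, iter_add_one]
        change derivedSet (cb ∅ α) = ∅
        rw [ih]
        ext z
        simp [derivedSet, AccPt]
      | limit α hα ih =>
        rw [eq_empty_iff_forall_notMem]
        intro z hz
        have := (mem_iter_limit hα).1 hz 0 (by simpa using hα.bot_lt)
        rw [iter_zero] at this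
        exact this
    have h7 := h3 h1
    rw [h6] at h7
    exact h7
  · obtain ⟨j, rfl⟩ : ∃ j, n = j + 1 := ⟨n - 1, by omega⟩
    have hjk : j < k := by omega
    have h2 : top D k e ∩ P ⊆ D j := by
      rintro y ⟨hy1, hy2⟩
      obtain ⟨i, _, hi, hyi⟩ := mem_top.1 hy1
      rw [hPn y hy2] at hi
      have : j = i := by
        push_cast at hi
        have : (j : ℝ) = i := by linarith
        exact_mod_cast this
      rw [this]; exact hyi
    have h3 : x ∈ D (j + 1) := hDs j (cb_mono h2 γ h1)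
    rcases Nat.lt_or_ge (j + 1) k with h4 | h4
    · have h5 := he.large (j + 1) h4 x h3
      rw [hn] at h5
      push_cast at h5
      linarith
    · have h5 : j + 1 = k := by omega
      rw [h5, hk] at h3
      exact h3

/-- removing an indicator which vanishes on the top part -/
lemma NatF.sub_idem {D : ℕ → Set K} {k : ℕ} {e : C(K, ℝ)} (he : NatF D k e) {q : C(K, ℝ)}
    (hq : Idem q) (hqt : ∀ x ∈ top D k e, q x = 0) (hqe : ∀ x, e x = 0 → q x = 0) :
    NatF D k (e - q) := by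
  constructor
  · intro x
    obtain ⟨n, hn1, hn⟩ := he.nat x
    rcases hq x with h | h
    · exact ⟨n, hn1, by simp [h, hn]⟩
    · have hn0 : n ≠ 0 := by
        rintro rfl
        have := hqe x (by simpa using hn)
        rw [h] at this
        exact one_ne_zero this
      refine ⟨n - 1, by omega, ?_⟩
      simp only [ContinuousMap.sub_apply, h, hn]
      rw [Nat.cast_sub (by omega)]
      simp
  · intro j hj x hx
    have h1 := he.large j hj x hx
    rcases hq x with h | h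
    · simpa [h] using h1
    · obtain ⟨n, hn1, hn⟩ := he.nat x
      have h2 : n ≠ j + 1 := by
        rintro rfl
        have := hqt x (mem_top.2 ⟨j, hj, by rw [hn]; push_cast; ring, hx⟩)
        rw [h] at this
        exact one_ne_zero this
      have h3 : j + 1 ≤ n := by
        rw [hn] at h1
        exact_mod_cast h1
      have h4 : j + 2 ≤ n := by omega
      simp only [ContinuousMap.sub_apply, h, hn]
      have : ((j + 2 : ℕ) : ℝ) ≤ n := by exact_mod_cast h4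
      push_cast at this
      linarith

end

section

variable {K : Type} [TopologicalSpace K] [CompactSpace K]

/-- the family of slopes -/
structure Slope (lam : Ordinal.{0}) (A : ℝ) (T : Ordinal.{0} → C(K, ℝ) → ℝ) : Prop where
  A0 : 0 ≤ A
  mono : ∀ ρ ≤ lam, ∀ u v : C(K, ℝ), 0 ≤ u → u ≤ v → T ρ u ≤ T ρ v
  sub : ∀ ρ ≤ lam, ∀ u v : C(K, ℝ), 0 ≤ u → 0 ≤ v → T ρ (u + v) ≤ T ρ u + T ρ v
  hom : ∀ ρ ≤ lam, ∀ (n : ℕ) (v : C(K, ℝ)), 0 ≤ v → n * T ρ v ≤ T ρ ((n : ℝ) • v)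
  bd : ∀ ρ ≤ lam, ∀ c : ℝ, 0 ≤ c → T ρ (ContinuousMap.const K c) ≤ A * c
  nonneg : ∀ ρ ≤ lam, ∀ v : C(K, ℝ), 0 ≤ v → 0 ≤ T ρ v
  anti : ∀ ρ σ, ρ ≤ σ → σ ≤ lam → ∀ v : C(K, ℝ), 0 ≤ v → T σ v ≤ T ρ v

variable {lam : Ordinal.{0}} {A : ℝ} {T : Ordinal.{0} → C(K, ℝ) → ℝ}

lemma Slope.le_norm (h : Slope lam A T) {ρ : Ordinal.{0}} (hρ : ρ ≤ lam) {v : C(K, ℝ)}
    (hv : 0 ≤ v) : T ρ v ≤ A * ‖v‖ := by
  refine (h.mono ρ hρ v (ContinuousMap.const K ‖v‖) hv ?_).trans (h.bd ρ hρ _ (norm_nonneg v))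
  intro x
  exact (le_abs_self _).trans (ContinuousMap.norm_coe_le_norm v x)

lemma Slope.zero (h : Slope lam A T) {ρ : Ordinal.{0}} (hρ : ρ ≤ lam) : T ρ 0 = 0 := by
  apply le_antisymm _ (h.nonneg ρ hρ 0 le_rfl)
  have := h.le_norm hρ (v := 0) le_rfl
  simpa using this

lemma Slope.nsmul (h : Slope lam A T) {ρ : Ordinal.{0}} (hρ : ρ ≤ lam) {v : C(K, ℝ)}
    (hv : 0 ≤ v) (n : ℕ) : T ρ ((n : ℝ) • v) ≤ n * T ρ v := by
  induction n with
  | zero => simp [h.zero hρ]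
  | succ n ih =>
    have h1 : ((n + 1 : ℕ) : ℝ) • v = (n : ℝ) • v + v := by
      push_cast; rw [add_smul, one_smul]
    rw [h1]
    have h2 := h.sub ρ hρ ((n : ℝ) • v) v (smul_nonneg (Nat.cast_nonneg n) hv) hv
    push_cast
    linarith

/-- the state of the recursion -/
structure St (T : Ordinal.{0} → C(K, ℝ) → ℝ) (lam : Ordinal.{0}) (δ : ℝ) (β ρ : Ordinal.{0})
    (v : C(K, ℝ)) (C : Set K) (t : ℝ) : Prop where
  le : ρ + wp β ≤ lam
  one : ∀ x, 1 ≤ v x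
  cl : IsClosed C
  em : cb C (wp β) = ∅
  up : ∀ q : C(K, ℝ), Idem q → (∀ x ∈ C, q x = 0) → T ρ (v + q) ≤ t
  lo : t - δ < T (ρ + wp β) v

lemma eventually_small_drop {a : ℕ → ℝ} (ha : Antitone a) {m : ℝ} (hm : ∀ i, m ≤ a i) {δ : ℝ}
    (hδ : 0 < δ) : ∀ᶠ i in atTop, a i - δ < a (i + 1) := by
  have hb : BddBelow (range a) := ⟨m, by rintro _ ⟨i, rfl⟩; exact hm i⟩
  have h1 := tendsto_atTop_ciInf ha hb
  filter_upwards [h1.eventually (gt_mem_nhds (lt_add_of_pos_right _ hδ))] with i hi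
  have h2 : ⨅ j, a j ≤ a (i + 1) := ciInf_le hb _
  linarith

/-- the supremum over all functions `b v - e` -/
noncomputable def sv (T : Ordinal.{0} → C(K, ℝ) → ℝ) (D : ℕ → Set K) (k : ℕ) (v : C(K, ℝ))
    (ρ : Ordinal.{0}) (b : ℕ) : ℝ :=
  sSup {r | ∃ e : C(K, ℝ), NatF D k e ∧ r = T ρ ((b : ℝ) • v - e)}

variable {D : ℕ → Set K} {k : ℕ} {v : C(K, ℝ)}

lemma sub_nonneg' (hv : ∀ x, 1 ≤ v x) {b : ℕ} (hb : k ≤ b) {e : C(K, ℝ)} (he : NatF D k e) :
    0 ≤ (b : ℝ) • v - e := by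
  intro x
  have h1 := he.le x
  have h2 := hv x
  have h3 : (k : ℝ) ≤ b := by exact_mod_cast hb
  change (0 : ℝ) ≤ (b : ℝ) * v x - e x
  have h4 : (b : ℝ) * 1 ≤ b * v x := by gcongr
  linarith

lemma sub_le' {b : ℕ} {e : C(K, ℝ)} (he : NatF D k e) : (b : ℝ) • v - e ≤ (b : ℝ) • v := by
  intro x
  have h1 := he.nonneg x
  change (b : ℝ) * v x - e x ≤ (b : ℝ) * v x
  linarith

lemma one_nonneg (hv : ∀ x, 1 ≤ v x) : 0 ≤ v := fun x => by
  have := hv x
  change (0 : ℝ) ≤ v x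
  linarith

lemma sv_nonempty (T : Ordinal.{0} → C(K, ℝ) → ℝ) (D : ℕ → Set K) (k : ℕ) (v : C(K, ℝ))
    (ρ : Ordinal.{0}) (b : ℕ) :
    {r | ∃ e : C(K, ℝ), NatF D k e ∧ r = T ρ ((b : ℝ) • v - e)}.Nonempty :=
  ⟨_, ContinuousMap.const K (k : ℝ), NatF.const D k, rfl⟩

lemma bddAbove_sv (h : Slope lam A T) (hv : ∀ x, 1 ≤ v x) {ρ : Ordinal.{0}} (hρ : ρ ≤ lam) {b : ℕ}
    (hb : k ≤ b) : BddAbove {r | ∃ e : C(K, ℝ), NatF D k e ∧ r = T ρ ((b : ℝ) • v - e)} := by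
  refine ⟨T ρ ((b : ℝ) • v), ?_⟩
  rintro r ⟨e, he, rfl⟩
  exact h.mono ρ hρ _ _ (sub_nonneg' hv hb he) (sub_le' he)

lemma le_sv (h : Slope lam A T) (hv : ∀ x, 1 ≤ v x) {ρ : Ordinal.{0}} (hρ : ρ ≤ lam) {b : ℕ}
    (hb : k ≤ b) {e : C(K, ℝ)} (he : NatF D k e) : T ρ ((b : ℝ) • v - e) ≤ sv T D k v ρ b :=
  le_csSup (bddAbove_sv h hv hρ hb) ⟨e, he, rfl⟩

lemma exists_lt_sv {ρ : Ordinal.{0}} {b : ℕ}
    {r : ℝ} (hr : r < sv T D k v ρ b) : ∃ e : C(K, ℝ), NatF D k e ∧ r < T ρ ((b : ℝ) • v - e) := by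
  obtain ⟨s, ⟨e, he, rfl⟩, hs⟩ := exists_lt_of_lt_csSup (sv_nonempty T D k v ρ b) hr
  exact ⟨e, he, hs⟩

lemma sv_le (h : Slope lam A T) (hv : ∀ x, 1 ≤ v x) {ρ : Ordinal.{0}} (hρ : ρ ≤ lam) {b : ℕ}
    (hb : k ≤ b) : sv T D k v ρ b ≤ T ρ ((b : ℝ) • v) := by
  apply csSup_le (sv_nonempty T D k v ρ b)
  rintro r ⟨e, he, rfl⟩
  exact h.mono ρ hρ _ _ (sub_nonneg' hv hb he) (sub_le' he)

lemma sv_anti (h : Slope lam A T) (hv : ∀ x, 1 ≤ v x) {ρ σ : Ordinal.{0}} (hρσ : ρ ≤ σ)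
    (hσ : σ ≤ lam) {b : ℕ} (hb : k ≤ b) : sv T D k v σ b ≤ sv T D k v ρ b := by
  apply csSup_le (sv_nonempty T D k v σ b)
  rintro r ⟨e, he, rfl⟩
  exact (h.anti ρ σ hρσ hσ _ (sub_nonneg' hv hb he)).trans (le_sv h hv (hρσ.trans hσ) hb he)

lemma sv_nonneg (h : Slope lam A T) (hv : ∀ x, 1 ≤ v x) {ρ : Ordinal.{0}} (hρ : ρ ≤ lam) {b : ℕ}
    (hb : k ≤ b) : 0 ≤ sv T D k v ρ b :=
  (h.nonneg ρ hρ _ (sub_nonneg' hv hb (NatF.const D k))).trans (le_sv h hv hρ hb (NatF.const D k))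

end

end Pool.Agent.K9h24.Sz
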