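import Pool.Agent.K9h24.SzB

/-!
# The localisation lemma: recursion
-/

set_option autoImplicit false

open Set Filter Topology

namespace Pool.Agent.K9h24.Sz

lemma wp_mul_le {β' β : Ordinal.{0}} (h : β' < β) (i : ℕ) : wp β' * i ≤ wp β := by
  have h1 : wp β' * (i : Ordinal.{0}) ≤ wp β' * Ordinal.omega0 := by
    gcongr
    exact (Ordinal.natCast_lt_omega0 i).le
  have h2 : wp β' * Ordinal.omega0 = wp (β' + 1) := by
    unfold wp
    rw [Ordinal.opow_add, Ordinal.opow_one]
  have h3 : wp (β' + 1) ≤ wp β := by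
    unfold wp
    exact Ordinal.opow_le_opow_right Ordinal.omega0_pos (Order.add_one_le_of_lt h)
  exact h1.trans (h2.le.trans h3)

lemma wp_mul_succ (β : Ordinal.{0}) (i : ℕ) : wp β * ((i + 1 : ℕ) : Ordinal.{0}) =
    wp β * i + wp β := by
  push_cast
  rw [mul_add, mul_one]

variable {K : Type} [TopologicalSpace K] [CompactSpace K] [T2Space K]
variable {lam : Ordinal.{0}} {A : ℝ} {T : Ordinal.{0} → C(K, ℝ) → ℝ}

/-- the truncation `min e 1` -/
lemma min_idem {D : ℕ → Set K} {k : ℕ} {e : C(K, ℝ)} (he : NatF D k e) :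
    ∀ x, (e ⊓ 1) x = 0 ∨ (e ⊓ 1) x = 1 := by
  intro x
  obtain ⟨n, _, hn⟩ := he.nat x
  rw [ContinuousMap.inf_apply, hn]
  rcases Nat.eq_zero_or_pos n with h | h
  · left; simp [h]
  · right
    have : (1 : ℝ) ≤ n := by exact_mod_cast h
    simpa using this

lemma cb_D_step {C : Set K} (hC : IsClosed C) (β : Ordinal.{0}) (j : ℕ) :
    cb (cb C (wp β * j)) (wp β) ⊆ cb C (wp β * ((j + 1 : ℕ) : Ordinal.{0})) := by
  rw [wp_mul_succ, cb_add hC]

lemma step (h : Slope lam A T) {δ : ℝ} {β ρ : Ordinal.{0}} {v : C(K, ℝ)}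
    {C : Set K} {t : ℝ} (hs : St T lam δ β ρ v C t) {β' : Ordinal.{0}} (hβ' : β' < β) {k : ℕ}
    (hk : 1 ≤ k) (hC : cb C (wp β' * k) = ∅) :
    ∃ (ρ' : Ordinal.{0}) (v' : C(K, ℝ)) (C' : Set K) (t' : ℝ), St T lam δ β' ρ' v' C' t' := by
  set D : ℕ → Set K := fun j => cb C (wp β' * j) with hD
  have hDc : ∀ j, IsClosed (D j) := fun j => cb_closed hs.cl _
  have hDs : ∀ j, cb (D j) (wp β') ⊆ D (j + 1) := fun j => cb_D_step hs.cl β' j
  have hD0 : D 0 = C := by simp [hD, cb]
  set r : ℕ → Ordinal.{0} := fun i => ρ + wp β' * i with hr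
  have hr1 : ∀ i, r i ≤ ρ + wp β := fun i => by
    rw [hr]
    exact (add_le_add_iff_left ρ).2 (wp_mul_le hβ' i)
  have hrl : ∀ i, r i ≤ lam := fun i => (hr1 i).trans hs.le
  have hρl : ρ ≤ lam := le_self_add.trans hs.le
  have hrρ : ∀ i, ρ ≤ r i := fun i => le_self_add
  have hrm : ∀ i j, i ≤ j → r i ≤ r j := by
    intro i j hij
    rw [hr]
    have : (i : Ordinal.{0}) ≤ j := by exact_mod_cast hij
    exact (add_le_add_iff_left ρ).2 (by gcongr)
  have hrs : ∀ i, r (i + 1) = r i + wp β' := by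
    intro i
    simp only [hr]
    rw [wp_mul_succ, add_assoc]
  have hv := hs.one
  have hv0 : 0 ≤ v := one_nonneg hv
  set η : ℝ := t - T (ρ + wp β) v with hη
  have hηδ : η < δ := by have := hs.lo; linarith
  have hTt : T ρ v ≤ t := by
    have := hs.up 0 Idem.zero (fun x _ => rfl)
    simpa using this
  have hη0 : 0 ≤ η := by
    have h1 := h.anti ρ (ρ + wp β) le_self_add hs.le v hv0
    linarith
  have hTlo : ∀ i, t - η ≤ T (r i) v := by
    intro i
    have h1 := h.anti (r i) (ρ + wp β) (hr1 i) hs.le v hv0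
    linarith
  have hThi : ∀ i, T (r i) v ≤ t := fun i => (h.anti ρ (r i) (hrρ i) (hrl i) v hv0).trans hTt
  set δ' : ℝ := (δ - η) / 2 with hδ'
  have hδ'0 : 0 < δ' := by rw [hδ']; linarith
  obtain ⟨M, hM⟩ := exists_nat_gt ((((k + 1 : ℕ) : ℝ) * η + A * k) / δ')
  rw [div_lt_iff₀ hδ'0] at hM
  -- the choice of `i`
  have hev : ∀ᶠ i in atTop, ∀ m ∈ Finset.range (M + 1),
      sv T D k v (r i) (k + 1 + m) - δ' < sv T D k v (r (i + 1)) (k + 1 + m) := by
    rw [Filter.eventually_all_finset]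
    intro m _
    apply eventually_small_drop (a := fun i => sv T D k v (r i) (k + 1 + m)) (m := 0)
    · intro i j hij
      exact sv_anti h hv (hrm i j hij) (hrl j) (by omega)
    · intro i
      exact sv_nonneg h hv (hrl i) (by omega)
    · exact hδ'0
  obtain ⟨i, hi⟩ := hev.exists
  -- the choice of `b`
  have hb : ∃ m < M, sv T D k v (r i) (k + 1 + m) + (t - η - δ') ≤
      sv T D k v (r i) (k + 1 + m + 1) := by
    by_contra hcon
    push Not at hcon
    have h1 : ∀ m ≤ M, sv T D k v (r i) (k + 1 + m) ≤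
        sv T D k v (r i) (k + 1) + m * (t - η - δ') := by
      intro m
      induction m with
      | zero => intro _; simp
      | succ m ih =>
        intro hm
        have h2 := ih (by omega)
        have h3 := hcon m (by omega)
        push_cast
        rw [← add_assoc]
        linarith
    have h2 := h1 M le_rfl
    have h3 : sv T D k v (r i) (k + 1) ≤ ((k + 1 : ℕ) : ℝ) * t := by
      have h4 := sv_le h hv (D := D) (hrl i) (k := k) (b := k + 1) (by omega)
      have h5 := h.nsmul (hrl i) hv0 (k + 1)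
      have h6 : ((k + 1 : ℕ) : ℝ) * T (r i) v ≤ ((k + 1 : ℕ) : ℝ) * t := by
        gcongr
        exact hThi i
      linarith
    have h4 : ((k + 1 + M : ℕ) : ℝ) * (t - η) - A * k ≤ sv T D k v (r i) (k + 1 + M) := by
      have h5 := le_sv h hv (hrl i) (show k ≤ k + 1 + M by omega) (NatF.const D k)
      have h6 := h.sub (r i) (hrl i) (((k + 1 + M : ℕ) : ℝ) • v - ContinuousMap.const K (k : ℝ))
        (ContinuousMap.const K (k : ℝ)) (sub_nonneg' hv (by omega) (NatF.const D k))
        (fun x => by change (0 : ℝ) ≤ (k : ℝ); positivity)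
      rw [sub_add_cancel] at h6
      have h7 := h.bd (r i) (hrl i) k (by positivity)
      have h8 := h.hom (r i) (hrl i) (k + 1 + M) v hv0
      have h9 : ((k + 1 + M : ℕ) : ℝ) * (t - η) ≤ ((k + 1 + M : ℕ) : ℝ) * T (r i) v := by
        gcongr
        exact hTlo i
      linarith
    push_cast at h2 h3 h4 hM
    nlinarith
  obtain ⟨m, hm, hbm⟩ := hb
  set b : ℕ := k + 1 + m with hbdef
  have hi' := hi (m + 1) (by rw [Finset.mem_range]; omega)
  rw [← add_assoc, ← hbdef] at hi'
  set t' : ℝ := sv T D k v (r i) b + t with ht'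
  have hlt : t' - δ < sv T D k v (r (i + 1)) (b + 1) := by
    have : η + 2 * δ' = δ := by rw [hδ']; ring
    linarith
  obtain ⟨e, he, hel⟩ := exists_lt_sv hlt
  refine ⟨r i, ((b + 1 : ℕ) : ℝ) • v - e, top D k e, t', ?_, ?_, ?_, ?_, ?_, ?_⟩
  · rw [← hrs]
    exact hrl _
  · intro x
    have h1 := he.le x
    have h2 := hv x
    have h3 : (k : ℝ) + 1 ≤ ((b + 1 : ℕ) : ℝ) := by
      have : k + 1 ≤ b + 1 := by omega
      exact_mod_cast this
    change (1 : ℝ) ≤ ((b + 1 : ℕ) : ℝ) * v x - e x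
    have h4 : ((b + 1 : ℕ) : ℝ) * 1 ≤ ((b + 1 : ℕ) : ℝ) * v x := by gcongr
    linarith
  · exact top_closed hDc k e
  · exact top_cb hDs hC he
  · intro q hq hqt
    have hmin := min_idem he
    set qa : C(K, ℝ) := q * (e ⊓ 1) with hqa
    set qb : C(K, ℝ) := q * (1 - (e ⊓ 1)) with hqb
    have hqaI : Idem qa := by
      intro x
      rw [hqa, ContinuousMap.mul_apply]
      rcases hq x with h1 | h1 <;> rcases hmin x with h2 | h2 <;> simp [h1, h2]
    have hqbI : Idem qb := by
      intro x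
      rw [hqb, ContinuousMap.mul_apply, ContinuousMap.sub_apply]
      rcases hq x with h1 | h1 <;> rcases hmin x with h2 | h2 <;> simp [h1, h2]
    have he' : NatF D k (e - qa) := by
      apply he.sub_idem hqaI
      · intro x hx
        rw [hqa, ContinuousMap.mul_apply, hqt x hx, zero_mul]
      · intro x hx
        rw [hqa, ContinuousMap.mul_apply, ContinuousMap.inf_apply, hx]
        simp
    have hqb0 : ∀ x ∈ C, qb x = 0 := by
      intro x hx
      have h1 := he.large 0 (by omega) x (by rw [hD0]; exact hx)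
      rw [hqb, ContinuousMap.mul_apply, ContinuousMap.sub_apply, ContinuousMap.inf_apply]
      have h2 : e x ⊓ (1 : C(K, ℝ)) x = 1 := by
        rw [ContinuousMap.one_apply]
        apply inf_eq_right.2
        simpa using h1
      rw [h2]
      simp
    have hsum : ((b + 1 : ℕ) : ℝ) • v - e + q = ((b : ℝ) • v - (e - qa)) + (v + qb) := by
      ext x
      simp only [hqa, hqb, ContinuousMap.add_apply, ContinuousMap.sub_apply,
        ContinuousMap.smul_apply, ContinuousMap.mul_apply, smul_eq_mul, ContinuousMap.one_apply]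
      push_cast
      ring
    rw [hsum]
    have h1 := h.sub (r i) (hrl i) ((b : ℝ) • v - (e - qa)) (v + qb)
      (sub_nonneg' hv (by omega) he') (add_nonneg hv0 hqbI.nonneg)
    have h2 := le_sv h hv (hrl i) (show k ≤ b by omega) he'
    have h3 := h.anti ρ (r i) (hrρ i) (hrl i) (v + qb) (add_nonneg hv0 hqbI.nonneg)
    have h4 := hs.up qb hqbI hqb0
    linarith
  · rw [← hrs]
    exact hel

lemma start (h : Slope lam A T) {δ : ℝ} (hδ : 0 < δ) {β : Ordinal.{0}} (hβ : wp (β + 1) ≤ lam)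
    {k : ℕ} (hk : 1 ≤ k) (hC : cb (univ : Set K) (wp β * k) = ∅) :
    ∃ (ρ' : Ordinal.{0}) (v' : C(K, ℝ)) (C' : Set K) (t' : ℝ), St T lam δ β ρ' v' C' t' := by
  set D : ℕ → Set K := fun j => cb univ (wp β * j) with hD
  have hDc : ∀ j, IsClosed (D j) := fun j => cb_closed isClosed_univ _
  have hDs : ∀ j, cb (D j) (wp β) ⊆ D (j + 1) := fun j => cb_D_step isClosed_univ β j
  have hD0 : D 0 = univ := by simp [hD, cb]
  set r : ℕ → Ordinal.{0} := fun i => wp β * i with hr
  have hrl : ∀ i, r i ≤ lam := fun i => (wp_mul_le (Order.lt_add_one_iff.2 le_rfl) i).trans hβ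
  have hrm : ∀ i j, i ≤ j → r i ≤ r j := by
    intro i j hij
    rw [hr]
    have : (i : Ordinal.{0}) ≤ j := by exact_mod_cast hij
    change wp β * (i : Ordinal.{0}) ≤ wp β * (j : Ordinal.{0})
    gcongr
  have hrs : ∀ i, r (i + 1) = r i + wp β := by
    intro i
    simp only [hr]
    rw [wp_mul_succ]
  set v : C(K, ℝ) := 1 with hvdef
  have hv : ∀ x, 1 ≤ v x := fun x => by rw [hvdef]; simp
  have hev : ∀ᶠ i in atTop, sv T D k v (r i) (k + 1) - δ < sv T D k v (r (i + 1)) (k + 1) := by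
    apply eventually_small_drop (a := fun i => sv T D k v (r i) (k + 1)) (m := 0)
    · intro i j hij
      exact sv_anti h hv (hrm i j hij) (hrl j) (by omega)
    · intro i
      exact sv_nonneg h hv (hrl i) (by omega)
    · exact hδ
  obtain ⟨i, hi⟩ := hev.exists
  obtain ⟨e, he, hel⟩ := exists_lt_sv hi
  refine ⟨r i, ((k + 1 : ℕ) : ℝ) • v - e, top D k e, sv T D k v (r i) (k + 1), ?_, ?_, ?_, ?_, ?_, ?_⟩
  · rw [← hrs]
    exact hrl _
  · intro x
    have h1 := he.le x
    change (1 : ℝ) ≤ ((k + 1 : ℕ) : ℝ) * v x - e x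
    rw [hvdef, ContinuousMap.one_apply]
    push_cast
    linarith
  · exact top_closed hDc k e
  · exact top_cb hDs hC he
  · intro q hq hqt
    have he' : NatF D k (e - q) := by
      apply he.sub_idem hq hqt
      intro x hx
      have h1 := he.large 0 (by omega) x (by rw [hD0]; exact mem_univ x)
      rw [hx] at h1
      norm_num at h1
    have hsum : ((k + 1 : ℕ) : ℝ) • v - e + q = ((k + 1 : ℕ) : ℝ) • v - (e - q) := by
      ring
    rw [hsum]
    exact le_sv h hv (hrl i) (by omega) he'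
  · rw [← hrs]
    exact hel

lemma reach (h : Slope lam A T) {δ : ℝ} (β : Ordinal.{0}) :
    ∀ (ρ : Ordinal.{0}) (v : C(K, ℝ)) (C : Set K) (t : ℝ), St T lam δ β ρ v C t →
    ∃ (ρ' : Ordinal.{0}) (v' : C(K, ℝ)) (C' : Set K) (t' : ℝ), St T lam δ 0 ρ' v' C' t' := by
  induction β using WellFoundedLT.induction with
  | _ β ih =>
    intro ρ v C t hs
    rcases eq_or_ne β 0 with h0 | h0
    · subst h0
      exact ⟨ρ, v, C, t, hs⟩
    · have hlim : Order.IsSuccLimit (wp β) := Ordinal.isSuccLimit_opow_left Ordinal.isSuccLimit_omega0 h0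
      obtain ⟨θ, hθ, hθC⟩ := exists_lt_of_cb_limit hs.cl hlim hs.em
      obtain ⟨c, hc, n, hn⟩ := (Ordinal.lt_omega0_opow h0).1 hθ
      have hn1 : 1 ≤ n := by
        rcases Nat.eq_zero_or_pos n with h1 | h1
        · rw [h1] at hn
          simp at hn
        · exact h1
      have hcC : cb C (wp c * n) = ∅ := by
        rw [← subset_empty_iff, ← hθC]
        exact cb_anti hs.cl hn.le
      obtain ⟨ρ', v', C', t', hs'⟩ := step h hs hc hn1 hcC
      exact ih c hc ρ' v' C' t' hs'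

/-- **Localisation lemma.** -/
theorem localisation (h : Slope lam A T) {δ : ℝ} (hδ : 0 < δ) {β : Ordinal.{0}}
    (hβ : wp (β + 1) ≤ lam) (hK : cb (univ : Set K) (wp (β + 1)) = ∅) :
    ∃ (ρ : Ordinal.{0}) (v : C(K, ℝ)) (C : Set K) (t : ℝ), ρ + 1 ≤ lam ∧ (∀ x, 1 ≤ v x) ∧
      C.Finite ∧ (∀ q : C(K, ℝ), Idem q → (∀ x ∈ C, q x = 0) → T ρ (v + q) ≤ t) ∧
      t - δ < T (ρ + 1) v := by
  have hlim : Order.IsSuccLimit (wp (β + 1)) :=
    Ordinal.isSuccLimit_opow_left Ordinal.isSuccLimit_omega0 (by simp)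
  obtain ⟨θ, hθ, hθC⟩ := exists_lt_of_cb_limit isClosed_univ hlim hK
  have h1 : θ < Ordinal.omega0 ^ Order.succ β := hθ
  obtain ⟨n, hn⟩ := Ordinal.lt_omega0_opow_succ.1 h1
  have hcC : cb (univ : Set K) (wp β * ((n + 1 : ℕ) : Ordinal.{0})) = ∅ := by
    rw [← subset_empty_iff, ← hθC]
    apply cb_anti isClosed_univ
    refine hn.le.trans ?_
    rw [wp_mul_succ]
    exact le_self_add
  obtain ⟨ρ1, v1, C1, t1, hs1⟩ := start h hδ hβ (show 1 ≤ n + 1 by omega) hcC
  obtain ⟨ρ, v, C, t, hs⟩ := reach h β ρ1 v1 C1 t1 hs1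
  have hw : wp 0 = 1 := by unfold wp; simp
  refine ⟨ρ, v, C, t, ?_, hs.one, ?_, hs.up, ?_⟩
  · have := hs.le
    rwa [hw] at this
  · apply finite_of_derivedSet_empty
    have h2 := hs.em
    rw [hw, cb, show (1 : Ordinal.{0}) = 0 + 1 by simp, iter_add_one, iter_zero] at h2
    exact h2
  · have := hs.lo
    rwa [hw] at this

end Pool.Agent.K9h24.Sz
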