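import Pool.Agent.K9h24.SzC

/-!
# Order-preserving bi-Lipschitz embeddings do not decrease the height
-/

set_option autoImplicit false

open Set Filter Topology

namespace Pool.Agent.K9h24.Sz

section

variable {K : Type} [TopologicalSpace K]

/-- the indicator of a clopen set -/
noncomputable def ind (V : Set K) (hV : IsClopen V) : C(K, ℝ) :=
  ⟨V.indicator (fun _ => 1), hV.continuous_indicator continuous_const⟩

lemma ind_of_mem {V : Set K} (hV : IsClopen V) {x : K} (h : x ∈ V) : ind V hV x = 1 := by
  change V.indicator (fun _ => (1 : ℝ)) x = _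
  rw [indicator_of_mem h]

lemma ind_of_notMem {V : Set K} (hV : IsClopen V) {x : K} (h : x ∉ V) : ind V hV x = 0 := by
  change V.indicator (fun _ => (1 : ℝ)) x = _
  rw [indicator_of_notMem h]

lemma ind_idem (V : Set K) (hV : IsClopen V) : Idem (ind V hV) := by
  intro x
  by_cases h : x ∈ V
  · right; exact ind_of_mem hV h
  · left; exact ind_of_notMem hV h

end

variable {K L : Type} [TopologicalSpace K] [CompactSpace K] [TopologicalSpace L] [CompactSpace L]

/-- an order-preserving Lipschitz embedding -/
structure Emb (F : C(K, ℝ) → C(L, ℝ)) (a A : ℝ) : Prop where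
  a0 : 0 < a
  A0 : 0 < A
  mono : ∀ f g : C(K, ℝ), f ≤ g → F f ≤ F g
  lip : ∀ f g : C(K, ℝ), ‖F f - F g‖ ≤ A * ‖f - g‖
  low : ∀ f g : C(K, ℝ), a * ‖f - g‖ ≤ ‖F f - F g‖

variable {F : C(K, ℝ) → C(L, ℝ)} {a A : ℝ}

lemma Emb.lip_apply (h : Emb F a A) (f g : C(K, ℝ)) (y : L) : F f y - F g y ≤ A * ‖f - g‖ := by
  have h1 := ContinuousMap.norm_coe_le_norm (F f - F g) y
  have h2 := h.lip f g
  rw [ContinuousMap.sub_apply, Real.norm_eq_abs] at h1
  exact (le_abs_self _).trans (h1.trans h2)

lemma norm_le_of_abs {f : C(K, ℝ)} {c : ℝ} (hc : 0 ≤ c) (h : ∀ x, |f x| ≤ c) : ‖f‖ ≤ c :=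
  (ContinuousMap.norm_le f hc).2 h

variable [T2Space K] [Countable K] [T2Space L]

theorem grow (h : Emb F a A) (γ : Ordinal.{0}) :
    ∀ (f : C(K, ℝ)) (t : ℝ) (q : C(K, ℝ)), 0 < t → Idem q →
      (∃ x ∈ cb (univ : Set K) γ, q x = 1) →
      ∃ y ∈ cb (univ : Set L) γ, a * t ≤ F (f + t • q) y - F f y := by
  classical
  have hclosed : ∀ (f g : C(K, ℝ)) (s : ℝ), IsClosed {y : L | s ≤ F g y - F f y} := by
    intro f g s
    exact isClosed_le continuous_const ((F g).continuous.sub (F f).continuous)
  induction γ using Ordinal.limitRecOn with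
  | zero =>
    intro f t q ht hq ⟨x, _, hx⟩
    by_contra hcon
    push Not at hcon
    have hcon' : ∀ y : L, F (f + t • q) y - F f y < a * t := fun y => hcon y (by simp [cb])
    have h1 : ‖F (f + t • q) - F f‖ < a * t := by
      rw [ContinuousMap.norm_lt_iff _ (mul_pos h.a0 ht)]
      intro y
      have h2 : F f ≤ F (f + t • q) := h.mono _ _ (le_add_of_nonneg_right
        (smul_nonneg ht.le hq.nonneg))
      have h3 : F f y ≤ F (f + t • q) y := h2 y
      rw [ContinuousMap.sub_apply, Real.norm_eq_abs, abs_of_nonneg (by linarith)]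
      exact hcon' y
    have h2 := h.low (f + t • q) f
    have h3 : t ≤ ‖(f + t • q) - f‖ := by
      have h4 := ContinuousMap.norm_coe_le_norm ((f + t • q) - f) x
      rw [add_sub_cancel_left] at h4 ⊢
      rw [ContinuousMap.smul_apply, hx, smul_eq_mul, mul_one, Real.norm_eq_abs,
        abs_of_pos ht] at h4
      exact h4
    have h4 : a * t ≤ a * ‖(f + t • q) - f‖ := mul_le_mul_of_nonneg_left h3 h.a0.le
    linarith
  | add_one γ ih =>
    intro f t q ht hq ⟨x, hxγ, hx⟩
    set S : Set L := {y : L | a * t ≤ F (f + t • q) y - F f y} ∩ cb univ γ with hS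
    have hSc : IsClosed S := (hclosed _ _ _).inter (cb_closed isClosed_univ γ)
    -- the set `S` is infinite
    have hinf : S.Infinite := by
      intro hfin
      obtain ⟨N, hN⟩ := exists_nat_gt (hfin.toFinset.card * A / a)
      rw [div_lt_iff₀ h.a0] at hN
      have hU : IsOpen {z : K | q z = 1} := by
        have : {z : K | q z = 1} = q ⁻¹' (Ioi (1 / 2)) := by
          ext z
          simp only [mem_ofPred_eq, mem_preimage, mem_Ioi]
          rcases hq z with h1 | h1 <;> rw [h1] <;> norm_num
        rw [this]
        exact isOpen_Ioi.preimage q.continuous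
      have hacc : AccPt x (𝓟 (cb (univ : Set K) γ)) := by
        rw [cb, iter_add_one] at hxγ
        exact hxγ
      have hinfK : ({z : K | q z = 1} ∩ cb univ γ).Infinite := by
        intro hf
        rw [accPt_iff_nhds] at hacc
        have h1 : IsOpen ({z : K | q z = 1} ∩ (({z : K | q z = 1} ∩ cb univ γ) \ {x})ᶜ) :=
          hU.inter ((hf.subset sdiff_subset).isClosed.isOpen_compl)
        obtain ⟨z, ⟨⟨hz1, hz2⟩, hz3⟩, hz4⟩ := hacc _ (h1.mem_nhds ⟨hx, fun h2 => h2.2 rfl⟩)
        exact hz2 ⟨⟨hz1, hz3⟩, hz4⟩
      obtain ⟨xs, hxs⟩ : ∃ xs : Fin N → K, Function.Injective xs ∧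
          ∀ i, xs i ∈ {z : K | q z = 1} ∩ cb univ γ := by
        obtain ⟨s, hs1, hs2⟩ := hinfK.exists_subset_card_eq N
        refine ⟨fun i => (s.equivFin.symm (Fin.cast hs2.symm i)).1, ?_, ?_⟩
        · intro i j hij
          have h1 := Subtype.ext hij
          have h2 := s.equivFin.symm.injective h1
          exact Fin.cast_injective _ h2
        · intro i
          exact hs1 (s.equivFin.symm (Fin.cast hs2.symm i)).2
      obtain ⟨V, hVc, hxV, hVU, hVd⟩ := exists_disjoint_clopens N xs hxs.1 hU
        (fun i => (hxs.2 i).1)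
      set p : ℕ → C(K, ℝ) := fun i => if hi : i < N then ind (V ⟨i, hi⟩) (hVc ⟨i, hi⟩) else 0
        with hp
      have hpI : ∀ i, Idem (p i) := by
        intro i
        simp only [hp]
        split_ifs with hi
        · exact ind_idem _ _
        · exact Idem.zero
      set g : ℕ → C(K, ℝ) := fun n => f + t • ∑ i ∈ Finset.range n, p i with hg
      have hgs : ∀ n, g (n + 1) = g n + t • p n := by
        intro n
        simp only [hg]
        rw [Finset.sum_range_succ, smul_add, add_assoc]
      have hsum01 : ∀ n ≤ N, ∀ z : K, (∑ i ∈ Finset.range n, p i) z ≤ q z := by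
        intro n hn z
        rw [ContinuousMap.sum_apply]
        by_cases hz : ∃ i : Fin N, z ∈ V i
        · obtain ⟨i, hi⟩ := hz
          have hqz : q z = 1 := hVU i hi
          rw [hqz]
          have h1 : ∀ j ∈ Finset.range n, j ≠ i.1 → p j z = 0 := by
            intro j hj hji
            rw [Finset.mem_range] at hj
            simp only [hp]
            rw [dif_pos (show j < N by omega)]
            apply ind_of_notMem
            intro hzj
            have hne : (⟨j, by omega⟩ : Fin N) ≠ i := fun h2 => hji (congrArg Fin.val h2)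
            exact (Set.disjoint_left.1 (hVd _ _ hne)) hzj hi
          by_cases hin : i.1 ∈ Finset.range n
          · rw [Finset.sum_eq_single_of_mem i.1 hin h1]
            rcases hpI i.1 z with h2 | h2 <;> rw [h2] <;> norm_num
          · rw [Finset.sum_eq_zero]
            · norm_num
            · intro j hj
              apply h1 j hj
              rintro rfl
              exact hin hj
        · push Not at hz
          rw [Finset.sum_eq_zero]
          · exact hq.nonneg z
          · intro j hj
            rw [Finset.mem_range] at hj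
            simp only [hp]
            rw [dif_pos (show j < N by omega)]
            exact ind_of_notMem _ (hz _)
      have hsum0 : ∀ n, ∀ z : K, 0 ≤ (∑ i ∈ Finset.range n, p i) z := by
        intro n z
        rw [ContinuousMap.sum_apply]
        exact Finset.sum_nonneg (fun i _ => (hpI i).nonneg z)
      -- the points
      have hy : ∀ n : ℕ, ∃ y : L, n < N → (y ∈ cb (univ : Set L) γ ∧
          a * t ≤ F (g (n + 1)) y - F (g n) y) := by
        intro n
        by_cases hn : n < N
        · obtain ⟨y, hy1, hy2⟩ := ih (g n) t (p n) ht (hpI n) ⟨xs ⟨n, hn⟩, (hxs.2 ⟨n, hn⟩).2, by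
            simp only [hp]
            rw [dif_pos hn]
            exact ind_of_mem _ (hxV _)⟩
          exact ⟨y, fun _ => ⟨hy1, by rw [hgs]; exact hy2⟩⟩
        · obtain ⟨y, _, _⟩ := ih f t q ht hq ⟨x, cb_anti isClosed_univ (by simp) hxγ, hx⟩
          exact ⟨y, fun h1 => absurd h1 hn⟩
      choose y hy using hy
      have hgmono : ∀ n, F (g n) ≤ F (g (n + 1)) := by
        intro n
        rw [hgs]
        exact h.mono _ _ (le_add_of_nonneg_right (smul_nonneg ht.le (hpI n).nonneg))
      have hgm : Monotone (fun n => F (g n)) := monotone_nat_of_le_succ hgmono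
      have hyS : ∀ n ∈ Finset.range N, y n ∈ hfin.toFinset := by
        intro n hn
        rw [Finset.mem_range] at hn
        rw [Set.Finite.mem_toFinset]
        obtain ⟨h1, h2⟩ := hy n hn
        refine ⟨?_, h1⟩
        have h3 : F (g 0) (y n) ≤ F (g n) (y n) := hgm (Nat.zero_le n) (y n)
        have h4 : g (n + 1) ≤ f + t • q := by
          simp only [hg]
          intro z
          change f z + t * (∑ i ∈ Finset.range (n + 1), p i) z ≤ f z + t * q z
          have := hsum01 (n + 1) (by omega) z
          nlinarith
        have h5 : F (g (n + 1)) (y n) ≤ F (f + t • q) (y n) := h.mono _ _ h4 (y n)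
        have h6 : g 0 = f := by simp [hg]
        rw [h6] at h3
        change a * t ≤ F (f + t • q) (y n) - F f (y n)
        linarith
      -- counting
      have hfib : ∀ z ∈ hfin.toFinset,
          (((Finset.range N).filter (fun n => y n = z)).card : ℝ) * (a * t) ≤ A * t := by
        intro z _
        have h1 : ∑ n ∈ Finset.range N, (F (g (n + 1)) z - F (g n) z) = F (g N) z - F (g 0) z :=
          Finset.sum_range_sub (fun n => F (g n) z) N
        have h2 : (((Finset.range N).filter (fun n => y n = z)).card : ℝ) * (a * t) ≤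
            ∑ n ∈ Finset.range N, (F (g (n + 1)) z - F (g n) z) := by
          have h3 : (((Finset.range N).filter (fun n => y n = z)).card : ℝ) * (a * t) =
              ∑ n ∈ (Finset.range N).filter (fun n => y n = z), (a * t) := by
            rw [Finset.sum_const, nsmul_eq_mul]
          rw [h3]
          refine (Finset.sum_le_sum ?_).trans
            (Finset.sum_le_sum_of_subset_of_nonneg (Finset.filter_subset _ _) ?_)
          · intro n hn
            rw [Finset.mem_filter, Finset.mem_range] at hn
            have := (hy n hn.1).2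
            rw [hn.2] at this
            exact this
          · intro n _ _
            have h4 : F (g n) z ≤ F (g (n + 1)) z := hgmono n z
            linarith
        have h4 : F (g N) z - F (g 0) z ≤ A * ‖g N - g 0‖ := h.lip_apply _ _ z
        have h5 : ‖g N - g 0‖ ≤ t := by
          apply norm_le_of_abs ht.le
          intro w
          have h6 : (g N - g 0) w = t * (∑ i ∈ Finset.range N, p i) w := by
            simp only [hg, Finset.range_zero, Finset.sum_empty, smul_zero, add_zero,
              ContinuousMap.sub_apply, ContinuousMap.add_apply, ContinuousMap.smul_apply,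
              smul_eq_mul]
            ring
          rw [h6, abs_of_nonneg (mul_nonneg ht.le (hsum0 N w))]
          have h7 := hsum01 N le_rfl w
          have h8 : q w ≤ 1 := by rcases hq w with h9 | h9 <;> rw [h9] <;> norm_num
          nlinarith
        have h6 : A * ‖g N - g 0‖ ≤ A * t := mul_le_mul_of_nonneg_left h5 h.A0.le
        linarith
      have hcard := Finset.card_eq_sum_card_fiberwise (f := y) (s := Finset.range N)
        (t := hfin.toFinset) (by
          intro n hn
          exact hyS n (by simpa using hn))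
      rw [Finset.card_range] at hcard
      have h1 : (N : ℝ) * (a * t) ≤ hfin.toFinset.card * (A * t) := by
        have h2 : (N : ℝ) = ∑ b ∈ hfin.toFinset,
            (((Finset.range N).filter (fun n => y n = b)).card : ℝ) := by
          exact_mod_cast hcard
        rw [h2, Finset.sum_mul]
        refine (Finset.sum_le_sum hfib).trans ?_
        rw [Finset.sum_const, nsmul_eq_mul]
      have h2 : (N : ℝ) * a ≤ hfin.toFinset.card * A := by
        have h3 : (N : ℝ) * a * t ≤ hfin.toFinset.card * A * t := by linarith
        exact le_of_mul_le_mul_right h3 ht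
      linarith
    obtain ⟨z, hz⟩ := hinf.exists_accPt_principal
    have hzS : z ∈ S := hSc.closure_eq ▸ (mem_closure_iff_clusterPt.2 hz.clusterPt)
    refine ⟨z, ?_, hzS.1⟩
    rw [cb, iter_add_one]
    exact hz.mono (principal_mono.2 inter_subset_right)
  | limit γ hγ ih =>
    intro f t q ht hq ⟨x, hxγ, hx⟩
    have h1 := inter_limit_nonempty (A := (univ : Set L)) isClosed_univ
      (hclosed f (f + t • q) (a * t)) hγ (by
        intro β hβ
        obtain ⟨y, hy1, hy2⟩ := ih β hβ f t q ht hq ⟨x, (mem_iter_limit hγ).1 hxγ β hβ, hx⟩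
        exact ⟨y, hy2, hy1⟩)
    obtain ⟨y, hy1, hy2⟩ := h1
    exact ⟨y, hy2, hy1⟩

/-- the height can only grow -/
theorem height_grow (h : Emb F a A) (γ : Ordinal.{0}) (hK : (cb (univ : Set K) γ).Nonempty) :
    (cb (univ : Set L) γ).Nonempty := by
  obtain ⟨x, hx⟩ := hK
  obtain ⟨y, hy, _⟩ := grow h γ 0 1 (ind univ isClopen_univ) one_pos (ind_idem _ _)
    ⟨x, hx, ind_of_mem _ (mem_univ x)⟩
  exact ⟨y, hy⟩

end Pool.Agent.K9h24.Sz
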