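import Mathlib

/-!
# The Szlenk index

`szDer X ε A` is the Szlenk derivation `s_ε(A)` of a set `A` of functionals on `X`,
`szDeriv X ε α` the `α`-th iterate of `s_ε` on the closed unit ball of the dual,
`szIndexAt X ε` the least `α` for which that iterate is empty, and `szIndex X` the supremum of
`szIndexAt X ε` over `ε > 0`.
-/

set_option autoImplicit false

open Set Filter Topology

namespace Pool.Agent.K9h24.Sz

section defs

variable (X : Type) [NormedAddCommGroup X] [NormedSpace ℝ X]

/-- The Szlenk derivation `s_ε(A)`: the set of `φ ∈ A` such that every weak-* neighbourhood of `φ`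
meets `A` in a set of norm-diameter at least `ε`. -/
def szDer (ε : ℝ) (A : Set (StrongDual ℝ X)) : Set (StrongDual ℝ X) :=
  {φ | φ ∈ A ∧ ∀ U ∈ 𝓝 (StrongDual.toWeakDual φ),
    ENNReal.ofReal ε ≤ Metric.ediam {ψ : StrongDual ℝ X | ψ ∈ A ∧ StrongDual.toWeakDual ψ ∈ U}}

/-- The transfinite iterates of `s_ε`, starting from the closed unit ball of the dual, with
intersections at limit ordinals. -/
noncomputable def szDeriv (ε : ℝ) (α : Ordinal.{0}) : Set (StrongDual ℝ X) :=
  Ordinal.limitRecOn α (Metric.closedBall 0 1) (fun _ B => szDer X ε B)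
    (fun β _ ih => ⋂ γ : Set.Iio β, ih γ.1 γ.2)

/-- `Sz(X, ε)`: the least ordinal `α` such that the `α`-th iterate is empty. -/
noncomputable def szIndexAt (ε : ℝ) : Ordinal.{0} := sInf {α | szDeriv X ε α = ∅}

/-- The Szlenk index `Sz(X) = sup_{ε > 0} Sz(X, ε)`. -/
noncomputable def szIndex : Ordinal.{0} := ⨆ ε : Set.Ioi (0 : ℝ), szIndexAt X ε

end defs

end Pool.Agent.K9h24.Sz
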