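import Pool.Agent.K9h24.SzD

/-!
# Selection of a point with large derivative (Rademacher's theorem)
-/

set_option autoImplicit false

open Set Filter Topology MeasureTheory

namespace Pool.Agent.K9h24.Sz

section

variable {E : Type} [NormedAddCommGroup E] [NormedSpace ℝ E] [FiniteDimensional ℝ E]
  [MeasurableSpace E] [BorelSpace E]

open NNReal in
/-- a Lipschitz function which grows with slope more than `b` from `x₀` to `x₀ + σ v` has a point
of differentiability with derivative more than `b` in the direction `v` -/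
lemma exists_fderiv_gt {Φ : E → ℝ} {C : ℝ≥0} (hΦ : LipschitzWith C Φ) (x₀ v : E) {σ b : ℝ}
    (hσ : 0 < σ) (h : b * σ < Φ (x₀ + σ • v) - Φ x₀) :
    ∃ x, DifferentiableAt ℝ Φ x ∧ b < fderiv ℝ Φ x v := by
  by_contra hcon
  push Not at hcon
  set μ : Measure E := Measure.addHaar with hμ
  have h0 : ∀ᵐ x ∂μ, DifferentiableAt ℝ Φ x := hΦ.ae_differentiableAt
  have h1 : ∀ᵐ t ∂(volume : Measure ℝ), ∀ᵐ x ∂μ, DifferentiableAt ℝ Φ (x + t • v) := by
    filter_upwards with t
    exact (measurePreserving_add_right μ (t • v)).quasiMeasurePreserving.ae h0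
  have hmeas : MeasurableSet {p : E × ℝ | DifferentiableAt ℝ Φ (p.1 + p.2 • v)} := by
    have h2 : Measurable (fun p : E × ℝ => p.1 + p.2 • v) := by
      apply Continuous.measurable
      fun_prop
    exact h2 (measurableSet_of_differentiableAt ℝ Φ)
  have h2 : ∀ᵐ x ∂μ, ∀ᵐ t ∂(volume : Measure ℝ), DifferentiableAt ℝ Φ (x + t • v) :=
    (Measure.ae_ae_comm hmeas).2 h1
  have h3 : ∀ᵐ x ∂μ, Φ (x + σ • v) - Φ x ≤ b * σ := by
    filter_upwards [h2] with x hx
    set g : ℝ → ℝ := fun t => Φ (x + t • v) with hg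
    have hgl : LipschitzWith (C * ‖v‖₊) g := by
      have h4 : LipschitzWith ‖v‖₊ (fun t : ℝ => x + t • v) := by
        apply LipschitzWith.of_dist_le_mul
        intro s t
        rw [dist_add_left, dist_eq_norm, ← sub_smul, norm_smul, ← dist_eq_norm, mul_comm]
        rfl
      exact hΦ.comp h4
    have hac : AbsolutelyContinuousOnInterval g 0 σ :=
      (hgl.lipschitzOnWith (s := uIcc 0 σ)).absolutelyContinuousOnInterval
    have hint := hac.integral_deriv_eq_sub
    have h5 : ∫ t in (0 : ℝ)..σ, deriv g t ≤ ∫ t in (0 : ℝ)..σ, b := by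
      apply intervalIntegral.integral_mono_ae hσ.le hac.intervalIntegrable_deriv
        intervalIntegrable_const
      filter_upwards [hx] with t ht
      have h6 : HasDerivAt g (fderiv ℝ Φ (x + t • v) v) t := by
        have h7 : HasDerivAt (fun t : ℝ => x + t • v) v t := by
          have := ((hasDerivAt_id t).smul_const v).const_add x
          simpa using this
        exact ht.hasFDerivAt.comp_hasDerivAt t h7
      rw [h6.deriv]
      exact hcon _ ht
    rw [hint] at h5
    have h8 : g 0 = Φ x := by simp [hg]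
    rw [h8] at h5
    simp only [intervalIntegral.integral_const, smul_eq_mul, sub_zero] at h5
    linarith
  have hdense : Dense {x | Φ (x + σ • v) - Φ x ≤ b * σ} := Measure.dense_of_ae h3
  have hcl : IsClosed {x | Φ (x + σ • v) - Φ x ≤ b * σ} := by
    apply isClosed_le _ continuous_const
    exact (hΦ.continuous.comp (by fun_prop)).sub hΦ.continuous
  have h4 : x₀ ∈ {x | Φ (x + σ • v) - Φ x ≤ b * σ} := by
    rw [← hcl.closure_eq, hdense.closure_eq]
    exact mem_univ x₀
  exact absurd h4 (not_le.2 h)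

end

/-- at a point of differentiability all increments at small scales are controlled -/
lemma small_scale {E : Type} [NormedAddCommGroup E] [NormedSpace ℝ E] {Φ : E → ℝ} {x v : E}
    (hx : DifferentiableAt ℝ Φ x) {b : ℝ} (hb : b < fderiv ℝ Φ x v) (M : ℝ) {κ : ℝ}
    (hκ : 0 < κ) :
    ∃ r : ℝ, 0 < r ∧ ∀ w : E, ‖w‖ ≤ M * r →
      2 * r * (b - κ) ≤ Φ (x + w + (2 * r) • v) - Φ (x + w) := by
  have hM0 : 0 < |M| + 2 * ‖v‖ + 1 := by positivity
  have hκ' : 0 < κ / (|M| + 2 * ‖v‖ + 1) := by positivity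
  have h1 := (hasFDerivAt_iff_isLittleO_nhds_zero.1 hx.hasFDerivAt).def hκ'
  rw [Metric.eventually_nhds_iff] at h1
  obtain ⟨ε, hε, h1⟩ := h1
  set r : ℝ := ε / (2 * (|M| + 2 * ‖v‖ + 1)) with hr
  have hr0 : 0 < r := by positivity
  have hrε : (|M| + 2 * ‖v‖ + 1) * r = ε / 2 := by
    rw [hr]; field_simp
  refine ⟨r, hr0, fun w hw => ?_⟩
  have hwM : ‖w‖ ≤ |M| * r := hw.trans (mul_le_mul_of_nonneg_right (le_abs_self M) hr0.le)
  have hv2 : ‖(2 * r) • v‖ = 2 * r * ‖v‖ := by
    rw [norm_smul, Real.norm_eq_abs, abs_of_pos (by positivity)]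
  have hs : ‖w + (2 * r) • v‖ ≤ (|M| + 2 * ‖v‖) * r := by
    refine (norm_add_le _ _).trans ?_
    rw [hv2]
    nlinarith
  have hb1 : ‖w + (2 * r) • v‖ < ε := by nlinarith [norm_nonneg v, abs_nonneg M]
  have hb2 : ‖w‖ < ε := by nlinarith [norm_nonneg v, abs_nonneg M]
  have h2 := h1 (y := w + (2 * r) • v) (by rw [dist_zero_right]; exact hb1)
  have h3 := h1 (y := w) (by rw [dist_zero_right]; exact hb2)
  rw [Real.norm_eq_abs] at h2 h3
  rw [map_add, map_smul, smul_eq_mul, ← add_assoc] at h2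
  have h4 : κ / (|M| + 2 * ‖v‖ + 1) * ‖w + (2 * r) • v‖ ≤ κ * r := by
    have h5 : κ / (|M| + 2 * ‖v‖ + 1) * ‖w + (2 * r) • v‖ ≤
        κ / (|M| + 2 * ‖v‖ + 1) * ((|M| + 2 * ‖v‖ + 1) * r) := by
      apply mul_le_mul_of_nonneg_left _ hκ'.le
      nlinarith
    have h6 : κ / (|M| + 2 * ‖v‖ + 1) * ((|M| + 2 * ‖v‖ + 1) * r) = κ * r := by
      field_simp
    linarith
  have h5 : κ / (|M| + 2 * ‖v‖ + 1) * ‖w‖ ≤ κ * r := by
    have h5 : κ / (|M| + 2 * ‖v‖ + 1) * ‖w‖ ≤
        κ / (|M| + 2 * ‖v‖ + 1) * ((|M| + 2 * ‖v‖ + 1) * r) := by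
      apply mul_le_mul_of_nonneg_left _ hκ'.le
      nlinarith [norm_nonneg v]
    have h6 : κ / (|M| + 2 * ‖v‖ + 1) * ((|M| + 2 * ‖v‖ + 1) * r) = κ * r := by
      field_simp
    linarith
  have h6 := (abs_le.1 h2).1
  have h7 := (abs_le.1 h3).2
  have h8 : 2 * r * b ≤ 2 * r * fderiv ℝ Φ x v := by
    apply mul_le_mul_of_nonneg_left hb.le
    positivity
  linarith

end Pool.Agent.K9h24.Sz
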