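import Pool.Agent.K9h24.SzE

/-!
# Surjective order-preserving bi-Lipschitz maps do not increase the class of the height
-/

set_option autoImplicit false

open Set Filter Topology MeasureTheory

namespace Pool.Agent.K9h24.Sz

section acc

variable {X : Type} [TopologicalSpace X] [T1Space X]

lemma acc_infinite {x : X} {S U : Set X} (h : AccPt x (𝓟 S)) (hU : U ∈ 𝓝 x) :
    (U ∩ S).Infinite := by
  intro hf
  rw [accPt_iff_nhds] at h
  obtain ⟨V, hVU, hV, hxV⟩ := mem_nhds_iff.1 hU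
  have h1 : IsOpen (V ∩ ((U ∩ S) \ {x})ᶜ) :=
    hV.inter ((hf.subset sdiff_subset).isClosed.isOpen_compl)
  obtain ⟨z, ⟨⟨hz1, hz2⟩, hz3⟩, hz4⟩ := h _ (h1.mem_nhds ⟨hxV, fun h2 => h2.2 rfl⟩)
  exact hz2 ⟨⟨hVU hz1, hz3⟩, hz4⟩

lemma exists_fin_of_infinite {S : Set X} (h : S.Infinite) (N : ℕ) :
    ∃ xs : Fin N → X, Function.Injective xs ∧ ∀ i, xs i ∈ S := by
  obtain ⟨s, hs1, hs2⟩ := h.exists_subset_card_eq N
  refine ⟨fun i => (s.equivFin.symm (Fin.cast hs2.symm i)).1, ?_, ?_⟩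
  · intro i j hij
    have h1 := Subtype.ext hij
    have h2 := s.equivFin.symm.injective h1
    exact Fin.cast_injective _ h2
  · intro i
    exact hs1 (s.equivFin.symm (Fin.cast hs2.symm i)).2

end acc

section sup

variable {K L : Type} [TopologicalSpace K] [CompactSpace K] [TopologicalSpace L] [CompactSpace L]

/-- the maximal slope in the direction `v` at points of rank at least `ρ` -/
noncomputable def TF (F : C(K, ℝ) → C(L, ℝ)) (ρ : Ordinal.{0}) (v : C(K, ℝ)) : ℝ :=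
  sSup {r | ∃ z ∈ cb (univ : Set L) ρ, ∃ (f : C(K, ℝ)) (σ : ℝ), 0 < σ ∧
    r = (F (f + σ • v) z - F f z) / σ}

variable {F : C(K, ℝ) → C(L, ℝ)} {a A : ℝ}

lemma TF_bdd (h : Emb F a A) (ρ : Ordinal.{0}) (v : C(K, ℝ)) :
    BddAbove {r | ∃ z ∈ cb (univ : Set L) ρ, ∃ (f : C(K, ℝ)) (σ : ℝ), 0 < σ ∧
      r = (F (f + σ • v) z - F f z) / σ} := by
  refine ⟨A * ‖v‖, ?_⟩
  rintro r ⟨z, _, f, σ, hσ, rfl⟩
  rw [div_le_iff₀ hσ]
  have h1 := h.lip_apply (f + σ • v) f z
  rw [add_sub_cancel_left, norm_smul, Real.norm_eq_abs, abs_of_pos hσ] at h1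
  linarith

lemma le_TF (h : Emb F a A) {ρ : Ordinal.{0}} (v : C(K, ℝ)) {z : L}
    (hz : z ∈ cb (univ : Set L) ρ) (f : C(K, ℝ)) {σ : ℝ} (hσ : 0 < σ) :
    (F (f + σ • v) z - F f z) / σ ≤ TF F ρ v :=
  le_csSup (TF_bdd h ρ v) ⟨z, hz, f, σ, hσ, rfl⟩

lemma TF_le (ρ : Ordinal.{0}) (hne : (cb (univ : Set L) ρ).Nonempty) (v : C(K, ℝ)) {c : ℝ}
    (hc : ∀ z ∈ cb (univ : Set L) ρ, ∀ (f : C(K, ℝ)) (σ : ℝ), 0 < σ →
      (F (f + σ • v) z - F f z) / σ ≤ c) : TF F ρ v ≤ c := by
  apply csSup_le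
  · obtain ⟨z, hz⟩ := hne
    exact ⟨_, z, hz, 0, 1, one_pos, rfl⟩
  · rintro r ⟨z, hz, f, σ, hσ, rfl⟩
    exact hc z hz f σ hσ

lemma TF_nonneg [T1Space L] (h : Emb F a A) (ρ : Ordinal.{0}) (hne : (cb (univ : Set L) ρ).Nonempty)
    {v : C(K, ℝ)} (hv : 0 ≤ v) : 0 ≤ TF F ρ v := by
  obtain ⟨z, hz⟩ := hne
  refine le_trans ?_ (le_TF h v hz 0 one_pos)
  have h1 : F 0 z ≤ F (0 + (1 : ℝ) • v) z :=
    h.mono _ _ (le_add_of_nonneg_right (smul_nonneg zero_le_one hv)) z
  apply div_nonneg _ zero_le_one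
  linarith

lemma slope_of_emb [T1Space L] (h : Emb F a A) (lam : Ordinal.{0})
    (hlam : (cb (univ : Set L) lam).Nonempty) : Slope lam A (TF F) := by
  have hne : ∀ ρ ≤ lam, (cb (univ : Set L) ρ).Nonempty := fun ρ hρ =>
    hlam.mono (cb_anti isClosed_univ hρ)
  refine ⟨h.A0.le, ?_, ?_, ?_, ?_, ?_, ?_⟩
  · intro ρ hρ u v _ huv
    apply TF_le ρ (hne ρ hρ)
    intro z hz f σ hσ
    refine le_trans ?_ (le_TF h v hz f hσ)
    have h1 : F (f + σ • u) z ≤ F (f + σ • v) z := by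
      apply h.mono
      exact add_le_add_right (smul_le_smul_of_nonneg_left huv hσ.le) f
    gcongr
  · intro ρ hρ u v _ _
    apply TF_le ρ (hne ρ hρ)
    intro z hz f σ hσ
    have h1 := le_TF h u hz f hσ
    have h2 := le_TF h v hz (f + σ • u) hσ
    have h3 : f + σ • (u + v) = f + σ • u + σ • v := by rw [smul_add, add_assoc]
    rw [h3]
    have h4 : (F (f + σ • u + σ • v) z - F f z) / σ =
        (F (f + σ • u) z - F f z) / σ + (F (f + σ • u + σ • v) z - F (f + σ • u) z) / σ := by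
      ring
    rw [h4]
    linarith
  · intro ρ hρ n v hv
    rcases Nat.eq_zero_or_pos n with h0 | h0
    · subst h0
      simp only [Nat.cast_zero, zero_mul, zero_smul]
      exact TF_nonneg h ρ (hne ρ hρ) le_rfl
    · have hn : (0 : ℝ) < n := by exact_mod_cast h0
      have h1 : TF F ρ v ≤ TF F ρ ((n : ℝ) • v) / n := by
        apply TF_le ρ (hne ρ hρ)
        intro z hz f σ hσ
        rw [le_div_iff₀ hn]
        have h2 := le_TF h ((n : ℝ) • v) hz f (show 0 < σ / n by positivity)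
        rw [smul_smul, div_mul_cancel₀ _ hn.ne'] at h2
        refine le_trans (le_of_eq ?_) h2
        field_simp
      rw [le_div_iff₀ hn] at h1
      linarith
  · intro ρ hρ c hc
    apply TF_le ρ (hne ρ hρ)
    intro z hz f σ hσ
    rw [div_le_iff₀ hσ]
    have h1 := h.lip_apply (f + σ • ContinuousMap.const K c) f z
    rw [add_sub_cancel_left, norm_smul, Real.norm_eq_abs, abs_of_pos hσ] at h1
    have h2 : ‖ContinuousMap.const K c‖ ≤ c := by
      apply norm_le_of_abs hc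
      intro x
      simp [abs_of_nonneg hc]
    have h3 : A * (σ * ‖ContinuousMap.const K c‖) ≤ A * (σ * c) := by
      apply mul_le_mul_of_nonneg_left _ h.A0.le
      exact mul_le_mul_of_nonneg_left h2 hσ.le
    linarith
  · intro ρ hρ v hv
    exact TF_nonneg h ρ (hne ρ hρ) hv
  · intro ρ σ hρσ hσ v _
    apply TF_le σ (hne σ hσ)
    intro z hz f s hs
    exact le_TF h v (cb_anti isClosed_univ hρσ hz) f hs

end sup

section est

variable {K L : Type} [TopologicalSpace K] [CompactSpace K] [TopologicalSpace L] [CompactSpace L]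
  [T2Space K] [Countable K]

lemma exists_clopen_between {C U : Set K} (hC : C.Finite) (hU : IsOpen U) (hCU : C ⊆ U) :
    ∃ W : Set K, IsClopen W ∧ C ⊆ W ∧ W ⊆ U := by
  have h1 : ∀ c : K, ∃ W : Set K, c ∈ C → (IsClopen W ∧ c ∈ W ∧ W ⊆ U) := by
    intro c
    by_cases hc : c ∈ C
    · obtain ⟨W, hW⟩ := exists_clopen (hU.mem_nhds (hCU hc))
      exact ⟨W, fun _ => hW⟩
    · exact ⟨∅, fun h => absurd h hc⟩
  choose W hW using h1
  refine ⟨⋃ c ∈ C, W c, hC.isClopen_biUnion (fun c hc => (hW c hc).1), ?_, ?_⟩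
  · intro c hc
    exact mem_biUnion hc (hW c hc).2.1
  · exact iUnion₂_subset (fun c hc => (hW c hc).2.2)

/-- the functions constant on the fibres of the retraction -/
noncomputable def PP (C : Set K) (p : K → K) (hp : IsLocallyConstant p) (hpC : ∀ x, p x ∈ C)
    (τ : C → ℝ) : C(K, ℝ) :=
  ⟨fun x => τ ⟨p x, hpC x⟩, by
    apply IsLocallyConstant.continuous
    rw [IsLocallyConstant.iff_exists_open]
    intro x
    obtain ⟨U, hU, hxU, hUc⟩ := (IsLocallyConstant.iff_exists_open p).1 hp x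
    exact ⟨U, hU, hxU, fun y hy => congrArg τ (Subtype.ext (hUc y hy))⟩⟩

variable {F : C(K, ℝ) → C(L, ℝ)} {a A : ℝ}

lemma local_est (h : Emb F a A) {C : Set K} (hC : C.Finite) {p : K → K}
    (hp : IsLocallyConstant p) (hpC : ∀ x, p x ∈ C) (hpc : ∀ c ∈ C, p c = c) {v f : C(K, ℝ)}
    {z : L} {t δ r ε : ℝ} (hr : 0 < r) (hε : 0 < ε) (hε1 : ε ≤ 1)
    (hup : ∀ (f' : C(K, ℝ)) (σ : ℝ) (q : C(K, ℝ)), 0 < σ → Idem q → (∀ x ∈ C, q x = 0) →
      F (f' + σ • (v + q)) z - F f' z ≤ σ * t)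
    (hlo : ∀ (s : ℝ) (τ : C → ℝ), |s| ≤ 4 * r → (∀ c, |τ c| ≤ 2 * r) →
      2 * r * (t - 3 * δ) ≤ F (f + (s + 2 * r) • v + PP C p hp hpC τ) z -
        F (f + s • v + PP C p hp hpC τ) z)
    (g : C(K, ℝ)) (hg : ‖g - f‖ ≤ r) :
    |F g z - F (f + PP C p hp hpC (fun c => (g - f) c)) z| ≤ (6 * δ + A * ε) * r := by
  set α : C → ℝ := fun c => (g - f) c with hα
  have hgf : ∀ x, |(g - f) x| ≤ r := fun x => by
    have := ContinuousMap.norm_coe_le_norm (g - f) x
    rw [Real.norm_eq_abs] at this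
    exact this.trans hg
  have hαr : ∀ c, |α c| ≤ r := fun c => hgf c
  set Pα := PP C p hp hpC α with hPα
  have hU : IsOpen {x : K | |(g - f) x - Pα x| < ε * r} :=
    isOpen_lt (((g - f).continuous.sub Pα.continuous).abs) continuous_const
  obtain ⟨W, hWc, hCW, hWU⟩ := exists_clopen_between hC hU (by
    intro c hc
    have h1 : Pα c = (g - f) c := by
      change (g - f) (p c) = (g - f) c
      rw [hpc c hc]
    rw [mem_ofPred_eq, h1, sub_self, abs_zero]
    positivity)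
  set q : C(K, ℝ) := ind Wᶜ hWc.compl with hq
  have hqI : Idem q := ind_idem _ _
  have hqC : ∀ x ∈ C, q x = 0 := fun x hx => ind_of_notMem _ (fun h1 => h1 (hCW hx))
  have hshift : ∀ s : ℝ, ‖PP C p hp hpC (fun c => α c + s) - Pα‖ ≤ |s| := by
    intro s
    apply norm_le_of_abs (abs_nonneg s)
    intro x
    have : (PP C p hp hpC (fun c => α c + s) - Pα) x = s := by
      change (α ⟨p x, hpC x⟩ + s) - α ⟨p x, hpC x⟩ = s
      ring
    rw [this]
  have hεr : 0 < ε * r := by positivity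
  have hεr1 : ε * r ≤ r := by nlinarith
  rw [abs_le]
  constructor
  · -- lower bound
    set τ : C → ℝ := fun c => α c + (-(ε * r)) with hτ
    set Pτ := PP C p hp hpC τ with hPτ
    have hτr : ∀ c, |τ c| ≤ 2 * r := by
      intro c
      have h1 := abs_le.1 (hαr c)
      rw [abs_le]
      constructor <;> (simp only [hτ]; linarith [h1.1, h1.2])
    have h1 : f + Pτ + (-(2 * r)) • q ≤ g := by
      intro x
      change f x + (α ⟨p x, hpC x⟩ + (-(ε * r))) + (-(2 * r)) * q x ≤ g x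
      have hgx : (g - f) x = g x - f x := rfl
      have h5 := abs_le.1 (hgf x)
      rw [hgx] at h5
      have h6 := abs_le.1 (hαr ⟨p x, hpC x⟩)
      by_cases hx : x ∈ W
      · have h2 := hWU hx
        rw [mem_ofPred_eq] at h2
        have h3 : Pα x = α ⟨p x, hpC x⟩ := rfl
        rw [h3, hgx] at h2
        have h4 : q x = 0 := ind_of_notMem _ (fun h7 => h7 hx)
        rw [h4]
        have := (abs_lt.1 h2).1
        linarith
      · have h4 : q x = 1 := ind_of_mem _ hx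
        rw [h4]
        linarith [h5.1, h6.2]
    have h2 : F (f + Pτ + (-(2 * r)) • q) z ≤ F g z := h.mono _ _ h1 z
    have h3 := hup (f + Pτ + (-(2 * r)) • q) (2 * r) q (by positivity) hqI hqC
    have h4 : f + Pτ + (-(2 * r)) • q + (2 * r) • (v + q) = f + ((0 : ℝ) + 2 * r) • v + Pτ := by
      rw [zero_add, smul_add, neg_smul]; abel
    rw [h4] at h3
    have h5 := hlo 0 τ (by rw [abs_zero]; positivity) hτr
    rw [zero_smul, add_zero] at h5
    have h6 := h.lip_apply (f + Pα) (f + Pτ) z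
    have h7 : ‖(f + Pα) - (f + Pτ)‖ ≤ ε * r := by
      rw [add_sub_add_left_eq_sub, norm_sub_rev]
      have := hshift (-(ε * r))
      rwa [abs_neg, abs_of_pos hεr] at this
    have h8 : A * ‖(f + Pα) - (f + Pτ)‖ ≤ A * (ε * r) := mul_le_mul_of_nonneg_left h7 h.A0.le
    nlinarith
  · -- upper bound
    set τ : C → ℝ := fun c => α c + (ε * r) with hτ
    set Pτ := PP C p hp hpC τ with hPτ
    have hτr : ∀ c, |τ c| ≤ 2 * r := by
      intro c
      have h1 := abs_le.1 (hαr c)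
      rw [abs_le]
      constructor <;> (simp only [hτ]; linarith [h1.1, h1.2])
    have h1 : g ≤ f + Pτ + (2 * r) • q := by
      intro x
      change g x ≤ f x + (α ⟨p x, hpC x⟩ + (ε * r)) + (2 * r) * q x
      have hgx : (g - f) x = g x - f x := rfl
      have h5 := abs_le.1 (hgf x)
      rw [hgx] at h5
      have h6 := abs_le.1 (hαr ⟨p x, hpC x⟩)
      by_cases hx : x ∈ W
      · have h2 := hWU hx
        rw [mem_ofPred_eq] at h2
        have h3 : Pα x = α ⟨p x, hpC x⟩ := rfl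
        rw [h3, hgx] at h2
        have h4 : q x = 0 := ind_of_notMem _ (fun h7 => h7 hx)
        rw [h4]
        have := (abs_lt.1 h2).2
        linarith
      · have h4 : q x = 1 := ind_of_mem _ hx
        rw [h4]
        linarith [h5.2, h6.1]
    have h2 : F g z ≤ F (f + Pτ + (2 * r) • q) z := h.mono _ _ h1 z
    have h3 := hup (f + (-(2 * r)) • v + Pτ) (2 * r) q (by positivity) hqI hqC
    have h4 : f + (-(2 * r)) • v + Pτ + (2 * r) • (v + q) = f + Pτ + (2 * r) • q := by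
      rw [smul_add, neg_smul]; abel
    rw [h4] at h3
    have h5 := hlo (-(2 * r)) τ (by rw [abs_neg, abs_of_pos (by positivity)]; linarith) hτr
    rw [neg_add_cancel, zero_smul, add_zero] at h5
    have h6 := h.lip_apply (f + Pτ) (f + Pα) z
    have h7 : ‖(f + Pτ) - (f + Pα)‖ ≤ ε * r := by
      rw [add_sub_add_left_eq_sub]
      have := hshift (ε * r)
      rwa [abs_of_pos hεr] at this
    have h8 : A * ‖(f + Pτ) - (f + Pα)‖ ≤ A * (ε * r) := mul_le_mul_of_nonneg_left h7 h.A0.le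
    nlinarith

end est

end Pool.Agent.K9h24.Sz
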