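import Pool.Agent.K9h24.SzF

/-!
# Surjective order-preserving bi-Lipschitz maps do not increase the class of the height
-/

set_option autoImplicit false

open Set Filter Topology MeasureTheory

namespace Pool.Agent.K9h24.Sz

variable {K L : Type} [TopologicalSpace K] [CompactSpace K] [TopologicalSpace L] [CompactSpace L]
  [T2Space K] [Countable K] [T2Space L] [Countable L]

variable {F : C(K, ℝ) → C(L, ℝ)} {a A : ℝ}

lemma PP_add (C : Set K) (p : K → K) (hp : IsLocallyConstant p) (hpC : ∀ x, p x ∈ C)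
    (τ σ : C → ℝ) : PP C p hp hpC (τ + σ) = PP C p hp hpC τ + PP C p hp hpC σ := rfl

lemma PP_sub (C : Set K) (p : K → K) (hp : IsLocallyConstant p) (hpC : ∀ x, p x ∈ C)
    (τ σ : C → ℝ) : PP C p hp hpC (τ - σ) = PP C p hp hpC τ - PP C p hp hpC σ := rfl

lemma PP_norm_le (C : Set K) (p : K → K) (hp : IsLocallyConstant p) (hpC : ∀ x, p x ∈ C)
    [Fintype C] (τ : C → ℝ) : ‖PP C p hp hpC τ‖ ≤ ‖τ‖ := by
  apply norm_le_of_abs (norm_nonneg τ)
  intro x
  exact norm_le_pi_norm τ ⟨p x, hpC x⟩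

open NNReal in
/-- **The class of the height does not grow.** -/
theorem no_growth (h : Emb F a A) (hsurj : Function.Surjective F) {β : Ordinal.{0}}
    (hK : cb (univ : Set K) (wp (β + 1)) = ∅) : cb (univ : Set L) (wp (β + 1)) = ∅ := by
  classical
  by_contra hcon
  have hne : (cb (univ : Set L) (wp (β + 1))).Nonempty := nonempty_iff_ne_empty.2 hcon
  have ha := h.a0
  have hA := h.A0
  -- `K` is nonempty
  have hKne : Nonempty K := by
    by_contra hemp
    rw [not_nonempty_iff] at hemp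
    obtain ⟨y, _⟩ := hne
    obtain ⟨g, hg⟩ := hsurj (F 0 + 1)
    have h1 : g = 0 := by
      ext x
      exact (hemp.false x).elim
    rw [h1] at hg
    have h2 : F 0 y = (F 0 + 1 : C(L, ℝ)) y := by rw [← hg]
    rw [ContinuousMap.add_apply, ContinuousMap.one_apply] at h2
    linarith
  set δ : ℝ := a / 48 with hδ
  have hδ0 : 0 < δ := by positivity
  have hslope := slope_of_emb h (wp (β + 1)) hne
  obtain ⟨ρ, v, C₀, t, hρ, hv, hC₀, hup₀, hlo₀⟩ := localisation hslope hδ0 le_rfl hK
  set C : Set K := insert (Classical.choice hKne) C₀ with hCdef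
  have hC : C.Finite := hC₀.insert _
  have hCne : C.Nonempty := ⟨_, mem_insert _ _⟩
  have hup : ∀ q : C(K, ℝ), Idem q → (∀ x ∈ C, q x = 0) → TF F ρ (v + q) ≤ t :=
    fun q hq hqC => hup₀ q hq (fun x hx => hqC x (mem_insert_of_mem _ hx))
  obtain ⟨p, hp, hpC, hpc⟩ := exists_retraction C hC hCne
  have : Fintype C := hC.fintype
  -- the near-maximiser
  obtain ⟨_, ⟨y, hy, f₀, σ₀, hσ₀, rfl⟩, hbig⟩ := exists_lt_of_lt_csSup
    (show {r | ∃ z ∈ cb (univ : Set L) (ρ + 1), ∃ (f : C(K, ℝ)) (σ : ℝ), 0 < σ ∧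
      r = (F (f + σ • v) z - F f z) / σ}.Nonempty by
      obtain ⟨z, hz⟩ := hne.mono (cb_anti isClosed_univ hρ)
      exact ⟨_, z, hz, 0, 1, one_pos, rfl⟩) hlo₀
  rw [lt_div_iff₀ hσ₀] at hbig
  -- the finite dimensional space
  set J : ℝ × (C → ℝ) → C(K, ℝ) := fun w => f₀ + w.1 • v + PP C p hp hpC w.2 with hJ
  have hJsub : ∀ w w' : ℝ × (C → ℝ), ‖J w - J w'‖ ≤ (‖v‖ + 1) * ‖w - w'‖ := by
    intro w w'
    have h1 : J w - J w' = (w.1 - w'.1) • v + PP C p hp hpC (w.2 - w'.2) := by
      simp only [hJ]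
      rw [PP_sub, sub_smul]
      abel
    rw [h1]
    refine (norm_add_le _ _).trans ?_
    have h2 : ‖(w.1 - w'.1) • v‖ ≤ ‖w - w'‖ * ‖v‖ := by
      rw [norm_smul]
      exact mul_le_mul_of_nonneg_right (norm_fst_le (w - w')) (norm_nonneg v)
    have h3 : ‖PP C p hp hpC (w.2 - w'.2)‖ ≤ ‖w - w'‖ :=
      (PP_norm_le _ _ _ _ _).trans (norm_snd_le (w - w'))
    linarith
  have hJcont : Continuous J := by
    have : LipschitzWith (Real.toNNReal (‖v‖ + 1)) J := by
      apply LipschitzWith.of_dist_le_mul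
      intro w w'
      rw [dist_eq_norm, dist_eq_norm, Real.coe_toNNReal _ (by positivity)]
      exact hJsub w w'
    exact this.continuous
  have hFcont : Continuous F := by
    have : LipschitzWith (Real.toNNReal A) F := by
      apply LipschitzWith.of_dist_le_mul
      intro f g
      rw [dist_eq_norm, dist_eq_norm, Real.coe_toNNReal _ hA.le]
      exact h.lip f g
    exact this.continuous
  set Φ : L → ℝ × (C → ℝ) → ℝ := fun z w => F (J w) z with hΦ
  have hΦlip : LipschitzWith (Real.toNNReal (A * (‖v‖ + 1))) (Φ y) := by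
    apply LipschitzWith.of_dist_le_mul
    intro w w'
    rw [Real.coe_toNNReal _ (by positivity), Real.dist_eq, dist_eq_norm]
    have h1 := ContinuousMap.norm_coe_le_norm (F (J w) - F (J w')) y
    rw [ContinuousMap.sub_apply, Real.norm_eq_abs] at h1
    have h2 := h.lip (J w) (J w')
    have h3 := mul_le_mul_of_nonneg_left (hJsub w w') hA.le
    change |F (J w) y - F (J w') y| ≤ _
    linarith
  set e₀ : ℝ × (C → ℝ) := (1, 0) with he₀
  have hJe : ∀ (w : ℝ × (C → ℝ)) (s : ℝ), J (w + s • e₀) = f₀ + (w.1 + s) • v +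
      PP C p hp hpC w.2 := by
    intro w s
    simp only [hJ, he₀]
    simp
  obtain ⟨w₁, hw₁, hder⟩ := exists_fderiv_gt hΦlip 0 e₀ hσ₀ (b := t - δ) (by
    change (t - δ) * σ₀ < F (J (0 + σ₀ • e₀)) y - F (J 0) y
    have h1 : J (0 + σ₀ • e₀) = f₀ + σ₀ • v := by
      rw [hJe]
      have : PP C p hp hpC (0 : ℝ × (C → ℝ)).2 = 0 := rfl
      rw [this]
      simp
    have h2 : J 0 = f₀ := by
      have : PP C p hp hpC (0 : ℝ × (C → ℝ)).2 = 0 := rfl
      simp only [hJ]
      rw [this]
      simp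
    rw [h1, h2]
    exact hbig)
  obtain ⟨r, hr, hsmall⟩ := small_scale hw₁ hder 4 hδ0
  set f : C(K, ℝ) := J w₁ with hf
  -- good neighbourhood of `y`
  have hgood : ∀ᶠ z in 𝓝 y, ∀ w ∈ Metric.closedBall (0 : ℝ × (C → ℝ)) (4 * r),
      2 * r * (t - 3 * δ) < Φ z (w₁ + w + (2 * r) • e₀) - Φ z (w₁ + w) := by
    apply IsCompact.eventually_forall_of_forall_eventually (isCompact_closedBall _ _)
    intro w hw
    have hw' : ‖w‖ ≤ 4 * r := by simpa using hw
    have h1 := hsmall w hw'
    have h2 : 2 * r * (t - 3 * δ) < Φ y (w₁ + w + (2 * r) • e₀) - Φ y (w₁ + w) := by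
      refine lt_of_lt_of_le ?_ h1
      nlinarith
    have hc : Continuous (fun q : L × (ℝ × (C → ℝ)) =>
        Φ q.1 (w₁ + q.2 + (2 * r) • e₀) - Φ q.1 (w₁ + q.2)) := by
      simp only [hΦ]
      have h3 : Continuous (fun q : L × (ℝ × (C → ℝ)) => (F (J (w₁ + q.2 + (2 * r) • e₀))) q.1) :=
        ContinuousEval.continuous_eval.comp
          ((hFcont.comp (hJcont.comp (by fun_prop : Continuous fun q : L × (ℝ × (C → ℝ)) =>
            w₁ + q.2 + (2 * r) • e₀))).prodMk continuous_fst)
      have h4 : Continuous (fun q : L × (ℝ × (C → ℝ)) => (F (J (w₁ + q.2))) q.1) :=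
        ContinuousEval.continuous_eval.comp
          ((hFcont.comp (hJcont.comp (by fun_prop : Continuous fun q : L × (ℝ × (C → ℝ)) =>
            w₁ + q.2))).prodMk continuous_fst)
      exact h3.sub h4
    exact (hc.tendsto (y, w)).eventually (lt_mem_nhds h2)
  -- the estimate for `z` near `y`
  set ε : ℝ := min 1 (a / (12 * A)) with hε
  have hε0 : 0 < ε := by rw [hε]; positivity
  have hε1 : ε ≤ 1 := min_le_left _ _
  have hεA : A * ε ≤ a / 12 := by
    have h1 : ε ≤ a / (12 * A) := min_le_right _ _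
    have h2 := mul_le_mul_of_nonneg_left h1 hA.le
    have h3 : A * (a / (12 * A)) = a / 12 := by field_simp
    linarith
  have hest : ∀ z ∈ {z | ∀ w ∈ Metric.closedBall (0 : ℝ × (C → ℝ)) (4 * r),
      2 * r * (t - 3 * δ) < Φ z (w₁ + w + (2 * r) • e₀) - Φ z (w₁ + w)} ∩ cb (univ : Set L) ρ,
      ∀ g : C(K, ℝ), ‖g - f‖ ≤ r →
      |F g z - F (f + PP C p hp hpC (fun c => (g - f) c)) z| ≤ (6 * δ + A * ε) * r := by
    rintro z ⟨hz1, hz2⟩ g hg
    apply local_est h hC hp hpC hpc hr hε0 hε1 (t := t) (v := v) _ _ g hg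
    · intro f' σ q hσ hq hqC
      have h1 := le_TF h (v + q) hz2 f' hσ
      have h2 := h1.trans (hup q hq hqC)
      rw [div_le_iff₀ hσ] at h2
      linarith
    · intro s τ hs hτ
      have hmem : ((s, τ) : ℝ × (C → ℝ)) ∈ Metric.closedBall (0 : ℝ × (C → ℝ)) (4 * r) := by
        rw [mem_closedBall_zero_iff, Prod.norm_def]
        apply max_le
        · exact hs
        · rw [pi_norm_le_iff_of_nonneg (by positivity)]
          intro c
          have := hτ c
          rw [Real.norm_eq_abs]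
          linarith
      have h1 := hz1 (s, τ) hmem
      simp only [hΦ] at h1
      have h2 : J (w₁ + (s, τ)) = f + s • v + PP C p hp hpC τ := by
        simp only [hf, hJ, Prod.fst_add, Prod.snd_add]
        rw [PP_add, add_smul]
        abel
      have h3 : J (w₁ + (s, τ) + (2 * r) • e₀) = f + (s + 2 * r) • v + PP C p hp hpC τ := by
        rw [hJe]
        simp only [hf, hJ, Prod.fst_add, Prod.snd_add]
        rw [PP_add, add_smul, add_smul, add_smul]
        abel
      rw [h2, h3] at h1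
      exact h1.le
  -- pigeonhole
  obtain ⟨s, hsfin, hscov⟩ := Metric.totallyBounded_iff.1
    (isCompact_closedBall (0 : C → ℝ) r).totallyBounded (ε * r / 2) (by positivity)
  set N : ℕ := hsfin.toFinset.card + 1 with hN
  have hacc : AccPt y (𝓟 (cb (univ : Set L) ρ)) := by
    have h1 : y ∈ cb (univ : Set L) (ρ + 1) := hy
    rw [cb, iter_add_one] at h1
    exact h1
  obtain ⟨ys, hysi, hys⟩ := exists_fin_of_infinite (acc_infinite hacc hgood) N
  obtain ⟨V, hVc, hyV, _, hVd⟩ := exists_disjoint_clopens N ys hysi isOpen_univ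
    (fun i => mem_univ _)
  have hg : ∀ i : Fin N, ∃ g : C(K, ℝ), F g = F f + (a * r) • ind (V i) (hVc i) :=
    fun i => hsurj _
  choose g hg using hg
  have hgr : ∀ i, ‖g i - f‖ ≤ r := by
    intro i
    have h1 := h.low (g i) f
    rw [hg i, add_sub_cancel_left, norm_smul, Real.norm_eq_abs,
      abs_of_pos (by positivity)] at h1
    have h2 : ‖ind (V i) (hVc i)‖ ≤ 1 := by
      apply norm_le_of_abs zero_le_one
      intro x
      rcases ind_idem (V i) (hVc i) x with h3 | h3 <;> rw [h3] <;> norm_num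
    have h3 : a * r * ‖ind (V i) (hVc i)‖ ≤ a * r * 1 :=
      mul_le_mul_of_nonneg_left h2 (by positivity)
    have h4 : a * ‖g i - f‖ ≤ a * r := by linarith
    exact le_of_mul_le_mul_left h4 ha
  set α : Fin N → C → ℝ := fun i c => (g i - f) c with hα
  have hαmem : ∀ i, α i ∈ Metric.closedBall (0 : C → ℝ) r := by
    intro i
    rw [mem_closedBall_zero_iff, pi_norm_le_iff_of_nonneg hr.le]
    intro c
    exact (ContinuousMap.norm_coe_le_norm (g i - f) c).trans (hgr i)
  have hcen : ∀ i, ∃ c ∈ s, α i ∈ Metric.ball c (ε * r / 2) := by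
    intro i
    have := hscov (hαmem i)
    simpa using this
  choose cen hcen1 hcen2 using hcen
  obtain ⟨i, _, j, _, hij, hcij⟩ := Finset.exists_ne_map_eq_of_card_lt_of_maps_to
    (s := (Finset.univ : Finset (Fin N))) (t := hsfin.toFinset) (f := cen)
    (by rw [Finset.card_univ, Fintype.card_fin, hN]; omega)
    (by
      intro i _
      simpa using hcen1 i)
  have hdist : ‖α i - α j‖ ≤ ε * r := by
    have h1 := hcen2 i
    have h2 := hcen2 j
    rw [← hcij, Metric.mem_ball] at h2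
    rw [Metric.mem_ball] at h1
    rw [← dist_eq_norm]
    have h3 := dist_triangle_right (α i) (α j) (cen i)
    linarith
  -- contradiction at `ys i`
  have h1 := hest (ys i) (hys i) (g i) (hgr i)
  have h2 := hest (ys i) (hys i) (g j) (hgr j)
  have h3 : F (g i) (ys i) = F f (ys i) + a * r := by
    rw [hg i, ContinuousMap.add_apply, ContinuousMap.smul_apply, ind_of_mem _ (hyV i)]
    simp
  have h4 : F (g j) (ys i) = F f (ys i) := by
    rw [hg j, ContinuousMap.add_apply, ContinuousMap.smul_apply, ind_of_notMem]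
    · simp
    · exact fun h5 => (Set.disjoint_left.1 (hVd i j hij)) (hyV i) h5
  have h5 := h.lip_apply (f + PP C p hp hpC (α i)) (f + PP C p hp hpC (α j)) (ys i)
  have h6 : ‖(f + PP C p hp hpC (α i)) - (f + PP C p hp hpC (α j))‖ ≤ ε * r := by
    rw [add_sub_add_left_eq_sub, ← PP_sub]
    exact (PP_norm_le _ _ _ _ _).trans hdist
  have h7 : A * ‖(f + PP C p hp hpC (α i)) - (f + PP C p hp hpC (α j))‖ ≤ A * (ε * r) :=
    mul_le_mul_of_nonneg_left h6 hA.le
  rw [h3] at h1
  rw [h4] at h2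
  have h8 := (abs_le.1 h1).2
  have h9 := (abs_le.1 h2).1
  change F f (ys i) + a * r - F (f + PP C p hp hpC (α i)) (ys i) ≤ _ at h8
  change _ ≤ F f (ys i) - F (f + PP C p hp hpC (α j)) (ys i) at h9
  have h10 : a * r ≤ (3 * (A * ε) + 12 * δ) * r := by nlinarith
  have h11 : (3 * (A * ε) + 12 * δ) * r ≤ (a / 2) * r := by
    apply mul_le_mul_of_nonneg_right _ hr.le
    rw [hδ]
    linarith
  nlinarith

end Pool.Agent.K9h24.Sz
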