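import Pool.Agent.K9h24.SzG
import Pool.Agent.K9h24.SzDefs

/-!
# Basic properties of Szlenk derivations
-/

set_option autoImplicit false

open Set Filter Topology

namespace Pool.Agent.K9h24.Sz

section basic

variable {X : Type} [NormedAddCommGroup X] [NormedSpace ℝ X]

lemma szDeriv_eq (ε : ℝ) (α : Ordinal.{0}) :
    szDeriv X ε α = iter (szDer X ε) (Metric.closedBall 0 1) α := rfl

lemma szDer_sub (ε : ℝ) (A : Set (StrongDual ℝ X)) : szDer X ε A ⊆ A := fun _ h => h.1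

lemma szDer_mono (ε : ℝ) (A B : Set (StrongDual ℝ X)) (h : A ⊆ B) :
    szDer X ε A ⊆ szDer X ε B := by
  rintro φ ⟨h1, h2⟩
  refine ⟨h h1, fun U hU => (h2 U hU).trans (Metric.ediam_mono ?_)⟩
  rintro ψ ⟨h3, h4⟩
  exact ⟨h h3, h4⟩

lemma szDer_good (ε : ℝ) : Good (szDer X ε) (fun _ => True) where
  map _ _ := trivial
  sub A _ := szDer_sub ε A
  inter _ _ _ _ := trivial

lemma szDeriv_anti (ε : ℝ) {α β : Ordinal.{0}} (h : α ≤ β) : szDeriv X ε β ⊆ szDeriv X ε α :=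
  iter_anti (szDer_good ε) trivial h

lemma szDeriv_ball (ε : ℝ) (α : Ordinal.{0}) :
    szDeriv X ε α ⊆ Metric.closedBall (0 : StrongDual ℝ X) 1 := by
  have := szDeriv_anti (X := X) ε (show (0 : Ordinal.{0}) ≤ α by simp)
  rwa [szDeriv_eq ε 0, iter_zero] at this

/-- to leave the derivation -/
lemma notMem_szDer {ε η : ℝ} (hε : η < ε) (hε0 : 0 < ε) {A : Set (StrongDual ℝ X)}
    {φ : StrongDual ℝ X} {U : Set (WeakDual ℝ X)} (hU : U ∈ 𝓝 (StrongDual.toWeakDual φ))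
    (h : ∀ ψ ∈ A, ∀ ψ' ∈ A, StrongDual.toWeakDual ψ ∈ U → StrongDual.toWeakDual ψ' ∈ U →
      ‖ψ - ψ'‖ ≤ η) : φ ∉ szDer X ε A := by
  rintro ⟨_, h2⟩
  have h3 := h2 U hU
  have h4 : Metric.ediam {ψ : StrongDual ℝ X | ψ ∈ A ∧ StrongDual.toWeakDual ψ ∈ U} ≤
      ENNReal.ofReal η := by
    apply Metric.ediam_le
    rintro ψ ⟨hψ, hψU⟩ ψ' ⟨hψ', hψU'⟩
    rw [edist_dist, dist_eq_norm]
    exact ENNReal.ofReal_le_ofReal (h ψ hψ ψ' hψ' hψU hψU')
  have h5 := h3.trans h4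
  have h6 : ENNReal.ofReal η < ENNReal.ofReal ε := (ENNReal.ofReal_lt_ofReal_iff hε0).2 hε
  exact absurd h5 (not_le.2 h6)

lemma mem_szDer_iff {ε : ℝ} (hε0 : 0 < ε) {A : Set (StrongDual ℝ X)} {φ : StrongDual ℝ X} :
    φ ∈ szDer X ε A ↔ φ ∈ A ∧ ∀ U ∈ 𝓝 (StrongDual.toWeakDual φ), ∀ η < ε, 0 ≤ η →
      ∃ ψ ∈ A, ∃ ψ' ∈ A, StrongDual.toWeakDual ψ ∈ U ∧ StrongDual.toWeakDual ψ' ∈ U ∧
        η < ‖ψ - ψ'‖ := by
  constructor
  · intro h
    refine ⟨h.1, fun U hU η hη _ => ?_⟩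
    by_contra hcon
    push Not at hcon
    exact notMem_szDer hη hε0 hU (fun ψ hψ ψ' hψ' h1 h2 => hcon ψ hψ ψ' hψ' h1 h2) h
  · rintro ⟨h1, h2⟩
    refine ⟨h1, fun U hU => ?_⟩
    by_contra hcon
    rw [not_le] at hcon
    set d := Metric.ediam {ψ : StrongDual ℝ X | ψ ∈ A ∧ StrongDual.toWeakDual ψ ∈ U} with hd
    have hdtop : d ≠ ⊤ := ne_top_of_lt hcon
    have hd1 : ENNReal.ofReal d.toReal = d := ENNReal.ofReal_toReal hdtop
    have hd2 : d.toReal < ε := by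
      rw [← hd1] at hcon
      exact (ENNReal.ofReal_lt_ofReal_iff hε0).1 hcon
    obtain ⟨ψ, hψ, ψ', hψ', hψU, hψU', hη⟩ := h2 U hU _ hd2 ENNReal.toReal_nonneg
    have h3 : edist ψ ψ' ≤ d := Metric.edist_le_ediam_of_mem ⟨hψ, hψU⟩ ⟨hψ', hψU'⟩
    rw [edist_dist, dist_eq_norm] at h3
    have h4 := ENNReal.toReal_mono hdtop h3
    rw [ENNReal.toReal_ofReal (norm_nonneg _)] at h4
    linarith

/-- homotheties -/
lemma homothety {ε c : ℝ} (hε : 0 < ε) (hc : 0 < c) (w : StrongDual ℝ X)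
    {A B : Set (StrongDual ℝ X)} (hAB : ∀ μ ∈ A, c • μ + w ∈ B) (α : Ordinal.{0}) :
    ∀ μ ∈ iter (szDer X ε) A α, c • μ + w ∈ iter (szDer X (c * ε)) B α := by
  induction α using Ordinal.limitRecOn with
  | zero => simpa using hAB
  | add_one α ih =>
    intro μ hμ
    rw [iter_add_one] at hμ ⊢
    rw [mem_szDer_iff hε] at hμ
    rw [mem_szDer_iff (mul_pos hc hε)]
    refine ⟨ih μ hμ.1, fun U hU η hη hη0 => ?_⟩
    have hcont : Continuous (fun ψ : WeakDual ℝ X => c • ψ + StrongDual.toWeakDual w) :=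
      (continuous_const_smul c).add continuous_const
    have hU' : (fun ψ : WeakDual ℝ X => c • ψ + StrongDual.toWeakDual w) ⁻¹' U ∈
        𝓝 (StrongDual.toWeakDual μ) := by
      apply hcont.continuousAt.preimage_mem_nhds
      have h1 : c • StrongDual.toWeakDual μ + StrongDual.toWeakDual w =
          StrongDual.toWeakDual (c • μ + w) := by
        rw [map_add, map_smul]
      rw [h1]
      exact hU
    obtain ⟨ψ, hψ, ψ', hψ', hψU, hψU', hd⟩ := hμ.2 _ hU' (η / c)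
      (by rw [div_lt_iff₀ hc]; linarith) (by positivity)
    refine ⟨c • ψ + w, ih ψ hψ, c • ψ' + w, ih ψ' hψ', ?_, ?_, ?_⟩
    · rw [map_add, map_smul]
      exact hψU
    · rw [map_add, map_smul]
      exact hψU'
    · have h1 : (c • ψ + w) - (c • ψ' + w) = c • (ψ - ψ') := by
        rw [smul_sub]; abel
      rw [h1, norm_smul, Real.norm_eq_abs, abs_of_pos hc]
      rw [div_lt_iff₀ hc] at hd
      linarith
  | limit α hα ih =>
    intro μ hμ
    rw [mem_iter_limit hα] at hμ ⊢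
    exact fun β hβ => ih β hβ μ (hμ β hβ)

end basic

end Pool.Agent.K9h24.Sz
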