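import Pool.Agent.K9h24.SzH

/-!
# The upper bound for the Szlenk index of `C(K)`
-/

set_option autoImplicit false

open Set Filter Topology

namespace Pool.Agent.K9h24.Sz

lemma norm_le_one_of_ball {X : Type} [NormedAddCommGroup X] [NormedSpace ℝ X]
    {ν : StrongDual ℝ X} (h : ν ∈ Metric.closedBall (0 : StrongDual ℝ X) 1) : ‖ν‖ ≤ 1 := by
  simpa using h

variable {K : Type} [TopologicalSpace K] [CompactSpace K]

omit [CompactSpace K] in
lemma evalW_continuous (g : C(K, ℝ)) :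
    Continuous (fun ψ : WeakDual ℝ C(K, ℝ) => ψ g) := WeakDual.eval_continuous g

/-- the key lemma: no dent -/
lemma notMem_szDer_of_small [T2Space K] [Countable K] {C : Set K} (hC : C.Finite)
    (hCne : C.Nonempty) {ε δ : ℝ} (hε : 0 < ε) (hδ : δ ≤ ε / 16)
    {Z : Set (StrongDual ℝ C(K, ℝ))} (hZ : Z ⊆ Metric.closedBall 0 1)
    {μ₀ : StrongDual ℝ C(K, ℝ)} {U₀ : Set (WeakDual ℝ C(K, ℝ))}
    (hU₀ : U₀ ∈ 𝓝 (StrongDual.toWeakDual μ₀))
    (hsmall : ∀ μ ∈ Z, StrongDual.toWeakDual μ ∈ U₀ → ∀ q : C(K, ℝ), Idem q →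
      (∀ x ∈ C, q x = 0) → ∀ h : C(K, ℝ), (∀ x, |h x| ≤ q x) → |μ h| ≤ δ) :
    μ₀ ∉ szDer C(K, ℝ) ε Z := by
  classical
  obtain ⟨p, hp, hpC, hpc⟩ := exists_retraction C hC hCne
  have : Fintype C := hC.fintype
  set m : ℕ := Fintype.card C with hm
  have hm0 : 0 < m := by
    rw [hm]
    have : Nonempty C := hCne.to_subtype
    exact Fintype.card_pos
  have hmR : (1 : ℝ) ≤ m := by exact_mod_cast hm0
  set κ : ℝ := ε / (16 * m) with hκ
  have hκ0 : 0 < κ := by positivity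
  have hκm : m * κ = ε / 16 := by
    rw [hκ]; field_simp
  have hκ1 : κ ≤ ε / 16 := by nlinarith
  set χ : C → C(K, ℝ) := fun c => PP C p hp hpC (Pi.single c 1) with hχ
  set U : Set (WeakDual ℝ C(K, ℝ)) := U₀ ∩ ⋂ c : C, {ψ | |ψ (χ c) - μ₀ (χ c)| < κ} with hU
  have hUn : U ∈ 𝓝 (StrongDual.toWeakDual μ₀) := by
    apply inter_mem hU₀
    rw [iInter_mem]
    intro c
    apply IsOpen.mem_nhds
    · exact isOpen_lt (((evalW_continuous (χ c)).sub continuous_const).abs) continuous_const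
    · change |μ₀ (χ c) - μ₀ (χ c)| < κ
      rw [sub_self, abs_zero]
      exact hκ0
  apply notMem_szDer (η := ε / 2) (by linarith) hε hUn
  intro μ hμ μ' hμ' hμU hμU'
  apply ContinuousLinearMap.opNorm_le_of_unit_norm (by positivity)
  intro g hg
  -- decomposition
  set Pg := PP C p hp hpC (fun c => g c) with hPg
  have hPsum : Pg = ∑ c : C, g c • χ c := by
    ext x
    rw [ContinuousMap.sum_apply]
    change g (p x) = ∑ c : C, g c * (Pi.single c (1 : ℝ) : C → ℝ) ⟨p x, hpC x⟩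
    rw [Finset.sum_eq_single ⟨p x, hpC x⟩]
    · simp
    · intro c _ hc
      rw [Pi.single_eq_of_ne (Ne.symm hc), mul_zero]
    · intro h
      exact absurd (Finset.mem_univ _) h
  have hg1 : ∀ x, |g x| ≤ 1 := fun x => by
    have := ContinuousMap.norm_coe_le_norm g x
    rw [Real.norm_eq_abs, hg] at this
    exact this
  set h : C(K, ℝ) := g - Pg with hh
  have hh2 : ∀ x, |h x| ≤ 2 := by
    intro x
    have h1 : h x = g x - g (p x) := rfl
    rw [h1]
    have h2 := abs_le.1 (hg1 x)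
    have h3 := abs_le.1 (hg1 (p x))
    rw [abs_le]
    constructor <;> linarith [h2.1, h2.2, h3.1, h3.2]
  have hUo : IsOpen {x : K | |h x| < κ} := isOpen_lt h.continuous.abs continuous_const
  obtain ⟨W, hWc, hCW, hWU⟩ := exists_clopen_between hC hUo (by
    intro c hc
    have h1 : h c = g c - g (p c) := rfl
    rw [mem_ofPred_eq, h1, hpc c hc, sub_self, abs_zero]
    exact hκ0)
  set q : C(K, ℝ) := ind Wᶜ hWc.compl with hq
  have hqI : Idem q := ind_idem _ _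
  have hqC : ∀ x ∈ C, q x = 0 := fun x hx => ind_of_notMem _ (fun h1 => h1 (hCW hx))
  set h₁ : C(K, ℝ) := h * (1 - q) with hh₁
  set h₂ : C(K, ℝ) := (1 / 2 : ℝ) • (h * q) with hh₂
  have hgdec : g = ∑ c : C, g c • χ c + h₁ + (2 : ℝ) • h₂ := by
    rw [← hPsum, hh₁, hh₂, smul_smul]
    norm_num
    ring
  have hh₁n : ‖h₁‖ ≤ κ := by
    apply norm_le_of_abs hκ0.le
    intro x
    have h1 : h₁ x = h x * (1 - q x) := rfl
    rw [h1]
    by_cases hx : x ∈ W
    · have h4 : q x = 0 := ind_of_notMem _ (fun h7 => h7 hx)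
      rw [h4, sub_zero, mul_one]
      exact (hWU hx).le
    · have h4 : q x = 1 := ind_of_mem _ hx
      rw [h4, sub_self, mul_zero, abs_zero]
      exact hκ0.le
  have hh₂q : ∀ x, |h₂ x| ≤ q x := by
    intro x
    have h1 : h₂ x = 1 / 2 * (h x * q x) := rfl
    rw [h1]
    rcases hqI x with h3 | h3
    · rw [h3]; simp
    · rw [h3, mul_one, abs_mul, abs_of_pos (show (0 : ℝ) < 1 / 2 by norm_num)]
      have := hh2 x
      linarith
  have hs1 := hsmall μ hμ hμU.1 q hqI hqC h₂ hh₂q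
  have hs2 := hsmall μ' hμ' hμU'.1 q hqI hqC h₂ hh₂q
  have hb : ∀ ν ∈ Z, |ν h₁| ≤ κ := by
    intro ν hν
    have h1 : ‖ν‖ ≤ 1 := norm_le_one_of_ball (hZ hν)
    have h2 := ν.le_opNorm h₁
    rw [Real.norm_eq_abs] at h2
    have h3 : ‖ν‖ * ‖h₁‖ ≤ 1 * κ := mul_le_mul h1 hh₁n (norm_nonneg _) zero_le_one
    linarith
  have hb1 := hb μ hμ
  have hb2 := hb μ' hμ'
  have hχb : ∀ c : C, |(μ - μ') (χ c)| ≤ 2 * κ := by
    intro c
    have h1 : |μ (χ c) - μ₀ (χ c)| < κ := by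
      have := mem_iInter.1 hμU.2 c
      exact this
    have h2 : |μ' (χ c) - μ₀ (χ c)| < κ := by
      have := mem_iInter.1 hμU'.2 c
      exact this
    have h3 : (μ - μ') (χ c) = μ (χ c) - μ' (χ c) := rfl
    rw [h3]
    rw [abs_lt] at h1 h2
    rw [abs_le]
    constructor <;> linarith [h1.1, h1.2, h2.1, h2.2]
  have hsum : |(μ - μ') (∑ c : C, g c • χ c)| ≤ m * (2 * κ) := by
    rw [map_sum]
    refine (Finset.abs_sum_le_sum_abs _ _).trans ?_
    have h1 : ∀ c ∈ (Finset.univ : Finset C), |(μ - μ') (g c • χ c)| ≤ 2 * κ := by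
      intro c _
      rw [map_smul, smul_eq_mul, abs_mul]
      have h2 := hχb c
      have h3 := hg1 c
      have h4 : |g (c : K)| * |(μ - μ') (χ c)| ≤ 1 * (2 * κ) :=
        mul_le_mul h3 h2 (abs_nonneg _) zero_le_one
      linarith
    refine (Finset.sum_le_card_nsmul _ _ _ h1).trans ?_
    rw [Finset.card_univ, nsmul_eq_mul]
  have hval : (μ - μ') g = (μ - μ') (∑ c : C, g c • χ c) + (μ h₁ - μ' h₁) +
      2 * (μ h₂ - μ' h₂) := by
    conv_lhs => rw [hgdec]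
    rw [map_add, map_add, map_smul, smul_eq_mul]
    rfl
  rw [hval, Real.norm_eq_abs]
  rw [abs_le] at hsum hb1 hb2 hs1 hs2 ⊢
  have hmk : (m : ℝ) * (2 * κ) = ε / 8 := by nlinarith
  rw [hmk] at hsum
  constructor <;> linarith [hsum.1, hsum.2, hb1.1, hb1.2, hb2.1, hb2.2, hs1.1, hs1.2, hs2.1, hs2.2]

/-- finite spaces -/
lemma szDer_empty_of_finite [T2Space K] [Finite K] {ε : ℝ} (hε : 0 < ε)
    {Z : Set (StrongDual ℝ C(K, ℝ))} (hZ : Z ⊆ Metric.closedBall 0 1) :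
    szDer C(K, ℝ) ε Z = ∅ := by
  rw [eq_empty_iff_forall_notMem]
  intro μ₀
  rcases isEmpty_or_nonempty K with hK | hK
  · apply notMem_szDer (η := 0) hε hε (U := univ) univ_mem
    intro ψ _ ψ' _ _ _
    have h1 : ψ = ψ' := by
      ext g
      have h2 : g = 0 := by
        ext x
        exact (hK.false x).elim
      rw [h2, map_zero, map_zero]
    rw [h1, sub_self, norm_zero]
  · have : Countable K := inferInstance
    apply notMem_szDer_of_small (C := univ) (toFinite _) univ_nonempty hε (δ := 0)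
      (by positivity) hZ (U₀ := univ) univ_mem
    intro μ _ _ q hq hqC h hh
    have h1 : h = 0 := by
      ext x
      have h2 := hh x
      rw [hqC x (mem_univ x)] at h2
      have := abs_nonpos_iff.1 h2
      simpa using this
    rw [h1, map_zero, abs_zero]

/-- the maximum of the functionals in the derived sets on an order interval -/
noncomputable def TS (Z : Ordinal.{0} → Set (StrongDual ℝ C(K, ℝ))) (ρ : Ordinal.{0})
    (v : C(K, ℝ)) : ℝ :=
  sSup {r | ∃ μ ∈ Z ρ, ∃ g : C(K, ℝ), (∀ x, |g x| ≤ v x) ∧ r = μ g}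

variable {Z : Ordinal.{0} → Set (StrongDual ℝ C(K, ℝ))}

lemma abs_apply_le {μ : StrongDual ℝ C(K, ℝ)} (hμ : ‖μ‖ ≤ 1) {g : C(K, ℝ)} {c : ℝ} (hc : 0 ≤ c)
    (hg : ∀ x, |g x| ≤ c) : |μ g| ≤ c := by
  have h1 := μ.le_opNorm g
  rw [Real.norm_eq_abs] at h1
  have h2 : ‖g‖ ≤ c := norm_le_of_abs hc hg
  have h3 : ‖μ‖ * ‖g‖ ≤ 1 * c := mul_le_mul hμ h2 (norm_nonneg _) zero_le_one
  linarith

lemma TS_bdd (hZ : ∀ ρ, Z ρ ⊆ Metric.closedBall 0 1) (ρ : Ordinal.{0}) (v : C(K, ℝ)) :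
    BddAbove {r | ∃ μ ∈ Z ρ, ∃ g : C(K, ℝ), (∀ x, |g x| ≤ v x) ∧ r = μ g} := by
  refine ⟨‖v‖, ?_⟩
  rintro r ⟨μ, hμ, g, hg, rfl⟩
  have h1 : ‖μ‖ ≤ 1 := norm_le_one_of_ball (hZ ρ hμ)
  refine (le_abs_self _).trans (abs_apply_le h1 (norm_nonneg v) ?_)
  intro x
  refine (hg x).trans ((le_abs_self _).trans ?_)
  exact ContinuousMap.norm_coe_le_norm v x

lemma le_TS (hZ : ∀ ρ, Z ρ ⊆ Metric.closedBall 0 1) {ρ : Ordinal.{0}} {v : C(K, ℝ)}
    {μ : StrongDual ℝ C(K, ℝ)} (hμ : μ ∈ Z ρ) {g : C(K, ℝ)} (hg : ∀ x, |g x| ≤ v x) :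
    μ g ≤ TS Z ρ v := le_csSup (TS_bdd hZ ρ v) ⟨μ, hμ, g, hg, rfl⟩

omit [CompactSpace K] in
lemma TS_set_nonempty {ρ : Ordinal.{0}} (hne : (Z ρ).Nonempty) {v : C(K, ℝ)} (hv : 0 ≤ v) :
    {r | ∃ μ ∈ Z ρ, ∃ g : C(K, ℝ), (∀ x, |g x| ≤ v x) ∧ r = μ g}.Nonempty := by
  obtain ⟨μ, hμ⟩ := hne
  exact ⟨_, μ, hμ, 0, fun x => by simpa using hv x, rfl⟩

omit [CompactSpace K] in
lemma TS_le {ρ : Ordinal.{0}} (hne : (Z ρ).Nonempty) {v : C(K, ℝ)} (hv : 0 ≤ v) {c : ℝ}
    (hc : ∀ μ ∈ Z ρ, ∀ g : C(K, ℝ), (∀ x, |g x| ≤ v x) → μ g ≤ c) : TS Z ρ v ≤ c := by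
  apply csSup_le (TS_set_nonempty hne hv)
  rintro r ⟨μ, hμ, g, hg, rfl⟩
  exact hc μ hμ g hg

lemma TS_nonneg (hZ : ∀ ρ, Z ρ ⊆ Metric.closedBall 0 1) {ρ : Ordinal.{0}}
    (hne : (Z ρ).Nonempty) {v : C(K, ℝ)} (hv : 0 ≤ v) : 0 ≤ TS Z ρ v := by
  obtain ⟨μ, hμ⟩ := hne
  have h1 := le_TS hZ hμ (v := v) (g := 0) (fun x => by simpa using hv x)
  simpa using h1

lemma slope_of_sz (hZ : ∀ ρ, Z ρ ⊆ Metric.closedBall 0 1)
    (hanti : ∀ ρ σ, ρ ≤ σ → Z σ ⊆ Z ρ) (lam : Ordinal.{0}) (hlam : (Z lam).Nonempty) :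
    Slope lam 1 (TS Z) := by
  have hne : ∀ ρ ≤ lam, (Z ρ).Nonempty := fun ρ hρ => hlam.mono (hanti ρ lam hρ)
  refine ⟨zero_le_one, ?_, ?_, ?_, ?_, ?_, ?_⟩
  · intro ρ hρ u v hu huv
    apply TS_le (hne ρ hρ) hu
    intro μ hμ g hg
    exact le_TS hZ hμ (fun x => (hg x).trans (huv x))
  · intro ρ hρ u v hu hv
    apply TS_le (hne ρ hρ) (add_nonneg hu hv)
    intro μ hμ g hg
    set g₁ : C(K, ℝ) := (g ⊓ u) ⊔ (-u) with hg₁
    have hg₁x : ∀ x, g₁ x = max (min (g x) (u x)) (-(u x)) := fun x => rfl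
    have hux : ∀ x, 0 ≤ u x := fun x => hu x
    have hvx : ∀ x, 0 ≤ v x := fun x => hv x
    have hgx : ∀ x, |g x| ≤ u x + v x := fun x => hg x
    have h1 : ∀ x, |g₁ x| ≤ u x := by
      intro x
      rw [hg₁x, abs_le]
      have := hux x
      constructor
      · exact le_max_right _ _
      · exact max_le (min_le_right _ _) (by linarith)
    have h2 : ∀ x, |(g - g₁) x| ≤ v x := by
      intro x
      have h3 : (g - g₁) x = g x - g₁ x := rfl
      rw [h3, hg₁x]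
      have h4 := hux x
      have h5 := hvx x
      have h6 := abs_le.1 (hgx x)
      rcases le_total (g x) (u x) with h7 | h7
      · rw [min_eq_left h7]
        rcases le_total (g x) (-(u x)) with h8 | h8
        · rw [max_eq_right h8, abs_le]
          constructor <;> linarith [h6.1, h6.2]
        · rw [max_eq_left h8, sub_self, abs_zero]
          exact h5
      · rw [min_eq_right h7, max_eq_left (by linarith), abs_le]
        constructor <;> linarith [h6.1, h6.2]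
    have h3 := le_TS hZ hμ h1
    have h4 := le_TS hZ hμ h2
    rw [map_sub] at h4
    linarith
  · intro ρ hρ n v hv
    rcases Nat.eq_zero_or_pos n with h0 | h0
    · subst h0
      simp only [Nat.cast_zero, zero_mul, zero_smul]
      exact TS_nonneg hZ (hne ρ hρ) le_rfl
    · have hn : (0 : ℝ) < n := by exact_mod_cast h0
      have h1 : TS Z ρ v ≤ TS Z ρ ((n : ℝ) • v) / n := by
        apply TS_le (hne ρ hρ) hv
        intro μ hμ g hg
        rw [le_div_iff₀ hn]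
        have h2 := le_TS hZ hμ (v := (n : ℝ) • v) (g := (n : ℝ) • g) (by
          intro x
          change |(n : ℝ) * g x| ≤ (n : ℝ) * v x
          rw [abs_mul, abs_of_pos hn]
          exact mul_le_mul_of_nonneg_left (hg x) hn.le)
        rw [map_smul, smul_eq_mul] at h2
        linarith
      rw [le_div_iff₀ hn] at h1
      linarith
  · intro ρ hρ c hc
    have hc' : (0 : C(K, ℝ)) ≤ ContinuousMap.const K c := fun x => hc
    apply TS_le (hne ρ hρ) hc'
    intro μ hμ g hg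
    have h1 : ‖μ‖ ≤ 1 := norm_le_one_of_ball (hZ ρ hμ)
    rw [one_mul]
    exact (le_abs_self _).trans (abs_apply_le h1 hc (fun x => hg x))
  · intro ρ hρ v hv
    exact TS_nonneg hZ (hne ρ hρ) hv
  · intro ρ σ hρσ hσ v hv
    apply TS_le (hne σ hσ) hv
    intro μ hμ g hg
    exact le_TS hZ (hanti ρ σ hρσ hμ) hg

/-- **Upper bound.** -/
theorem szDeriv_empty [T2Space K] [Countable K] {β : Ordinal.{0}}
    (hK : cb (univ : Set K) (wp (β + 1)) = ∅) {ε : ℝ} (hε : 0 < ε) :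
    szDeriv C(K, ℝ) ε (wp (β + 1)) = ∅ := by
  by_contra hcon
  have hne : (szDeriv C(K, ℝ) ε (wp (β + 1))).Nonempty := nonempty_iff_ne_empty.2 hcon
  have hZ : ∀ ρ, szDeriv C(K, ℝ) ε ρ ⊆ Metric.closedBall 0 1 := szDeriv_ball ε
  rcases isEmpty_or_nonempty K with hKe | hKne
  · have hfin : Finite K := inferInstance
    have h1 : szDeriv C(K, ℝ) ε 1 = ∅ := by
      rw [szDeriv_eq, show (1 : Ordinal.{0}) = 0 + 1 by simp, iter_add_one, iter_zero]
      exact szDer_empty_of_finite hε subset_rfl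
    have h2 : (1 : Ordinal.{0}) ≤ wp (β + 1) := by
      unfold wp
      exact Order.one_le_iff_pos.2 (Ordinal.opow_pos _ Ordinal.omega0_pos)
    have h3 := hne.mono (szDeriv_anti ε h2)
    rw [h1] at h3
    exact h3.ne_empty rfl
  · have hslope := slope_of_sz hZ (fun ρ σ h => szDeriv_anti ε h) (wp (β + 1)) hne
    obtain ⟨ρ, v, C₀, t, hρ, hv, hC₀, hup₀, hlo₀⟩ := localisation hslope
      (show 0 < ε / 16 by positivity) le_rfl hK
    have hv0 : 0 ≤ v := one_nonneg hv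
    set C : Set K := insert (Classical.choice hKne) C₀ with hCdef
    have hC : C.Finite := hC₀.insert _
    have hCne : C.Nonempty := ⟨_, mem_insert _ _⟩
    have hup : ∀ q : C(K, ℝ), Idem q → (∀ x ∈ C, q x = 0) →
        TS (szDeriv C(K, ℝ) ε) ρ (v + q) ≤ t :=
      fun q hq hqC => hup₀ q hq (fun x hx => hqC x (mem_insert_of_mem _ hx))
    obtain ⟨_, ⟨μ₀, hμ₀, g₀, hg₀, rfl⟩, hbig⟩ := exists_lt_of_lt_csSup
      (TS_set_nonempty (hne.mono (szDeriv_anti ε hρ)) hv0) hlo₀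
    have hμ₀' : μ₀ ∈ szDer C(K, ℝ) ε (szDeriv C(K, ℝ) ε ρ) := by
      have h1 := hμ₀
      rw [szDeriv_eq, iter_add_one] at h1
      exact h1
    revert hμ₀'
    apply notMem_szDer_of_small hC hCne hε (le_refl (ε / 16)) (hZ ρ)
      (U₀ := {ψ : WeakDual ℝ C(K, ℝ) | t - ε / 16 < ψ g₀})
    · apply IsOpen.mem_nhds
      · exact isOpen_lt continuous_const (evalW_continuous g₀)
      · exact hbig
    · intro μ hμ hμU q hq hqC h hh
      have hμU' : t - ε / 16 < μ g₀ := hμU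
      have h1 := le_TS hZ hμ (v := v + q) (g := g₀ + h) (by
        intro x
        change |g₀ x + h x| ≤ v x + q x
        exact (abs_add_le _ _).trans (add_le_add (hg₀ x) (hh x)))
      have h2 := le_TS hZ hμ (v := v + q) (g := g₀ - h) (by
        intro x
        change |g₀ x - h x| ≤ v x + q x
        exact (abs_sub _ _).trans (add_le_add (hg₀ x) (hh x)))
      have h3 := hup q hq hqC
      rw [map_add] at h1
      rw [map_sub] at h2
      rw [abs_le]
      constructor <;> linarith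

end Pool.Agent.K9h24.Sz
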