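import Pool.Agent.K9h24.SzI

/-!
# The lower bound for the Szlenk index of `C(K)`, and its value
-/

set_option autoImplicit false

open Set Filter Topology

namespace Pool.Agent.K9h24.Sz

lemma mem_ball_of_norm_le {X : Type} [NormedAddCommGroup X] [NormedSpace ℝ X]
    {ν : StrongDual ℝ X} {r : ℝ} (h : ‖ν‖ ≤ r) : ν ∈ Metric.closedBall (0 : StrongDual ℝ X) r := by
  simpa using h

lemma one_le_norm_of_apply {X : Type} [NormedAddCommGroup X] [NormedSpace ℝ X]
    {φ : StrongDual ℝ X} {f : X} (hf : ‖f‖ ≤ 1) (h : φ f = 1) : 1 ≤ ‖φ‖ := by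
  have h1 := φ.le_opNorm f
  rw [h, norm_one] at h1
  have h4 : ‖φ‖ * ‖f‖ ≤ ‖φ‖ * 1 := mul_le_mul_of_nonneg_left hf (norm_nonneg _)
  linarith

lemma norm_le_of_mem_ball {X : Type} [NormedAddCommGroup X] [NormedSpace ℝ X]
    {ν : StrongDual ℝ X} {r : ℝ} (h : ν ∈ Metric.closedBall (0 : StrongDual ℝ X) r) : ‖ν‖ ≤ r := by
  simpa using h

variable {K : Type} [TopologicalSpace K] [CompactSpace K]

/-- point evaluations -/
noncomputable def ev (x : K) : StrongDual ℝ C(K, ℝ) := ContinuousMap.evalCLM ℝ x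

omit [CompactSpace K] in
lemma ev_apply (x : K) (f : C(K, ℝ)) : ev x f = f x := rfl

lemma ev_norm_le (x : K) : ‖ev x‖ ≤ 1 := by
  apply ContinuousLinearMap.opNorm_le_bound _ zero_le_one
  intro f
  rw [one_mul]
  exact ContinuousMap.norm_coe_le_norm f x

omit [CompactSpace K] in
lemma ev_continuous : Continuous (fun x : K => StrongDual.toWeakDual (ev x)) := by
  apply WeakDual.continuous_of_continuous_eval
  intro f
  exact f.continuous

lemma ev_sep [T2Space K] [Countable K] {x y : K} (h : x ≠ y) : 1 ≤ ‖ev x - ev y‖ := by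
  obtain ⟨U, hU, hx, hy⟩ := exists_clopen_sep h
  apply one_le_norm_of_apply (f := ind U hU)
  · apply norm_le_of_abs zero_le_one
    intro z
    rcases ind_idem U hU z with h4 | h4 <;> rw [h4] <;> norm_num
  · change ind U hU x - ind U hU y = 1
    rw [ind_of_mem hU hx, ind_of_notMem hU hy, sub_zero]

lemma ev_mem [T2Space K] [Countable K] (α : Ordinal.{0}) :
    ∀ x ∈ cb (univ : Set K) α, ev x ∈ iter (szDer C(K, ℝ) 1) (Metric.closedBall 0 1) α := by
  induction α using Ordinal.limitRecOn with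
  | zero =>
    intro x _
    rw [iter_zero]
    exact mem_ball_of_norm_le (ev_norm_le x)
  | add_one α ih =>
    intro x hx
    rw [cb, iter_add_one] at hx
    have hx' : x ∈ cb (univ : Set K) α := by
      have := (isClosed_iff_derivedSet_subset _).1 (cb_closed (K := K) isClosed_univ α)
      exact this hx
    rw [iter_add_one, mem_szDer_iff one_pos]
    refine ⟨ih x hx', fun U hU η hη _ => ?_⟩
    have hV := ev_continuous.continuousAt.preimage_mem_nhds hU
    rw [mem_derivedSet, accPt_iff_nhds] at hx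
    obtain ⟨y, ⟨hyV, hy⟩, hne⟩ := hx _ hV
    refine ⟨ev x, ih x hx', ev y, ih y hy, mem_of_mem_nhds hU, hyV, ?_⟩
    exact lt_of_lt_of_le hη (ev_sep (Ne.symm hne))
  | limit α hα ih =>
    intro x hx
    rw [cb, mem_iter_limit hα] at hx
    rw [mem_iter_limit hα]
    exact fun β hβ => ih β hβ x (hx β hβ)

lemma ball_sub [T2Space K] [Countable K] {α : Ordinal.{0}}
    (hK : (cb (univ : Set K) α).Nonempty) {N : ℕ} (hN : 1 ≤ N) (j : ℕ) (hj : j ≤ N) :
    Metric.closedBall (0 : StrongDual ℝ C(K, ℝ)) (1 - j / N) ⊆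
      iter (szDer C(K, ℝ) (1 / (2 * N))) (Metric.closedBall 0 1) (α * j) := by
  obtain ⟨x, hx⟩ := hK
  have hNR : (0 : ℝ) < N := by exact_mod_cast hN
  induction j with
  | zero => simp
  | succ j ih =>
    intro ν hν
    have ih' := ih (by omega)
    have hν' := norm_le_of_mem_ball hν
    have hc : (0 : ℝ) < 1 / (2 * N) := by positivity
    have h1 : α * ((j + 1 : ℕ) : Ordinal.{0}) = α * (j : Ordinal.{0}) + α := by
      push_cast
      rw [mul_add, mul_one]
    rw [h1, iter_add (szDer_good _) trivial]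
    have h2 := homothety (X := C(K, ℝ)) one_pos hc (ν - (1 / (2 * N) : ℝ) • ev x)
      (A := Metric.closedBall 0 1)
      (B := iter (szDer C(K, ℝ) (1 / (2 * N))) (Metric.closedBall 0 1) (α * (j : Ordinal.{0})))
      (by
        intro μ hμ
        apply ih'
        apply mem_ball_of_norm_le
        have h3 := norm_le_of_mem_ball hμ
        have h4 : (1 / (2 * N) : ℝ) • μ + (ν - (1 / (2 * N) : ℝ) • ev x) =
            ν + (1 / (2 * N) : ℝ) • (μ - ev x) := by
          rw [smul_sub]; abel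
        rw [h4]
        refine (norm_add_le _ _).trans ?_
        rw [norm_smul, Real.norm_eq_abs, abs_of_pos hc]
        have h5 : ‖μ - ev x‖ ≤ 2 := by
          refine (norm_sub_le _ _).trans ?_
          have := ev_norm_le x
          linarith
        have h6 : 1 / (2 * N : ℝ) * ‖μ - ev x‖ ≤ 1 / (2 * N) * 2 :=
          mul_le_mul_of_nonneg_left h5 hc.le
        have h7 : 1 / (2 * N : ℝ) * 2 = 1 / N := by field_simp
        have h8 : (1 : ℝ) - ((j + 1 : ℕ) : ℝ) / N = 1 - j / N - 1 / N := by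
          push_cast; ring
        rw [h8] at hν'
        linarith) α (ev x) (ev_mem α x hx)
    rw [mul_one] at h2
    have h3 : (1 / (2 * N) : ℝ) • ev x + (ν - (1 / (2 * N) : ℝ) • ev x) = ν := by abel
    rw [h3] at h2
    exact h2

lemma deriv_nonempty [T2Space K] [Countable K] {α : Ordinal.{0}}
    (hK : (cb (univ : Set K) α).Nonempty) {N : ℕ} (hN : 1 ≤ N) :
    (szDeriv C(K, ℝ) (1 / (2 * N)) (α * N)).Nonempty := by
  have hNR : (0 : ℝ) < N := by exact_mod_cast hN
  refine ⟨0, ball_sub hK hN N le_rfl ?_⟩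
  apply mem_ball_of_norm_le
  rw [norm_zero, div_self hNR.ne', sub_self]

section index

variable {X : Type} [NormedAddCommGroup X] [NormedSpace ℝ X]

lemma szIndexAt_le {ε : ℝ} {α : Ordinal.{0}} (h : szDeriv X ε α = ∅) : szIndexAt X ε ≤ α :=
  csInf_le' h

lemma lt_szIndexAt {ε : ℝ} {α : Ordinal.{0}} (h : (szDeriv X ε α).Nonempty)
    (hex : ∃ β, szDeriv X ε β = ∅) : α < szIndexAt X ε := by
  by_contra hcon
  rw [not_lt] at hcon
  have h1 : szDeriv X ε (szIndexAt X ε) = ∅ := csInf_mem (s := {α | szDeriv X ε α = ∅}) hex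
  have h2 := h.mono (szDeriv_anti ε hcon)
  rw [h1] at h2
  exact h2.ne_empty rfl

lemma szIndexAt_le_szIndex {ε : ℝ} (hε : 0 < ε) : szIndexAt X ε ≤ szIndex X :=
  Ordinal.le_iSup (fun ε : Set.Ioi (0 : ℝ) => szIndexAt X ε) ⟨ε, hε⟩

lemma szIndex_le {α : Ordinal.{0}} (h : ∀ ε : ℝ, 0 < ε → szIndexAt X ε ≤ α) : szIndex X ≤ α :=
  Ordinal.iSup_le (fun ε => h ε.1 ε.2)

end index

/-- **The Szlenk index of `C(K)`**, `K` countable compact with
`ω ^ β ≤ height of K < ω ^ (β + 1)`. -/
theorem szIndex_eq [T2Space K] [Countable K] {β : Ordinal.{0}}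
    (hK1 : (cb (univ : Set K) (wp β)).Nonempty) (hK2 : cb (univ : Set K) (wp (β + 1)) = ∅) :
    szIndex C(K, ℝ) = wp (β + 1) := by
  apply le_antisymm
  · apply szIndex_le
    intro ε hε
    exact szIndexAt_le (szDeriv_empty hK2 hε)
  · have h1 : wp (β + 1) = wp β * Ordinal.omega0 := by
      unfold wp
      rw [Ordinal.opow_add, Ordinal.opow_one]
    rw [h1]
    rw [Ordinal.mul_le_iff_of_isSuccLimit Ordinal.isSuccLimit_omega0]
    intro γ hγ
    obtain ⟨n, rfl⟩ := Ordinal.lt_omega0.1 hγ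
    have h2 : wp β * (n : Ordinal.{0}) ≤ wp β * ((n + 1 : ℕ) : Ordinal.{0}) := by
      rw [wp_mul_succ]
      exact le_self_add
    refine h2.trans ?_
    have h3 := lt_szIndexAt (deriv_nonempty hK1 (show 1 ≤ n + 1 by omega))
      ⟨_, szDeriv_empty hK2 (by positivity)⟩
    exact h3.le.trans (szIndexAt_le_szIndex (by positivity))

/-- the Szlenk index of `C(K)`, `K` finite -/
theorem szIndex_finite [T2Space K] [Finite K] : szIndex C(K, ℝ) = 1 := by
  have h1 : ∀ ε : ℝ, 0 < ε → szDeriv C(K, ℝ) ε 1 = ∅ := by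
    intro ε hε
    rw [szDeriv_eq, show (1 : Ordinal.{0}) = 0 + 1 by simp, iter_add_one, iter_zero]
    exact szDer_empty_of_finite hε subset_rfl
  apply le_antisymm
  · apply szIndex_le
    intro ε hε
    exact szIndexAt_le (h1 ε hε)
  · have h2 : (szDeriv C(K, ℝ) 1 0).Nonempty := by
      rw [szDeriv_eq, iter_zero]
      exact ⟨0, mem_ball_of_norm_le (by rw [norm_zero]; exact zero_le_one)⟩
    have h3 := lt_szIndexAt h2 ⟨1, h1 1 one_pos⟩
    exact (Order.one_le_iff_pos.2 h3).trans (szIndexAt_le_szIndex one_pos)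

end Pool.Agent.K9h24.Sz
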