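import Pool.Agent.K9h24.SzJ

/-!
# Order-preserving bi-Lipschitz bijections preserve the Szlenk index
-/

set_option autoImplicit false

open Set Filter Topology

namespace Pool.Agent.K9h24.Sz

variable {K L : Type} [TopologicalSpace K] [CompactSpace K] [TopologicalSpace L] [CompactSpace L]

/-- the least class -/
lemma exists_class [T2Space K] [Countable K] [Infinite K] :
    ∃ β : Ordinal.{0}, (cb (univ : Set K) (wp β)).Nonempty ∧
      cb (univ : Set K) (wp (β + 1)) = ∅ := by
  have hone : (1 : Ordinal.{0}) < Ordinal.omega0 := Ordinal.one_lt_omega0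
  have hex : {γ : Ordinal.{0} | cb (univ : Set K) (wp γ) = ∅}.Nonempty := by
    obtain ⟨α, hα⟩ := exists_cb_empty (A := (univ : Set K)) isClosed_univ
    refine ⟨α, ?_⟩
    rw [mem_ofPred_eq, ← subset_empty_iff, ← hα]
    exact cb_anti isClosed_univ (Ordinal.right_le_opow α hone)
  set γ := sInf {γ : Ordinal.{0} | cb (univ : Set K) (wp γ) = ∅} with hγ
  have hγ1 : cb (univ : Set K) (wp γ) = ∅ := csInf_mem hex
  have hγ2 : ∀ c < γ, (cb (univ : Set K) (wp c)).Nonempty := by
    intro c hc
    rw [nonempty_iff_ne_empty]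
    exact fun h => notMem_of_lt_csInf' hc h
  rcases Ordinal.zero_or_succ_or_isSuccLimit γ with h | ⟨β, h⟩ | h
  · exfalso
    rw [h] at hγ1
    have hw : wp 0 = 0 + 1 := by unfold wp; simp
    rw [hw, cb, iter_add_one, iter_zero] at hγ1
    exact Set.infinite_univ (α := K) (finite_of_derivedSet_empty hγ1)
  · have h' : β + 1 = γ := h
    refine ⟨β, hγ2 β ?_, by rw [h']; exact hγ1⟩
    rw [← h']
    exact Order.lt_add_one_iff.2 le_rfl
  · exfalso
    have hlim : Order.IsSuccLimit (wp γ) := Ordinal.isSuccLimit_opow hone h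
    obtain ⟨θ, hθ, hθC⟩ := exists_lt_of_cb_limit isClosed_univ hlim hγ1
    obtain ⟨c, hc, hθc⟩ := (Ordinal.lt_opow_of_isSuccLimit Ordinal.omega0_ne_zero h).1 hθ
    have h1 := (hγ2 c hc).mono (cb_anti isClosed_univ hθc.le)
    rw [hθC] at h1
    exact h1.ne_empty rfl

variable {F : C(K, ℝ) → C(L, ℝ)} {a A : ℝ}

/-- finiteness is preserved -/
theorem finite_of_finite [T2Space L] [Countable L] [Finite K] (h : Emb F a A)
    (hsurj : Function.Surjective F) : Finite L := by
  classical
  by_contra hinf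
  rw [not_finite_iff_infinite] at hinf
  have ha := h.a0
  have hA := h.A0
  have : Fintype K := Fintype.ofFinite K
  set r : ℝ := 1 / a with hr
  have hr0 : 0 < r := by positivity
  obtain ⟨s, hsfin, hscov⟩ := Metric.totallyBounded_iff.1
    (isCompact_closedBall (0 : K → ℝ) r).totallyBounded (1 / (2 * A) / 2) (by positivity)
  set N : ℕ := hsfin.toFinset.card + 1 with hN
  obtain ⟨ys, hysi, _⟩ := exists_fin_of_infinite (X := L) Set.infinite_univ N
  obtain ⟨V, hVc, hyV, _, hVd⟩ := exists_disjoint_clopens N ys hysi isOpen_univ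
    (fun i => mem_univ _)
  have hg : ∀ i : Fin N, ∃ g : C(K, ℝ), F g = F 0 + ind (V i) (hVc i) :=
    fun i => hsurj _
  choose g hg using hg
  have hgr : ∀ i, ‖g i‖ ≤ r := by
    intro i
    have h1 := h.low (g i) 0
    rw [hg i, add_sub_cancel_left, sub_zero] at h1
    have h2 : ‖ind (V i) (hVc i)‖ ≤ 1 := by
      apply norm_le_of_abs zero_le_one
      intro x
      rcases ind_idem (V i) (hVc i) x with h3 | h3 <;> rw [h3] <;> norm_num
    rw [hr, le_div_iff₀ ha]
    linarith
  set α : Fin N → K → ℝ := fun i c => g i c with hα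
  have hαmem : ∀ i, α i ∈ Metric.closedBall (0 : K → ℝ) r := by
    intro i
    rw [mem_closedBall_zero_iff, pi_norm_le_iff_of_nonneg hr0.le]
    intro c
    exact (ContinuousMap.norm_coe_le_norm (g i) c).trans (hgr i)
  have hcen : ∀ i, ∃ c ∈ s, α i ∈ Metric.ball c (1 / (2 * A) / 2) := by
    intro i
    have := hscov (hαmem i)
    simpa using this
  choose cen hcen1 hcen2 using hcen
  obtain ⟨i, _, j, _, hij, hcij⟩ := Finset.exists_ne_map_eq_of_card_lt_of_maps_to
    (s := (Finset.univ : Finset (Fin N))) (t := hsfin.toFinset) (f := cen)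
    (by rw [Finset.card_univ, Fintype.card_fin, hN]; omega)
    (by
      intro i _
      simpa using hcen1 i)
  have hdist : ‖α i - α j‖ ≤ 1 / (2 * A) := by
    have h1 := hcen2 i
    have h2 := hcen2 j
    rw [← hcij, Metric.mem_ball] at h2
    rw [Metric.mem_ball] at h1
    rw [← dist_eq_norm]
    have h3 := dist_triangle_right (α i) (α j) (cen i)
    linarith
  have hgd : ‖g i - g j‖ ≤ 1 / (2 * A) := by
    apply norm_le_of_abs (by positivity)
    intro c
    exact (norm_le_pi_norm (α i - α j) c).trans hdist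
  have h1 := h.lip (g i) (g j)
  have h2 : A * ‖g i - g j‖ ≤ A * (1 / (2 * A)) := mul_le_mul_of_nonneg_left hgd hA.le
  have h3 : A * (1 / (2 * A)) = 1 / 2 := by field_simp
  have h4 := ContinuousMap.norm_coe_le_norm (F (g i) - F (g j)) (ys i)
  have h5 : (F (g i) - F (g j)) (ys i) = 1 := by
    rw [ContinuousMap.sub_apply, hg i, hg j, ContinuousMap.add_apply, ContinuousMap.add_apply,
      ind_of_mem _ (hyV i), ind_of_notMem]
    · ring
    · exact fun h5 => (Set.disjoint_left.1 (hVd i j hij)) (hyV i) h5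
  rw [h5, norm_one] at h4
  linarith

/-- **Main theorem**, with the value of the index. -/
theorem main [T2Space K] [Countable K] [T2Space L] [Countable L] (h : Emb F a A)
    (hsurj : Function.Surjective F) :
    (Finite K ∧ Finite L ∧ szIndex C(K, ℝ) = 1 ∧ szIndex C(L, ℝ) = 1) ∨
    ∃ β : Ordinal.{0}, (cb (univ : Set K) (wp β)).Nonempty ∧
      (cb (univ : Set L) (wp β)).Nonempty ∧
      cb (univ : Set K) (wp (β + 1)) = ∅ ∧ cb (univ : Set L) (wp (β + 1)) = ∅ ∧
      szIndex C(K, ℝ) = wp (β + 1) ∧ szIndex C(L, ℝ) = wp (β + 1) := by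
  rcases finite_or_infinite K with hK | hK
  · have hL : Finite L := finite_of_finite h hsurj
    exact Or.inl ⟨hK, hL, szIndex_finite, szIndex_finite⟩
  · right
    obtain ⟨β, h1, h2⟩ := exists_class (K := K)
    have h3 := height_grow h (wp β) h1
    have h4 := no_growth h hsurj h2
    exact ⟨β, h1, h3, h2, h4, szIndex_eq h1 h2, szIndex_eq h3 h4⟩

/-- the iterates of the Szlenk derivation do reach the empty set -/
theorem exists_szDeriv_empty (K : Type) [TopologicalSpace K] [CompactSpace K] [T2Space K]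
    [Countable K] {ε : ℝ} (hε : 0 < ε) : ∃ α : Ordinal.{0}, szDeriv C(K, ℝ) ε α = ∅ := by
  rcases finite_or_infinite K with hK | hK
  · refine ⟨1, ?_⟩
    rw [szDeriv_eq, show (1 : Ordinal.{0}) = 0 + 1 by simp, iter_add_one, iter_zero]
    exact szDer_empty_of_finite hε subset_rfl
  · obtain ⟨β, _, h2⟩ := exists_class (K := K)
    exact ⟨_, szDeriv_empty h2 hε⟩

open NNReal in
/-- the Lipschitz data -/
lemma emb_of_lipschitz (F : C(K, ℝ) ≃ C(L, ℝ)) (hmono : ∀ f g : C(K, ℝ), f ≤ g → F f ≤ F g)
    {A B : ℝ≥0} (hA : LipschitzWith A F) (hB : LipschitzWith B F.symm) :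
    Emb F (1 / (B + 1) : ℝ) (A + 1) where
  a0 := by positivity
  A0 := by positivity
  mono := hmono
  lip f g := by
    have h1 := hA.dist_le_mul f g
    rw [dist_eq_norm, dist_eq_norm] at h1
    have h2 := norm_nonneg (f - g)
    linarith
  low f g := by
    have h1 := hB.dist_le_mul (F f) (F g)
    rw [dist_eq_norm, dist_eq_norm, Equiv.symm_apply_apply, Equiv.symm_apply_apply] at h1
    have h2 := norm_nonneg (F f - F g)
    rw [div_mul_eq_mul_div, div_le_iff₀ (by positivity)]
    linarith

end Pool.Agent.K9h24.Sz
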